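import Pool.Agent.Y116.MT.Defs

/-!
# Chow motives and Frobenius in a category of motives
-/

set_option autoImplicit false

open CategoryTheory Limits MonoidalCategory Pretriangulated Triangulated
open scoped Polynomial

namespace Pool.Agent.Y116.MT

universe v u w

section Pol

variable {C : Type u} [Category.{v} C] [Preadditive C] [Linear ℚ C] (φ : 𝟭 C ⟶ 𝟭 C)

/-- A polynomial in a natural endomorphism of the identity functor, at an object. -/
noncomputable def pol (χ : ℚ[X]) (M : C) : M ⟶ M :=
  (Polynomial.aeval (show End M from φ.app M) χ : End M)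

end Pol

section

variable {C : Type u} [Category.{v} C] [Preadditive C] [HasZeroObject C] [HasShift C ℤ]
  [∀ n : ℤ, (shiftFunctor C n).Additive] [Pretriangulated C] [MonoidalCategory C]
  [SymmetricCategory C] [RightRigidCategory C]

/-- The properties of the full subcategory of Chow motives, with all Tate twists, in the
category of constructible motives over a field. -/
structure IsChow (Chow : ObjectProperty C) : Prop where
  unit : Chow (𝟙_ C)
  tensor (P Q : C) : Chow P → Chow Q → Chow (P ⊗ Q)
  dual (P : C) : Chow P → Chow (Pᘁ)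
  sum (P Q : C) : Chow P → Chow Q → Chow (P ⊞ Q)
  retract (P Q : C) (i : P ⟶ Q) (r : Q ⟶ P) : i ≫ r = 𝟙 P → Chow Q → Chow P
  orthogonal (P Q : C) (m : ℤ) (f : P ⟶ Q⟦m⟧) : Chow P → Chow Q → 0 < m → f = 0
  generates : Chow.IsClassicalTriangulatedGenerator

variable [TensorTriangulated C] [Linear ℚ C]

/-- The properties of the Frobenius endomorphism over a finite field with `c` elements: it is a
natural endomorphism of the identity functor, which commutes with the shift, and for the
realisations of Chow motives the Riemann hypothesis holds. -/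
structure IsFrobenius (Chow : ObjectProperty C) (φ : 𝟭 C ⟶ 𝟭 C) (c : ℝ) {Λ : Type*}
    {E : Λ → Type w} [∀ l, Field (E l)] (R : ∀ l, Realisation C (E l)) : Prop where
  pos : 0 < c
  ne_one : c ≠ 1
  shift (M : C) (n : ℤ) : φ.app (M⟦n⟧) = (φ.app M)⟦n⟧'
  weil (l : Λ) (P : C) : Chow P → ∀ i : ℤ, ∃ χ : ℚ[X], χ ≠ 0 ∧
    (∀ z : ℂ, Polynomial.aeval z χ = 0 → ‖z‖ ^ 2 = c ^ i) ∧
    (R l).H.map ((pol φ χ P)⟦i⟧') = 0

end

end Pool.Agent.Y116.MT
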