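import Pool.Agent.Y116.MT.HomNum
import Pool.Agent.Y116.MT.Semi

/-!
# Traces of endomorphisms of objects in degree zero
-/

set_option autoImplicit false
set_option linter.unusedSectionVars false
set_option linter.unusedSimpArgs false
set_option backward.isDefEq.respectTransparency false
set_option backward.defeqAttrib.useBackward true

open CategoryTheory Limits MonoidalCategory Pretriangulated Triangulated TensorProduct

namespace Pool.Agent.Y116.MT

universe v u w

open Functor.LaxMonoidal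

section Vec

variable {E : Type w} [Field E] {V W : ModuleCat.{w} E} [Module.Finite E V]

/-- The operator `x ↦ p(w, x) A(v)`. -/
noncomputable def opr (p : W ⊗[E] V →ₗ[E] E) (A : V →ₗ[E] V) : V ⊗[E] W →ₗ[E] (V →ₗ[E] V) :=
  TensorProduct.lift
    { toFun := fun v =>
        { toFun := fun w => (p ∘ₗ TensorProduct.mk E W V w).smulRight (A v)
          map_add' := fun a b => by
            ext x
            simp [TensorProduct.add_tmul, add_smul]
          map_smul' := fun a b => by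
            ext x
            simp [← TensorProduct.smul_tmul', mul_smul] }
      map_add' := fun a b => by
        ext w x
        simp
      map_smul' := fun a b => by
        ext w x
        simp [smul_smul, mul_comm] }

lemma opr_tmul (p : W ⊗[E] V →ₗ[E] E) (A : V →ₗ[E] V) (v : V) (w : W) :
    opr p A (v ⊗ₜ w) = (p ∘ₗ TensorProduct.mk E W V w).smulRight (A v) := by
  simp [opr]

lemma opr_comp (p : W ⊗[E] V →ₗ[E] E) (A : V →ₗ[E] V) (t : V ⊗[E] W) :
    opr p A t = A ∘ₗ opr p LinearMap.id t := by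
  induction t using TensorProduct.induction_on with
  | zero => simp
  | add a b ha hb => rw [map_add, map_add, ha, hb, LinearMap.comp_add]
  | tmul v w =>
    ext x
    simp [opr_tmul]

lemma opr_trace (p : W ⊗[E] V →ₗ[E] E) (A : V →ₗ[E] V) (t : V ⊗[E] W) :
    LinearMap.trace E V (opr p A t) = p (TensorProduct.comm E V W (TensorProduct.map A LinearMap.id t)) := by
  induction t using TensorProduct.induction_on with
  | zero => simp
  | add a b ha hb => simp only [map_add, ha, hb]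
  | tmul v w =>
    rw [opr_tmul, LinearMap.trace_smulRight]
    simp

/-- The trace formula for finite dimensional vector spaces. -/
theorem vec_trace (θ : 𝟙_ (ModuleCat.{w} E) ⟶ V ⊗ W) (p : W ⊗ V ⟶ 𝟙_ (ModuleCat.{w} E))
    (hz : θ ▷ V ≫ (α_ V W V).hom ≫ V ◁ p = (λ_ V).hom ≫ (ρ_ V).inv) (A : V ⟶ V) :
    (θ ≫ A ▷ W ≫ (β_ V W).hom ≫ p).hom (1 : E) = LinearMap.trace E V A.hom := by
  let t : V ⊗[E] W := θ.hom (1 : E)
  let P : W ⊗[E] V →ₗ[E] E := p.hom
  have h1 : ∀ (s : V ⊗[E] W) (x : V),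
      (V ◁ p).hom ((α_ V W V).hom.hom (s ⊗ₜ[E] x : (V ⊗[E] W) ⊗[E] V)) =
        ((opr P LinearMap.id s x) ⊗ₜ[E] (1 : E) : V ⊗[E] E) := by
    intro s x
    induction s using TensorProduct.induction_on with
    | zero =>
      rw [TensorProduct.zero_tmul]
      simp
    | add a b ha hb =>
      rw [TensorProduct.add_tmul, map_add, map_add, ha, hb, map_add, LinearMap.add_apply,
        TensorProduct.add_tmul]
    | tmul v w =>
      rw [opr_tmul]
      change (v ⊗ₜ[E] (P (w ⊗ₜ[E] x)) : V ⊗[E] E) = _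
      simp only [LinearMap.smulRight_apply, LinearMap.comp_apply, TensorProduct.mk_apply,
        LinearMap.id_apply]
      rw [TensorProduct.smul_tmul, smul_eq_mul, mul_one]
  have h2 : opr P LinearMap.id t = LinearMap.id := by
    ext x
    have h3 := LinearMap.congr_fun (congrArg ModuleCat.Hom.hom hz) ((1 : E) ⊗ₜ[E] x : E ⊗[E] V)
    have h4 : ((opr P LinearMap.id t x) ⊗ₜ[E] (1 : E) : V ⊗[E] E) = (x ⊗ₜ[E] (1 : E) : V ⊗[E] E) := by
      rw [← h1]
      refine h3.trans ?_
      change (TensorProduct.rid E V).symm ((1 : E) • x) = _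
      rw [one_smul, TensorProduct.rid_symm_apply]
    have h5 := congrArg (TensorProduct.rid E V) h4
    simpa using h5
  have h3 := opr_trace P A.hom t
  rw [opr_comp, h2, LinearMap.comp_id] at h3
  rw [h3]
  rfl

end Vec

section Tr

variable {C : Type u} [Category.{v} C] [MonoidalCategory C] [SymmetricCategory C]
  [RightRigidCategory C]

/-- The trace of an endomorphism. -/
def tr {X : C} (a : X ⟶ X) : 𝟙_ C ⟶ 𝟙_ C :=
  η_ X Xᘁ ≫ (a ▷ Xᘁ) ≫ (β_ X Xᘁ).hom ≫ ε_ X Xᘁ

/-- Every functional on the internal endomorphisms is given by a trace. -/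
lemma exists_tr {X : C} (r : X ⊗ Xᘁ ⟶ 𝟙_ C) :
    ∃ b : X ⟶ X, ∀ a : X ⟶ X, nm a ≫ r = tr (a ≫ b) := by
  let _ : ExactPairing (Xᘁ) X := BraidedCategory.exactPairing_swap X Xᘁ
  refine ⟨(tensorRightHomEquiv X Xᘁ X (𝟙_ C)) r ≫ (λ_ X).hom, fun a => ?_⟩
  have h1 : r = ((tensorRightHomEquiv X Xᘁ X (𝟙_ C)) r ≫ (λ_ X).hom) ▷ Xᘁ ≫
      (β_ X Xᘁ).hom ≫ ε_ X Xᘁ := by
    conv_lhs => rw [← (tensorRightHomEquiv X Xᘁ X (𝟙_ C)).symm_apply_apply r]
    have h2 : ε_ (Xᘁ) X = (β_ X Xᘁ).hom ≫ ε_ X Xᘁ := rfl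
    rw [← h2]
    generalize (tensorRightHomEquiv X Xᘁ X (𝟙_ C)) r = b
    simp only [tensorRightHomEquiv, Equiv.coe_fn_symm_mk]
    rw [← unitors_equal, leftUnitor_naturality, comp_whiskerRight, Category.assoc,
      leftUnitor_tensor_hom_assoc]
    simp
  conv_lhs => rw [h1]
  simp only [nm, tr, comp_whiskerRight, Category.assoc]

end Tr

section Real

variable {C : Type u} [Category.{v} C] [Preadditive C] [HasZeroObject C] [HasShift C ℤ]
  [∀ n : ℤ, (shiftFunctor C n).Additive] [Pretriangulated C] [MonoidalCategory C]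
  [SymmetricCategory C] [TensorTriangulated C] [MonoidalPreadditive C] [RightRigidCategory C]
  {E : Type w} [Field E] {R : Realisation C E}

/-- The realisation of the trace. -/
theorem H_trace {X : C} (hX : R.Deg X 0) (a : X ⟶ X) :
    (ε R.H ≫ R.H.map (tr a) ≫ inv (ε R.H)).hom (1 : E) =
      LinearMap.trace E (R.H.obj X) (R.H.map a).hom := by
  have h1 := hX.isIso_mu Xᘁ
  rw [← vec_trace (ε R.H ≫ R.H.map (η_ X Xᘁ) ≫ inv (μ R.H X Xᘁ))
    (μ R.H Xᘁ X ≫ R.H.map (ε_ X Xᘁ) ≫ inv (ε R.H)) ?_ (R.H.map a)]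
  · congr 2
    have h2 : (β_ (R.H.obj X) (R.H.obj Xᘁ)).hom ≫ μ R.H Xᘁ X =
      μ R.H X Xᘁ ≫ R.H.map (β_ X Xᘁ).hom := (Functor.LaxBraided.braided X Xᘁ).symm
    simp only [tr, Functor.map_comp, Category.assoc]
    rw [reassoc_of% h2, μ_natural_left_assoc, IsIso.inv_hom_id_assoc]
  · rw [← cancel_mono (ρ_ (R.H.obj X)).hom]
    simp only [Category.assoc, Iso.inv_hom_id, Category.comp_id]
    have h3 : (ρ_ (R.H.obj X)).hom = R.H.obj X ◁ ε R.H ≫ μ R.H X (𝟙_ C) ≫ R.H.map (ρ_ X).hom :=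
      Functor.LaxMonoidal.right_unitality R.H X
    rw [h3]
    simp only [comp_whiskerRight, MonoidalCategory.whiskerLeft_comp, Category.assoc]
    have h4 : R.H.obj X ◁ inv (ε R.H) ≫ R.H.obj X ◁ ε R.H = 𝟙 _ := by
      rw [← MonoidalCategory.whiskerLeft_comp, IsIso.inv_hom_id, MonoidalCategory.whiskerLeft_id]
    rw [reassoc_of% h4, μ_natural_right_assoc]
    have h5 := Functor.LaxMonoidal.associativity (F := R.H) X Xᘁ X
    have h6 : (inv (μ R.H X Xᘁ) ▷ R.H.obj X) ≫ (μ R.H X Xᘁ ▷ R.H.obj X) = 𝟙 _ := by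
      rw [← comp_whiskerRight, IsIso.inv_hom_id, id_whiskerRight]
    rw [← reassoc_of% h5, reassoc_of% h6, μ_natural_left_assoc, ← Functor.map_comp,
      ← Functor.map_comp, ← Functor.map_comp]
    have h7 : η_ X Xᘁ ▷ X ≫ (α_ X Xᘁ X).hom ≫ X ◁ ε_ X Xᘁ ≫ (ρ_ X).hom = (λ_ X).hom := by
      rw [ExactPairing.evaluation_coevaluation_assoc]
      simp
    rw [h7]
    exact (Functor.LaxMonoidal.left_unitality R.H X).symm

end Real

end Pool.Agent.Y116.MT
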