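import Pool.Agent.Y116.MT.Zero

/-!
# Conservative realisations and sections of Chow motives
-/

set_option autoImplicit false
set_option linter.unusedSectionVars false
set_option linter.unusedSimpArgs false
set_option backward.isDefEq.respectTransparency false
set_option backward.defeqAttrib.useBackward true

open CategoryTheory Limits MonoidalCategory Pretriangulated Triangulated

namespace Pool.Agent.Y116.MT

universe v u w

open Functor.LaxMonoidal
open scoped TensorProduct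

section

variable {C : Type u} [Category.{v} C] [Preadditive C] [HasZeroObject C] [HasShift C ℤ]
  [∀ n : ℤ, (shiftFunctor C n).Additive] [Pretriangulated C] [MonoidalCategory C]
  [SymmetricCategory C] [TensorTriangulated C]

lemma shiftTensorIso_natural_right (X : C) {Y Y' : C} (g : Y ⟶ Y') (i : ℤ) :
    (X⟦i⟧ ◁ (g⟦-i⟧')) ≫ (shiftTensorIso X Y' i).hom = (shiftTensorIso X Y i).hom ≫ (X ◁ g) := by
  have h1 : (X ◁ g)⟦i⟧'⟦-i⟧' ≫ (shiftShiftNeg (X ⊗ Y') i).hom =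
      (shiftShiftNeg (X ⊗ Y) i).hom ≫ (X ◁ g) :=
    (shiftFunctorCompIsoId C i (-i) (by simp)).hom.naturality (X ◁ g)
  have h2 : X⟦i⟧ ◁ g ≫ (lShift X Y' i).hom = (lShift X Y i).hom ≫ (X ◁ g)⟦i⟧' := by
    simp only [lShift, Iso.trans_hom, Functor.mapIso_hom, Category.assoc]
    rw [BraidedCategory.braiding_naturality_right_assoc, ← Category.assoc (g ▷ _),
      rShift_natural_left, Category.assoc, ← Functor.map_comp, ← Functor.map_comp,
      BraidedCategory.braiding_naturality_left]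
  simp only [shiftTensorIso, Iso.trans_hom, Functor.mapIso_hom, Category.assoc]
  rw [← Category.assoc (X⟦i⟧ ◁ _), rShift_natural_right, Category.assoc, ← h1,
    ← Category.assoc ((X⟦i⟧ ◁ g)⟦-i⟧'), ← Functor.map_comp, h2, Functor.map_comp, Category.assoc]

variable {E : Type w} [Field E] {R : Realisation C E}

/-- A component of the Künneth formula. -/
noncomputable def kcomp (R : Realisation C E) (X Y : C) (i : ℤ) :
    (R.H.obj (X⟦i⟧) ⊗ R.H.obj (Y⟦-i⟧) : ModuleCat.{w} E) ⟶ R.H.obj (X ⊗ Y) :=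
  μ R.H (X⟦i⟧) (Y⟦-i⟧) ≫ R.H.map (shiftTensorIso X Y i).hom

lemma kcomp_natural {X X' Y Y' : C} (f : X ⟶ X') (g : Y ⟶ Y') (i : ℤ) :
    kcomp R X Y i ≫ R.H.map (f ▷ Y ≫ X' ◁ g) =
      (R.H.map (f⟦i⟧') ⊗ₘ R.H.map (g⟦-i⟧')) ≫ kcomp R X' Y' i := by
  simp only [kcomp]
  rw [MonoidalCategory.tensorHom_def, Category.assoc, Category.assoc, μ_natural_right_assoc,
    μ_natural_left_assoc]
  simp only [← Functor.map_comp]
  congr 2
  rw [shiftTensorIso_natural_right, ← Category.assoc (f⟦i⟧' ▷ _), shiftTensorIso_natural_left,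
    Category.assoc]

/-- The zero shift. -/
noncomputable def zl (X : C) : X⟦(0 : ℤ)⟧ ⟶ X := (shiftFunctorZero C ℤ).hom.app X

/-- The zero shift. -/
noncomputable def zr (X : C) : X⟦(-0 : ℤ)⟧ ⟶ X := (shiftFunctorZero' C (-0 : ℤ) (by simp)).hom.app X

lemma kcomp_zero (X Y : C) :
    kcomp R X Y 0 = (R.H.map (zl X) ⊗ₘ R.H.map (zr Y)) ≫ μ R.H X Y := by
  have h1 : (shiftTensorIso X Y 0).hom = (zl X ⊗ₘ zr Y) := by
    rw [shiftTensorIso_zero, MonoidalCategory.tensorHom_def']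
    rfl
  rw [μ_natural, ← h1]
  rfl

/-- A map on the realisation of a tensor product is determined by the Künneth components. -/
lemma kunneth_ext {X Y : C} {V : ModuleCat.{w} E} {a b : R.H.obj (X ⊗ Y) ⟶ V}
    (h : ∀ i : ℤ, kcomp R X Y i ≫ a = kcomp R X Y i ≫ b) : a = b := by
  have h1 : a.hom ∘ₗ kunnethMap R.H X Y = b.hom ∘ₗ kunnethMap R.H X Y := by
    apply DirectSum.linearMap_ext
    intro i
    ext z
    have h3 := LinearMap.congr_fun (congrArg ModuleCat.Hom.hom (h i)) z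
    simp only [kunnethMap, LinearMap.comp_apply, DirectSum.toModule_lof]
    exact h3
  ext z
  obtain ⟨y, rfl⟩ := (R.kunneth X Y).2 z
  exact LinearMap.congr_fun h1 y

lemma kunneth_mem {X Y : C} {V : ModuleCat.{w} E} {a : R.H.obj (X ⊗ Y) ⟶ V} {S : Submodule E V}
    (h : ∀ (i : ℤ) (z : (R.H.obj (X⟦i⟧) ⊗ R.H.obj (Y⟦-i⟧) : ModuleCat.{w} E)),
      a.hom ((kcomp R X Y i).hom z) ∈ S) (z : R.H.obj (X ⊗ Y)) : a z ∈ S := by
  obtain ⟨y, rfl⟩ := (R.kunneth X Y).2 z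
  induction y using DirectSum.induction_on with
  | zero =>
    rw [map_zero]
    change a.hom 0 ∈ S
    rw [map_zero]
    exact S.zero_mem
  | of i x =>
    have h1 := h i x
    have h2 : kunnethMap R.H X Y (DirectSum.of _ i x) = (kcomp R X Y i).hom x := by
      rw [kunnethMap, ← DirectSum.lof_eq_of E, DirectSum.toModule_lof]
      rfl
    rw [h2]
    exact h1
  | add x y hx hy =>
    rw [map_add]
    have h3 : a ((kunnethMap R.H X Y) x + (kunnethMap R.H X Y) y) =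
      a ((kunnethMap R.H X Y) x) + a ((kunnethMap R.H X Y) y) := a.hom.map_add _ _
    rw [h3]
    exact S.add_mem hx hy

lemma tensorHom_zero_left {V V' W W' : ModuleCat.{w} E} (g : W ⟶ W') :
    ((0 : V ⟶ V') ⊗ₘ g) = 0 := by
  ext z
  change (TensorProduct.map (0 : V →ₗ[E] V') g.hom) z = 0
  rw [TensorProduct.map_zero_left]
  rfl

lemma tensorHom_zero_right {V V' W W' : ModuleCat.{w} E} (f : V ⟶ V') :
    (f ⊗ₘ (0 : W ⟶ W')) = 0 := by
  ext z
  change (TensorProduct.map f.hom (0 : W →ₗ[E] W')) z = 0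
  rw [TensorProduct.map_zero_right]
  rfl

/-- Vanishing on a tensor product of maps. -/
lemma map_tensor_zero {X X' Y Y' : C} (f : X ⟶ X') (g : Y ⟶ Y')
    (h : ∀ i : ℤ, R.H.map (f⟦i⟧') = 0 ∨ R.H.map (g⟦-i⟧') = 0) :
    R.H.map (f ▷ Y ≫ X' ◁ g) = 0 := by
  apply kunneth_ext
  intro i
  rw [kcomp_natural, comp_zero]
  rcases h i with h | h
  · rw [h, tensorHom_zero_left, zero_comp]
  · rw [h, tensorHom_zero_right, zero_comp]

lemma map_shift_shift_zero {X Y : C} (f : X ⟶ Y) (i j k : ℤ) (hk : i + j = k)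
    (h : R.H.map (f⟦k⟧') = 0) : R.H.map (f⟦i⟧'⟦j⟧') = 0 := by
  have h1 : f⟦i⟧'⟦j⟧' ≫ (shiftFunctorAdd' C i j k hk).inv.app Y =
      (shiftFunctorAdd' C i j k hk).inv.app X ≫ f⟦k⟧' :=
    (shiftFunctorAdd' C i j k hk).inv.naturality f
  rw [← cancel_mono (R.H.map ((shiftFunctorAdd' C i j k hk).inv.app Y)), ← Functor.map_comp, h1,
    Functor.map_comp, h, comp_zero, zero_comp]

lemma map_tensor_shift_zero {X X' Y Y' : C} (f : X ⟶ X') (g : Y ⟶ Y') (n : ℤ)
    (h : ∀ i : ℤ, R.H.map (f⟦i⟧') = 0 ∨ R.H.map (g⟦n - i⟧') = 0) :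
    R.H.map ((f ▷ Y ≫ X' ◁ g)⟦n⟧') = 0 := by
  have h1 : (rShift X Y n).hom ≫ (f ▷ Y ≫ X' ◁ g)⟦n⟧' =
      (f ▷ (Y⟦n⟧) ≫ X' ◁ (g⟦n⟧')) ≫ (rShift X' Y' n).hom := by
    rw [Functor.map_comp, ← Category.assoc, ← rShift_natural_left, Category.assoc,
      ← rShift_natural_right, Category.assoc]
  rw [← cancel_epi (R.H.map (rShift X Y n).hom), ← Functor.map_comp, h1, Functor.map_comp,
    map_tensor_zero, zero_comp, comp_zero]
  intro i
  rcases h i with h | h
  · exact Or.inl h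
  · exact Or.inr (map_shift_shift_zero g n (-i) (n - i) (by ring) h)

section Z

variable {Z : C} (γ : Z ⟶ Z)

/-- The map `γ` in each factor of the power. -/
def zMap (γ : Z ⟶ Z) : ∀ n : ℕ, pw (𝟙_ C) Z n ⟶ pw (𝟙_ C) Z n
  | 0 => 𝟙 _
  | n + 1 => zMap γ n ▷ Z ≫ pw (𝟙_ C) Z n ◁ γ

lemma zMap_starN (δ : Z ⟶ (𝟙_ C)⟦(1 : ℤ)⟧) (hγ : γ ≫ δ = δ) (u : 𝟙_ C ⟶ 𝟙_ C) (n : ℕ) :
    zMap γ n ≫ starN δ u n = starN δ u n := by
  induction n with
  | zero => simp [zMap]
  | succ n ih =>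
    simp only [zMap, starN, Category.assoc]
    have h1 : pw (𝟙_ C) Z n ◁ γ ≫ star δ (starN δ u n) = star δ (starN δ u n) := by
      simp only [star]
      rw [← Category.assoc (_ ◁ γ), ← MonoidalCategory.whiskerLeft_comp, hγ]
    rw [h1, ← star_comp, ih]

variable (h0 : ∀ i : ℤ, i ≠ 0 → R.H.map (γ⟦i⟧') = 0)

include h0

lemma zMap_zero (n : ℕ) : ∀ i : ℤ, i ≠ 0 → R.H.map ((zMap γ n)⟦i⟧') = 0 := by
  induction n with
  | zero =>
    intro i hi
    exact ((deg_unit (R := R)) i hi).eq_of_src _ _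
  | succ n ih =>
    intro i hi
    apply map_tensor_shift_zero
    intro j
    by_cases hj : j = 0
    · right
      exact h0 _ (by omega)
    · left
      exact ih j hj

/-- The degree zero part comes from the powers of the degree zero part. -/
lemma zMap_range (n : ℕ) : ∀ z : R.H.obj (pw (𝟙_ C) Z n),
    R.H.map (zMap γ n) z ∈ LinearMap.range (kap R.H (𝟙_ C) Z n).hom := by
  induction n with
  | zero => intro z; exact ⟨R.H.map (zMap γ 0) z, rfl⟩
  | succ n ih =>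
    apply kunneth_mem
    intro i z
    by_cases hi : i = 0
    · subst hi
      have h1 : kcomp R (pw (𝟙_ C) Z n) Z 0 ≫ R.H.map (zMap γ (n + 1)) =
          (R.H.map (zl (pw (𝟙_ C) Z n)) ⊗ₘ R.H.map (zr Z)) ≫
          (R.H.map (zMap γ n) ⊗ₘ R.H.map γ) ≫ μ R.H _ _ := by
        rw [kcomp_zero, Category.assoc, μ_natural, MonoidalCategory.tensorHom_def (zMap γ n) γ]
        rfl
      have h2 := LinearMap.congr_fun (congrArg ModuleCat.Hom.hom h1) z
      refine (congrArg (· ∈ _) h2).mpr ?_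
      change (μ R.H (pw (𝟙_ C) Z n) Z).hom
        ((TensorProduct.map (R.H.map (zMap γ n)).hom (R.H.map γ).hom)
          ((R.H.map (zl (pw (𝟙_ C) Z n)) ⊗ₘ R.H.map (zr Z)).hom z)) ∈ _
      generalize (R.H.map (zl (pw (𝟙_ C) Z n)) ⊗ₘ R.H.map (zr Z)).hom z = w
      change TensorProduct E (R.H.obj (pw (𝟙_ C) Z n)) (R.H.obj Z) at w
      induction w using TensorProduct.induction_on with
      | zero => rw [map_zero, map_zero]; exact Submodule.zero_mem _
      | tmul a b =>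
        obtain ⟨y, hy⟩ := ih a
        refine ⟨(y ⊗ₜ[E] (R.H.map γ).hom b : TensorProduct E _ _), ?_⟩
        rw [TensorProduct.map_tmul]
        change (μ R.H (pw (𝟙_ C) Z n) Z).hom
          (((kap R.H (𝟙_ C) Z n).hom y) ⊗ₜ[E] (R.H.map γ).hom b) = _
        rw [hy]
      | add x y hx hy => rw [map_add, map_add]; exact Submodule.add_mem _ hx hy
    · have h1 : kcomp R (pw (𝟙_ C) Z n) Z i ≫ R.H.map (zMap γ (n + 1)) = 0 := by
        simp only [zMap]
        rw [kcomp_natural, zMap_zero γ h0 n i hi, tensorHom_zero_left, zero_comp]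
      have h2 := LinearMap.congr_fun (congrArg ModuleCat.Hom.hom h1) z
      refine (congrArg (· ∈ _) h2).mpr ?_
      exact Submodule.zero_mem _

/-- The realisation of the antisymmetrizer composed with `γ` vanishes. -/
lemma zMap_alt_zero (n : ℕ) (hn : Module.finrank E (R.H.obj Z) < n) (i : ℤ) :
    R.H.map ((zMap γ n ≫ alt (𝟙_ C) Z n)⟦i⟧') = 0 := by
  by_cases hi : i = 0
  · subst hi
    have h1 : R.H.map (zMap γ n ≫ alt (𝟙_ C) Z n) = 0 := by
      have h2 : kap R.H (𝟙_ C) Z n ≫ R.H.map (alt (𝟙_ C) Z n) = 0 := by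
        rw [← alt_lax, alt_vec_zero _ _ _ hn, zero_comp]
      ext z
      obtain ⟨y, hy⟩ := zMap_range γ h0 n z
      have h3 := LinearMap.congr_fun (congrArg ModuleCat.Hom.hom h2) y
      rw [Functor.map_comp]
      change (R.H.map (alt (𝟙_ C) Z n)).hom ((R.H.map (zMap γ n)) z) = 0
      rw [← hy]
      exact h3
    have h5 : (zMap γ n ≫ alt (𝟙_ C) Z n)⟦(0 : ℤ)⟧' = (shiftFunctorZero C ℤ).hom.app _ ≫
        (zMap γ n ≫ alt (𝟙_ C) Z n) ≫ (shiftFunctorZero C ℤ).inv.app _ :=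
      shiftZero' (A := ℤ) (f := zMap γ n ≫ alt (𝟙_ C) Z n)
    rw [h5, Functor.map_comp, Functor.map_comp (R.H) (zMap γ n ≫ alt (𝟙_ C) Z n), h1, zero_comp,
      comp_zero]
  · rw [Functor.map_comp, Functor.map_comp, zMap_zero γ h0 n i hi, zero_comp]

end Z

end

section

variable {C : Type u} [Category.{v} C] [Preadditive C] [HasZeroObject C] [HasShift C ℤ]
  [∀ n : ℤ, (shiftFunctor C n).Additive] [Pretriangulated C] [MonoidalCategory C]
  [SymmetricCategory C] [TensorTriangulated C] [MonoidalPreadditive C] [Linear ℚ C]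
  [RightRigidCategory C] {E : Type w} [Field E] {R : Realisation C E}

lemma hepi2' {A : Type*} [Category A] [Abelian A] (H : C ⥤ A) [H.IsHomological]
    {X Y Z : C} {f : X ⟶ Y} {g : Y ⟶ Z} {h : Z ⟶ X⟦(1 : ℤ)⟧}
    (hT : Triangle.mk f g h ∈ distTriang C) (n : ℤ) (hf : Mono (H.map (f⟦n + 1⟧'))) :
    Epi (H.map (g⟦n⟧')) := by
  let _ := Functor.ShiftSequence.tautological H ℤ
  exact (H.homologySequence_epi_shift_map_mor₂_iff _ hT n (n + 1) (by omega)).2
    ((H.homologySequence_mono_shift_map_mor₁_iff _ hT n (n + 1) (by omega)).1 hf)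

/-- For a conservative realisation, a map which is the identity on the realisation is an
isomorphism. -/
lemma isIso_one_sub (hcons : ∀ X : C, (∀ i : ℤ, IsZero (R.H.obj (X⟦i⟧))) → IsZero X) {X : C}
    (x : X ⟶ X) (hx : ∀ i : ℤ, R.H.map (x⟦i⟧') = 0) : IsIso (𝟙 X - x) := by
  obtain ⟨Y, g, h, hT⟩ := distinguished_cocone_triangle (𝟙 X - x)
  refine isIso1_of_isZero3 hT (hcons Y fun i => ?_)
  have h1 : ∀ i : ℤ, R.H.map ((𝟙 X - x)⟦i⟧') = 𝟙 _ := by
    intro i
    rw [Functor.map_sub, Functor.map_sub, hx, sub_zero, CategoryTheory.Functor.map_id,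
      CategoryTheory.Functor.map_id]
  have h2 : Mono (R.H.map ((𝟙 X - x)⟦i + 1⟧')) := by rw [h1]; infer_instance
  have h3 := hepi2' R.H hT i h2
  have h4 : R.H.map (g⟦i⟧') = 0 := by
    have h5 : R.H.map ((𝟙 X - x)⟦i⟧') ≫ R.H.map (g⟦i⟧') = 0 := by
      rw [← Functor.map_comp, ← Functor.map_comp, comp12 hT, Functor.map_zero, Functor.map_zero]
    rwa [h1, Category.id_comp] at h5
  rw [IsZero.iff_id_eq_zero, ← cancel_epi (R.H.map (g⟦i⟧')), h4, zero_comp, zero_comp]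

/-- Sections of `P` which are not numerically trivial. -/
theorem cons_core (hcons : ∀ X : C, (∀ i : ℤ, IsZero (R.H.obj (X⟦i⟧))) → IsZero X)
    (Pr : ObjectProperty C) {P Z : C} (hPu : Pr (𝟙_ C)) (hPQ : ∀ X, Pr X → Pr (X ⊗ P))
    (hP0 : ∀ X, Pr X → ∀ (m : ℤ), 0 < m → ∀ f : X ⟶ (𝟙_ C)⟦m⟧, f = 0)
    {s : 𝟙_ C ⟶ P} {p : P ⟶ Z} {δ : Z ⟶ (𝟙_ C)⟦(1 : ℤ)⟧} (hT : Triangle.mk s p δ ∈ distTriang C)
    (γ : Z ⟶ Z) (hγ : γ ≫ δ = δ) (h0 : ∀ i : ℤ, i ≠ 0 → R.H.map (γ⟦i⟧') = 0) :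
    ∃ r : P ⟶ 𝟙_ C, s ≫ r ≠ 0 := by
  have hE := charZero_of_real R
  by_contra hcon
  push Not at hcon
  set n := Module.finrank E (R.H.obj Z) + 1 with hn
  have h1 := starN_ne_zero δ s p hT Pr hPQ (fun X hX m f => un_zero (hP0 X hX) m f) hPu hcon
    (not_isZero_unit R) n
  apply h1
  set x := (zMap γ n ≫ alt (𝟙_ C) Z n) with hx
  have h2 : x ≫ starN δ (𝟙 (𝟙_ C)) n = (n.factorial : ℤ) • starN δ (𝟙 (𝟙_ C)) n := by
    rw [hx, Category.assoc, alt_star, Preadditive.comp_zsmul, zMap_starN γ δ hγ]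
  have hq : ((n.factorial : ℤ) : ℚ) ≠ 0 := by exact_mod_cast Nat.factorial_ne_zero n
  have h3 := isIso_one_sub hcons ((((n.factorial : ℤ) : ℚ)⁻¹) • x) (fun i => by
    rw [Functor.map_smul, H_smul, zMap_alt_zero γ h0 n (by omega), smul_zero])
  rw [← cancel_epi (𝟙 _ - (((n.factorial : ℤ) : ℚ)⁻¹) • x), comp_zero, Preadditive.sub_comp,
    Category.id_comp, Linear.smul_comp, h2, ← Int.cast_smul_eq_zsmul ℚ, smul_smul,
    inv_mul_cancel₀ hq, one_smul, sub_self]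

end

end Pool.Agent.Y116.MT
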