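import Pool.Agent.Y116.MT.Trace

/-!
# Regularity of endomorphism rings of objects in degree zero
-/

set_option autoImplicit false
set_option linter.unusedSectionVars false
set_option linter.unusedSimpArgs false
set_option backward.isDefEq.respectTransparency false
set_option backward.defeqAttrib.useBackward true

open CategoryTheory Limits MonoidalCategory Pretriangulated Triangulated

namespace Pool.Agent.Y116.MT

universe v u w

open Functor.LaxMonoidal

section

variable {C : Type u} [Category.{v} C] [Preadditive C] [HasZeroObject C] [HasShift C ℤ]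
  [∀ n : ℤ, (shiftFunctor C n).Additive] [Pretriangulated C] [MonoidalCategory C]
  [SymmetricCategory C] [TensorTriangulated C] [MonoidalPreadditive C]
  [Linear ℚ C] {E : Type w} [Field E] {R : Realisation C E}

/-- The coefficient field of a realisation of a `ℚ`-linear category has characteristic zero. -/
lemma charZero_of_real (R : Realisation C E) : CharZero E := by
  apply charZero_of_inj_zero
  intro n hn
  by_contra hn'
  apply not_isZero_H_unit R
  rw [IsZero.iff_id_eq_zero]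
  have h1 : n • ((n : ℚ)⁻¹ • 𝟙 (𝟙_ C)) = 𝟙 (𝟙_ C) := by
    rw [← Nat.cast_smul_eq_nsmul ℚ, smul_smul, mul_inv_cancel₀ (by exact_mod_cast hn'), one_smul]
  rw [← CategoryTheory.Functor.map_id, ← h1, Functor.map_nsmul, ← Nat.cast_smul_eq_nsmul E, hn,
    zero_smul]

/-- A realisation is linear over the rationals. -/
lemma H_smul [CharZero E] {X Y : C} (q : ℚ) (f : X ⟶ Y) :
    R.H.map (q • f) = (q : E) • R.H.map f := by
  have h1 : (q.den : E) • R.H.map (q • f) = (q.num : E) • R.H.map f := by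
    rw [Nat.cast_smul_eq_nsmul, Int.cast_smul_eq_zsmul, ← Functor.map_nsmul, ← Functor.map_zsmul,
      ← Nat.cast_smul_eq_nsmul ℚ, ← Int.cast_smul_eq_zsmul ℚ, smul_smul, Rat.den_mul_eq_num]
  have h2 : (q.den : E) ≠ 0 := by exact_mod_cast q.den_nz
  rw [Rat.cast_def, div_eq_inv_mul, mul_smul, ← h1, smul_smul, inv_mul_cancel₀ h2, one_smul]

lemma scal [CharZero E] (q : ℚ) :
    (ε R.H ≫ R.H.map (q • 𝟙 (𝟙_ C)) ≫ inv (ε R.H)).hom (1 : E) = (q : E) := by
  rw [H_smul, CategoryTheory.Functor.map_id, Linear.smul_comp, Linear.comp_smul, Category.id_comp,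
    IsIso.hom_inv_id]
  change (q : E) • (1 : E) = _
  rw [smul_eq_mul, mul_one]

variable [RightRigidCategory C]

lemma tr_add {X : C} (a b : X ⟶ X) : tr (a + b) = tr a + tr b := by
  have h1 : (a + b) ▷ Xᘁ = a ▷ Xᘁ + b ▷ Xᘁ := (tensorRight Xᘁ).map_add
  simp only [tr, h1, Preadditive.add_comp, Preadditive.comp_add]

lemma tr_smul {X : C} (q : ℚ) (a : X ⟶ X) : tr (q • a) = q • tr a := by
  have h1 : (q • a) ▷ Xᘁ = q • (a ▷ Xᘁ) := (tensorRight Xᘁ).map_smul q a
  simp only [tr, h1, Linear.smul_comp, Linear.comp_smul]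

/-- Endomorphism rings of objects in degree zero with non-degenerate trace form are regular. -/
theorem regular_end (R : Realisation C E) (hEnd : ∀ e : 𝟙_ C ⟶ 𝟙_ C, ∃ q : ℚ, e = q • 𝟙 _)
    {X : C} (hX : R.Deg X 0)
    (hnd : ∀ s : 𝟙_ C ⟶ X ⊗ Xᘁ, s ≠ 0 → ∃ r : X ⊗ Xᘁ ⟶ 𝟙_ C, s ≫ r ≠ 0) (a : X ⟶ X) :
    ∃ b : X ⟶ X, a ≫ b ≫ a = a := by
  have hE := charZero_of_real R
  let L : ℚ →ₗ[ℚ] (𝟙_ C ⟶ 𝟙_ C) := LinearMap.toSpanSingleton ℚ _ (𝟙 _)
  have hL : Function.Bijective L := by
    constructor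
    · rw [injective_iff_map_eq_zero]
      intro q hq
      have hq' : q • 𝟙 (𝟙_ C) = 0 := hq
      by_contra hne
      apply not_isZero_unit R
      rw [IsZero.iff_id_eq_zero, ← one_smul ℚ (𝟙 (𝟙_ C)), ← inv_mul_cancel₀ hne, mul_smul, hq',
        smul_zero]
    · intro e
      obtain ⟨q, hq⟩ := hEnd e
      exact ⟨q, hq.symm⟩
  let T : End X →ₗ[ℚ] (𝟙_ C ⟶ 𝟙_ C) :=
    { toFun := fun a => tr a
      map_add' := fun a b => tr_add a b
      map_smul' := fun q a => tr_smul q a }
  let τ : End X →ₗ[ℚ] ℚ := (LinearEquiv.ofBijective L hL).symm.toLinearMap ∘ₗ T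
  have hτ0 : ∀ a : X ⟶ X, tr a = τ a • 𝟙 (𝟙_ C) := by
    intro a
    exact ((LinearEquiv.ofBijective L hL).apply_symm_apply (tr a)).symm
  let ρ : End X →+* Module.End E (R.H.obj X) :=
    { toFun := fun a => (R.H.map a).hom
      map_one' := by
        change (R.H.map (𝟙 X)).hom = _
        rw [CategoryTheory.Functor.map_id]
        rfl
      map_mul' := fun a b => by
        change (R.H.map (b ≫ a)).hom = _
        rw [Functor.map_comp]
        rfl
      map_zero' := by
        change (R.H.map (0 : X ⟶ X)).hom = _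
        rw [Functor.map_zero]
        rfl
      map_add' := fun a b => by
        change (R.H.map (a + b)).hom = _
        rw [Functor.map_add]
        rfl }
  have hτ : ∀ a, LinearMap.trace E _ (ρ a) = algebraMap ℚ E (τ a) := by
    intro a
    change LinearMap.trace E (R.H.obj X) (R.H.map a).hom = _
    rw [← H_trace hX, hτ0, scal]
    rfl
  have hsymm : ∀ a b, τ (a * b) = τ (b * a) := by
    intro a b
    apply (algebraMap ℚ E).injective
    rw [← hτ, ← hτ, ρ.map_mul, ρ.map_mul, LinearMap.trace_mul_comm]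
  have hnd' : ∀ a, a ≠ 0 → ∃ b, τ (a * b) ≠ 0 := by
    intro a ha
    obtain ⟨r, hr⟩ := hnd (nm a) (fun h => ha (eq_zero_of_nm a h))
    obtain ⟨b, hb⟩ := exists_tr r
    refine ⟨b, fun h => hr ?_⟩
    rw [hb, hτ0]
    have h1 : τ (a ≫ b) = τ ((show End X from b) * a) := rfl
    rw [h1, hsymm, h, zero_smul]
  obtain ⟨b, hb⟩ := regular_of_trace ρ τ hτ hnd' a
  refine ⟨b, ?_⟩
  exact hb

end

end Pool.Agent.Y116.MT
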