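import Pool.Agent.Y116.MT.Ext

/-!
# Construction of t-structures from regular classes of objects
-/

set_option autoImplicit false
set_option linter.unusedSectionVars false
set_option linter.unusedSimpArgs false
set_option backward.isDefEq.respectTransparency false
set_option backward.defeqAttrib.useBackward true

open CategoryTheory Limits Pretriangulated Triangulated ZeroObject

namespace Pool.Agent.Y116.MT

universe v u w

section

variable {C : Type u} [Category.{v} C] [Preadditive C] [HasZeroObject C] [HasShift C ℤ]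
  [∀ n : ℤ, (shiftFunctor C n).Additive] [Pretriangulated C]

lemma ET.unique {A W B A' B' : C} (h : ET A W B) (h' : ET A' W B')
    (h1 : ∀ f : A ⟶ B', f = 0) (h2 : ∀ f : A' ⟶ B, f = 0)
    (h3 : ∀ f : A⟦(1 : ℤ)⟧ ⟶ B, f = 0) (h4 : ∀ f : A'⟦(1 : ℤ)⟧ ⟶ B', f = 0) :
    Nonempty (B ≅ B') := by
  obtain ⟨a, b, c, hT⟩ := h
  obtain ⟨a', b', c', hT'⟩ := h'
  obtain ⟨v, hv⟩ := ye2 hT b' (h1 _)
  obtain ⟨u, hu⟩ := ye2 hT' b (h2 _)
  refine ⟨⟨v, u, ?_, ?_⟩⟩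
  · obtain ⟨l, hl⟩ := ye3 hT (v ≫ u - 𝟙 _) (by
      rw [Preadditive.comp_sub, ← Category.assoc, ← hv, ← hu, Category.comp_id, sub_self])
    rw [h3 l, comp_zero, sub_eq_zero] at hl
    exact hl
  · obtain ⟨l, hl⟩ := ye3 hT' (u ≫ v - 𝟙 _) (by
      rw [Preadditive.comp_sub, ← Category.assoc, ← hu, ← hv, Category.comp_id, sub_self])
    rw [h4 l, comp_zero, sub_eq_zero] at hl
    exact hl

end

section Letters

variable {C : Type u} [Category.{v} C] [Preadditive C] [HasZeroObject C] [HasShift C ℤ]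
  [∀ n : ℤ, (shiftFunctor C n).Additive] [Pretriangulated C] (S : ObjectProperty C)

/-- The shifts `X⟦n⟧` of the objects `X` of `S`, with `n` in `p`. -/
def Lt (p : Set ℤ) : ObjectProperty C := fun A => ∃ n ∈ p, S (A⟦-n⟧)

variable {S}

lemma Lt.mono {p q : Set ℤ} (h : p ⊆ q) : Lt S p ≤ Lt S q := by
  rintro A ⟨n, hn, hA⟩
  exact ⟨n, h hn, hA⟩

variable [S.IsStableUnderRetracts]

lemma S_iso {X Y : C} (h : S X) (e : X ≅ Y) : S Y :=
  ObjectProperty.prop_of_retract S ⟨e.inv, e.hom, e.inv_hom_id⟩ h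

lemma S_ret {X Y : C} (h : S X) (i : Y ⟶ X) (r : X ⟶ Y) (hir : i ≫ r = 𝟙 _) : S Y :=
  ObjectProperty.prop_of_retract S ⟨i, r, hir⟩ h

lemma S_shift {A : C} {n : ℤ} (h : S (A⟦-n⟧)) (a : ℤ) : S ((A⟦a⟧)⟦-(n + a)⟧) :=
  S_iso h ((shiftFunctorAdd' C a (-(n + a)) (-n) (by ring)).app A)

lemma Lt.shift {p q : Set ℤ} (a : ℤ) (h : ∀ n ∈ p, n + a ∈ q) (A : C) (hA : Lt S p A) :
    Lt S q (A⟦a⟧) := by
  obtain ⟨n, hn, hA⟩ := hA
  exact ⟨n + a, h n hn, S_shift hA a⟩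

variable (hN : ∀ A B, S A → S B → ∀ m : ℤ, m < 0 → ∀ f : A ⟶ B⟦m⟧, f = 0)
  (hR : ∀ A B, S A → S B → ∀ f : A ⟶ B, ∃ g : B ⟶ A, f ≫ g ≫ f = f)

include hN in
lemma hom_letter {A B : C} {n m : ℤ} (hA : S (A⟦-n⟧)) (hB : S (B⟦-m⟧)) (hmn : m < n)
    (f : A ⟶ B) : f = 0 := by
  apply (shiftFunctor C (-n)).map_injective
  rw [Functor.map_zero, ← cancel_mono ((shiftFunctorAdd' C (-m) (m - n) (-n) (by ring)).app B).hom,
    zero_comp]
  exact hN _ _ hA hB _ (by omega) _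

include hN in
lemma hom_Lt {p q : Set ℤ} (hpq : ∀ n ∈ p, ∀ m ∈ q, m < n) {A B : C} (hA : Lt S p A)
    (hB : Lt S q B) (f : A ⟶ B) : f = 0 := by
  obtain ⟨n, hn, hA⟩ := hA
  obtain ⟨m, hm, hB⟩ := hB
  exact hom_letter hN hA hB (hpq n hn m hm) f

include hN in
lemma hom_Wd {p q : Set ℤ} (hpq : ∀ n ∈ p, ∀ m ∈ q, m < n) {A B : C} (hA : Wd (Lt S p) A)
    (hB : Wd (Lt S q) B) (f : A ⟶ B) : f = 0 :=
  Wd.hom_left (fun _ hA' => Wd.hom_right (fun _ hB' => hom_Lt hN hpq hA' hB') hB) hA f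

include hR in
lemma reg_letter {A B : C} {n : ℤ} (hA : S (A⟦-n⟧)) (hB : S (B⟦-n⟧)) (f : A ⟶ B) :
    ∃ g : B ⟶ A, f ≫ g ≫ f = f := by
  obtain ⟨g, hg⟩ := hR _ _ hA hB (f⟦-n⟧')
  obtain ⟨g', rfl⟩ := (shiftFunctor C (-n)).map_surjective g
  refine ⟨g', (shiftFunctor C (-n)).map_injective ?_⟩
  rw [Functor.map_comp, Functor.map_comp, hg]

variable [IsTriangulated C] [IsIdempotentComplete C]

include hN hR in
/-- Exchange of two letters. -/
lemma swap {A X B : C} {n m : ℤ} (hA : S (A⟦-n⟧)) (hB : S (B⟦-m⟧)) (hnm : n < m)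
    (hX : ET A X B) : ∃ K Q, S (K⟦-m⟧) ∧ S (Q⟦-n⟧) ∧ ET K X Q := by
  obtain ⟨f, g, h, hT⟩ := hX
  have hA1 := S_shift hA 1
  by_cases hnm' : n + 1 < m
  · exact ⟨B, A, hB, hA, ET.comm hT (hom_letter hN hB hA1 hnm' h)⟩
  obtain rfl : m = n + 1 := by omega
  obtain ⟨γ, hγ⟩ := reg_letter hR hB hA1 h
  have hp : (𝟙 B - h ≫ γ) ≫ (𝟙 B - h ≫ γ) = 𝟙 B - h ≫ γ := by
    rw [Preadditive.comp_sub, Category.comp_id, Preadditive.sub_comp, Category.id_comp]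
    have : (h ≫ γ) ≫ h ≫ γ = h ≫ γ := by
      calc (h ≫ γ) ≫ h ≫ γ = (h ≫ γ ≫ h) ≫ γ := by simp only [Category.assoc]
        _ = h ≫ γ := by rw [hγ]
    rw [this, sub_self, sub_zero]
  obtain ⟨K, i, e, hie, hei⟩ := IsIdempotentComplete.idempotents_split B _ hp
  have hih : i ≫ h = 0 := by
    calc i ≫ h = i ≫ (e ≫ i) ≫ h := by rw [← Category.assoc, ← Category.assoc, hie, Category.id_comp]
      _ = 0 := by
        rw [hei, Preadditive.sub_comp, Category.id_comp, Category.assoc, hγ, sub_self, comp_zero]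
  obtain ⟨k, hk⟩ := ce3 hT i hih
  obtain ⟨Q, q, κ, hQ⟩ := distinguished_cocone_triangle k
  obtain ⟨I, j, ι, hI⟩ := distinguished_cocone_triangle i
  have O := someOctahedron hk.symm hQ (rotD hT) hI
  have hι : ι = 0 := by
    have h1 : ι ≫ i⟦(1 : ℤ)⟧' = 0 := comp31 hI
    have h2 : i⟦(1 : ℤ)⟧' ≫ e⟦(1 : ℤ)⟧' = 𝟙 _ := by
      rw [← Functor.map_comp, hie, CategoryTheory.Functor.map_id]
    rw [← Category.comp_id ι, ← h2, ← Category.assoc, h1, zero_comp]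
  obtain ⟨σ, hσ⟩ := split3' hI hι
  have hj : O.m₃ ≫ γ ≫ j = 𝟙 _ := by
    have h1 : j ≫ O.m₃ = h := O.comm₃
    have h2 : j ≫ O.m₃ ≫ γ ≫ j = j := by
      have h3 : h ≫ γ = 𝟙 B - e ≫ i := by rw [hei]; abel
      rw [← Category.assoc, h1, ← Category.assoc, h3, Preadditive.sub_comp, Category.id_comp,
        Category.assoc, comp12 hI, comp_zero, sub_zero]
    calc O.m₃ ≫ γ ≫ j = (σ ≫ j) ≫ O.m₃ ≫ γ ≫ j := by rw [hσ, Category.id_comp]
      _ = 𝟙 _ := by rw [Category.assoc, h2, hσ]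
  have hm1 : O.m₁ = 0 := by
    have h1 : O.m₁ ≫ O.m₃ = 0 := comp12 O.mem
    rw [← Category.comp_id O.m₁, ← hj, ← Category.assoc, h1, zero_comp]
  obtain ⟨s, hs⟩ := split1 O.mem hm1
  obtain ⟨s', rfl⟩ := (shiftFunctor C (1 : ℤ)).map_surjective s
  obtain ⟨d, hd⟩ : ∃ d : A ⟶ Q, d⟦(1 : ℤ)⟧' = ((-f⟦(1 : ℤ)⟧') ≫ q⟦(1 : ℤ)⟧') :=
    ⟨-(f ≫ q), by rw [Functor.map_neg, Functor.map_comp, Preadditive.neg_comp]⟩
  have hsd : s' ≫ d = 𝟙 _ := by
    apply (shiftFunctor C (1 : ℤ)).map_injective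
    rw [Functor.map_comp, hd, CategoryTheory.Functor.map_id]
    exact hs
  refine ⟨K, Q, ?_, ?_, ⟨_, _, _, hQ⟩⟩
  · refine S_ret hB (i⟦-(n + 1)⟧') (e⟦-(n + 1)⟧') ?_
    rw [← Functor.map_comp, hie, CategoryTheory.Functor.map_id]
  · refine S_ret hA (s'⟦-n⟧') (d⟦-n⟧') ?_
    rw [← Functor.map_comp, hsd, CategoryTheory.Functor.map_id]

include hN hR in
lemma sort_at (n : ℤ) {X : C} (hX : Wd (Lt S Set.univ) X) :
    ∃ K Q, Wd (Lt S {k | n ≤ k}) K ∧ Wd (Lt S {k | k < n}) Q ∧ ET K X Q := by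
  refine sort_word (Lo := Lt S {k | k < n}) (Hi := Lt S {k | n ≤ k}) ?_ (hX.mono ?_)
  · rintro A X B ⟨a, ha, hA⟩ ⟨b, hb, hB⟩ h
    simp only [Set.mem_ofPred_eq] at ha hb
    obtain ⟨K, Q, hK, hQ, h'⟩ := swap hN hR hA hB (by omega) h
    exact ⟨K, Q, ⟨b, hb, hK⟩, ⟨a, ha, hQ⟩, h'⟩
  · rintro A ⟨a, -, hA⟩
    rcases lt_or_ge a n with h | h
    · exact Or.inl ⟨a, h, hA⟩
    · exact Or.inr ⟨a, h, hA⟩

omit [IsTriangulated C] [IsIdempotentComplete C] [S.IsStableUnderRetracts] in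
lemma Wd.bdd {X : C} (hX : Wd (Lt S Set.univ) X) : ∃ a b : ℤ, Wd (Lt S (Set.Icc a b)) X := by
  induction hX with
  | zero h => exact ⟨0, 0, .zero h⟩
  | cons hA hT _ ih =>
    obtain ⟨n, -, hA⟩ := hA
    obtain ⟨a, b, hB⟩ := ih
    refine ⟨min a n, max b n, .cons ⟨n, by simp, hA⟩ hT (hB.mono (Lt.mono ?_))⟩
    exact Set.Icc_subset_Icc (min_le_left _ _) (le_max_left _ _)

omit [IsIdempotentComplete C] in
/-- Auxiliary: words with arbitrarily distant copies of a retract. -/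
lemma ret_aux {X Y : C} (hX : Wd (Lt S Set.univ) X) (i : Y ⟶ X) (r : X ⟶ Y)
    (hir : i ≫ r = 𝟙 _) (k : ℕ) : ∃ W, Wd (Lt S Set.univ) W ∧ ET (Y⟦(2 * k + 1 : ℤ)⟧) W Y := by
  have hsh : ∀ (a : ℤ) {Z : C}, Wd (Lt S Set.univ) Z → Wd (Lt S Set.univ) (Z⟦a⟧) :=
    fun a Z hZ => hZ.shift a (Lt.shift a (fun _ _ => Set.mem_univ _))
  obtain ⟨Y', q, d, hT⟩ := distinguished_cocone_triangle i
  have hd : d = 0 := by
    have h1 : d ≫ i⟦(1 : ℤ)⟧' = 0 := comp31 hT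
    have h2 : i⟦(1 : ℤ)⟧' ≫ r⟦(1 : ℤ)⟧' = 𝟙 _ := by
      rw [← Functor.map_comp, hir, CategoryTheory.Functor.map_id]
    rw [← Category.comp_id d, ← h2, ← Category.assoc, h1, zero_comp]
  have h1 : ET Y' X Y := ET.comm hT hd
  have h2 : ET X Y' (Y⟦(1 : ℤ)⟧) := (ET.of hT).rot
  obtain ⟨W, h3, h4⟩ := h1.assocL h2
  have hW : Wd (Lt S Set.univ) W := Wd.ext hX (hsh 1 hX) h3.rot
  induction k with
  | zero => exact ⟨W, hW, h4.iso (eqToIso (by simp)) (Iso.refl _) (Iso.refl _)⟩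
  | succ k ih =>
    obtain ⟨V, hV, h5⟩ := ih
    have h6 : ET V Y (Y⟦(2 * k + 2 : ℤ)⟧) := h5.rot.iso (Iso.refl _) (Iso.refl _)
      ((shiftFunctorAdd' C (2 * k + 1 : ℤ) 1 (2 * k + 2) (by ring)).app Y).symm
    have h7 : ET (W⟦(2 * k + 2 : ℤ)⟧) (Y⟦(2 * k + 2 : ℤ)⟧) (Y⟦(2 * k + 4 : ℤ)⟧) :=
      (h4.shift (2 * k + 2)).rot.iso (Iso.refl _) (Iso.refl _)
        ((shiftFunctorAdd' C (2 * k + 3 : ℤ) 1 (2 * k + 4) (by ring)).app Y ≪≫
          (shiftFunctor C (1 : ℤ)).mapIso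
            ((shiftFunctorAdd' C (1 : ℤ) (2 * k + 2) (2 * k + 3) (by ring)).app Y)).symm
    obtain ⟨U, h8, h9⟩ := h6.assocR h7
    refine ⟨U, Wd.ext hV (hsh _ hW) h8, ?_⟩
    refine h9.inv.iso ?_ (Iso.refl _) (Iso.refl _)
    exact ((shiftFunctorAdd' C (2 * k + 4 : ℤ) (-1) (2 * ((k + 1 : ℕ) : ℤ) + 1)
      (by push_cast; ring)).app Y).symm

include hN hR in
/-- The words are stable under retracts. -/
lemma Wd.retract {X Y : C} (hX : Wd (Lt S Set.univ) X) (i : Y ⟶ X) (r : X ⟶ Y)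
    (hir : i ≫ r = 𝟙 _) : Wd (Lt S Set.univ) Y := by
  obtain ⟨a, b, hab⟩ := hX.bdd
  obtain ⟨W, hW, h1⟩ := ret_aux hX i r hir (b - a).natAbs
  obtain ⟨K, Q, hK, hQ, h2⟩ := sort_at hN hR (b + 1) hW
  have h3 : ∀ (c : ℤ), Wd (Lt S (Set.Icc (a + c) (b + c))) (X⟦c⟧) := fun c =>
    hab.shift c (Lt.shift c (fun n hn => by simp only [Set.mem_Icc] at hn ⊢; omega))
  have h4 : ∀ (c : ℤ), b < a + c → ∀ Z, Wd (Lt S {k | k < b + 1}) Z → ∀ f : Y⟦c⟧ ⟶ Z, f = 0 := by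
    intro c hc Z hZ f
    have h5 : r⟦c⟧' ≫ f = 0 := hom_Wd hN (by
      intro n hn m hm
      simp only [Set.mem_Icc, Set.mem_ofPred_eq] at hn hm
      omega) (h3 c) hZ _
    rw [← Category.id_comp f, ← CategoryTheory.Functor.map_id, ← hir, Functor.map_comp,
      Category.assoc, h5, comp_zero]
  have h6 : ∀ Z, Wd (Lt S {k | b + 1 ≤ k}) Z → ∀ f : Z ⟶ Y, f = 0 := by
    intro Z hZ f
    have h5 : f ≫ i = 0 := hom_Wd hN (by
      intro n hn m hm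
      simp only [Set.mem_Icc, Set.mem_ofPred_eq] at hn hm
      omega) hZ hab _
    rw [← Category.comp_id f, ← hir, ← Category.assoc, h5, zero_comp]
  have h7 : ∀ (c : ℤ), b < a + c → ∀ f : Y⟦c⟧ ⟶ Y, f = 0 := by
    intro c hc f
    have h5 : f ≫ i = 0 := h4 c hc X (hab.mono (Lt.mono (fun k hk => by
      simp only [Set.mem_Icc, Set.mem_ofPred_eq] at hk ⊢; omega))) _
    rw [← Category.comp_id f, ← hir, ← Category.assoc, h5, zero_comp]
  have hc : b < a + (2 * ((b - a).natAbs : ℤ) + 1) := by omega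
  obtain ⟨e⟩ := ET.unique h1 h2 (h4 _ hc Q hQ) (h6 K hK)
    (fun f => by
      rw [← cancel_epi ((shiftFunctorAdd' C (2 * ((b - a).natAbs : ℤ) + 1) 1
        (2 * ((b - a).natAbs : ℤ) + 1 + 1) rfl).app Y).hom, comp_zero]
      exact h7 _ (by omega) _)
    (hom_Wd hN (p := {k | b + 2 ≤ k}) (by
      intro n hn m hm
      simp only [Set.mem_ofPred_eq] at hn hm
      omega) (hK.shift 1 (Lt.shift 1 (fun k hk => by
        simp only [Set.mem_ofPred_eq] at hk ⊢; omega))) hQ)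
  exact (hQ.mono (Lt.mono (Set.subset_univ _))).iso e.symm

include hN hR in
/-- Every object is a word, if every object of a generating class is. -/
theorem Wd.all (P : ObjectProperty C) (hP : P.IsClassicalTriangulatedGenerator)
    (hPS : ∀ X, P X → Wd (Lt S Set.univ) X) (X : C) : Wd (Lt S Set.univ) X := by
  let Q : ObjectProperty C := Wd (Lt S Set.univ)
  have hsh : ∀ (a : ℤ) {Z : C}, Wd (Lt S Set.univ) Z → Wd (Lt S Set.univ) (Z⟦a⟧) :=
    fun a Z hZ => hZ.shift a (Lt.shift a (fun _ _ => Set.mem_univ _))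
  have i1 : Q.IsClosedUnderIsomorphisms := ⟨fun e h => Wd.iso h e⟩
  have i2 : Q.IsStableUnderRetracts := ⟨fun h hY => Wd.retract hN hR hY h.i h.r h.retract⟩
  have i3 : Q.IsTriangulatedClosed₂ := .mk' (fun T hT h1 h3 => Wd.ext h1 h3 ⟨_, _, _, hT⟩)
  have i4 : Q.IsStableUnderShift ℤ := ⟨fun a => ⟨fun Z hZ => hsh a hZ⟩⟩
  have i5 : Q.ContainsZero := ⟨⟨0, isZero_zero C, .zero (isZero_zero C)⟩⟩
  have i6 : Q.IsTriangulated := { }
  have h1 : P.triangEnvelope ≤ Q := (ObjectProperty.triangEnvelope_le_iff P).2 hPS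
  rw [hP] at h1
  exact h1 X trivial

/-- The t-structure generated by a regular class of objects. -/
theorem gen_tStructure
    (hN : ∀ A B, S A → S B → ∀ m : ℤ, m < 0 → ∀ f : A ⟶ B⟦m⟧, f = 0)
    (hR : ∀ A B, S A → S B → ∀ f : A ⟶ B, ∃ g : B ⟶ A, f ≫ g ≫ f = f)
    (hall : ∀ X : C, Wd (Lt S Set.univ) X) :
    ∃ t : TStructure C, (∀ n X, t.le n X ↔ Wd (Lt S {k | -n ≤ k}) X) ∧
      (∀ n X, t.ge n X ↔ Wd (Lt S {k | k ≤ -n}) X) := by
  refine ⟨{ le := fun n => Wd (Lt S {k | -n ≤ k})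
            ge := fun n => Wd (Lt S {k | k ≤ -n})
            le_isClosedUnderIsomorphisms := fun n => ⟨fun e h => Wd.iso h e⟩
            ge_isClosedUnderIsomorphisms := fun n => ⟨fun e h => Wd.iso h e⟩
            le_shift := fun n a n' h X hX => hX.shift a (Lt.shift a (fun k hk => by
              simp only [Set.mem_ofPred_eq] at hk ⊢; omega))
            ge_shift := fun n a n' h X hX => hX.shift a (Lt.shift a (fun k hk => by
              simp only [Set.mem_ofPred_eq] at hk ⊢; omega))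
            zero' := fun X Y f hX hY => hom_Wd hN (by
              intro n hn m hm
              simp only [Set.mem_ofPred_eq] at hn hm
              omega) hX hY f
            le_zero_le := fun X hX => hX.mono (Lt.mono (fun k hk => by
              simp only [Set.mem_ofPred_eq] at hk ⊢; omega))
            ge_one_le := fun X hX => hX.mono (Lt.mono (fun k hk => by
              simp only [Set.mem_ofPred_eq] at hk ⊢; omega))
            exists_triangle_zero_one := fun A => ?_ }, fun n X => Iff.rfl, fun n X => Iff.rfl⟩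
  obtain ⟨K, Q, hK, hQ, f, g, h, hT⟩ := sort_at hN hR 0 (hall A)
  refine ⟨K, Q, hK.mono (Lt.mono (fun k hk => ?_)), hQ.mono (Lt.mono (fun k hk => ?_)), f, g, h, hT⟩
  · simp only [Set.mem_ofPred_eq] at hk ⊢; omega
  · simp only [Set.mem_ofPred_eq] at hk ⊢; omega

end Letters

end Pool.Agent.Y116.MT
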