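import Pool.Agent.Y116.MT.Heart

/-!
# Exact sequences of a homological functor, unbundled
-/

set_option autoImplicit false
set_option linter.unusedSectionVars false
set_option linter.unusedSimpArgs false
set_option backward.isDefEq.respectTransparency false
set_option backward.defeqAttrib.useBackward true

open CategoryTheory Limits MonoidalCategory Pretriangulated Triangulated

namespace Pool.Agent.Y116.MT

universe v u w

section Hom

variable {C : Type u} [Category.{v} C] [Preadditive C] [HasZeroObject C] [HasShift C ℤ]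
  [∀ n : ℤ, (shiftFunctor C n).Additive] [Pretriangulated C]
  {A : Type*} [Category A] [Abelian A] (H : C ⥤ A) [H.IsHomological]
  {X Y Z : C} {f : X ⟶ Y} {g : Y ⟶ Z} {h : Z ⟶ X⟦(1 : ℤ)⟧}
  (hT : Triangle.mk f g h ∈ distTriang C)

include hT

lemma hmono1 (n : ℤ) (hZ : IsZero (H.obj (Z⟦n - 1⟧))) : Mono (H.map (f⟦n⟧')) := by
  let _ := Functor.ShiftSequence.tautological H ℤ
  exact (H.homologySequence_mono_shift_map_mor₁_iff _ hT (n - 1) n (by omega)).2
    (IsZero.eq_of_src (X := (H.shift (n - 1)).obj Z) hZ _ _)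

lemma hepi1 (n : ℤ) (hZ : IsZero (H.obj (Z⟦n⟧))) : Epi (H.map (f⟦n⟧')) := by
  let _ := Functor.ShiftSequence.tautological H ℤ
  exact (H.homologySequence_epi_shift_map_mor₁_iff _ hT n).2
    (IsZero.eq_of_tgt (X := (H.shift n).obj Z) hZ _ _)

lemma hmono2 (n : ℤ) (hX : IsZero (H.obj (X⟦n⟧))) : Mono (H.map (g⟦n⟧')) := by
  let _ := Functor.ShiftSequence.tautological H ℤ
  exact (H.homologySequence_mono_shift_map_mor₂_iff _ hT n).2
    (IsZero.eq_of_src (X := (H.shift n).obj X) hX _ _)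

lemma hepi2 (n : ℤ) (hX : IsZero (H.obj (X⟦n + 1⟧))) : Epi (H.map (g⟦n⟧')) := by
  let _ := Functor.ShiftSequence.tautological H ℤ
  exact (H.homologySequence_epi_shift_map_mor₂_iff _ hT n (n + 1) (by omega)).2
    (IsZero.eq_of_tgt (X := (H.shift (n + 1)).obj X) hX _ _)

lemma hz2 (n : ℤ) (hX : IsZero (H.obj (X⟦n⟧))) (hZ : IsZero (H.obj (Z⟦n⟧))) :
    IsZero (H.obj (Y⟦n⟧)) := by
  have := hmono2 H hT n hX
  rw [IsZero.iff_id_eq_zero, ← cancel_mono (H.map (g⟦n⟧'))]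
  exact hZ.eq_of_tgt _ _

lemma hz1 (n : ℤ) (hY : IsZero (H.obj (Y⟦n⟧))) (hZ : IsZero (H.obj (Z⟦n - 1⟧))) :
    IsZero (H.obj (X⟦n⟧)) := by
  have := hmono1 H hT n hZ
  rw [IsZero.iff_id_eq_zero, ← cancel_mono (H.map (f⟦n⟧'))]
  exact hY.eq_of_tgt _ _

lemma hz3 (n : ℤ) (hY : IsZero (H.obj (Y⟦n⟧))) (hX : IsZero (H.obj (X⟦n + 1⟧))) :
    IsZero (H.obj (Z⟦n⟧)) := by
  have := hepi2 H hT n hX
  rw [IsZero.iff_id_eq_zero, ← cancel_epi (H.map (g⟦n⟧'))]
  exact hY.eq_of_src _ _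

end Hom

end Pool.Agent.Y116.MT
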