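import Mathlib

/-!
# A pairing lemma in linear algebra
-/

set_option autoImplicit false
set_option linter.unusedSectionVars false

namespace Pool.Agent.Y116.MT

section

variable {A B : Type*} [AddCommGroup A] [Module ℚ A] [AddCommGroup B] [Module ℚ B]
  {E : Type*} [Field E] [Algebra ℚ E] {V : Type*} [AddCommGroup V] [Module E V]
  [Module.Finite E V] (p : A →ₗ[ℚ] B →ₗ[ℚ] ℚ) (α : A → V) (β : B → V →ₗ[E] E)
  (h : ∀ a b, β b (α a) = algebraMap ℚ E (p a b))

include h in
lemma finite_quot : Module.Finite ℚ (B ⧸ LinearMap.ker p.flip) := by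
  classical
  obtain ⟨s, hs, hspan⟩ := (Submodule.fg_span_iff_fg_span_finset_subset
    (R := E) (Set.range α)).1 (IsNoetherian.noetherian _)
  choose g hg using fun x : s => hs x.2
  let f : B →ₗ[ℚ] (s → ℚ) := LinearMap.pi fun x => p (g x)
  have hf : LinearMap.ker f ≤ LinearMap.ker p.flip := by
    intro b hb
    rw [LinearMap.mem_ker]
    ext a
    have h1 : α a ∈ Submodule.span E (Set.range α) := Submodule.subset_span ⟨a, rfl⟩
    rw [hspan] at h1
    have h2 : Submodule.span E (s : Set V) ≤ LinearMap.ker (β b) := by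
      rw [Submodule.span_le]
      intro x hx
      have h3 : p (g ⟨x, hx⟩) b = 0 := congrFun hb ⟨x, hx⟩
      have h4 := h (g ⟨x, hx⟩) b
      rw [h3, map_zero, hg] at h4
      exact h4
    have h3 : β b (α a) = 0 := h2 h1
    rw [h] at h3
    exact (map_eq_zero _).1 h3
  have h2 : Function.Injective ((LinearMap.ker p.flip).liftQ
      ((LinearMap.pi fun x => p (g x) : B →ₗ[ℚ] (s → ℚ))) (by
        intro b hb
        rw [LinearMap.mem_ker]
        ext x
        exact LinearMap.congr_fun hb (g x))) := by
    rw [← LinearMap.ker_eq_bot, Submodule.ker_liftQ_eq_bot']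
    refine le_antisymm ?_ hf
    intro b hb
    rw [LinearMap.mem_ker]
    ext x
    exact LinearMap.congr_fun hb (g x)
  exact Module.Finite.of_injective _ h2

/-- Non-degenerate pairings and finite dimension: an injection is a surjection. -/
theorem pairing_surj (h : ∀ a b, β b (α a) = algebraMap ℚ E (p a b)) (φ : B →ₗ[ℚ] A)
    (h1 : ∀ b, φ b ∈ LinearMap.ker p → b ∈ LinearMap.ker p.flip)
    (h2 : ∀ b, b ∈ LinearMap.ker p.flip → φ b ∈ LinearMap.ker p) (a : A) :
    ∃ b, a - φ b ∈ LinearMap.ker p := by
  have hfin := finite_quot p α β h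
  let K := LinearMap.ker p
  let K' := LinearMap.ker p.flip
  -- the two injections
  let u : (A ⧸ K) →ₗ[ℚ] Module.Dual ℚ (B ⧸ K') := K.liftQ
    { toFun := fun a => K'.liftQ (p a) (fun b hb => LinearMap.congr_fun hb a)
      map_add' := fun a a' => by
        apply Submodule.linearMap_qext
        ext b
        change p (a + a') b = p a b + p a' b
        rw [map_add]
        rfl
      map_smul' := fun q a => by
        apply Submodule.linearMap_qext
        ext b
        change p (q • a) b = q • p a b
        rw [map_smul]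
        rfl } (by
      intro a ha
      rw [LinearMap.mem_ker]
      apply Submodule.linearMap_qext
      ext b
      exact LinearMap.congr_fun ha b)
  have hu : Function.Injective u := by
    rw [← LinearMap.ker_eq_bot, Submodule.ker_liftQ_eq_bot']
    apply le_antisymm
    · intro a ha
      rw [LinearMap.mem_ker]
      apply Submodule.linearMap_qext
      ext b
      exact LinearMap.congr_fun ha b
    · intro a ha
      rw [LinearMap.mem_ker]
      ext b
      exact LinearMap.congr_fun ha (Submodule.Quotient.mk b)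
  have hfA : Module.Finite ℚ (A ⧸ K) := Module.Finite.of_injective u hu
  have d1 : Module.finrank ℚ (A ⧸ K) ≤ Module.finrank ℚ (B ⧸ K') := by
    rw [← Subspace.dual_finrank_eq (K := ℚ) (V := B ⧸ K')]
    exact LinearMap.finrank_le_finrank_of_injective hu
  let w : (B ⧸ K') →ₗ[ℚ] (A ⧸ K) := K'.mapQ K φ (fun b hb => h2 b hb)
  have hw : Function.Injective w := by
    rw [injective_iff_map_eq_zero]
    intro x hx
    obtain ⟨b, rfl⟩ := Submodule.Quotient.mk_surjective _ x
    have h3 : (Submodule.Quotient.mk (φ b) : A ⧸ K) = 0 := hx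
    rw [Submodule.Quotient.mk_eq_zero] at h3
    rw [Submodule.Quotient.mk_eq_zero]
    exact h1 b h3
  have d2 : Module.finrank ℚ (B ⧸ K') = Module.finrank ℚ (A ⧸ K) :=
    le_antisymm (LinearMap.finrank_le_finrank_of_injective hw) d1
  have hs : Function.Surjective w := (LinearMap.injective_iff_surjective_of_finrank_eq_finrank d2).1 hw
  obtain ⟨x, hx⟩ := hs (Submodule.Quotient.mk a)
  obtain ⟨b, rfl⟩ := Submodule.Quotient.mk_surjective _ x
  refine ⟨b, ?_⟩
  have h3 : (Submodule.Quotient.mk (φ b) : A ⧸ K) = Submodule.Quotient.mk a := hx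
  rw [Submodule.Quotient.eq] at h3
  have h4 := K.neg_mem h3
  rwa [neg_sub] at h4

end

end Pool.Agent.Y116.MT
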