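import Pool.Agent.Y116.MT.Trunc
import Pool.Agent.Y116.MT.LA

/-!
# Morphisms which are zero on the cohomology, and traces
-/

set_option autoImplicit false
set_option linter.unusedSectionVars false
set_option linter.unusedSimpArgs false
set_option backward.isDefEq.respectTransparency false
set_option backward.defeqAttrib.useBackward true

open CategoryTheory Limits MonoidalCategory Pretriangulated Triangulated

namespace Pool.Agent.Y116.MT

universe v u w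

open Functor.LaxMonoidal

section Tr

variable {C : Type u} [Category.{v} C] [MonoidalCategory C] [SymmetricCategory C]
  [RightRigidCategory C]

/-- The functional `a ↦ tr (a ≫ b)`. -/
def fn {X Y : C} (b : Y ⟶ X) : Y ⊗ Xᘁ ⟶ 𝟙_ C := b ▷ Xᘁ ≫ (β_ X Xᘁ).hom ≫ ε_ X Xᘁ

lemma nm_fn {X Y : C} (a : X ⟶ Y) (b : Y ⟶ X) : nm a ≫ fn b = tr (a ≫ b) := by
  simp only [nm, fn, tr, comp_whiskerRight, Category.assoc]

lemma exists_fn {X Y : C} (r : Y ⊗ Xᘁ ⟶ 𝟙_ C) : ∃ b : Y ⟶ X, r = fn b := by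
  let _ : ExactPairing (Xᘁ) X := BraidedCategory.exactPairing_swap X Xᘁ
  refine ⟨(tensorRightHomEquiv Y Xᘁ X (𝟙_ C)) r ≫ (λ_ X).hom, ?_⟩
  conv_lhs => rw [← (tensorRightHomEquiv Y Xᘁ X (𝟙_ C)).symm_apply_apply r]
  have h2 : ε_ (Xᘁ) X = (β_ X Xᘁ).hom ≫ ε_ X Xᘁ := rfl
  rw [fn, ← h2]
  generalize (tensorRightHomEquiv Y Xᘁ X (𝟙_ C)) r = b
  simp only [tensorRightHomEquiv, Equiv.coe_fn_symm_mk]
  rw [← unitors_equal, leftUnitor_naturality, comp_whiskerRight, Category.assoc,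
    leftUnitor_tensor_hom_assoc]
  simp

lemma tr_cyc {X Y : C} (a : X ⟶ Y) (b : Y ⟶ X) : tr (a ≫ b) = tr (b ≫ a) := by
  have h1 : (bᘁ ▷ Y) ≫ ε_ Y Yᘁ = (Xᘁ ◁ b) ≫ ε_ X Xᘁ := rightAdjointMate_comp_evaluation b
  have h2 : η_ X Xᘁ ≫ X ◁ bᘁ = η_ Y Yᘁ ≫ b ▷ Yᘁ := coevaluation_comp_rightAdjointMate b
  have h3 : tr (a ≫ b) = η_ X Xᘁ ≫ a ▷ Xᘁ ≫ Y ◁ bᘁ ≫ (β_ Y Yᘁ).hom ≫ ε_ Y Yᘁ := by
    simp only [tr, comp_whiskerRight, Category.assoc]
    rw [BraidedCategory.braiding_naturality_left_assoc,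
      BraidedCategory.braiding_naturality_right_assoc, h1]
  have h4 : tr (b ≫ a) = η_ X Xᘁ ≫ a ▷ Xᘁ ≫ Y ◁ bᘁ ≫ (β_ Y Yᘁ).hom ≫ ε_ Y Yᘁ := by
    simp only [tr, comp_whiskerRight, Category.assoc]
    rw [← reassoc_of% h2, whisker_exchange_assoc]
  rw [h3, h4]

end Tr

section

variable {C : Type u} [Category.{v} C] [Preadditive C] [HasZeroObject C] [HasShift C ℤ]
  [∀ n : ℤ, (shiftFunctor C n).Additive] [Pretriangulated C] [MonoidalCategory C]
  [SymmetricCategory C] [TensorTriangulated C] {E : Type w} [Field E] {R : Realisation C E}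

/-- `f` is zero on the cohomology. -/
def HTriv (R : Realisation C E) {X Y : C} (f : X ⟶ Y) : Prop := ∀ i : ℤ, R.H.map (f⟦i⟧') = 0

lemma HTriv.comp_right {X Y Z : C} {f : X ⟶ Y} (h : HTriv R f) (g : Y ⟶ Z) : HTriv R (f ≫ g) :=
  fun i => by rw [Functor.map_comp, Functor.map_comp, h i, zero_comp]

lemma HTriv.comp_left {X Y Z : C} {f : Y ⟶ Z} (h : HTriv R f) (g : X ⟶ Y) : HTriv R (g ≫ f) :=
  fun i => by rw [Functor.map_comp, Functor.map_comp, h i, comp_zero]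

lemma HTriv.sub {X Y : C} {f g : X ⟶ Y} (hf : HTriv R f) (hg : HTriv R g) : HTriv R (f - g) :=
  fun i => by rw [Functor.map_sub, Functor.map_sub, hf i, hg i, sub_zero]

lemma HTriv.add {X Y : C} {f g : X ⟶ Y} (hf : HTriv R f) (hg : HTriv R g) : HTriv R (f + g) :=
  fun i => by rw [Functor.map_add, Functor.map_add, hf i, hg i, add_zero]

lemma map_shift_zero_iff {X Y : C} (f : X ⟶ Y) : R.H.map (f⟦(0 : ℤ)⟧') = 0 ↔ R.H.map f = 0 := by
  have h5 : f⟦(0 : ℤ)⟧' = (shiftFunctorZero C ℤ).hom.app _ ≫ f ≫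
      (shiftFunctorZero C ℤ).inv.app _ := shiftZero' (A := ℤ) (f := f)
  constructor
  · intro h
    rw [h5, Functor.map_comp, Functor.map_comp] at h
    rw [← cancel_epi (R.H.map ((shiftFunctorZero C ℤ).hom.app X)), comp_zero,
      ← cancel_mono (R.H.map ((shiftFunctorZero C ℤ).inv.app Y)), zero_comp, Category.assoc]
    exact h
  · intro h
    rw [h5, Functor.map_comp, Functor.map_comp, h, zero_comp, comp_zero]

lemma HTriv.zero {X Y : C} {f : X ⟶ Y} (h : HTriv R f) : R.H.map f = 0 :=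
  (map_shift_zero_iff f).1 (h 0)

lemma htriv_unit {Y : C} {f : 𝟙_ C ⟶ Y} (h : R.H.map f = 0) : HTriv R f := by
  intro i
  by_cases hi : i = 0
  · subst hi
    exact (map_shift_zero_iff f).2 h
  · exact ((deg_unit (R := R)) i hi).eq_of_src _ _

lemma HTriv.whisker {X Y : C} {f : X ⟶ Y} (h : HTriv R f) (W : C) : HTriv R (f ▷ W) := by
  intro n
  have h1 := map_tensor_shift_zero (R := R) f (𝟙 W) n (fun i => Or.inl (h i))
  rwa [MonoidalCategory.whiskerLeft_id, Category.comp_id] at h1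

variable [RightRigidCategory C]

lemma htriv_nm {X Y : C} {a : X ⟶ Y} (h : HTriv R a) : HTriv R (nm a) :=
  (h.whisker _).comp_left _

lemma htriv_of_nm {X Y : C} {a : X ⟶ Y} (h : R.H.map (nm a) = 0) : HTriv R a := by
  rw [nm_recover a]
  exact (((htriv_unit h).whisker X).comp_right _).comp_left _

lemma htriv_fn {X Y : C} {b : Y ⟶ X} (h : HTriv R b) : HTriv R (fn b) :=
  (h.whisker _).comp_right _

variable [MonoidalPreadditive C] [Linear ℚ C]

lemma end_unit_zero (R : Realisation C E) (hEnd : ∀ e : 𝟙_ C ⟶ 𝟙_ C, ∃ q : ℚ, e = q • 𝟙 _)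
    {e : 𝟙_ C ⟶ 𝟙_ C} (he : R.H.map e = 0) : e = 0 := by
  have hE := charZero_of_real R
  obtain ⟨q, rfl⟩ := hEnd e
  have h1 := scal (R := R) q
  rw [he, zero_comp, comp_zero] at h1
  have h2 : (q : E) = 0 := h1.symm
  have h3 : q = 0 := by exact_mod_cast h2
  rw [h3, zero_smul]

lemma tr_zero_of_htriv (R : Realisation C E) (hEnd : ∀ e : 𝟙_ C ⟶ 𝟙_ C, ∃ q : ℚ, e = q • 𝟙 _)
    {X Y : C} {a : X ⟶ Y} (h : HTriv R a) (b : Y ⟶ X) : tr (a ≫ b) = 0 := by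
  rw [← nm_fn]
  exact end_unit_zero R hEnd ((htriv_nm h).comp_right _).zero

/-- Coordinates of endomorphisms of the unit. -/
lemma exists_coord (R : Realisation C E) (hEnd : ∀ e : 𝟙_ C ⟶ 𝟙_ C, ∃ q : ℚ, e = q • 𝟙 _) :
    ∃ κ : (𝟙_ C ⟶ 𝟙_ C) →ₗ[ℚ] ℚ, ∀ e, e = κ e • 𝟙 (𝟙_ C) := by
  let L : ℚ →ₗ[ℚ] (𝟙_ C ⟶ 𝟙_ C) := LinearMap.toSpanSingleton ℚ _ (𝟙 _)
  have hL : Function.Bijective L := by
    constructor
    · rw [injective_iff_map_eq_zero]
      intro q hq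
      have hq' : q • 𝟙 (𝟙_ C) = 0 := hq
      by_contra hne
      apply not_isZero_unit R
      rw [IsZero.iff_id_eq_zero, ← one_smul ℚ (𝟙 (𝟙_ C)), ← inv_mul_cancel₀ hne, mul_smul, hq',
        smul_zero]
    · intro e
      obtain ⟨q, hq⟩ := hEnd e
      exact ⟨q, hq.symm⟩
  exact ⟨(LinearEquiv.ofBijective L hL).symm.toLinearMap,
    fun e => ((LinearEquiv.ofBijective L hL).apply_symm_apply e).symm⟩

end

section Num

variable {C : Type u} [Category.{v} C] [Preadditive C] [HasZeroObject C] [HasShift C ℤ]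
  [∀ n : ℤ, (shiftFunctor C n).Additive] [Pretriangulated C] [MonoidalCategory C]
  [SymmetricCategory C] [TensorTriangulated C] [RightRigidCategory C] [MonoidalPreadditive C]
  [Linear ℚ C] {Λ : Type*} [Nonempty Λ] {E : Λ → Type w} [∀ l, Field (E l)]
  {R : ∀ l, Realisation C (E l)} {Chow : ObjectProperty C}

/-- Numerically trivial morphisms between Chow motives are zero on the cohomology. -/
lemma htriv_of_tr (hC : IsChow Chow)
    (hD : ∀ (P : C) (s : 𝟙_ C ⟶ P), Chow P → (∀ r : P ⟶ 𝟙_ C, s ≫ r = 0) →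
      ∀ l, (R l).H.map s = 0) {X Y : C} (hX : Chow X) (hY : Chow Y) {a : X ⟶ Y}
    (h : ∀ b : Y ⟶ X, tr (a ≫ b) = 0) (l : Λ) : HTriv (R l) a := by
  apply htriv_of_nm
  refine hD _ _ (hC.tensor _ _ hY (hC.dual _ hX)) (fun r => ?_) l
  obtain ⟨b, rfl⟩ := exists_fn r
  rw [nm_fn, h]

lemma htriv_all (hEnd : ∀ e : 𝟙_ C ⟶ 𝟙_ C, ∃ q : ℚ, e = q • 𝟙 _) (hC : IsChow Chow)
    (hD : ∀ (P : C) (s : 𝟙_ C ⟶ P), Chow P → (∀ r : P ⟶ 𝟙_ C, s ≫ r = 0) →
      ∀ l, (R l).H.map s = 0) {X Y : C} (hX : Chow X) (hY : Chow Y) {a : X ⟶ Y} {l₀ : Λ}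
    (h : HTriv (R l₀) a) (l : Λ) : HTriv (R l) a :=
  htriv_of_tr hC hD hX hY (fun b => tr_zero_of_htriv (R l₀) hEnd h b) l

/-- A morphism which is an isomorphism on the only common degree of the cohomology splits there. -/
theorem split_low (hEnd : ∀ e : 𝟙_ C ⟶ 𝟙_ C, ∃ q : ℚ, e = q • 𝟙 _) (hC : IsChow Chow)
    (hD : ∀ (P : C) (s : 𝟙_ C ⟶ P), Chow P → (∀ r : P ⟶ 𝟙_ C, s ≫ r = 0) →
      ∀ l, (R l).H.map s = 0) {X Y : C} (hX : Chow X) (hY : Chow Y) (g : X ⟶ Y) (n : ℤ)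
    (h1 : ∀ l, ∀ i < n, IsZero ((R l).H.obj (X⟦i⟧)))
    (h2 : ∀ l, ∀ i, n < i → IsZero ((R l).H.obj (Y⟦i⟧)))
    (h3 : ∀ l, IsIso ((R l).H.map (g⟦n⟧'))) :
    ∃ b : Y ⟶ X, ∀ l, (R l).H.map ((g ≫ b)⟦n⟧') = 𝟙 _ := by
  obtain ⟨l₀⟩ := ‹Nonempty Λ›
  have hE := charZero_of_real (R l₀)
  obtain ⟨κ, hκ⟩ := exists_coord (R l₀) hEnd
  let p : (X ⟶ Y) →ₗ[ℚ] (Y ⟶ X) →ₗ[ℚ] ℚ := LinearMap.mk₂ ℚ (fun a b => κ (tr (a ≫ b)))
    (fun a a' b => by rw [Preadditive.add_comp, tr_add, map_add])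
    (fun q a b => by rw [Linear.smul_comp, tr_smul, map_smul])
    (fun a b b' => by rw [Preadditive.comp_add, tr_add, map_add])
    (fun q a b => by rw [Linear.comp_smul, tr_smul, map_smul])
  have hp : ∀ a b, tr (a ≫ b) = p a b • 𝟙 (𝟙_ C) := fun a b => hκ _
  let α : (X ⟶ Y) → (R l₀).H.obj (Y ⊗ Xᘁ) := fun a =>
    (ε (R l₀).H ≫ (R l₀).H.map (nm a)).hom (1 : E l₀)
  let β : (Y ⟶ X) → (R l₀).H.obj (Y ⊗ Xᘁ) →ₗ[E l₀] E l₀ := fun b =>
    ((R l₀).H.map (fn b) ≫ inv (ε (R l₀).H)).hom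
  have hab : ∀ a b, β b (α a) = algebraMap ℚ (E l₀) (p a b) := by
    intro a b
    have h4 := scal (R := R l₀) (p a b)
    rw [← hp, ← nm_fn, Functor.map_comp] at h4
    rw [eq_ratCast, ← h4]
    rfl
  have e0 : ∀ a, a ∈ LinearMap.ker p ↔ ∀ b, tr (a ≫ b) = 0 := by
    intro a
    constructor
    · intro ha b
      rw [hp, LinearMap.mem_ker.1 ha, LinearMap.zero_apply, zero_smul]
    · intro ha
      rw [LinearMap.mem_ker]
      ext b
      change κ (tr (a ≫ b)) = 0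
      rw [ha, map_zero]
  have e1 : ∀ a, a ∈ LinearMap.ker p ↔ HTriv (R l₀) a := fun a =>
    ⟨fun ha => htriv_of_tr hC hD hX hY ((e0 a).1 ha) l₀,
      fun ha => (e0 a).2 fun b => tr_zero_of_htriv (R l₀) hEnd ha b⟩
  have e2 : ∀ b, b ∈ LinearMap.ker p.flip ↔ HTriv (R l₀) b := by
    intro b
    constructor
    · intro hb
      refine htriv_of_tr hC hD hY hX (fun a => ?_) l₀
      rw [tr_cyc, hp, show p a b = p.flip b a from rfl, LinearMap.mem_ker.1 hb,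
        LinearMap.zero_apply, zero_smul]
    · intro hb
      rw [LinearMap.mem_ker]
      ext a
      change κ (tr (a ≫ b)) = 0
      rw [tr_cyc, tr_zero_of_htriv (R l₀) hEnd hb, map_zero]
  let φ : (Y ⟶ X) →ₗ[ℚ] (X ⟶ Y) :=
    { toFun := fun b => g ≫ b ≫ g
      map_add' := fun b b' => by simp
      map_smul' := fun q b => by simp }
  obtain ⟨b, hb⟩ := pairing_surj p α β hab φ
    (fun b hb => by
      rw [e2]
      rw [e1] at hb
      intro i
      rcases lt_trichotomy i n with hi | rfl | hi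
      · exact (h1 l₀ i hi).eq_of_tgt _ _
      · have h4 : (R l₀).H.map ((g ≫ b ≫ g)⟦i⟧') = 0 := hb i
        have h5 := h3 l₀
        rw [Functor.map_comp, Functor.map_comp, Functor.map_comp, Functor.map_comp] at h4
        rw [← cancel_epi ((R l₀).H.map (g⟦i⟧')), ← cancel_mono ((R l₀).H.map (g⟦i⟧')), comp_zero,
          zero_comp, Category.assoc]
        exact h4
      · exact (h2 l₀ i hi).eq_of_src _ _)
    (fun b hb => by
      rw [e1]
      rw [e2] at hb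
      exact (hb.comp_right g).comp_left g)
    g
  refine ⟨b, fun l => ?_⟩
  have h6 : HTriv (R l) (g - g ≫ b ≫ g) := htriv_of_tr hC hD hX hY ((e0 _).1 hb) l
  have h7 := h6 n
  have h5 := h3 l
  rw [Functor.map_sub, Functor.map_sub, sub_eq_zero, ← Category.assoc, Functor.map_comp,
    Functor.map_comp] at h7
  rw [← cancel_mono ((R l).H.map (g⟦n⟧')), Category.id_comp]
  exact h7.symm

end Num

end Pool.Agent.Y116.MT
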