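import Pool.Agent.Y116.MT.BB3

/-!
# Bloch–Beilinson filtrations and extensions of the base field
-/

set_option autoImplicit false
set_option linter.unusedSectionVars false
set_option linter.unusedSimpArgs false
set_option backward.isDefEq.respectTransparency false
set_option backward.defeqAttrib.useBackward true

open CategoryTheory Limits MonoidalCategory Pretriangulated Triangulated

namespace Pool.Agent.Y116.MT

universe v u v' u' w

open Functor.LaxMonoidal

section

variable {C₀ : Type u'} [Category.{v'} C₀] [Preadditive C₀] [HasZeroObject C₀] [HasShift C₀ ℤ]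
  [∀ n : ℤ, (shiftFunctor C₀ n).Additive] [Pretriangulated C₀]
  [MonoidalCategory C₀] [SymmetricCategory C₀] [MonoidalPreadditive C₀] [TensorTriangulated C₀]
  [RightRigidCategory C₀] [Linear ℚ C₀] [IsIdempotentComplete C₀]
  {C : Type u} [Category.{v} C] [Preadditive C] [HasZeroObject C] [HasShift C ℤ]
  [∀ n : ℤ, (shiftFunctor C n).Additive] [Pretriangulated C]
  [MonoidalCategory C] [SymmetricCategory C] [MonoidalPreadditive C] [TensorTriangulated C]
  [RightRigidCategory C] [Linear ℚ C] [IsIdempotentComplete C]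
  {E : Type w} [Field E] {R₀ : Realisation C₀ E} {R : Realisation C E}
  {Chow₀ : ObjectProperty C₀} {Chow : ObjectProperty C} {T₀ : C₀} {T : C}
  {F : C₀ ⥤ C} [F.Monoidal] [F.CommShift ℤ]
  (hE : IsExtension F Chow₀ Chow R₀ R)

include hE

lemma IsExtension.map_iff {X Y : C₀} (f : X ⟶ Y) : R.H.map (F.map f) = 0 ↔ R₀.H.map f = 0 := by
  obtain ⟨e⟩ := hE.compare
  have h1 : R.H.map (F.map f) ≫ e.hom.app Y = e.hom.app X ≫ R₀.H.map f :=
    e.hom.naturality f
  constructor
  · intro h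
    rw [h, zero_comp] at h1
    rw [← cancel_epi (e.hom.app X), ← h1, comp_zero]
  · intro h
    rw [h, comp_zero] at h1
    rw [← cancel_mono (e.hom.app Y), h1, zero_comp]

lemma IsExtension.obj_iff (X : C₀) (i : ℤ) :
    IsZero (R.H.obj ((F.obj X)⟦i⟧)) ↔ IsZero (R₀.H.obj (X⟦i⟧)) := by
  obtain ⟨e⟩ := hE.compare
  exact Iso.isZero_iff (R.H.mapIso ((F.commShiftIso i).app X).symm ≪≫ e.app (X⟦i⟧))

lemma IsExtension.htriv {X Y : C₀} {f : X ⟶ Y} (h : HTriv R₀ f) : HTriv R (F.map f) := by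
  intro i
  have h1 : F.map (f⟦i⟧') ≫ (F.commShiftIso i).hom.app Y =
      (F.commShiftIso i).hom.app X ≫ (F.map f)⟦i⟧' := (F.commShiftIso i).hom.naturality f
  rw [← cancel_epi (R.H.map ((F.commShiftIso i).hom.app X)), ← Functor.map_comp, ← h1,
    Functor.map_comp, (hE.map_iff _).2 (h i), zero_comp, comp_zero]

/-- The standard conjecture D, from the small field to the large field. -/
theorem IsExtension.up_D (hC₀ : IsChow Chow₀) (hC : IsChow Chow) (hD₀ : StandardD Chow₀ R₀) :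
    StandardD Chow R := by
  have := hE.additive
  have := hE.faithful
  intro P s hP hs
  by_contra hne
  have h1 : R.H.map (ev s) ≠ 0 := by
    intro hz
    have h2 : HTriv R (ev s) := by
      intro i
      by_cases hi : i = 0
      · subst hi
        exact (map_shift_zero_iff _).2 hz
      · exact (deg_unit (R := R) i hi).eq_of_tgt _ _
    have h3 : HTriv R (P ◁ ev s) := by
      intro n
      have h4 := map_tensor_shift_zero (R := R) (𝟙 P) (ev s) n (fun i => Or.inr (h2 _))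
      rwa [id_whiskerRight, Category.id_comp] at h4
    apply hne
    rw [ev_recover s]
    exact ((h3.comp_right _).comp_left _).zero
  obtain ⟨Q, c, g, hQ, hg1, hg2⟩ := hE.invariant (Pᘁ) (ev s) (hC.dual P hP) h1
  have h2 : ∃ w : 𝟙_ C₀ ⟶ Q, w ≫ g ≠ 0 := by
    by_contra hcon
    push Not at hcon
    apply hg2
    refine (htriv_of_tr (R := fun _ : Unit => R₀) hC₀ (fun P s hP hs _ => hD₀ P s hP hs) hQ
      hC₀.unit (a := g) (fun b => ?_) ()).zero
    rw [tr_cyc, hcon b, ← zero_smul ℚ (0 : 𝟙_ C₀ ⟶ 𝟙_ C₀), tr_smul, zero_smul, zero_smul]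
  obtain ⟨w, hw⟩ := h2
  have h3 : F.map (w ≫ g) ≠ 0 := fun h4 => hw (F.map_injective (h4.trans (F.map_zero _ _).symm))
  apply h3
  rw [hg1 w]
  have h4 := hs (ve (ε F ≫ F.map w ≫ c))
  rw [ev_ve] at h4
  have h5 : F.map w ≫ c ≫ ev s = 0 := by
    rw [← cancel_epi (ε F), comp_zero]
    simpa using h4
  rw [← Category.assoc (F.map w), h5, zero_comp]

/-- The standard conjecture D, from the large field to the small field. -/
theorem IsExtension.down_D (hD : StandardD Chow R) : StandardD Chow₀ R₀ := by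
  have := hE.additive
  intro P s hP hs
  rw [← hE.map_iff]
  have h1 : R.H.map (ε F ≫ F.map s) = 0 := by
    refine hD _ _ (hE.chow P hP) (fun r => ?_)
    obtain ⟨g, hg⟩ := hE.specialise P r hP
    have h2 := hg s
    rw [hs g, Functor.map_zero] at h2
    rw [Category.assoc, ← cancel_mono (ε F), Category.assoc, Category.assoc, ← h2, comp_zero,
      zero_comp]
  rw [Functor.map_comp] at h1
  rw [← cancel_epi (R.H.map (ε F)), h1, comp_zero]

/-- Nilpotence, from the large field to the small field. -/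
theorem IsExtension.down_N
    (hN : ∀ (P : C) (f : P ⟶ P), Chow P → HTriv R f → IsNilpotent (show End P from f))
    (P : C₀) (f : P ⟶ P) (hP : Chow₀ P) (hf : HTriv R₀ f) : IsNilpotent (show End P from f) := by
  have := hE.additive
  have := hE.faithful
  obtain ⟨n, hn⟩ := hN _ _ (hE.chow P hP) (hE.htriv hf)
  refine ⟨n, ?_⟩
  have key : ∀ n : ℕ, F.map (((show End P from f) ^ n : End P) : P ⟶ P) =
      (((show End (F.obj P) from F.map f) ^ n : End (F.obj P)) : F.obj P ⟶ F.obj P) := by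
    intro n
    induction n with
    | zero => exact F.map_id P
    | succ n ih => rw [pow_comp, pow_comp, Functor.map_comp, ih]
  apply F.map_injective
  rw [key, Functor.map_zero]
  exact hn

/-- Vanishing of sections, from the large field to the small field. -/
theorem IsExtension.down_F (hF : SecZero Chow R) : SecZero Chow₀ R₀ := by
  have := hE.additive
  have := hE.faithful
  intro P s hP h0 hs
  have h1 : (ε F ≫ F.map s : 𝟙_ C ⟶ F.obj P) = 0 := by
    refine hF (F.obj P) _ (hE.chow P hP) (fun i hi => (hE.obj_iff P i).2 (h0 i hi)) ?_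
    rw [Functor.map_comp, (hE.map_iff s).2 hs, comp_zero]
  apply F.map_injective
  rw [← cancel_epi (ε F), Functor.map_zero, comp_zero]
  exact h1

section Up

variable {Var₀ : ℕ → ObjectProperty C₀} {Fil : ∀ P : C₀, ℕ → Submodule ℚ (𝟙_ C₀ ⟶ P)}
  (hM₀ : IsMotives Chow₀ T₀ (fun _ : Unit => R₀)) (hV₀ : IsVarieties Chow₀ T₀ Var₀ R₀)
  (hD₀ : StandardD Chow₀ R₀) (hB₀ : IsBB Chow₀ T₀ Var₀ R₀ Fil)

include hM₀ hV₀ hD₀ hB₀

/-- Vanishing of sections, from the small field to the large field. -/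
theorem IsExtension.up_F : SecZero Chow R := by
  have := hE.additive
  have hN₀ := hB₀.nilp hV₀ hM₀.chow hM₀.chow_T
  have hF₀ := hB₀.secZero hV₀ hM₀.chow hM₀.chow_T
  intro A f hA h0 hf
  obtain ⟨Q, Q', d, c, f', h', hQ, hQ', e1, e2, -, hW⟩ := hE.spread A f 0 hA
  obtain ⟨g, hg⟩ := reg_all hM₀ hN₀ hD₀ hF₀ hQ' hQ d
  -- the complement of the image of `d`
  have hdu : ∀ i : ℤ, R₀.H.map (d⟦i⟧') ≫ R₀.H.map ((𝟙 Q - g ≫ d)⟦i⟧') = 0 := by
    intro i
    rw [← Functor.map_comp, ← Functor.map_comp, Preadditive.comp_sub, Category.comp_id,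
      Functor.map_sub, Functor.map_sub, hg, sub_self]
  have hu : ∀ i : ℤ, i < 0 → R₀.H.map ((𝟙 Q - g ≫ d)⟦i⟧') = 0 := by
    intro i hi
    have h1 : Epi (R₀.H.map (d⟦i⟧')) := hW.bound h0 i hi
    rw [← cancel_epi (R₀.H.map (d⟦i⟧')), hdu, comp_zero]
  obtain ⟨y, hy⟩ := hW.injective h0 hf
  have hfu : f' ≫ (𝟙 Q - g ≫ d) ∈ Fil Q 1 := by
    rw [hB₀.one _ _ hQ, Functor.map_comp, hy, Category.assoc]
    have h1 : R₀.H.map d ≫ R₀.H.map (𝟙 Q - g ≫ d) = 0 := by
      rw [← Functor.map_comp, ← map_shift_zero_iff, Functor.map_comp, Functor.map_comp]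
      exact hdu 0
    rw [h1, comp_zero]
  obtain ⟨M, hMz⟩ := hB₀.finite hV₀ hM₀.chow hM₀.chow_T hQ
  have h2 := hB₀.pow hQ (𝟙 Q - g ≫ d) 1 (fun k hk => hu _ (by omega)) _ hfu M
  have h3 := hMz _ (hB₀.le hQ (by omega) h2)
  have key : ∀ n : ℕ, F.map (((show End Q from (𝟙 Q - g ≫ d)) ^ n : End Q) : Q ⟶ Q) ≫ c = c := by
    intro n
    induction n with
    | zero =>
      change F.map (𝟙 Q) ≫ c = c
      simp
    | succ n ih =>
      rw [pow_comp, Functor.map_comp, Category.assoc, ih, Functor.map_sub, Functor.map_comp,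
        Preadditive.sub_comp, Category.assoc, e2, comp_zero, sub_zero, CategoryTheory.Functor.map_id,
        Category.id_comp]
  have h4 : F.map (f' ≫ (𝟙 Q - g ≫ d) ≫
      (((show End Q from (𝟙 Q - g ≫ d)) ^ M : End Q) : Q ⟶ Q)) ≫ c = F.map f' ≫ c := by
    rw [← pow_comp, Functor.map_comp, Category.assoc, key]
  rw [e1, ← h4, ← Category.assoc f', h3, Functor.map_zero, zero_comp, comp_zero]

/-- Nilpotence, from the small field to the large field. -/
theorem IsExtension.up_N (hC : IsChow Chow) (P : C) (f : P ⟶ P) (hP : Chow P)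
    (hf : HTriv R f) : IsNilpotent (show End P from f) := by
  have := hE.additive
  have hN₀ := hB₀.nilp hV₀ hM₀.chow hM₀.chow_T
  have hF₀ := hB₀.secZero hV₀ hM₀.chow hM₀.chow_T
  obtain ⟨Q, Q', d, c, f', h', hQ, hQ', e1, e2, e3, hW⟩ :=
    hE.spread (P ⊗ Pᘁ) (η_ P Pᘁ) (f ▷ Pᘁ) (hC.tensor _ _ hP (hC.dual _ hP))
  obtain ⟨N, hN⟩ := hW.nilpotent (hf.whisker _)
  obtain ⟨g, hg⟩ := reg_all hM₀ hN₀ hD₀ hF₀ hQ' hQ d
  set w : Q ⟶ Q := ((show End Q from h') ^ N : End Q) with hw
  have hdu : ∀ i : ℤ, R₀.H.map (d⟦i⟧') ≫ R₀.H.map ((𝟙 Q - g ≫ d)⟦i⟧') = 0 := by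
    intro i
    rw [← Functor.map_comp, ← Functor.map_comp, Preadditive.comp_sub, Category.comp_id,
      Functor.map_sub, Functor.map_sub, hg, sub_self]
  have hv : HTriv R₀ (w ≫ (𝟙 Q - g ≫ d)) := by
    intro i
    obtain ⟨y, hy⟩ := hN i
    rw [Functor.map_comp, Functor.map_comp, hy, Category.assoc, hdu, comp_zero]
  obtain ⟨M, hMz⟩ := hN₀ Q _ hQ hv
  -- powers of `h'`
  have key : ∀ n : ℕ, F.map (((show End Q from h') ^ n : End Q) : Q ⟶ Q) ≫ c =
      c ≫ (((show End P from f) ^ n : End P) : P ⟶ P) ▷ Pᘁ := by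
    intro n
    induction n with
    | zero =>
      change F.map (𝟙 Q) ≫ c = c ≫ (𝟙 P) ▷ Pᘁ
      simp
    | succ n ih =>
      rw [pow_comp', pow_comp', Functor.map_comp, Category.assoc, e3, ← Category.assoc, ih,
        comp_whiskerRight, Category.assoc]
  have hwv : F.map (w - w ≫ (𝟙 Q - g ≫ d)) ≫ c = 0 := by
    have h1 : w - w ≫ (𝟙 Q - g ≫ d) = (w ≫ g) ≫ d := by
      rw [Preadditive.comp_sub, Category.comp_id, sub_sub_cancel, Category.assoc]
    rw [h1, Functor.map_comp, Category.assoc, e2, comp_zero]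
  have hwc : F.map w ≫ c = c ≫ (((show End P from f) ^ N : End P) : P ⟶ P) ▷ Pᘁ := key N
  -- `w ^ k` and `v ^ k` agree on `c`
  have key2 : ∀ k : ℕ, F.map ((((show End Q from w) ^ k : End Q) : Q ⟶ Q)) ≫ c =
      F.map ((((show End Q from (w ≫ (𝟙 Q - g ≫ d))) ^ k : End Q) : Q ⟶ Q)) ≫ c := by
    intro k
    induction k with
    | zero => rfl
    | succ k ih =>
      rw [pow_comp', pow_comp', Functor.map_comp, Functor.map_comp, Category.assoc, Category.assoc,
        hwc, ← Category.assoc, ih, Category.assoc, ← hwc]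
      rw [Functor.map_sub, Preadditive.sub_comp, sub_eq_zero] at hwv
      rw [hwv]
  refine ⟨N * M, ?_⟩
  have h4 : F.map (((show End Q from h') ^ (N * M) : End Q) : Q ⟶ Q) ≫ c = 0 := by
    rw [pow_mul]
    have h5 := key2 M
    have h6 : (((show End Q from (w ≫ (𝟙 Q - g ≫ d))) ^ M : End Q) : Q ⟶ Q) = 0 := hMz
    rw [h6, Functor.map_zero, zero_comp] at h5
    exact h5
  have h5 : nm (((show End P from f) ^ (N * M) : End P) : P ⟶ P) = 0 := by
    rw [nm, e1]
    simp only [Category.assoc]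
    rw [← key, h4, comp_zero, comp_zero]
  exact eq_zero_of_nm _ h5

end Up

variable {Var₀ : ℕ → ObjectProperty C₀} {Var : ℕ → ObjectProperty C}
  (hM₀ : IsMotives Chow₀ T₀ (fun _ : Unit => R₀)) (hV₀ : IsVarieties Chow₀ T₀ Var₀ R₀)
  (hM : IsMotives Chow T (fun _ : Unit => R)) (hV : IsVarieties Chow T Var R)

include hM₀ hV₀ hM hV

/-- The conjectures hold over the small field if and only if they hold over the large field. -/
theorem bb_base : (StandardD Chow₀ R₀ ∧ ∃ Fil, IsBB Chow₀ T₀ Var₀ R₀ Fil) ↔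
    (StandardD Chow R ∧ ∃ Fil, IsBB Chow T Var R Fil) := by
  constructor
  · rintro ⟨hD₀, Fil, hB₀⟩
    have hD := hE.up_D hM₀.chow hM.chow hD₀
    exact ⟨hD, (bb_iff hM hV hD).2
      ⟨hE.up_N hM₀ hV₀ hD₀ hB₀ hM.chow, hE.up_F hM₀ hV₀ hD₀ hB₀⟩⟩
  · rintro ⟨hD, hB⟩
    have hD₀ := hE.down_D hD
    obtain ⟨hN, hF⟩ := (bb_iff hM hV hD).1 hB
    exact ⟨hD₀, (bb_iff hM₀ hV₀ hD₀).2 ⟨hE.down_N hN, hE.down_F hF⟩⟩

/-- The filtrations are compatible. -/
theorem bb_compat (hD : StandardD Chow R)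
    {Fil₀ : ∀ P : C₀, ℕ → Submodule ℚ (𝟙_ C₀ ⟶ P)} {Fil : ∀ P : C, ℕ → Submodule ℚ (𝟙_ C ⟶ P)}
    (hB₀ : IsBB Chow₀ T₀ Var₀ R₀ Fil₀) (hB : IsBB Chow T Var R Fil) {P : C₀} (hP : Chow₀ P)
    (ν : ℕ) (s : 𝟙_ C₀ ⟶ P) : s ∈ Fil₀ P ν ↔ ε F ≫ F.map s ∈ Fil (F.obj P) ν := by
  have := hE.additive
  have := hE.faithful
  have hD₀ := hE.down_D hD
  rw [hB₀.eq_canFil hM₀ hV₀ hD₀ hP, hB.eq_canFil hM hV hD (hE.chow P hP)]
  have hN₀ := hB₀.nilp hV₀ hM₀.chow hM₀.chow_T
  have hN := hB.nilp hV hM.chow hM.chow_T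
  have hF := hB.secZero hV hM.chow hM.chow_T
  constructor
  · intro hs B g hB' h0
    obtain ⟨A, A', hA, hA', ⟨d⟩, h1, h2⟩ := split_pred hM₀ hN₀ hD₀ hP (· ≤ (-ν : ℤ))
    have h3 := hs A' d.q hA' h2
    have h4 : s = (s ≫ d.p) ≫ d.i := by
      conv_lhs => rw [← Category.comp_id s, ← d.total, Preadditive.comp_add, ← Category.assoc,
        ← Category.assoc, h3, zero_comp, add_zero]
    have h5 : ∀ i : ℤ, -(ν : ℤ) < i → IsZero (R.H.obj ((F.obj A)⟦i⟧)) := fun i hi =>
      (hE.obj_iff A i).2 (h1 i (by omega))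
    have h6 : F.map d.i ≫ g = 0 := hom_le_ge hM hN hD hF (hE.chow A hA) hB' (-ν : ℤ) h5
      (fun i hi => h0 i hi.le) _ (htriv_of_low_high (-ν : ℤ) h5 h0 _)
    rw [h4, Functor.map_comp, Category.assoc, Category.assoc, h6, comp_zero, comp_zero]
  · intro hs B g hB' h0
    have h1 := hs (F.obj B) (F.map g) (hE.chow B hB') fun i hi => (hE.obj_iff B i).2 (h0 i hi)
    apply F.map_injective
    rw [← cancel_epi (ε F), Functor.map_comp, Functor.map_zero, comp_zero, ← Category.assoc]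
    exact h1

end

section Finite

variable {C : Type u} [Category.{v} C] [Preadditive C] [HasZeroObject C] [HasShift C ℤ]
  [∀ n : ℤ, (shiftFunctor C n).Additive] [Pretriangulated C] [MonoidalCategory C]
  [SymmetricCategory C] [TensorTriangulated C] [RightRigidCategory C] [MonoidalPreadditive C]
  [Linear ℚ C] [IsIdempotentComplete C] {E : Type w} [Field E] {R : Realisation C E}
  {Chow : ObjectProperty C} {T : C} {Var : ℕ → ObjectProperty C} {φ : 𝟭 C ⟶ 𝟭 C} {q : ℝ}

/-- Over a finite field, a Bloch–Beilinson filtration exists and the standard conjecture D holds if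
and only if rational and numerical equivalence agree. -/
theorem bb_finite (hM : IsMotives Chow T (fun _ : Unit => R)) (hV : IsVarieties Chow T Var R)
    (hφ : IsFrobenius Chow φ q (fun _ : Unit => R)) :
    (StandardD Chow R ∧ ∃ Fil, IsBB Chow T Var R Fil) ↔
      ∀ (P : C) (s : 𝟙_ C ⟶ P), Chow P → (∀ r : P ⟶ 𝟙_ C, s ≫ r = 0) → s = 0 := by
  constructor
  · rintro ⟨hD, Fil, hB⟩ P s hP hs
    obtain ⟨g, hg1, hg2⟩ := exists_pol hM.unit_end hM.chow hφ () hP
    obtain ⟨M, hMz⟩ := hB.finite hV hM.chow hM.chow_T hP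
    have h1 : s ∈ Fil P 1 := (hB.one P s hP).2 (hD P s hP hs)
    have h2 := hB.pow hP (pol φ g P) 1 (fun k hk => hg2 _ (by omega)) s h1 M
    have h3 : s ≫ pol φ g P = s := by rw [← pol_natural, hg1, Category.id_comp]
    have h4 : ∀ n : ℕ, s ≫ (((show End P from pol φ g P) ^ n : End P) : P ⟶ P) = s := by
      intro n
      induction n with
      | zero =>
        change s ≫ 𝟙 P = s
        rw [Category.comp_id]
      | succ n ih => rw [pow_comp', ← Category.assoc, ih, h3]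
    rw [h4] at h2
    exact hMz s (hB.le hP (by omega) h2)
  · intro hnum
    have hD : StandardD Chow R := fun P s hP hs => by rw [hnum P s hP hs, Functor.map_zero]
    have hF : ∀ (P : C) (s : 𝟙_ C ⟶ P), Chow P → R.H.map s = 0 → s = 0 := by
      intro P s hP hs
      refine hnum P s hP fun r => ?_
      exact end_unit_zero R hM.unit_end (by rw [Functor.map_comp, hs, zero_comp])
    refine ⟨hD, (bb_iff hM hV hD).2 ⟨fun P f hP hf => ⟨1, ?_⟩, fun P s hP _ hs => hF P s hP hs⟩⟩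
    rw [pow_one]
    exact eq_zero_of_nm _
      (hF _ _ (hM.chow.tensor _ _ hP (hM.chow.dual _ hP)) (htriv_nm hf).zero)

end Finite

end Pool.Agent.Y116.MT
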