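import Pool.Agent.Y116.MT.BB1

/-!
# Regularity modulo homological equivalence, from the standard conjecture D and nilpotence
-/

set_option autoImplicit false
set_option linter.unusedSectionVars false
set_option linter.unusedSimpArgs false
set_option backward.isDefEq.respectTransparency false
set_option backward.defeqAttrib.useBackward true

open CategoryTheory Limits MonoidalCategory Pretriangulated Triangulated

namespace Pool.Agent.Y116.MT

universe v u w

open Functor.LaxMonoidal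

section Ring

variable {A : Type*} [Ring A] [Algebra ℚ A] {E : Type*} [Field E] [Algebra ℚ E]
  {M : Type*} [AddCommGroup M] [Module E M] [Module.Finite E M]

/-- Regularity modulo the kernel of the representation. -/
theorem regular_of_trace' (ρ : A →+* Module.End E M) (τ : A →ₗ[ℚ] ℚ)
    (hτ : ∀ a, LinearMap.trace E M (ρ a) = algebraMap ℚ E (τ a))
    (hnd : ∀ a, ρ a ≠ 0 → ∃ b, τ (a * b) ≠ 0) (a : A) : ∃ b, ρ (a * b * a) = ρ a := by
  have hinj : Function.Injective (algebraMap ℚ E) := (algebraMap ℚ E).injective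
  have hker : ∀ x ∈ RingHom.ker ρ, τ x = 0 := by
    intro x hx
    apply hinj
    rw [← hτ, (RingHom.mem_ker).1 hx, map_zero, map_zero]
  let q : A →ₐ[ℚ] A ⧸ RingHom.ker ρ := Ideal.Quotient.mkₐ ℚ (RingHom.ker ρ)
  have hq : Function.Surjective q := Ideal.Quotient.mk_surjective
  let ρ' : A ⧸ RingHom.ker ρ →+* Module.End E M :=
    Ideal.Quotient.lift (RingHom.ker ρ) ρ (fun x hx => (RingHom.mem_ker).1 hx)
  have hρ' : ∀ x, ρ' (q x) = ρ x := fun x => rfl
  have hex : ∀ y : A ⧸ RingHom.ker ρ, ∃ x, q x = y := hq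
  choose s hs using hex
  have hsub : ∀ x y : A, q x = q y → τ x = τ y := by
    intro x y hxy
    apply hinj
    rw [← hτ, ← hτ, ← hρ', ← hρ', hxy]
  let τ' : A ⧸ RingHom.ker ρ →ₗ[ℚ] ℚ :=
    { toFun := fun y => τ (s y)
      map_add' := fun y z => by
        rw [← map_add]
        apply hsub
        rw [map_add, hs, hs, hs]
      map_smul' := fun c y => by
        rw [RingHom.id_apply, ← map_smul]
        apply hsub
        rw [map_smul, hs, hs] }
  have hτ' : ∀ x, τ' (q x) = τ x := fun x => hsub _ _ (hs _)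
  obtain ⟨b, hb⟩ := regular_of_trace (A := A ⧸ RingHom.ker ρ) ρ' τ'
    (fun y => by
      obtain ⟨x, rfl⟩ := hq y
      rw [hρ', hτ', hτ])
    (fun y hy => by
      obtain ⟨x, rfl⟩ := hq y
      obtain ⟨b, hb⟩ := hnd x (fun h => hy (by
        change Ideal.Quotient.mk (RingHom.ker ρ) x = 0
        rw [Ideal.Quotient.eq_zero_iff_mem]
        exact (RingHom.mem_ker).2 h))
      refine ⟨q b, ?_⟩
      rwa [← map_mul, hτ'])
    (q a)
  obtain ⟨b, rfl⟩ := hq b
  refine ⟨b, ?_⟩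
  have h1 : q (a * b * a) = q a := by rw [map_mul, map_mul]; exact hb
  rw [← hρ', ← hρ', h1]

end Ring

section

variable {C : Type u} [Category.{v} C] [Preadditive C] [HasZeroObject C] [HasShift C ℤ]
  [∀ n : ℤ, (shiftFunctor C n).Additive] [Pretriangulated C] [MonoidalCategory C]
  [SymmetricCategory C] [TensorTriangulated C] [RightRigidCategory C] [MonoidalPreadditive C]
  [Linear ℚ C] {E : Type w} [Field E] {R : Realisation C E}

/-- Endomorphism rings of objects in degree zero are regular modulo the endomorphisms which are zero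
on the cohomology, if the trace form is non-degenerate. -/
theorem regular_end' (R : Realisation C E) (hEnd : ∀ e : 𝟙_ C ⟶ 𝟙_ C, ∃ q : ℚ, e = q • 𝟙 _)
    {X : C} (hX : R.Deg X 0)
    (hnd : ∀ s : 𝟙_ C ⟶ X ⊗ Xᘁ, R.H.map s ≠ 0 → ∃ r : X ⊗ Xᘁ ⟶ 𝟙_ C, s ≫ r ≠ 0) (a : X ⟶ X) :
    ∃ b : X ⟶ X, R.H.map (a ≫ b ≫ a) = R.H.map a := by
  have hE := charZero_of_real R
  let L : ℚ →ₗ[ℚ] (𝟙_ C ⟶ 𝟙_ C) := LinearMap.toSpanSingleton ℚ _ (𝟙 _)
  have hL : Function.Bijective L := by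
    constructor
    · rw [injective_iff_map_eq_zero]
      intro q hq
      have hq' : q • 𝟙 (𝟙_ C) = 0 := hq
      by_contra hne
      apply not_isZero_unit R
      rw [IsZero.iff_id_eq_zero, ← one_smul ℚ (𝟙 (𝟙_ C)), ← inv_mul_cancel₀ hne, mul_smul, hq',
        smul_zero]
    · intro e
      obtain ⟨q, hq⟩ := hEnd e
      exact ⟨q, hq.symm⟩
  let T : End X →ₗ[ℚ] (𝟙_ C ⟶ 𝟙_ C) :=
    { toFun := fun a => tr a
      map_add' := fun a b => tr_add a b
      map_smul' := fun q a => tr_smul q a }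
  let τ : End X →ₗ[ℚ] ℚ := (LinearEquiv.ofBijective L hL).symm.toLinearMap ∘ₗ T
  have hτ0 : ∀ a : X ⟶ X, tr a = τ a • 𝟙 (𝟙_ C) := by
    intro a
    exact ((LinearEquiv.ofBijective L hL).apply_symm_apply (tr a)).symm
  let ρ : End X →+* Module.End E (R.H.obj X) :=
    { toFun := fun a => (R.H.map a).hom
      map_one' := by
        change (R.H.map (𝟙 X)).hom = _
        rw [CategoryTheory.Functor.map_id]
        rfl
      map_mul' := fun a b => by
        change (R.H.map (b ≫ a)).hom = _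
        rw [Functor.map_comp]
        rfl
      map_zero' := by
        change (R.H.map (0 : X ⟶ X)).hom = _
        rw [Functor.map_zero]
        rfl
      map_add' := fun a b => by
        change (R.H.map (a + b)).hom = _
        rw [Functor.map_add]
        rfl }
  have hτ : ∀ a, LinearMap.trace E _ (ρ a) = algebraMap ℚ E (τ a) := by
    intro a
    change LinearMap.trace E (R.H.obj X) (R.H.map a).hom = _
    rw [← H_trace hX, hτ0, scal]
    rfl
  have hsymm : ∀ a b, τ (a * b) = τ (b * a) := by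
    intro a b
    apply (algebraMap ℚ E).injective
    rw [← hτ, ← hτ, ρ.map_mul, ρ.map_mul, LinearMap.trace_mul_comm]
  have hnd' : ∀ a, ρ a ≠ 0 → ∃ b, τ (a * b) ≠ 0 := by
    intro a ha
    have h0 : R.H.map (nm (show X ⟶ X from a)) ≠ 0 := by
      intro h
      apply ha
      have h1 : R.H.map (show X ⟶ X from a) = 0 := (htriv_of_nm h).zero
      change (R.H.map (show X ⟶ X from a)).hom = 0
      rw [h1]
      rfl
    obtain ⟨r, hr⟩ := hnd (nm a) h0
    obtain ⟨b, hb⟩ := exists_tr r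
    refine ⟨b, fun h => hr ?_⟩
    rw [hb, hτ0]
    have h1 : τ (a ≫ b) = τ ((show End X from b) * a) := rfl
    rw [h1, hsymm, h, zero_smul]
  obtain ⟨b, hb⟩ := regular_of_trace' ρ τ hτ hnd' a
  refine ⟨b, ?_⟩
  ext1
  exact hb

end

section

variable {C : Type u} [Category.{v} C] [Preadditive C] [HasZeroObject C] [HasShift C ℤ]
  [∀ n : ℤ, (shiftFunctor C n).Additive] [Pretriangulated C] [MonoidalCategory C]
  [SymmetricCategory C] [TensorTriangulated C] [RightRigidCategory C] [MonoidalPreadditive C]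
  [Linear ℚ C] [IsIdempotentComplete C] {E : Type w} [Field E] {R : Realisation C E}
  {Chow : ObjectProperty C} {T : C}
  (hM : IsMotives Chow T (fun _ : Unit => R))
  (hN : ∀ (P : C) (f : P ⟶ P), Chow P → HTriv R f → IsNilpotent (show End P from f))
  (hD : StandardD Chow R)

/-- The cohomology functor in degree `m`. -/
lemma map_shift_shift_iff {X Y : C} (f : X ⟶ Y) (m : ℤ) :
    R.H.map ((f⟦m⟧')⟦(0 : ℤ)⟧') = 0 ↔ R.H.map (f⟦m⟧') = 0 :=
  map_shift_zero_iff _

include hM hD in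
/-- Regularity in one degree, modulo homological equivalence. -/
theorem reg_same' {A B : C} (hA : Chow A) (hB : Chow B) {m : ℤ} (hAm : R.Deg A m)
    (hBm : R.Deg B m) (f : A ⟶ B) : ∃ g : B ⟶ A,
    R.H.map ((f ≫ g ≫ f)⟦m⟧') = R.H.map (f⟦m⟧') := by
  have hX : Chow (A ⊞ B) := hM.chow.sum _ _ hA hB
  have hXm : R.Deg (A ⊞ B) m := fun n hn =>
    hz2 R.H (binaryBiproductTriangle_distinguished A B) n (hAm n hn) (hBm n hn)
  obtain ⟨e⟩ := shift_end (A ⊞ B) m
  have hnd : ∀ s : 𝟙_ C ⟶ (A ⊞ B)⟦m⟧ ⊗ ((A ⊞ B)⟦m⟧)ᘁ, R.H.map s ≠ 0 →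
      ∃ r : (A ⊞ B)⟦m⟧ ⊗ ((A ⊞ B)⟦m⟧)ᘁ ⟶ 𝟙_ C, s ≫ r ≠ 0 := by
    intro s hs
    by_contra hcon
    push Not at hcon
    apply hs
    rw [← cancel_mono (R.H.map e.inv), zero_comp, ← Functor.map_comp]
    refine hD _ _ (hM.chow.tensor _ _ hX (hM.chow.dual _ hX)) fun r => ?_
    rw [Category.assoc]
    exact hcon _
  obtain ⟨b, hb⟩ := regular_end' R hM.unit_end (hXm.shift m 0 (by ring)) hnd
    ((biprod.fst ≫ f ≫ biprod.inr : A ⊞ B ⟶ A ⊞ B)⟦m⟧')
  obtain ⟨b, rfl⟩ := (shiftFunctor C m).map_surjective b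
  rw [← Functor.map_comp, ← Functor.map_comp] at hb
  refine ⟨biprod.inr ≫ b ≫ biprod.fst, ?_⟩
  have key : ∀ x y : A ⊞ B ⟶ A ⊞ B, R.H.map (x⟦m⟧') = R.H.map (y⟦m⟧') →
      R.H.map ((biprod.inl ≫ x ≫ biprod.snd : A ⟶ B)⟦m⟧') =
        R.H.map ((biprod.inl ≫ y ≫ biprod.snd : A ⟶ B)⟦m⟧') := by
    intro x y h
    simp only [Functor.map_comp, h]
  have h6 := key _ _ hb
  simpa only [Category.assoc, biprod.inl_fst_assoc, biprod.inr_snd, Category.comp_id] using h6

include hM hN hD in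
/-- Regularity in one degree for all motives. -/
theorem reg_one' {X Y : C} (hX : Chow X) (hY : Chow Y) (d : X ⟶ Y) (n : ℤ) :
    ∃ g : Y ⟶ X, (∀ m, m ≠ n → R.H.map (g⟦m⟧') = 0) ∧
      R.H.map ((d ≫ g ≫ d)⟦n⟧') = R.H.map (d⟦n⟧') := by
  obtain ⟨A', B', hA', hB', ⟨d'⟩, h1', h2'⟩ := split_pred hM hN hD hX (· = n)
  obtain ⟨A, B, hA, hB, ⟨c⟩, h1, h2⟩ := split_pred hM hN hD hY (· = n)
  obtain ⟨g, hg⟩ := reg_same' hM hD hA' hA h1' h1 (d'.i ≫ d ≫ c.p)
  refine ⟨c.p ≫ g ≫ d'.i, fun m hm => ?_, ?_⟩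
  · rw [Functor.map_comp, Functor.map_comp, (h1 m hm).eq_of_tgt (R.H.map (c.p⟦m⟧')) 0, zero_comp]
  · have e1 := d'.map_total (h2' n rfl)
    have e2 := c.map_total (h2 n rfl)
    have e3 : ∀ x : X ⟶ Y, R.H.map (x⟦n⟧') =
        R.H.map (d'.p⟦n⟧') ≫ R.H.map ((d'.i ≫ x ≫ c.p)⟦n⟧') ≫ R.H.map (c.i⟦n⟧') := by
      intro x
      simp only [Functor.map_comp, Category.assoc]
      rw [e2, Category.comp_id, ← Category.assoc, e1, Category.id_comp]
    rw [e3 (d ≫ (c.p ≫ g ≫ d'.i) ≫ d), e3 d]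
    have e4 : d'.i ≫ (d ≫ (c.p ≫ g ≫ d'.i) ≫ d) ≫ c.p =
        (d'.i ≫ d ≫ c.p) ≫ g ≫ (d'.i ≫ d ≫ c.p) := by
      simp only [Category.assoc]
    rw [e4, hg]

include hM hN hD in
/-- Regularity. -/
theorem reg_all' {X Y : C} (hX : Chow X) (hY : Chow Y) (d : X ⟶ Y) :
    ∃ g : Y ⟶ X, ∀ m : ℤ, R.H.map ((d ≫ g ≫ d)⟦m⟧') = R.H.map (d⟦m⟧') := by
  choose g hg1 hg2 using fun n => reg_one' hM hN hD hX hY d n
  obtain ⟨N, hN'⟩ := R.bounded X
  refine ⟨∑ n ∈ Finset.Icc (-N : ℤ) N, g n, fun m => ?_⟩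
  by_cases hm : m ∈ Finset.Icc (-N : ℤ) N
  · have h1 : R.H.map ((∑ n ∈ Finset.Icc (-N : ℤ) N, g n)⟦m⟧') = R.H.map ((g m)⟦m⟧') := by
      rw [Functor.map_sum, Functor.map_sum]
      exact Finset.sum_eq_single_of_mem m hm fun n _ hn => hg1 n m (Ne.symm hn)
    rw [← hg2 m]
    simp only [Functor.map_comp]
    rw [h1]
  · refine (hN' m ?_).eq_of_src _ _
    rw [Finset.mem_Icc] at hm
    omega

end

end Pool.Agent.Y116.MT
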