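import Pool.Agent.Y116.MT.Koszul

/-!
# The antisymmetrizer of a tensor power
-/

set_option autoImplicit false
set_option linter.unusedSectionVars false
set_option linter.unusedSimpArgs false
set_option backward.isDefEq.respectTransparency false
set_option backward.defeqAttrib.useBackward true

open CategoryTheory Limits MonoidalCategory Pretriangulated Triangulated

namespace Pool.Agent.Y116.MT

universe v u w

section

variable {C : Type u} [Category.{v} C] [MonoidalCategory C] [SymmetricCategory C]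

lemma exch_natural_left (W P : C) {Z Z' : C} (a : Z ⟶ Z') :
    (W ◁ a) ▷ P ≫ (exch W Z' P).hom = (exch W Z P).hom ≫ (W ⊗ P) ◁ a := by
  simp only [exch, Iso.trans_hom, whiskerLeftIso_hom, Iso.symm_hom]
  simp only [whisker_assoc, Category.assoc, Iso.inv_hom_id_assoc]
  rw [← MonoidalCategory.whiskerLeft_comp_assoc, BraidedCategory.braiding_naturality_left,
    MonoidalCategory.whiskerLeft_comp_assoc]
  simp

lemma exch_natural_first {W W' : C} (w : W ⟶ W') (Z P : C) :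
    (w ▷ Z) ▷ P ≫ (exch W' Z P).hom = (exch W Z P).hom ≫ (w ▷ P) ▷ Z := by
  simp only [exch, Iso.trans_hom, whiskerLeftIso_hom, Iso.symm_hom, Category.assoc]
  rw [associator_naturality_left_assoc, ← whisker_exchange_assoc, associator_inv_naturality_left]

section Add

variable [Preadditive C] [MonoidalPreadditive C]

lemma wl_neg (X : C) {Y Z : C} (f : Y ⟶ Z) : X ◁ (-f) = -(X ◁ f) :=
  (tensorLeft X).map_neg

lemma wr_neg (X : C) {Y Z : C} (f : Y ⟶ Z) : (-f) ▷ X = -(f ▷ X) :=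
  (tensorRight X).map_neg

lemma wl_zsmul (X : C) {Y Z : C} (f : Y ⟶ Z) (n : ℤ) : X ◁ (n • f) = n • (X ◁ f) :=
  (tensorLeft X).map_zsmul

lemma wr_zsmul (X : C) {Y Z : C} (f : Y ⟶ Z) (n : ℤ) : (n • f) ▷ X = n • (f ▷ X) :=
  (tensorRight X).map_zsmul

end Add

/-- The map which moves the factor number `i` to the last place. -/
def mv (X Z : C) : ∀ (n : ℕ) (_ : Fin (n + 1)), (pw X Z (n + 1) ⟶ pw X Z (n + 1))
  | 0, _ => 𝟙 _
  | n + 1, i => Fin.lastCases (motive := fun _ => pw X Z (n + 2) ⟶ pw X Z (n + 2)) (𝟙 _)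
      (fun j => (mv X Z n j ▷ Z) ≫ (exch (pw X Z n) Z Z).hom) i

@[simp] lemma mv_last (X Z : C) (n : ℕ) : mv X Z n (Fin.last n) = 𝟙 _ := by
  cases n with
  | zero => rfl
  | succ n => simp [mv]

@[simp] lemma mv_castSucc (X Z : C) (n : ℕ) (j : Fin (n + 1)) :
    mv X Z (n + 1) j.castSucc = (mv X Z n j ▷ Z) ≫ (exch (pw X Z n) Z Z).hom := by
  simp [mv]

/-- The (not normalised) antisymmetrizer. -/
def alt [Preadditive C] (X Z : C) : ∀ n : ℕ, (pw X Z n ⟶ pw X Z n)
  | 0 => 𝟙 _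
  | n + 1 => ∑ i : Fin (n + 1), ((-1 : ℤ) ^ (n + i.val)) • (mv X Z n i ≫ (alt X Z n ▷ Z))

end

section

variable {C : Type u} [Category.{v} C] [Preadditive C] [HasZeroObject C] [HasShift C ℤ]
  [∀ n : ℤ, (shiftFunctor C n).Additive] [Pretriangulated C] [MonoidalCategory C]
  [SymmetricCategory C] [TensorTriangulated C] [MonoidalPreadditive C]

lemma exch_shift_unit (W : C) :
    (exch W ((𝟙_ C)⟦(1 : ℤ)⟧) ((𝟙_ C)⟦(1 : ℤ)⟧)).hom = -𝟙 _ := by
  simp only [exch, Iso.trans_hom, whiskerLeftIso_hom, Iso.symm_hom, TensorTriangulated.sign,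
    wl_neg, MonoidalCategory.whiskerLeft_id, Preadditive.neg_comp,
    Preadditive.comp_neg, Category.id_comp, Iso.hom_inv_id]

variable {Z : C} (δ : Z ⟶ (𝟙_ C)⟦(1 : ℤ)⟧)

lemma exch_star {W : C} {n : ℕ} (f : W ⟶ un C n) :
    (exch W Z Z).hom ≫ star δ (n := n + 1) (star δ f) = -star δ (n := n + 1) (star δ f) := by
  have h1 : star δ (n := n + 1) (star δ f) = (W ⊗ Z) ◁ δ ≫ (W ◁ δ) ▷ ((𝟙_ C)⟦(1 : ℤ)⟧) ≫
      (rShift (W ⊗ (𝟙_ C)⟦(1 : ℤ)⟧) (𝟙_ C) 1).hom ≫ ((ρ_ (W ⊗ (𝟙_ C)⟦(1 : ℤ)⟧)).hom ≫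
        (rShift W (𝟙_ C) 1).hom ≫ ((ρ_ W).hom ≫ f)⟦(1 : ℤ)⟧')⟦(1 : ℤ)⟧' := by
    rw [← Category.assoc ((W ◁ δ) ▷ _), rShift_natural_left]
    simp only [star, Category.assoc]
    rw [← Functor.map_comp, rightUnitor_naturality_assoc]
  have h2 : (exch W Z Z).hom ≫ (W ⊗ Z) ◁ δ ≫ (W ◁ δ) ▷ ((𝟙_ C)⟦(1 : ℤ)⟧) =
      -((W ⊗ Z) ◁ δ ≫ (W ◁ δ) ▷ ((𝟙_ C)⟦(1 : ℤ)⟧)) := by
    rw [← Category.assoc, ← exch_natural_left, Category.assoc, ← exch_natural, exch_shift_unit,
      Preadditive.comp_neg, Preadditive.comp_neg, Category.comp_id, whisker_exchange]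
  rw [h1, ← Category.assoc ((W ⊗ Z) ◁ δ), ← Category.assoc (exch W Z Z).hom, h2,
    Preadditive.neg_comp]

lemma star_zsmul {W : C} {n : ℕ} (f : W ⟶ un C n) (k : ℤ) :
    star δ (k • f) = k • star δ f := by
  simp only [star]
  rw [Preadditive.comp_zsmul, Functor.map_zsmul, Preadditive.comp_zsmul, Preadditive.comp_zsmul]

lemma mv_star {X : C} (u : X ⟶ 𝟙_ C) (n : ℕ) : ∀ i : Fin (n + 1),
    mv X Z n i ≫ starN δ u (n + 1) = ((-1 : ℤ) ^ (n + i.val)) • starN δ u (n + 1) := by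
  induction n with
  | zero =>
    intro i
    obtain rfl : i = 0 := Subsingleton.elim (α := Fin 1) _ _
    simp [mv]
  | succ n ih =>
    intro i
    refine Fin.lastCases ?_ (fun j => ?_) i
    · rw [mv_last, Category.id_comp, Fin.val_last, Even.neg_one_pow ⟨n + 1, rfl⟩, one_zsmul]
    · rw [mv_castSucc, Category.assoc]
      have h1 : starN δ u (n + 1 + 1) = star δ (n := n + 1) (star δ (starN δ u n)) := rfl
      rw [h1, exch_star, Preadditive.comp_neg, ← star_comp]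
      have h2 := ih j
      have h3 : starN δ u (n + 1) = star δ (starN δ u n) := rfl
      rw [h3] at h2
      rw [h2, star_zsmul, Fin.val_castSucc, show n + 1 + j.val = (n + j.val) + 1 by omega, pow_succ]
      simp

lemma alt_star {X : C} (u : X ⟶ 𝟙_ C) (n : ℕ) :
    alt X Z n ≫ starN δ u n = (n.factorial : ℤ) • starN δ u n := by
  induction n with
  | zero => simp [alt]
  | succ n ih =>
    have h1 : (alt X Z n ▷ Z) ≫ starN δ u (n + 1) = (n.factorial : ℤ) • starN δ u (n + 1) := by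
      have h3 : starN δ u (n + 1) = star δ (starN δ u n) := rfl
      rw [h3, ← star_comp, ih, star_zsmul]
    simp only [alt, Preadditive.sum_comp, Preadditive.zsmul_comp, Category.assoc, h1,
      Preadditive.comp_zsmul, mv_star]
    rw [Finset.sum_congr rfl (g := fun _ => (n.factorial : ℤ) • starN δ u (n + 1))]
    · rw [Finset.sum_const, Finset.card_univ, Fintype.card_fin, ← natCast_zsmul, smul_smul,
        Nat.factorial_succ]
      push_cast
      rfl
    · intro i _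
      rw [smul_smul, smul_smul, mul_right_comm, ← pow_add,
        Even.neg_one_pow ⟨n + i.val, rfl⟩, one_mul]

end

end Pool.Agent.Y116.MT
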