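import Pool.Agent.Y116.MT.AltVec

/-!
# The antisymmetrizer and lax symmetric monoidal functors
-/

set_option autoImplicit false
set_option linter.unusedSectionVars false
set_option linter.unusedSimpArgs false
set_option backward.isDefEq.respectTransparency false
set_option backward.defeqAttrib.useBackward true

open CategoryTheory Limits MonoidalCategory

namespace Pool.Agent.Y116.MT

universe v u w v' u'

open Functor.LaxMonoidal

section

attribute [reassoc] exch_natural_first

variable {C : Type u} [Category.{v} C] [MonoidalCategory C] [SymmetricCategory C]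
  {D : Type u'} [Category.{v'} D] [MonoidalCategory D] [SymmetricCategory D]
  (H : C ⥤ D) [H.LaxBraided] (X Z : C)

/-- The comparison map of tensor powers. -/
def kap : ∀ n : ℕ, pw (H.obj X) (H.obj Z) n ⟶ H.obj (pw X Z n)
  | 0 => 𝟙 _
  | n + 1 => (kap n ▷ H.obj Z) ≫ μ H (pw X Z n) Z

lemma exch_lax (W P : C) :
    (exch (H.obj W) (H.obj Z) (H.obj P)).hom ≫ μ H W P ▷ H.obj Z ≫ μ H (W ⊗ P) Z =
      μ H W Z ▷ H.obj P ≫ μ H (W ⊗ Z) P ≫ H.map (exch W Z P).hom := by
  simp only [exch, Iso.trans_hom, whiskerLeftIso_hom, Iso.symm_hom, Category.assoc,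
    Functor.map_comp]
  rw [Functor.LaxMonoidal.associativity_assoc, ← Functor.LaxMonoidal.μ_natural_right_assoc,
    ← MonoidalCategory.whiskerLeft_comp_assoc, Functor.LaxBraided.braided,
    MonoidalCategory.whiskerLeft_comp_assoc, Functor.LaxMonoidal.associativity_inv]

lemma mv_lax (n : ℕ) : ∀ i : Fin (n + 1),
    mv (H.obj X) (H.obj Z) n i ≫ kap H X Z (n + 1) = kap H X Z (n + 1) ≫ H.map (mv X Z n i) := by
  induction n with
  | zero =>
    intro i
    simp [mv]
  | succ n ih =>
    intro i
    refine Fin.lastCases ?_ (fun j => ?_) i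
    · simp
    · rw [mv_castSucc, mv_castSucc, Functor.map_comp]
      have h1 : kap H X Z (n + 1 + 1) = (kap H X Z n ▷ H.obj Z ▷ H.obj Z) ≫
          (μ H (pw X Z n) Z ▷ H.obj Z) ≫ μ H (pw X Z n ⊗ Z) Z := by
        simp [kap]
      have h2 : (exch (pw (H.obj X) (H.obj Z) n) (H.obj Z) (H.obj Z)).hom ≫
          kap H X Z (n + 1 + 1) = kap H X Z (n + 1 + 1) ≫ H.map (exch (pw X Z n) Z Z).hom := by
        rw [h1, ← exch_natural_first_assoc, exch_lax]
        simp only [Category.assoc]
      rw [Category.assoc, h2]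
      have h3 : (mv (H.obj X) (H.obj Z) n j ▷ H.obj Z) ≫ kap H X Z (n + 1 + 1) =
          kap H X Z (n + 1 + 1) ≫ H.map (mv X Z n j ▷ Z) := by
        have h4 : kap H X Z (n + 1 + 1) = (kap H X Z (n + 1) ▷ H.obj Z) ≫
            μ H (pw X Z (n + 1)) Z := rfl
        rw [h4, ← comp_whiskerRight_assoc, ih, comp_whiskerRight_assoc, μ_natural_left,
          Category.assoc]
      rw [← Category.assoc, h3, Category.assoc]

variable [Preadditive C] [Preadditive D] [MonoidalPreadditive D] [H.Additive]

lemma alt_lax (n : ℕ) :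
    alt (H.obj X) (H.obj Z) n ≫ kap H X Z n = kap H X Z n ≫ H.map (alt X Z n) := by
  induction n with
  | zero => simp [alt, kap]
  | succ n ih =>
    simp only [alt, Preadditive.sum_comp, Functor.map_sum, Preadditive.comp_sum]
    refine Finset.sum_congr rfl (fun i _ => ?_)
    rw [Functor.map_zsmul, Preadditive.zsmul_comp, Preadditive.comp_zsmul, Functor.map_comp,
      ← Category.assoc (kap H X Z (n + 1)), ← mv_lax]
    have h3 : (alt (H.obj X) (H.obj Z) n ▷ H.obj Z) ≫ kap H X Z (n + 1) =
          kap H X Z (n + 1) ≫ H.map (alt X Z n ▷ Z) := by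
        have h4 : kap H X Z (n + 1) = (kap H X Z n ▷ H.obj Z) ≫
            μ H (pw X Z n) Z := rfl
        rw [h4, ← comp_whiskerRight_assoc, ih, comp_whiskerRight_assoc, μ_natural_left,
          Category.assoc]
    rw [Category.assoc, Category.assoc, h3]

end

end Pool.Agent.Y116.MT
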