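import Pool.Agent.Y116.MT.Alt

/-!
# The antisymmetrizer vanishes on high tensor powers of a finite dimensional vector space
-/

set_option autoImplicit false
set_option linter.unusedSectionVars false
set_option linter.unusedSimpArgs false
set_option backward.isDefEq.respectTransparency false
set_option backward.defeqAttrib.useBackward true

open CategoryTheory Limits MonoidalCategory TensorProduct

namespace Pool.Agent.Y116.MT

universe v u w

section

variable {E : Type w} [Field E] (X V : ModuleCat.{w} E)

/-- The pure tensors. -/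
noncomputable def ten (x : X) : ∀ (n : ℕ) (_ : Fin n → V), (pw X V n : ModuleCat.{w} E)
  | 0, _ => x
  | n + 1, v => (ten x n (Fin.init v)) ⊗ₜ[E] (v (Fin.last n))

lemma exch_apply (W V P : ModuleCat.{w} E) (a : W) (b : V) (c : P) :
    (exch W V P).hom ((a ⊗ₜ[E] b) ⊗ₜ[E] c : (((W ⊗ V : ModuleCat.{w} E) ⊗ P : ModuleCat.{w} E))) =
      ((a ⊗ₜ[E] c) ⊗ₜ[E] b : (((W ⊗ P : ModuleCat.{w} E) ⊗ V : ModuleCat.{w} E))) := by
  rfl

lemma init_removeNth (n : ℕ) (j : Fin (n + 1)) (v : Fin (n + 2) → V) :
    Fin.init (j.castSucc.removeNth v) = j.removeNth (Fin.init v) := by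
  funext k
  simp [Fin.init, Fin.removeNth]

lemma removeNth_last' (n : ℕ) (j : Fin (n + 1)) (v : Fin (n + 2) → V) :
    (j.castSucc.removeNth v) (Fin.last n) = v (Fin.last (n + 1)) := by
  simp [Fin.removeNth]

lemma mv_apply (x : X) (n : ℕ) : ∀ (i : Fin (n + 1)) (v : Fin (n + 1) → V),
    (mv X V n i) (ten X V x (n + 1) v) =
      ((ten X V x n (i.removeNth v)) ⊗ₜ[E] (v i) : (pw X V n ⊗ V : ModuleCat.{w} E)) := by
  induction n with
  | zero =>
    intro i v
    obtain rfl : i = 0 := Subsingleton.elim (α := Fin 1) _ _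
    rfl
  | succ n ih =>
    intro i
    refine Fin.lastCases ?_ (fun j => ?_) i
    · intro v
      rw [mv_last, Fin.removeNth_last]
      rfl
    · intro v
      rw [mv_castSucc]
      have h1 : ((mv X V n j ▷ V) ≫ (exch (pw X V n) V V).hom) (ten X V x (n + 1 + 1) v) =
        (exch (pw X V n) V V).hom ((mv X V n j (ten X V x (n + 1) (Fin.init v))) ⊗ₜ[E]
          (v (Fin.last (n + 1)))) := rfl
      rw [h1, ih, exch_apply]
      simp only [ten, init_removeNth, removeNth_last']
      rfl

/-- The antisymmetrizer on pure tensors is an alternating function of the last factors. -/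
lemma alt_ten (x : X) (n : ℕ) : ∃ G : V [⋀^Fin n]→ₗ[E] (pw X V n : ModuleCat.{w} E),
    ∀ v : Fin n → V, (alt X V n) (ten X V x n v) = G v := by
  induction n with
  | zero => exact ⟨AlternatingMap.constOfIsEmpty E V (Fin 0) x, fun v => rfl⟩
  | succ n ih =>
    obtain ⟨G, hG⟩ := ih
    let L : V →ₗ[E] V [⋀^Fin n]→ₗ[E] (pw X V (n + 1) : ModuleCat.{w} E) :=
      { toFun := fun m => ((TensorProduct.mk E (pw X V n : ModuleCat.{w} E) V).flip m).compAlternatingMap G
        map_add' := fun a b => by
          ext v
          simp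
        map_smul' := fun a b => by
          ext v
          simp }
    refine ⟨((-1 : ℤ) ^ n) • AlternatingMap.alternatizeUncurryFin L, fun v => ?_⟩
    rw [AlternatingMap.smul_apply, AlternatingMap.alternatizeUncurryFin_apply, Finset.smul_sum]
    have h1 : (alt X V (n + 1)) (ten X V x (n + 1) v) =
      ∑ i : Fin (n + 1), ((-1 : ℤ) ^ (n + i.val)) •
        ((alt X V n ▷ V) ((mv X V n i) (ten X V x (n + 1) v))) := by
      have h3 := ModuleCat.hom_sum (fun i : Fin (n + 1) =>
        ((-1 : ℤ) ^ (n + i.val)) • (mv X V n i ≫ (alt X V n ▷ V))) Finset.univ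
      exact (LinearMap.congr_fun h3 _).trans (by rw [LinearMap.sum_apply]; rfl)
    rw [h1]
    refine Finset.sum_congr rfl (fun i _ => ?_)
    rw [mv_apply, smul_smul, ← pow_add]
    congr 1
    have h2 : (alt X V n ▷ V) ((ten X V x n (i.removeNth v)) ⊗ₜ[E] (v i)) =
      (((alt X V n) (ten X V x n (i.removeNth v))) ⊗ₜ[E] (v i) :
        (pw X V n ⊗ V : ModuleCat.{w} E)) := rfl
    rw [h2, hG]
    rfl

/-- The pure tensors span. -/
lemma ten_span (n : ℕ) : ∀ y : (pw X V n : ModuleCat.{w} E),
    y ∈ Submodule.span E (Set.range fun q : X × (Fin n → V) => ten X V q.1 n q.2) := by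
  induction n with
  | zero => intro y; exact Submodule.subset_span ⟨(y, Fin.elim0), rfl⟩
  | succ n ih =>
    intro y
    change (pw X V n : ModuleCat.{w} E) ⊗[E] V at y
    induction y using TensorProduct.induction_on with
    | zero => exact Submodule.zero_mem _
    | add a b ha hb => exact Submodule.add_mem _ ha hb
    | tmul a b =>
      have h1 := ih a
      induction h1 using Submodule.span_induction with
      | mem z hz =>
        obtain ⟨⟨x, v⟩, rfl⟩ := hz
        refine Submodule.subset_span ⟨(x, Fin.snoc v b), ?_⟩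
        simp only [ten, Fin.init_snoc, Fin.snoc_last]
      | zero => rw [TensorProduct.zero_tmul]; exact Submodule.zero_mem _
      | add p q _ _ hp hq => rw [TensorProduct.add_tmul]; exact Submodule.add_mem _ hp hq
      | smul c p _ hp => rw [← TensorProduct.smul_tmul']; exact Submodule.smul_mem _ c hp

/-- The antisymmetrizer vanishes on high tensor powers of a finite dimensional space. -/
theorem alt_vec_zero [Module.Finite E V] (n : ℕ) (hn : Module.finrank E V < n) :
    alt X V n = 0 := by
  ext y
  have hy := ten_span X V n y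
  induction hy using Submodule.span_induction with
  | mem z hz =>
    obtain ⟨⟨x, v⟩, rfl⟩ := hz
    obtain ⟨G, hG⟩ := alt_ten X V x n
    have h1 : G v = 0 := by
      apply AlternatingMap.map_linearDependent
      intro hv
      have := hv.fintype_card_le_finrank
      rw [Fintype.card_fin] at this
      omega
    rw [hG v, h1]
    rfl
  | zero => simp
  | add p q _ _ hp hq => simpa using congrArg₂ (· + ·) hp hq
  | smul c p _ hp => simpa using congrArg (c • ·) hp

end

end Pool.Agent.Y116.MT
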