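import Pool.Agent.Y116.MT.KP3

/-!
# Endomorphisms which are zero on the cohomology are nilpotent, if the motivic t-structure exists
-/

set_option autoImplicit false
set_option linter.unusedSectionVars false
set_option linter.unusedSimpArgs false
set_option backward.isDefEq.respectTransparency false
set_option backward.defeqAttrib.useBackward true

open CategoryTheory Limits MonoidalCategory Pretriangulated Triangulated

namespace Pool.Agent.Y116.MT

universe v u w

section

variable {C : Type u} [Category.{v} C] [Preadditive C]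

lemma pow_comp {X : C} (f : X ⟶ X) (n : ℕ) :
    (((show End X from f) ^ (n + 1) : End X) : X ⟶ X) = f ≫ ((show End X from f) ^ n : End X) := by
  rw [pow_succ]
  rfl

lemma pow_comp' {X : C} (f : X ⟶ X) (n : ℕ) :
    (((show End X from f) ^ (n + 1) : End X) : X ⟶ X) = ((show End X from f) ^ n : End X) ≫ f := by
  rw [pow_succ']
  rfl

lemma pow_swap {X Y : C} (g : X ⟶ Y) (h : Y ⟶ X) (n : ℕ) :
    g ≫ (((show End Y from (h ≫ g)) ^ n : End Y) : Y ⟶ Y) =
      (((show End X from (g ≫ h)) ^ n : End X) : X ⟶ X) ≫ g := by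
  induction n with
  | zero =>
    change g ≫ 𝟙 _ = 𝟙 _ ≫ g
    simp
  | succ n ih =>
    rw [pow_comp, pow_comp, Category.assoc, ih]
    simp only [Category.assoc]

lemma pow_swap' {X Y : C} (g : X ⟶ Y) (h : Y ⟶ X) (n : ℕ) :
    (((show End X from (g ≫ h)) ^ (n + 1) : End X) : X ⟶ X) =
      g ≫ (((show End Y from (h ≫ g)) ^ n : End Y) : Y ⟶ Y) ≫ h := by
  rw [pow_comp', ← Category.assoc g, pow_swap, Category.assoc]

end

section

variable {C : Type u} [Category.{v} C] [Preadditive C] [HasZeroObject C] [HasShift C ℤ]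
  [∀ n : ℤ, (shiftFunctor C n).Additive] [Pretriangulated C] [IsTriangulated C]
  [MonoidalCategory C] [SymmetricCategory C] [MonoidalPreadditive C] [TensorTriangulated C]
  [RightRigidCategory C] {E : Type w} [Field E] {R : Realisation C E} {t : TStructure C}
  (ht : TensorCompat t) (he : TExact t R) (hu : Hrt t (𝟙_ C))
  (hid : ∀ e : 𝟙_ C ⟶ 𝟙_ C, e ≫ e = e → e = 0 ∨ e = 𝟙 _)
  (hle : ∀ X : C, (∀ n : ℤ, t.le n X) → IsZero X)
  (hge : ∀ X : C, (∀ n : ℤ, t.ge n X) → IsZero X)

include ht he hu hid in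
/-- Faithfulness in one degree. -/
lemma faithful_deg {A : C} {a : ℤ} (h1 : t.IsLE A a) (h2 : t.IsGE A a) (f : A ⟶ A)
    (hf : R.H.map (f⟦a⟧') = 0) : f = 0 := by
  apply (shiftFunctor C a).map_injective
  rw [Functor.map_zero]
  exact faithful_heart ht he hu hid ⟨t.isLE_shift A a a 0, t.isGE_shift A a a 0⟩
    ⟨t.isLE_shift A a a 0, t.isGE_shift A a a 0⟩ _ hf

include ht he hu hid in
/-- Nilpotence for bounded objects. -/
theorem nil_aux (m : ℕ) : ∀ (X : C) (a b : ℤ) (f : X ⟶ X), b - a < m → t.IsGE X a → t.IsLE X b →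
    HTriv R f → IsNilpotent (show End X from f) := by
  induction m with
  | zero =>
    intro X a b f hab h1 h2 _
    refine ⟨1, ?_⟩
    rw [pow_one]
    exact (t.isZero X b a (by push_cast at hab; omega)).eq_of_src _ _
  | succ m ih =>
    intro X a b f hab h1 h2 hf
    obtain ⟨A, B, hA, hB, g, p, h, hT⟩ := t.exists_triangle X a (a + 1) rfl
    have hA1 : t.IsLE A a := ⟨hA⟩
    have hB1 : t.IsGE B (a + 1) := ⟨hB⟩
    have hA2 : t.IsGE A a := isGE1 hT h1 (t.isGE_of_ge B (a - 1) (a + 1))
    -- the map on `A`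
    have e1 : (g ≫ f) ≫ p = 0 := t.zero_of_isLE_of_isGE _ a (a + 1) (by omega) hA1 hB1
    obtain ⟨fA, hfA⟩ := ce2 hT _ e1
    have hm : Mono (R.H.map (g⟦a⟧')) := hmono1 R.H hT a (he.isGE hB1 _ (by omega))
    have e2 : fA = 0 := by
      apply faithful_deg ht he hu hid hA1 hA2
      rw [← cancel_mono (R.H.map (g⟦a⟧')), zero_comp, ← Functor.map_comp, ← Functor.map_comp,
        ← hfA, Functor.map_comp, Functor.map_comp, hf a, comp_zero]
    have e3 : g ≫ f = 0 := by rw [hfA, e2, zero_comp]
    obtain ⟨φ, hφ⟩ := ye2 hT f e3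
    by_cases hb : b < a + 1
    · refine ⟨1, ?_⟩
      have h3 : t.IsLE X a := t.isLE_of_le X b a
      have h4 : t.IsLE B a := isLE3 hT (t.isLE_of_le A a (a + 1)) h3
      have h5 := t.isZero B a (a + 1) (by omega)
      rw [pow_one]
      change f = 0
      rw [hφ, h5.eq_of_src φ 0, comp_zero]
    have hB2 : t.IsLE B b := isLE3 hT (t.isLE_of_le A a (b + 1)) h2
    have hfB : HTriv R (φ ≫ p) := by
      intro i
      by_cases hi : i < a + 1
      · exact (he.isGE hB1 i hi).eq_of_src _ _
      · have hp : Epi (R.H.map (p⟦i⟧')) := hepi2 R.H hT i (he.isLE hA1 _ (by omega))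
        rw [← cancel_epi (R.H.map (p⟦i⟧')), comp_zero, ← Functor.map_comp, ← Functor.map_comp,
          ← Category.assoc, ← hφ, Functor.map_comp, Functor.map_comp, hf i, zero_comp]
    obtain ⟨n, hn⟩ := ih B (a + 1) b (φ ≫ p) (by push_cast at hab; omega) hB1 hB2 hfB
    refine ⟨n + 1, ?_⟩
    have h6 : (((show End X from f) ^ (n + 1) : End X) : X ⟶ X) = 0 := by
      rw [hφ, pow_swap']
      have h7 : (((show End B from (φ ≫ p)) ^ n : End B) : B ⟶ B) = 0 := hn
      rw [h7, zero_comp, comp_zero]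
    exact h6

include ht he hu hid hle hge in
/-- Endomorphisms which are zero on the cohomology are nilpotent. -/
theorem nil_of_htriv {X : C} (f : X ⟶ X) (hf : HTriv R f) : IsNilpotent (show End X from f) := by
  obtain ⟨N, hN1, hN2⟩ := bounded_of_H ht he hu hid hle hge X
  exact nil_aux ht he hu hid (2 * N + 1) X (-N) N f (by push_cast; omega) hN2 hN1 hf

end

end Pool.Agent.Y116.MT
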