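import Pool.Agent.Y116.MT.BBDefs
import Pool.Agent.Y116.MT.Nil

/-!
# Decompositions of Chow motives by degrees
-/

set_option autoImplicit false
set_option linter.unusedSectionVars false
set_option linter.unusedSimpArgs false
set_option backward.isDefEq.respectTransparency false
set_option backward.defeqAttrib.useBackward true

open CategoryTheory Limits MonoidalCategory Pretriangulated Triangulated

namespace Pool.Agent.Y116.MT

universe v u w

open Functor.LaxMonoidal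

section

variable {C : Type u} [Category.{v} C] [Preadditive C]

/-- Direct sums of decompositions. -/
noncomputable def Dc.pi [HasFiniteBiproducts C] {k : ℕ} {Q A B : Fin k → C}
    (d : ∀ j, Dc (Q j) (A j) (B j)) : Dc (⨁ Q) (⨁ A) (⨁ B) where
  i := biproduct.map fun j => (d j).i
  p := biproduct.map fun j => (d j).p
  j := biproduct.map fun j => (d j).j
  q := biproduct.map fun j => (d j).q
  ip := by ext j j'; simp [(d j).ip]
  jq := by ext j j'; simp [(d j).jq]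
  iq := by ext j j'; simp [(d j).iq]
  jp := by ext j j'; simp [(d j).jp]
  total := by
    apply biproduct.hom_ext'
    intro j
    have h := (d j).total
    simp only [Preadditive.comp_add, biproduct.ι_map_assoc, biproduct.ι_map, Category.comp_id]
    rw [← Category.assoc, ← Category.assoc, ← Preadditive.add_comp, h, Category.id_comp]

/-- The decomposition with one part equal to zero. -/
def Dc.left {X Z : C} (hZ : IsZero Z) : Dc X X Z where
  i := 𝟙 X
  p := 𝟙 X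
  j := 0
  q := 0
  ip := by simp
  jq := hZ.eq_of_src _ _
  iq := by simp
  jp := by simp
  total := by simp

/-- The decomposition with one part equal to zero. -/
def Dc.right {X Z : C} (hZ : IsZero Z) : Dc X Z X where
  i := 0
  p := 0
  j := 𝟙 X
  q := 𝟙 X
  ip := hZ.eq_of_src _ _
  jq := by simp
  iq := by simp
  jp := by simp
  total := by simp

end

section

variable {C : Type u} [Category.{v} C] [Preadditive C] [HasZeroObject C] [HasShift C ℤ]
  [∀ n : ℤ, (shiftFunctor C n).Additive] [Pretriangulated C] [MonoidalCategory C]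
  [SymmetricCategory C] [TensorTriangulated C] {E : Type w} [Field E] {R : Realisation C E}

lemma isZero_pi {k : ℕ} {A : Fin k → C} {i : ℤ} (h : ∀ j, IsZero (R.H.obj ((A j)⟦i⟧))) :
    IsZero (R.H.obj ((⨁ A)⟦i⟧)) := by
  rw [IsZero.iff_id_eq_zero, ← CategoryTheory.Functor.map_id, ← CategoryTheory.Functor.map_id,
    ← biproduct.total, Functor.map_sum, Functor.map_sum]
  refine Finset.sum_eq_zero fun j _ => ?_
  rw [Functor.map_comp, Functor.map_comp, (h j).eq_of_tgt (R.H.map ((biproduct.π A j)⟦i⟧')) 0,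
    zero_comp]

/-- If `H^i(B) = 0`, then `X` and `A` have the same cohomology in degree `i`. -/
lemma Dc.map_total {X A B : C} (d : Dc X A B) {i : ℤ} (h : IsZero (R.H.obj (B⟦i⟧))) :
    R.H.map (d.p⟦i⟧') ≫ R.H.map (d.i⟦i⟧') = 𝟙 _ := by
  have h1 : R.H.map ((d.p ≫ d.i + d.q ≫ d.j)⟦i⟧') = 𝟙 _ := by
    rw [d.total, CategoryTheory.Functor.map_id, CategoryTheory.Functor.map_id]
  rw [Functor.map_add, Functor.map_add, Functor.map_comp, Functor.map_comp, Functor.map_comp,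
    Functor.map_comp, h.eq_of_tgt (R.H.map (d.q⟦i⟧')) 0, zero_comp, add_zero] at h1
  exact h1

lemma htriv_of_low_high {X Y : C} (m : ℤ) (hX : ∀ i, m < i → IsZero (R.H.obj (X⟦i⟧)))
    (hY : ∀ i, i ≤ m → IsZero (R.H.obj (Y⟦i⟧))) (g : X ⟶ Y) : HTriv R g := by
  intro i
  rcases lt_or_ge m i with h | h
  · exact (hX i h).eq_of_src _ _
  · exact (hY i h).eq_of_tgt _ _

end

section

variable {C : Type u} [Category.{v} C] [Preadditive C] [HasZeroObject C] [HasShift C ℤ]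
  [∀ n : ℤ, (shiftFunctor C n).Additive] [Pretriangulated C] [MonoidalCategory C]
  [SymmetricCategory C] [TensorTriangulated C] [RightRigidCategory C] [MonoidalPreadditive C]
  [Linear ℚ C] [IsIdempotentComplete C] {E : Type w} [Field E] {R : Realisation C E}
  {Chow : ObjectProperty C} {T : C}
  (hM : IsMotives Chow T (fun _ : Unit => R))
  (hN : ∀ (P : C) (f : P ⟶ P), Chow P → HTriv R f → IsNilpotent (show End P from f))
  (hD : StandardD Chow R)

include hN in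
/-- Conservativity. -/
lemma zero_of_H {X : C} (hX : Chow X) (h : ∀ i : ℤ, IsZero (R.H.obj (X⟦i⟧))) : IsZero X := by
  obtain ⟨k, hk⟩ := hN X (𝟙 X) hX (fun i => (h i).eq_of_src _ _)
  rw [IsZero.iff_id_eq_zero]
  have h5 : (1 : End X) ^ k = 0 := hk
  rw [one_pow] at h5
  exact h5

include hM hN hD in
/-- Decomposition of a Chow motive by degrees. -/
theorem split_pred {P : C} (hP : Chow P) (S : ℤ → Prop) :
    ∃ A B : C, Chow A ∧ Chow B ∧ Nonempty (Dc P A B) ∧
      (∀ i, ¬ S i → IsZero (R.H.obj (A⟦i⟧))) ∧ ∀ i, S i → IsZero (R.H.obj (B⟦i⟧)) := by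
  classical
  obtain ⟨n, Q, d, hQ, hd, ⟨e⟩⟩ := kunneth_of (Λ := Unit) (E := fun _ => E) (R := fun _ => R)
    hM.unit_end hM.chow hM.chow_T hM.lefschetz (fun P f hP hf => hN P f hP (hf ()))
    (fun P s hP hs _ => hD P s hP hs) P hP
  obtain ⟨Z, hZ⟩ := (inferInstance : HasZeroObject C).zero
  have hz : ∀ i : ℤ, IsZero (R.H.obj (Z⟦i⟧)) := fun i =>
    R.H.map_isZero ((shiftFunctor C i).map_isZero hZ)
  have key : ∀ j, ∃ A B : C, Nonempty (Dc (Q j) A B) ∧
      (∀ i, ¬ S i → IsZero (R.H.obj (A⟦i⟧))) ∧ ∀ i, S i → IsZero (R.H.obj (B⟦i⟧)) := by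
    intro j
    by_cases hj : S (d j)
    · refine ⟨Q j, Z, ⟨Dc.left hZ⟩, fun i hi => hd j () i ?_, fun i _ => hz i⟩
      rintro rfl
      exact hi hj
    · refine ⟨Z, Q j, ⟨Dc.right hZ⟩, fun i _ => hz i, fun i hi => hd j () i ?_⟩
      rintro rfl
      exact hj hi
  choose A B hAB hA hB using key
  have hdc := (Dc.pi fun j => (hAB j).some).iso e.symm
  exact ⟨_, _, hM.chow.retract _ _ hdc.i hdc.p hdc.ip hP, hM.chow.retract _ _ hdc.j hdc.q hdc.jq hP,
    ⟨hdc⟩, fun i hi => isZero_pi fun j => hA j i hi, fun i hi => isZero_pi fun j => hB j i hi⟩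

include hM hN hD in
/-- The degrees of the dual. -/
theorem dual_zero {P : C} (hP : Chow P) {n : ℤ} (h : IsZero (R.H.obj (P⟦n⟧))) :
    IsZero (R.H.obj ((Pᘁ : C)⟦-n⟧)) := by
  obtain ⟨A, B, hA, hB, ⟨d⟩, h1, h2⟩ := split_pred hM hN hD (hM.chow.dual P hP) (· = -n)
  have hk : HTriv R ((tensorRightHomEquiv A P Pᘁ (𝟙_ C)).symm (d.i ≫ (λ_ _).inv)) := by
    intro i
    by_cases hi : i = 0
    · subst hi
      refine IsZero.eq_of_src (isZero_tensor fun a b hab => ?_) _ _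
      by_cases ha : a = -n
      · right
        rwa [show b = n by omega]
      · exact Or.inl (h1 a ha)
    · exact (deg_unit (R := R) i hi).eq_of_tgt _ _
  have h3 : HTriv R (d.i ≫ (λ_ (Pᘁ : C)).inv) := by
    rw [← (tensorRightHomEquiv A P Pᘁ (𝟙_ C)).apply_symm_apply (d.i ≫ (λ_ (Pᘁ : C)).inv)]
    simp only [tensorRightHomEquiv, Equiv.coe_fn_mk]
    exact (((hk.whisker _).comp_left _).comp_left _).comp_left _
  have h4 : HTriv R d.i := by
    have h5 := h3.comp_right (λ_ (Pᘁ : C)).hom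
    rwa [Category.assoc, Iso.inv_hom_id, Category.comp_id] at h5
  have h5 := d.map_total (h2 (-n) rfl)
  rw [h4 (-n), comp_zero] at h5
  rw [IsZero.iff_id_eq_zero]
  exact h5.symm

/-- A section of a Chow motive without cohomology in negative degrees is zero if it is zero on the
cohomology. -/
def SecZero (Chow : ObjectProperty C) (R : Realisation C E) : Prop :=
  ∀ (P : C) (s : 𝟙_ C ⟶ P), Chow P → (∀ i : ℤ, i < 0 → IsZero (R.H.obj (P⟦i⟧))) →
    R.H.map s = 0 → s = 0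

variable (hF : SecZero Chow R)

include hM hN hD hF in
/-- Morphisms from degrees `≤ m` to degrees `≥ m` are determined by the cohomology. -/
theorem hom_le_ge {A B : C} (hA : Chow A) (hB : Chow B) (m : ℤ)
    (h1 : ∀ i, m < i → IsZero (R.H.obj (A⟦i⟧))) (h2 : ∀ i, i < m → IsZero (R.H.obj (B⟦i⟧)))
    (g : A ⟶ B) (hg : HTriv R g) : g = 0 := by
  apply eq_zero_of_nm
  refine hF _ _ (hM.chow.tensor _ _ hB (hM.chow.dual _ hA)) (fun i hi => ?_) (htriv_nm hg).zero
  refine isZero_tensor fun a b hab => ?_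
  by_cases ha : a < m
  · exact Or.inl (h2 a ha)
  · right
    have h3 := dual_zero hM hN hD hA (h1 (-b) (by omega))
    rwa [neg_neg] at h3

include hM hD hF in
/-- Regularity in one degree. -/
theorem reg_same {A B : C} (hA : Chow A) (hB : Chow B) {m : ℤ} (hAm : R.Deg A m)
    (hBm : R.Deg B m) (f : A ⟶ B) : ∃ g : B ⟶ A, f ≫ g ≫ f = f := by
  have hX : Chow (A ⊞ B) := hM.chow.sum _ _ hA hB
  have hXm : R.Deg (A ⊞ B) m := fun n hn =>
    hz2 R.H (binaryBiproductTriangle_distinguished A B) n (hAm n hn) (hBm n hn)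
  obtain ⟨e⟩ := shift_end (A ⊞ B) m
  have hnd : ∀ s : 𝟙_ C ⟶ (A ⊞ B)⟦m⟧ ⊗ ((A ⊞ B)⟦m⟧)ᘁ, s ≠ 0 →
      ∃ r : (A ⊞ B)⟦m⟧ ⊗ ((A ⊞ B)⟦m⟧)ᘁ ⟶ 𝟙_ C, s ≫ r ≠ 0 := by
    intro s hs
    by_contra hcon
    push Not at hcon
    apply hs
    rw [← cancel_mono e.inv, zero_comp]
    have h6 : R.Deg ((A ⊞ B) ⊗ (A ⊞ B)ᘁ) 0 := by
      have h5 := hXm.tensor (deg_dual hXm)
      rwa [add_neg_cancel] at h5
    have h7 := hM.chow.tensor _ _ hX (hM.chow.dual _ hX)
    refine hF _ _ h7 (fun i hi => h6 i hi.ne) (hD _ _ h7 fun r => ?_)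
    rw [Category.assoc]
    exact hcon _
  obtain ⟨b, hb⟩ := regular_end R hM.unit_end (hXm.shift m 0 (by ring)) hnd
    ((biprod.fst ≫ f ≫ biprod.inr : A ⊞ B ⟶ A ⊞ B)⟦m⟧')
  obtain ⟨b, rfl⟩ := (shiftFunctor C m).map_surjective b
  rw [← Functor.map_comp, ← Functor.map_comp] at hb
  have hb' := (shiftFunctor C m).map_injective hb
  refine ⟨biprod.inr ≫ b ≫ biprod.fst, ?_⟩
  have h6 := congrArg (fun g => biprod.inl ≫ g ≫ biprod.snd) hb'
  simpa using h6

include hM hN hD hF in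
/-- Regularity in one degree for all motives. -/
theorem reg_one {X Y : C} (hX : Chow X) (hY : Chow Y) (d : X ⟶ Y) (n : ℤ) :
    ∃ g : Y ⟶ X, (∀ m, m ≠ n → R.H.map (g⟦m⟧') = 0) ∧
      R.H.map ((d ≫ g ≫ d)⟦n⟧') = R.H.map (d⟦n⟧') := by
  obtain ⟨A', B', hA', hB', ⟨d'⟩, h1', h2'⟩ := split_pred hM hN hD hX (· = n)
  obtain ⟨A, B, hA, hB, ⟨c⟩, h1, h2⟩ := split_pred hM hN hD hY (· = n)
  obtain ⟨g, hg⟩ := reg_same hM hD hF hA' hA h1' h1 (d'.i ≫ d ≫ c.p)
  refine ⟨c.p ≫ g ≫ d'.i, fun m hm => ?_, ?_⟩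
  · rw [Functor.map_comp, Functor.map_comp, (h1 m hm).eq_of_tgt (R.H.map (c.p⟦m⟧')) 0, zero_comp]
  · have e1 := d'.map_total (h2' n rfl)
    have e2 := c.map_total (h2 n rfl)
    have e3 : ∀ x : X ⟶ Y, R.H.map (x⟦n⟧') =
        R.H.map (d'.p⟦n⟧') ≫ R.H.map ((d'.i ≫ x ≫ c.p)⟦n⟧') ≫ R.H.map (c.i⟦n⟧') := by
      intro x
      simp only [Functor.map_comp, Category.assoc]
      rw [e2, Category.comp_id, ← Category.assoc, e1, Category.id_comp]
    rw [e3 (d ≫ (c.p ≫ g ≫ d'.i) ≫ d), e3 d]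
    congr 3
    have e4 : d'.i ≫ (d ≫ (c.p ≫ g ≫ d'.i) ≫ d) ≫ c.p =
        (d'.i ≫ d ≫ c.p) ≫ g ≫ (d'.i ≫ d ≫ c.p) := by
      simp only [Category.assoc]
    rw [e4, hg]

include hM hN hD hF in
/-- Regularity. -/
theorem reg_all {X Y : C} (hX : Chow X) (hY : Chow Y) (d : X ⟶ Y) :
    ∃ g : Y ⟶ X, ∀ m : ℤ, R.H.map ((d ≫ g ≫ d)⟦m⟧') = R.H.map (d⟦m⟧') := by
  choose g hg1 hg2 using fun n => reg_one hM hN hD hF hX hY d n
  obtain ⟨N, hN'⟩ := R.bounded X
  refine ⟨∑ n ∈ Finset.Icc (-N : ℤ) N, g n, fun m => ?_⟩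
  by_cases hm : m ∈ Finset.Icc (-N : ℤ) N
  · have h1 : R.H.map ((∑ n ∈ Finset.Icc (-N : ℤ) N, g n)⟦m⟧') = R.H.map ((g m)⟦m⟧') := by
      rw [Functor.map_sum, Functor.map_sum]
      exact Finset.sum_eq_single_of_mem m hm fun n _ hn => hg1 n m (Ne.symm hn)
    rw [← hg2 m]
    simp only [Functor.map_comp]
    rw [h1]
  · refine (hN' m ?_).eq_of_src _ _
    rw [Finset.mem_Icc] at hm
    omega

end

end Pool.Agent.Y116.MT
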