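import Pool.Agent.Y116.MT.BB1

/-!
# Construction of the Bloch–Beilinson filtration
-/

set_option autoImplicit false
set_option linter.unusedSectionVars false
set_option linter.unusedSimpArgs false
set_option backward.isDefEq.respectTransparency false
set_option backward.defeqAttrib.useBackward true

open CategoryTheory Limits MonoidalCategory Pretriangulated Triangulated

namespace Pool.Agent.Y116.MT

universe v u w

open Functor.LaxMonoidal

section

variable {C : Type u} [Category.{v} C] [Preadditive C] [HasZeroObject C] [HasShift C ℤ]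
  [∀ n : ℤ, (shiftFunctor C n).Additive] [Pretriangulated C] [MonoidalCategory C]
  [SymmetricCategory C] [TensorTriangulated C] [Linear ℚ C] {E : Type w} [Field E]

/-- The filtration: the sections which are killed by all morphisms to Chow motives in degrees
greater than `-ν`. -/
def canFil (Chow : ObjectProperty C) (R : Realisation C E) (P : C) (ν : ℕ) :
    Submodule ℚ (𝟙_ C ⟶ P) where
  carrier := {s | ∀ (B : C) (g : P ⟶ B), Chow B →
    (∀ i : ℤ, i ≤ -ν → IsZero (R.H.obj (B⟦i⟧))) → s ≫ g = 0}
  add_mem' := fun {a b} ha hb B g hB h => by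
    rw [Preadditive.add_comp, ha B g hB h, hb B g hB h, add_zero]
  zero_mem' := fun B g _ _ => zero_comp
  smul_mem' := fun q a ha B g hB h => by rw [Linear.smul_comp, ha B g hB h, smul_zero]

end

section

variable {C : Type u} [Category.{v} C] [Preadditive C] [HasZeroObject C] [HasShift C ℤ]
  [∀ n : ℤ, (shiftFunctor C n).Additive] [Pretriangulated C] [MonoidalCategory C]
  [SymmetricCategory C] [TensorTriangulated C] [RightRigidCategory C] [MonoidalPreadditive C]
  [Linear ℚ C] [IsIdempotentComplete C] {E : Type w} [Field E] {R : Realisation C E}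
  {Chow : ObjectProperty C} {T : C} {Var : ℕ → ObjectProperty C}
  (hM : IsMotives Chow T (fun _ : Unit => R)) (hV : IsVarieties Chow T Var R)
  (hN : ∀ (P : C) (f : P ⟶ P), Chow P → HTriv R f → IsNilpotent (show End P from f))
  (hD : StandardD Chow R) (hF : SecZero Chow R)

include hN in
/-- An endomorphism which is the identity on the cohomology is invertible. -/
lemma inv_of_htriv {X : C} (hX : Chow X) (y : X ⟶ X) (h : HTriv R (𝟙 X - y)) :
    ∃ z : X ⟶ X, y ≫ z = 𝟙 X := by
  have h1 := hN X _ hX h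
  obtain ⟨u, hu⟩ := h1.isUnit_one_sub
  have h2 : ((u : End X) : X ⟶ X) = y := by
    rw [hu]
    change 𝟙 X - (𝟙 X - y) = y
    rw [sub_sub_cancel]
  refine ⟨((u⁻¹ : (End X)ˣ) : End X), ?_⟩
  rw [← h2]
  exact u.inv_mul

include hM hV hN hD hF in
/-- There are no sections of `M(j)[2j]` for the direct summands `M` in degrees smaller than `j` of
the motives of varieties. -/
theorem lef_vanish (d : ℕ) : ∀ (P M : C) (i : M ⟶ P) (r : P ⟶ M) (j : ℕ), Var d P →
    i ≫ r = 𝟙 M → (∀ n : ℤ, j ≤ n → IsZero (R.H.obj (M⟦n⟧))) →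
    ∀ s : 𝟙_ C ⟶ twist T M j, s = 0 := by
  have hdeg : R.Deg T (-2) := hM.lefschetz.degree ()
  have hbig : ∀ (d : ℕ) (P M : C) (i : M ⟶ P) (r : P ⟶ M) (j : ℕ), Var d P →
      i ≫ r = 𝟙 M → d < j → ∀ s : 𝟙_ C ⟶ twist T M j, s = 0 := by
    intro d P M i r j hP hir hdj s
    have h1 : twistMap T i j ≫ twistMap T r j = 𝟙 _ := by
      rw [← twistMap_comp, hir, twistMap_id]
    rw [← Category.comp_id s, ← h1, ← Category.assoc,
      hV.dimension d j P (s ≫ twistMap T i j) hP hdj, zero_comp]
  induction d with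
  | zero =>
    intro P M i r j hP hir hj s
    by_cases hdj : 0 < j
    · exact hbig 0 P M i r j hP hir hdj s
    obtain rfl : j = 0 := by omega
    have hMc : Chow M := hM.chow.retract _ _ i r hir (hV.chow _ _ hP)
    have hz : IsZero M := zero_of_H hN hMc fun n => by
      by_cases hn : n < 0
      · exact isZero_of_retract_H (hV.negative _ _ hP n hn) i r hir
      · exact hj n (by push_cast; omega)
    exact hz.eq_of_tgt _ _
  | succ d ih =>
    intro P M i r j hP hir hj s
    by_cases hdj : d + 1 < j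
    · exact hbig (d + 1) P M i r j hP hir hdj s
    have hMc : Chow M := hM.chow.retract _ _ i r hir (hV.chow _ _ hP)
    obtain ⟨Q, ρ, hQ, hρ⟩ := hV.hyperplane d P hP
    obtain ⟨b, hb⟩ := reg_all hM hN hD hF hMc (hV.chow _ _ hQ) (i ≫ ρ)
    have h1 : HTriv R (𝟙 M - (i ≫ ρ) ≫ b) := by
      intro n
      by_cases hn : n ≤ d
      · have m1 : Mono (R.H.map (ρ⟦n⟧')) := hρ n hn
        have m2 : Mono (R.H.map (i⟦n⟧')) := by
          have e1 : R.H.map (i⟦n⟧') ≫ R.H.map (r⟦n⟧') = 𝟙 _ := by
            rw [← Functor.map_comp, ← Functor.map_comp, hir, CategoryTheory.Functor.map_id,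
              CategoryTheory.Functor.map_id]
          have : Mono (R.H.map (i⟦n⟧') ≫ R.H.map (r⟦n⟧')) := by rw [e1]; infer_instance
          exact mono_of_mono _ (R.H.map (r⟦n⟧'))
        have m3 : Mono (R.H.map ((i ≫ ρ)⟦n⟧')) := by
          rw [Functor.map_comp, Functor.map_comp]
          exact mono_comp _ _
        rw [← cancel_mono (R.H.map ((i ≫ ρ)⟦n⟧')), zero_comp, ← Functor.map_comp,
          ← Functor.map_comp, Preadditive.sub_comp, Category.id_comp, Functor.map_sub,
          Functor.map_sub, sub_eq_zero, Category.assoc]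
        exact (hb n).symm
      · exact (hj n (by push_cast; omega)).eq_of_src _ _
    obtain ⟨z, hz⟩ := inv_of_htriv hN hMc _ h1
    exact ih Q M (i ≫ ρ) (b ≫ z) j hQ (by rw [← Category.assoc]; exact hz) hj s

include hM hV hN hD hF in
/-- The filtration is a Bloch–Beilinson filtration. -/
theorem canFil_isBB : IsBB Chow T Var R (canFil Chow R) := by
  have hdeg : R.Deg T (-2) := hM.lefschetz.degree ()
  -- a section in `F^ν` factors through the summand in degrees `≤ -ν`
  have hfac : ∀ (P : C) (ν : ℕ) (s : 𝟙_ C ⟶ P), Chow P → s ∈ canFil Chow R P ν →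
      ∃ (A : C) (a : 𝟙_ C ⟶ A) (i : A ⟶ P), Chow A ∧ s = a ≫ i ∧
        ∀ n : ℤ, -ν < n → IsZero (R.H.obj (A⟦n⟧)) := by
    intro P ν s hP hs
    obtain ⟨A, B, hA, hB, ⟨d⟩, h1, h2⟩ := split_pred hM hN hD hP (· ≤ (-ν : ℤ))
    refine ⟨A, s ≫ d.p, d.i, hA, ?_, fun n hn => h1 n (by omega)⟩
    have h3 := hs B d.q hB h2
    conv_lhs => rw [← Category.comp_id s, ← d.total, Preadditive.comp_add, ← Category.assoc,
      ← Category.assoc, h3, zero_comp, add_zero]
  refine ⟨?_, ?_, ?_, ?_, ?_, ?_, ?_⟩
  · intro P ν hP s hs B g hB h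
    exact hs B g hB fun i hi => h i (by push_cast at hi; omega)
  · intro P s hP B g hB h
    exact hF B (s ≫ g) hB (fun i hi => h i (by push_cast; omega))
      (by
        rw [← map_shift_zero_iff]
        exact (h 0 (by simp)).eq_of_tgt _ _)
  · intro P s hP
    constructor
    · intro hs
      obtain ⟨A, a, i, hA, rfl, h1⟩ := hfac P 1 s hP hs
      rw [Functor.map_comp, show R.H.map a = 0 from (map_shift_zero_iff a).1
        ((h1 0 (by simp)).eq_of_tgt _ _), zero_comp]
    · intro hs B g hB h
      exact hF B (s ≫ g) hB (fun i hi => h i (by push_cast; omega))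
        (by rw [Functor.map_comp, hs, zero_comp])
  · intro d j P s hP hs
    obtain ⟨A, B, hA, hB, ⟨c⟩, h1, h2⟩ := split_pred hM hN hD (hV.chow _ _ hP) (· < (j : ℤ))
    have e1 : s ≫ twistMap T c.p j = 0 :=
      lef_vanish hM hV hN hD hF d P A c.i c.p j hP c.ip (fun n hn => h1 n (by omega)) _
    have e2 : s ≫ twistMap T c.q j = 0 := by
      refine hs _ _ (chow_twist hM.chow hM.chow_T hB j) fun n hn => ?_
      exact twist_zero hdeg j (h2 _ (by push_cast at hn; omega))
    have e3 : twistMap T c.p j ≫ twistMap T c.i j + twistMap T c.q j ≫ twistMap T c.j j =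
        𝟙 _ := by
      rw [← twistMap_comp, ← twistMap_comp, ← twistMap_add, c.total, twistMap_id]
    rw [← Category.comp_id s, ← e3, Preadditive.comp_add, ← Category.assoc, ← Category.assoc, e1,
      e2, zero_comp, zero_comp, add_zero]
  · intro P Q k l s t hP hQ hs ht B g hB h
    obtain ⟨A, a, i, hA, rfl, h1⟩ := hfac P k s hP hs
    obtain ⟨A', a', i', hA', rfl, h1'⟩ := hfac Q l t hQ ht
    have h2 : (i ⊗ₘ i') ≫ g = 0 := by
      have h3 : ∀ n : ℤ, -((k + l : ℕ) : ℤ) < n → IsZero (R.H.obj ((A ⊗ A')⟦n⟧)) := fun n hn =>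
        isZero_tensor fun x y hxy => by
          by_cases hx : -(k : ℤ) < x
          · exact Or.inl (h1 x hx)
          · exact Or.inr (h1' y (by push_cast at hn; omega))
      exact hom_le_ge hM hN hD hF (hM.chow.tensor _ _ hA hA') hB (-((k + l : ℕ) : ℤ)) h3
        (fun n hn => h n hn.le) _ (htriv_of_low_high (-((k + l : ℕ) : ℤ)) h3 h _)
    rw [Category.assoc, ← tensorHom_comp_tensorHom, Category.assoc, h2, comp_zero, comp_zero]
  · intro P Q f ν s _ _ hs B g hB h
    rw [Category.assoc]
    exact hs B (f ≫ g) hB h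
  · intro P Q f ν s hP hQ hf hs B g hB h
    obtain ⟨A, a, i, hA, rfl, h1⟩ := hfac P ν s hP hs
    have h2 : i ≫ f ≫ g = 0 := by
      refine hom_le_ge hM hN hD hF hA hB (-ν : ℤ) h1 (fun n hn => h n (by push_cast; omega)) _
        (fun n => ?_)
      rcases lt_trichotomy n (-ν : ℤ) with hn | rfl | hn
      · exact (h n (by push_cast; omega)).eq_of_tgt _ _
      · rw [Functor.map_comp, Functor.map_comp, Functor.map_comp, Functor.map_comp, hf, zero_comp,
          comp_zero]
      · exact (h1 n hn).eq_of_src _ _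
    rw [Category.assoc, Category.assoc, h2, comp_zero]

end

end Pool.Agent.Y116.MT
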