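import Pool.Agent.Y116.MT.Bwd

/-!
# The motivic t-structure over a finite field
-/

set_option autoImplicit false
set_option linter.unusedSectionVars false
set_option linter.unusedSimpArgs false
set_option backward.isDefEq.respectTransparency false
set_option backward.defeqAttrib.useBackward true

open CategoryTheory Limits MonoidalCategory Pretriangulated Triangulated
open scoped Polynomial

namespace Pool.Agent.Y116.MT

universe v u w

section

variable {C : Type u} [Category.{v} C] [Preadditive C] [HasZeroObject C] [HasShift C ℤ]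
  [∀ n : ℤ, (shiftFunctor C n).Additive] [Pretriangulated C] [IsTriangulated C]
  [MonoidalCategory C] [SymmetricCategory C] [MonoidalPreadditive C] [TensorTriangulated C]
  [RightRigidCategory C] [Linear ℚ C] [IsIdempotentComplete C]
  {Λ : Type*} [Nonempty Λ] {E : Λ → Type w} [∀ l, Field (E l)]
  {R : ∀ l, Realisation C (E l)} {Chow : ObjectProperty C} {φ : 𝟭 C ⟶ 𝟭 C} {c : ℝ}

omit [IsTriangulated C] [MonoidalPreadditive C] [RightRigidCategory C] [Linear ℚ C]
  [IsIdempotentComplete C] [Nonempty Λ] in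
lemma IsMotivic.compat {t : TStructure C} (h : IsMotivic t R) : TensorCompat t :=
  ⟨h.tensor_le, h.tensor_ge⟩

omit [IsTriangulated C] [MonoidalPreadditive C] [RightRigidCategory C] [Linear ℚ C]
  [IsIdempotentComplete C] [Nonempty Λ] in
lemma IsMotivic.exact {t : TStructure C} (h : IsMotivic t R) (l : Λ) : TExact t (R l) :=
  ⟨h.exact_le l, h.exact_ge l⟩

lemma IsFrobenius.weil' (hF : IsFrobenius Chow φ c R) (l : Λ) {P : C} (hP : Chow P) :
    Weil φ c (R l) P := by
  intro i
  obtain ⟨χ, h1, h2, h3⟩ := hF.weil l P hP i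
  exact ⟨χ, ⟨h1, fun z hz => ⟨i, rfl, h2 z hz⟩⟩, h3⟩

theorem finiteField_criterion (hEnd : ∀ e : 𝟙_ C ⟶ 𝟙_ C, ∃ q : ℚ, e = q • 𝟙 _)
    (hC : IsChow Chow) (hF : IsFrobenius Chow φ c R) :
    (∃ t : TStructure C, IsMotivic t R) ↔
      ((∀ (P : C) (s : 𝟙_ C ⟶ P), Chow P → (∀ r : P ⟶ 𝟙_ C, s ≫ r = 0) → s = 0) ∧
        (∀ (P : C) (n : ℤ) (f : 𝟙_ C ⟶ P⟦n⟧), Chow P → n < 0 → f = 0)) := by
  have hid := end_idem hEnd
  constructor
  · rintro ⟨t, ht⟩
    obtain ⟨l₀⟩ := ‹Nonempty Λ›
    have hu := unit_hrt ht.compat ht.nondeg_le ht.nondeg_ge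
    constructor
    · intro P s hP hs
      by_contra hne
      obtain ⟨r, hr⟩ := fwd_num (R := R l₀) hF.shift ht.compat (ht.exact l₀) hu hid ht.nondeg_le
        ht.nondeg_ge hF.pos hF.ne_one Chow hC.unit hC.tensor
        (fun X Y i r hir hY => hC.retract X Y i r hir hY)
        (fun X hX m hm f => hC.orthogonal X _ m f hX hC.unit hm)
        (fun X hX => hF.weil' l₀ hX) hP s hne
      exact hr (hs r)
    · intro P n f hP hn
      exact fwd_neg (R := R l₀) hF.shift ht.compat (ht.exact l₀) hu hid ht.nondeg_le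
        ht.nondeg_ge hF.pos hF.ne_one (hF.weil' l₀ hP) (hF.weil' l₀ hC.unit) hn f
  · rintro ⟨h1, h2⟩
    refine bwd R (P := Chow) ⟨fun h hY => hC.retract _ _ h.i h.r h.retract hY⟩ hF.shift hF.pos
      hF.ne_one hEnd hC.tensor hC.dual hC.sum hC.generates (fun l X hX => hF.weil' l hX) ?_
      (fun X hX n hn f => h2 X n f hX hn)
    intro X hX s hs
    by_contra hcon
    push Not at hcon
    exact hs (h1 X s hX hcon)

end

end Pool.Agent.Y116.MT
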