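import Pool.Agent.Y116.MT.Cons
import Pool.Agent.Y116.MT.FiniteField

/-!
# Conservative realisations over a finite field
-/

set_option autoImplicit false
set_option linter.unusedSectionVars false
set_option linter.unusedSimpArgs false
set_option backward.isDefEq.respectTransparency false
set_option backward.defeqAttrib.useBackward true

open CategoryTheory Limits MonoidalCategory Pretriangulated Triangulated
open scoped Polynomial

namespace Pool.Agent.Y116.MT

universe v u w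

open Functor.LaxMonoidal

section

variable {C : Type u} [Category.{v} C] [Preadditive C] [HasZeroObject C] [HasShift C ℤ]
  [∀ n : ℤ, (shiftFunctor C n).Additive] [Pretriangulated C] [MonoidalCategory C]
  [SymmetricCategory C] [TensorTriangulated C] [MonoidalPreadditive C] [Linear ℚ C]
  [RightRigidCategory C] {Λ : Type*} {E : Λ → Type w} [∀ l, Field (E l)]
  {R : ∀ l, Realisation C (E l)} {Chow : ObjectProperty C} {φ : 𝟭 C ⟶ 𝟭 C} {c : ℝ}

/-- The action of a polynomial in Frobenius on the unit. -/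
lemma pol_unit {q : ℚ} (hq : φ.app (𝟙_ C) = q • 𝟙 (𝟙_ C)) (χ : ℚ[X]) :
    pol φ χ (𝟙_ C) = (χ.eval q) • 𝟙 (𝟙_ C) := by
  induction χ using Polynomial.induction_on with
  | C a => rw [pol_C, Polynomial.eval_C]
  | add a b ha hb => rw [pol_add, ha, hb, Polynomial.eval_add, add_smul]
  | monomial n a h =>
    rw [pow_succ, ← mul_assoc, pol_mul, pol_X, h, hq, Linear.smul_comp, Linear.comp_smul,
      Category.comp_id, smul_smul, Polynomial.eval_mul (q := Polynomial.X), Polynomial.eval_X]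

/-- A nonzero map from the unit is injective on the realisation. -/
lemma mono_of_ne_zero {E : Type w} [Field E] {R : Realisation C E} {P : C} (s : 𝟙_ C ⟶ P)
    (hs : R.H.map s ≠ 0) (k : ℤ) (hk : k = 0) : Mono (R.H.map (s⟦k⟧')) := by
  have h1 : Mono (Functor.LaxMonoidal.ε R.H ≫ R.H.map s) := by
    rw [ModuleCat.mono_iff_injective]
    have h2 : (Functor.LaxMonoidal.ε R.H ≫ R.H.map s).hom ≠ 0 := by
      intro h
      apply hs
      have h3 : Functor.LaxMonoidal.ε R.H ≫ R.H.map s = 0 := by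
        ext1
        exact h
      rwa [← cancel_epi (Functor.LaxMonoidal.ε R.H), comp_zero]
    have h4 : IsSimpleModule E (𝟙_ (ModuleCat.{w} E) : ModuleCat.{w} E) :=
      inferInstanceAs (IsSimpleModule E E)
    exact (LinearMap.injective_or_eq_zero (Functor.LaxMonoidal.ε R.H ≫ R.H.map s).hom).resolve_right
      h2
  have h2 : Mono (R.H.map s) := by
    have h3 : R.H.map s = inv (Functor.LaxMonoidal.ε R.H) ≫
        (Functor.LaxMonoidal.ε R.H ≫ R.H.map s) := by simp
    rw [h3]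
    infer_instance
  subst hk
  have h5 : s⟦(0 : ℤ)⟧' = (shiftFunctorZero C ℤ).hom.app _ ≫ s ≫
      (shiftFunctorZero C ℤ).inv.app _ := shiftZero' (A := ℤ) (f := s)
  rw [h5, Functor.map_comp, Functor.map_comp]
  infer_instance

lemma aeval_cast (q : ℚ) (χ : ℚ[X]) : Polynomial.aeval (q : ℂ) χ = ((χ.eval q : ℚ) : ℂ) := by
  have h := Polynomial.aeval_algebraMap_apply ℂ q χ
  simpa using h

/-- A conservative realisation detects the numerical triviality of a section which is fixed by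
an endomorphism that vanishes on the cohomology in degrees different from zero. -/
theorem cons_section {E : Type w} [Field E] {R : Realisation C E}
    (hcons : ∀ X : C, (∀ i : ℤ, IsZero (R.H.obj (X⟦i⟧))) → IsZero X)
    (hC : IsChow Chow) {P : C} (hP : Chow P) (s : 𝟙_ C ⟶ P) (π : P ⟶ P) (hπ : s ≫ π = s)
    (hπ0 : ∀ j : ℤ, j ≠ 0 → R.H.map (π⟦j⟧') = 0) (hs : ∀ r : P ⟶ 𝟙_ C, s ≫ r = 0) :
    R.H.map s = 0 := by
  by_contra hne
  obtain ⟨Z, p, δ, hT⟩ := distinguished_cocone_triangle s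
  obtain ⟨γ, hγ1, hγ2⟩ := complete_distinguished_triangle_morphism _ _ hT hT (𝟙 _) π
    (by simpa using hπ)
  simp only [Triangle.mk_mor₂, Triangle.mk_mor₃, CategoryTheory.Functor.map_id] at hγ1 hγ2
  have hγ2' : δ = γ ≫ δ := by simpa using hγ2
  obtain ⟨r, hr⟩ := cons_core hcons Chow hC.unit (fun X hX => hC.tensor X P hX hP)
    (fun X hX m hm f => hC.orthogonal X _ m f hX hC.unit hm) hT γ hγ2'.symm (by
      intro i hi
      have hepi : Epi (R.H.map (p⟦i⟧')) := by
        by_cases h1 : i + 1 = 0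
        · exact hepi2' R.H hT i (mono_of_ne_zero s hne _ h1)
        · exact hepi2 R.H hT i (deg_unit (R := R) _ h1)
      rw [← cancel_epi (R.H.map (p⟦i⟧')), comp_zero, ← Functor.map_comp, ← Functor.map_comp, hγ1,
        Functor.map_comp, Functor.map_comp, hπ0 i hi, zero_comp])
  exact hr (hs r)

/-- Over a finite field, there is a polynomial in Frobenius which is the identity on the unit and
vanishes on the cohomology of `P` in degrees different from zero. -/
theorem exists_pol (hEnd : ∀ e : 𝟙_ C ⟶ 𝟙_ C, ∃ q : ℚ, e = q • 𝟙 _)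
    (hC : IsChow Chow) (hF : IsFrobenius Chow φ c R) (l : Λ) {P : C} (hP : Chow P) :
    ∃ g : ℚ[X], pol φ g (𝟙_ C) = 𝟙 _ ∧
      ∀ j : ℤ, j ≠ 0 → (R l).H.map ((pol φ g P)⟦j⟧') = 0 := by
  have hE := charZero_of_real (R l)
  obtain ⟨q, hq⟩ := hEnd (φ.app (𝟙_ C))
  -- the Frobenius weight of the unit
  have hq1 : ‖(q : ℂ)‖ ^ 2 = c ^ (0 : ℤ) := by
    obtain ⟨χ, h1, h2, h3⟩ := hF.weil l (𝟙_ C) hC.unit 0
    apply h2
    rw [aeval_cast]
    rw [pol_unit hq, Functor.map_smul, H_smul, CategoryTheory.Functor.map_id,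
      CategoryTheory.Functor.map_id] at h3
    by_contra h4
    have h5 : (((χ.eval q : ℚ)) : E l) ≠ 0 := by
      have h6 : χ.eval q ≠ 0 := fun h => h4 (by rw [h]; simp)
      exact_mod_cast h6
    have h6 : 𝟙 ((R l).H.obj ((𝟙_ C)⟦(0 : ℤ)⟧)) = 0 := by
      rw [← one_smul (E l) (𝟙 ((R l).H.obj ((𝟙_ C)⟦(0 : ℤ)⟧))), ← inv_mul_cancel₀ h5, mul_smul, h3,
        smul_zero]
    exact not_isZero_H_unit (R l) (((IsZero.iff_id_eq_zero _).2 h6).of_iso
      ((R l).H.mapIso ((shiftFunctorZero C ℤ).app _).symm))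
  choose χ hχ0 hχ1 hχ2 using hF.weil l P hP
  obtain ⟨N, hN⟩ := (R l).bounded P
  have hχq : ∀ j : ℤ, j ≠ 0 → (χ j).eval q ≠ 0 := by
    intro j hj h
    apply hj
    have h1 := hχ1 j (q : ℂ) (by rw [aeval_cast, h]; simp)
    exact (zpow_right_injective₀ hF.pos hF.ne_one (hq1.symm.trans h1)).symm
  set g0 : ℚ[X] := ∏ j ∈ (Finset.Icc (-N : ℤ) N).erase 0, χ j with hg0
  have hg0q : g0.eval q ≠ 0 := by
    rw [hg0, Polynomial.eval_prod, Finset.prod_ne_zero_iff]
    intro j hj
    exact hχq j (Finset.ne_of_mem_erase hj)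
  set g : ℚ[X] := Polynomial.C (g0.eval q)⁻¹ * g0 with hg
  have hgq : g.eval q = 1 := by
    rw [hg, Polynomial.eval_mul, Polynomial.eval_C, inv_mul_cancel₀ hg0q]
  refine ⟨g, by rw [pol_unit hq, hgq, one_smul], ?_⟩
  intro j hj
  by_cases hjN : j ∈ Finset.Icc (-N : ℤ) N
  · obtain ⟨k, hk⟩ : χ j ∣ g :=
      (Finset.dvd_prod_of_mem _ (Finset.mem_erase.2 ⟨hj, hjN⟩)).mul_left _
    rw [hk, pol_mul, Functor.map_comp, Functor.map_comp, hχ2, zero_comp]
  · refine (hN j ?_).eq_of_src _ _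
    rw [Finset.mem_Icc] at hjN
    omega

/-- Over a finite field, a conservative realisation detects numerical triviality. -/
theorem cons_finiteField (hEnd : ∀ e : 𝟙_ C ⟶ 𝟙_ C, ∃ q : ℚ, e = q • 𝟙 _)
    (hC : IsChow Chow) (hF : IsFrobenius Chow φ c R) (l : Λ)
    (hcons : ∀ X : C, (∀ i : ℤ, IsZero ((R l).H.obj (X⟦i⟧))) → IsZero X)
    {P : C} (hP : Chow P) (s : 𝟙_ C ⟶ P) (hs : ∀ r : P ⟶ 𝟙_ C, s ≫ r = 0) :
    (R l).H.map s = 0 := by
  obtain ⟨g, hg1, hg2⟩ := exists_pol hEnd hC hF l hP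
  refine cons_section hcons hC hP s (pol φ g P) ?_ hg2 hs
  rw [← pol_natural, hg1, Category.id_comp]

/-- Over a finite field, if the realisation is conservative and `H^0(P) = 0`, there are no
morphisms from the unit to the shifts of `P`. -/
theorem cons_vanish (hEnd : ∀ e : 𝟙_ C ⟶ 𝟙_ C, ∃ q : ℚ, e = q • 𝟙 _)
    (hC : IsChow Chow) (hF : IsFrobenius Chow φ c R) (l : Λ)
    (hcons : ∀ X : C, (∀ i : ℤ, IsZero ((R l).H.obj (X⟦i⟧))) → IsZero X)
    {P : C} (hP : Chow P) (h0 : IsZero ((R l).H.obj P)) (n : ℤ) (s : 𝟙_ C ⟶ P⟦n⟧) : s = 0 := by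
  obtain ⟨g, hg1, hg2⟩ := exists_pol hEnd hC hF l hP
  have h1 := isIso_one_sub hcons (pol φ g P) (fun i => by
    by_cases hi : i = 0
    · subst hi
      exact (h0.of_iso ((R l).H.mapIso ((shiftFunctorZero C ℤ).app _))).eq_of_src _ _
    · exact hg2 i hi)
  rw [← cancel_mono ((𝟙 P - pol φ g P)⟦n⟧'), zero_comp, Functor.map_sub, Preadditive.comp_sub,
    CategoryTheory.Functor.map_id, Category.comp_id, ← pol_shift hF.shift, ← pol_natural, hg1,
    Category.id_comp, sub_self]

end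

end Pool.Agent.Y116.MT
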