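import Pool.Agent.Y116.MT.BCDefs
import Pool.Agent.Y116.MT.Nil
import Pool.Agent.Y116.MT.ConsFF

/-!
# The motivic t-structure and extensions of the base field
-/

set_option autoImplicit false
set_option linter.unusedSectionVars false
set_option linter.unusedSimpArgs false
set_option backward.isDefEq.respectTransparency false
set_option backward.defeqAttrib.useBackward true

open CategoryTheory Limits MonoidalCategory Pretriangulated Triangulated

namespace Pool.Agent.Y116.MT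

universe v u v' u' w

open Functor.LaxMonoidal

section

variable {C : Type u} [Category.{v} C] [Preadditive C] [HasZeroObject C] [HasShift C ℤ]
  [∀ n : ℤ, (shiftFunctor C n).Additive] [Pretriangulated C] [IsTriangulated C]
  [MonoidalCategory C] [SymmetricCategory C] [MonoidalPreadditive C] [TensorTriangulated C]
  [RightRigidCategory C] {E : Type w} [Field E] {R : Realisation C E} {t : TStructure C}
  (ht : TensorCompat t) (he : TExact t R) (hu : Hrt t (𝟙_ C))
  (hid : ∀ e : 𝟙_ C ⟶ 𝟙_ C, e ≫ e = e → e = 0 ∨ e = 𝟙 _)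

include ht he hu hid in
/-- A section of an object of the coaisle vanishes if it is zero on the cohomology. -/
lemma sec_zero {B : C} (hB : t.IsGE B 0) (s : 𝟙_ C ⟶ B) (hs : R.H.map s = 0) : s = 0 := by
  obtain ⟨B0, B1, h0, h1, i, p, d, hT⟩ := t.exists_triangle B 0 1 rfl
  have hB0 : t.IsLE B0 0 := ⟨h0⟩
  have hB1 : t.IsGE B1 1 := ⟨h1⟩
  have hB0' : t.IsGE B0 0 := isGE1 hT hB (t.isGE_of_ge B1 (0 - 1) 1)
  have e1 : s ≫ p = 0 := t.zero_of_isLE_of_isGE _ 0 1 (by omega) hu.1 hB1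
  obtain ⟨s', rfl⟩ := ce2 hT s e1
  have hm : Mono (R.H.map (i⟦(0 : ℤ)⟧')) := hmono1 R.H hT 0 (he.isGE hB1 _ (by omega))
  have h2 : R.H.map (s'⟦(0 : ℤ)⟧') = 0 := by
    rw [← cancel_mono (R.H.map (i⟦(0 : ℤ)⟧')), zero_comp, ← Functor.map_comp, ← Functor.map_comp]
    exact (map_shift_zero_iff _).2 hs
  rw [faithful_heart ht he hu hid hu ⟨hB0, hB0'⟩ s' ((map_shift_zero_iff _).1 h2), zero_comp]

end

section Eval

variable {C : Type u} [Category.{v} C] [MonoidalCategory C] [RightRigidCategory C]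

/-- Evaluation at a section. -/
def ev {P : C} (s : 𝟙_ C ⟶ P) : (Pᘁ : C) ⟶ 𝟙_ C := (ρ_ (Pᘁ : C)).inv ≫ (Pᘁ : C) ◁ s ≫ ε_ P Pᘁ

/-- Evaluation of a section of the dual. -/
def ve {P : C} (w : 𝟙_ C ⟶ (Pᘁ : C)) : P ⟶ 𝟙_ C := (λ_ P).inv ≫ w ▷ P ≫ ε_ P Pᘁ

lemma ev_ve {P : C} (s : 𝟙_ C ⟶ P) (w : 𝟙_ C ⟶ (Pᘁ : C)) : s ≫ ve w = w ≫ ev s := by
  simp only [ev, ve]
  rw [← Category.assoc s, leftUnitor_inv_naturality, ← Category.assoc w,
    rightUnitor_inv_naturality, Category.assoc, Category.assoc, whisker_exchange_assoc,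
    unitors_inv_equal]

lemma ev_recover {P : C} (s : 𝟙_ C ⟶ P) :
    s = η_ P Pᘁ ≫ P ◁ ev s ≫ (ρ_ P).hom := by
  have h1 : P ◁ (ρ_ (Pᘁ : C)).inv = (ρ_ (P ⊗ Pᘁ)).inv ≫ (α_ P Pᘁ (𝟙_ C)).hom := by
    simp
  simp only [ev, MonoidalCategory.whiskerLeft_comp, Category.assoc]
  rw [h1, Category.assoc, ← associator_naturality_right_assoc, ← Category.assoc (η_ P Pᘁ),
    rightUnitor_inv_naturality, Category.assoc, ← whisker_exchange_assoc,
    ExactPairing.evaluation_coevaluation_assoc, Iso.inv_hom_id, Category.comp_id,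
    leftUnitor_naturality, unitors_equal, Iso.inv_hom_id_assoc]

end Eval

end Pool.Agent.Y116.MT
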