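import Pool.Agent.Y116.MT.BB2
import Pool.Agent.Y116.MT.BC

/-!
# Consequences of the existence of a Bloch–Beilinson filtration
-/

set_option autoImplicit false
set_option linter.unusedSectionVars false
set_option linter.unusedSimpArgs false
set_option backward.isDefEq.respectTransparency false
set_option backward.defeqAttrib.useBackward true

open CategoryTheory Limits MonoidalCategory Pretriangulated Triangulated

namespace Pool.Agent.Y116.MT

universe v u w

open Functor.LaxMonoidal

section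

variable {C : Type u} [Category.{v} C] [Preadditive C] [HasZeroObject C] [HasShift C ℤ]
  [∀ n : ℤ, (shiftFunctor C n).Additive] [Pretriangulated C] [MonoidalCategory C]
  [SymmetricCategory C] [TensorTriangulated C] [RightRigidCategory C] [MonoidalPreadditive C]
  [Linear ℚ C] [IsIdempotentComplete C] {E : Type w} [Field E] {R : Realisation C E}
  {Chow : ObjectProperty C} {T : C} {Var : ℕ → ObjectProperty C}
  {Fil : ∀ P : C, ℕ → Submodule ℚ (𝟙_ C ⟶ P)}

lemma IsBB.le (h : IsBB Chow T Var R Fil) {P : C} (hP : Chow P) {ν μ : ℕ} (hνμ : ν ≤ μ) :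
    Fil P μ ≤ Fil P ν := by
  induction μ, hνμ using Nat.le_induction with
  | base => exact le_rfl
  | succ μ _ ih => exact (h.anti P μ hP).trans ih

lemma IsBB.finite (h : IsBB Chow T Var R Fil) (hV : IsVarieties Chow T Var R)
    (hC : IsChow Chow) (hT : Chow T) {P : C} (hP : Chow P) :
    ∃ M : ℕ, ∀ s ∈ Fil P M, s = 0 := by
  obtain ⟨d, j, Q, i, r, hQ, hir⟩ := hV.summand P hP
  refine ⟨j + 1, fun s hs => ?_⟩
  have h1 := h.vanish d j Q (s ≫ i) hQ
    (h.map _ _ i _ s hP (chow_twist hC hT (hV.chow _ _ hQ) j) hs)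
  rw [← Category.comp_id s, ← hir, ← Category.assoc, h1, zero_comp]

/-- Powers of an endomorphism which is zero in the degrees `≤ -ν` move sections down. -/
lemma IsBB.pow (h : IsBB Chow T Var R Fil) {P : C} (hP : Chow P) (u : P ⟶ P) (ν : ℕ)
    (hu : ∀ k : ℕ, ν ≤ k → R.H.map (u⟦(-k : ℤ)⟧') = 0) (s : 𝟙_ C ⟶ P) (hs : s ∈ Fil P ν) (n : ℕ) :
    s ≫ (((show End P from u) ^ n : End P) : P ⟶ P) ∈ Fil P (ν + n) := by
  induction n with
  | zero =>
    change s ≫ 𝟙 P ∈ Fil P ν
    rwa [Category.comp_id]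
  | succ n ih =>
    rw [pow_comp', ← Category.assoc]
    exact h.graded P P u (ν + n) _ hP hP (hu _ (by omega)) ih

lemma one_pow_comp {P : C} (n : ℕ) : (((show End P from 𝟙 P) ^ n : End P) : P ⟶ P) = 𝟙 P := by
  have h1 : (show End P from 𝟙 P) = 1 := rfl
  rw [h1, one_pow]
  rfl

lemma IsBB.eq_zero (h : IsBB Chow T Var R Fil) (hV : IsVarieties Chow T Var R)
    (hC : IsChow Chow) (hT : Chow T) {P : C} (hP : Chow P) (ν : ℕ)
    (h0 : ∀ i : ℤ, i ≤ -ν → IsZero (R.H.obj (P⟦i⟧))) (s : 𝟙_ C ⟶ P) (hs : s ∈ Fil P ν) :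
    s = 0 := by
  obtain ⟨M, hM⟩ := h.finite hV hC hT hP
  have h1 := h.pow hP (𝟙 P) ν (fun k hk => (h0 _ (by omega)).eq_of_src _ _) s hs M
  rw [one_pow_comp, Category.comp_id] at h1
  exact hM s (h.le hP (by omega) h1)

lemma IsBB.secZero (h : IsBB Chow T Var R Fil) (hV : IsVarieties Chow T Var R)
    (hC : IsChow Chow) (hT : Chow T) : SecZero Chow R := by
  intro P s hP h0 hs
  exact h.eq_zero hV hC hT hP 1 (fun i hi => h0 i (by push_cast at hi; omega)) s
    ((h.one P s hP).2 hs)

lemma IsBB.nilp (h : IsBB Chow T Var R Fil) (hV : IsVarieties Chow T Var R)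
    (hC : IsChow Chow) (hT : Chow T) (P : C) (f : P ⟶ P) (hP : Chow P) (hf : HTriv R f) :
    IsNilpotent (show End P from f) := by
  have hPP : Chow (P ⊗ Pᘁ) := hC.tensor _ _ hP (hC.dual _ hP)
  obtain ⟨M, hM⟩ := h.finite hV hC hT hPP
  have key : ∀ n : ℕ, nm (((show End P from f) ^ n : End P) : P ⟶ P) ∈ Fil (P ⊗ Pᘁ) n := by
    intro n
    induction n with
    | zero => exact h.zero _ _ hPP
    | succ n ih =>
      have h1 : nm (((show End P from f) ^ (n + 1) : End P) : P ⟶ P) =
          nm (((show End P from f) ^ n : End P) : P ⟶ P) ≫ f ▷ Pᘁ := by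
        rw [pow_comp', nm, nm, comp_whiskerRight, Category.assoc]
      rw [h1]
      exact h.graded _ _ _ n _ hPP hPP (hf.whisker _ _) ih
  exact ⟨M, eq_zero_of_nm _ (hM _ (key M))⟩

variable (hM : IsMotives Chow T (fun _ : Unit => R)) (hV : IsVarieties Chow T Var R)
  (hD : StandardD Chow R)

include hM hV hD in
/-- The Bloch–Beilinson filtration is unique. -/
theorem IsBB.eq_canFil (h : IsBB Chow T Var R Fil) {P : C} (hP : Chow P) (ν : ℕ) :
    Fil P ν = canFil Chow R P ν := by
  have hN := h.nilp hV hM.chow hM.chow_T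
  ext s
  constructor
  · intro hs B g hB h0
    exact h.eq_zero hV hM.chow hM.chow_T hB ν h0 _ (h.map _ _ g ν s hP hB hs)
  · intro hs
    obtain ⟨A, B, hA, hB, ⟨d⟩, h1, h2⟩ := split_pred hM hN hD hP (· ≤ (-ν : ℤ))
    have h3 := hs B d.q hB h2
    have h4 : s = (s ≫ d.p) ≫ d.i := by
      conv_lhs => rw [← Category.comp_id s, ← d.total, Preadditive.comp_add, ← Category.assoc,
        ← Category.assoc, h3, zero_comp, add_zero]
    rw [h4]
    refine h.map _ _ d.i ν _ hA hP ?_
    have h5 : ∀ k : ℕ, k ≤ ν → s ≫ d.p ∈ Fil A k := by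
      intro k
      induction k with
      | zero => exact fun _ => h.zero _ _ hA
      | succ k ih =>
        intro hk
        have h6 := h.graded A A (𝟙 A) k (s ≫ d.p) hA hA
          ((h1 (-k : ℤ) (by push Not; omega)).eq_of_src _ _) (ih (by omega))
        rwa [Category.comp_id] at h6
    exact h5 ν le_rfl

include hM hV in
/-- Existence of a Bloch–Beilinson filtration in terms of nilpotence and the vanishing of
sections. -/
theorem bb_iff (hD : StandardD Chow R) : (∃ Fil, IsBB Chow T Var R Fil) ↔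
    (∀ (P : C) (f : P ⟶ P), Chow P → HTriv R f → IsNilpotent (show End P from f)) ∧
      SecZero Chow R := by
  constructor
  · rintro ⟨Fil, h⟩
    exact ⟨h.nilp hV hM.chow hM.chow_T, h.secZero hV hM.chow hM.chow_T⟩
  · rintro ⟨hN, hF⟩
    exact ⟨_, canFil_isBB hM hV hN hD hF⟩

end

end Pool.Agent.Y116.MT
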