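import Pool.Agent.Y116.MT.BCDefs

/-!
# Bloch–Beilinson filtrations: definitions
-/

set_option autoImplicit false

open CategoryTheory Limits MonoidalCategory Pretriangulated Triangulated

namespace Pool.Agent.Y116.MT

universe v u v' u' w

open Functor.LaxMonoidal

section

variable {C : Type u} [Category.{v} C] [Preadditive C] [HasZeroObject C] [HasShift C ℤ]
  [∀ n : ℤ, (shiftFunctor C n).Additive] [Pretriangulated C] [MonoidalCategory C]
  [SymmetricCategory C] [TensorTriangulated C] {E : Type w} [Field E]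

/-- The properties of the motives `P = h(X)` of the smooth projective varieties `X` of pure
dimension `d` (the objects with `Var d P`). Here `twist T P j` is `h(X)(j)[2j]`, and the Chow group
of codimension `j` of `X` is the group of the morphisms `𝟙 ⟶ twist T P j`. The cohomology is zero in
negative degrees, there are no cycles of codimension greater than `d`, every Chow motive is a direct
summand of some `twist T P j`, and the weak Lefschetz theorem holds: for a smooth hyperplane section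
`Y` of `X` the maps `H^i(X) ⟶ H^i(Y)` are injective for `i ≤ dim Y`. -/
structure IsVarieties (Chow : ObjectProperty C) (T : C) (Var : ℕ → ObjectProperty C)
    (R : Realisation C E) : Prop where
  chow (d : ℕ) (P : C) : Var d P → Chow P
  negative (d : ℕ) (P : C) : Var d P → ∀ i : ℤ, i < 0 → IsZero (R.H.obj (P⟦i⟧))
  dimension (d j : ℕ) (P : C) (s : 𝟙_ C ⟶ twist T P j) : Var d P → d < j → s = 0
  summand (P : C) : Chow P → ∃ (d j : ℕ) (Q : C) (i : P ⟶ twist T Q j) (r : twist T Q j ⟶ P),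
    Var d Q ∧ i ≫ r = 𝟙 P
  hyperplane (d : ℕ) (P : C) : Var (d + 1) P → ∃ (Q : C) (r : P ⟶ Q), Var d Q ∧
    ∀ i : ℤ, i ≤ d → Mono (R.H.map (r⟦i⟧'))

/-- The standard conjecture D (homological and numerical equivalence agree): a cycle all of whose
intersection numbers vanish is zero in the cohomology. -/
def StandardD (Chow : ObjectProperty C) (R : Realisation C E) : Prop :=
  ∀ (P : C) (s : 𝟙_ C ⟶ P), Chow P → (∀ r : P ⟶ 𝟙_ C, s ≫ r = 0) → R.H.map s = 0

variable [Linear ℚ C]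

/-- A Bloch–Beilinson filtration: a decreasing filtration `Fil P` of the group of the morphisms
`𝟙 ⟶ P` for all Chow motives `P` (the Chow group of codimension `j` of `X` for `P = h(X)(j)[2j]`)
with the properties

1. `zero`, `one`: `F^0` is everything and `F^1` is the kernel of the cycle class map;
2. `vanish`: `F^(j+1) CH^j(X) = 0`;
3. `mul`: it is compatible with (exterior) products;
4. `map`: it is stable under correspondences;
5. `graded`: the action of a correspondence on `F^ν / F^(ν+1)` depends only on its action on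
  `H^(-ν)`, that is, on `H^(2j-ν)(X)` for `P = h(X)(j)[2j]`. -/
structure IsBB (Chow : ObjectProperty C) (T : C) (Var : ℕ → ObjectProperty C)
    (R : Realisation C E) (Fil : ∀ P : C, ℕ → Submodule ℚ (𝟙_ C ⟶ P)) : Prop where
  anti (P : C) (ν : ℕ) : Chow P → Fil P (ν + 1) ≤ Fil P ν
  zero (P : C) (s : 𝟙_ C ⟶ P) : Chow P → s ∈ Fil P 0
  one (P : C) (s : 𝟙_ C ⟶ P) : Chow P → (s ∈ Fil P 1 ↔ R.H.map s = 0)
  vanish (d j : ℕ) (P : C) (s : 𝟙_ C ⟶ twist T P j) : Var d P → s ∈ Fil (twist T P j) (j + 1) →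
    s = 0
  mul (P Q : C) (k l : ℕ) (s : 𝟙_ C ⟶ P) (t : 𝟙_ C ⟶ Q) : Chow P → Chow Q → s ∈ Fil P k →
    t ∈ Fil Q l → (λ_ (𝟙_ C)).inv ≫ (s ⊗ₘ t) ∈ Fil (P ⊗ Q) (k + l)
  map (P Q : C) (f : P ⟶ Q) (ν : ℕ) (s : 𝟙_ C ⟶ P) : Chow P → Chow Q → s ∈ Fil P ν →
    s ≫ f ∈ Fil Q ν
  graded (P Q : C) (f : P ⟶ Q) (ν : ℕ) (s : 𝟙_ C ⟶ P) : Chow P → Chow Q →
    R.H.map (f⟦(-ν : ℤ)⟧') = 0 → s ∈ Fil P ν → s ≫ f ∈ Fil Q (ν + 1)

end

section

variable {C₀ : Type u'} [Category.{v'} C₀] [Preadditive C₀] [HasZeroObject C₀] [HasShift C₀ ℤ]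
  [∀ n : ℤ, (shiftFunctor C₀ n).Additive] [Pretriangulated C₀] [MonoidalCategory C₀]
  [SymmetricCategory C₀] [TensorTriangulated C₀]
  {C : Type u} [Category.{v} C] [Preadditive C] [HasZeroObject C] [HasShift C ℤ]
  [∀ n : ℤ, (shiftFunctor C n).Additive] [Pretriangulated C] [MonoidalCategory C]
  [SymmetricCategory C] [TensorTriangulated C] {E : Type w} [Field E]

/-- The properties of the cohomology of `d : Q' ⟶ Q`. Here `A` is a Chow motive over `K`, extended
to a smooth connected scheme `p : U ⟶ Spec k₀`, and `Q' ⟶ Q ⟶ p_* A_U ⟶ 0` is the beginning of the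
weight complex of `p_* A_U`; so the image of `H^i(Q') ⟶ H^i(Q)` is the kernel of
`H^i(Q) ⟶ H^i(p_* A_U) = H^i(U, A_U)`. The morphisms `f : 𝟙 ⟶ A`, `h : A ⟶ A` extend over `U` and
lift to `f'`, `h'`. -/
structure IsWeightModel (R₀ : Realisation C₀ E) (R : Realisation C E) {A : C}
    (f : 𝟙_ C ⟶ A) (h : A ⟶ A) {Q Q' : C₀} (d : Q' ⟶ Q) (f' : 𝟙_ C₀ ⟶ Q) (h' : Q ⟶ Q) : Prop where
  bound : (∀ i : ℤ, i < 0 → IsZero (R.H.obj (A⟦i⟧))) → ∀ i : ℤ, i < 0 → Epi (R₀.H.map (d⟦i⟧'))
  injective : (∀ i : ℤ, i < 0 → IsZero (R.H.obj (A⟦i⟧))) → R.H.map f = 0 →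
    ∃ y : R₀.H.obj (𝟙_ C₀) ⟶ R₀.H.obj Q', R₀.H.map f' = y ≫ R₀.H.map d
  nilpotent : (∀ i : ℤ, R.H.map (h⟦i⟧') = 0) → ∃ N : ℕ, ∀ i : ℤ,
    ∃ y : R₀.H.obj (Q⟦i⟧) ⟶ R₀.H.obj (Q'⟦i⟧),
      R₀.H.map ((((show End Q from h') ^ N : End Q) : Q ⟶ Q)⟦i⟧') = y ≫ R₀.H.map (d⟦i⟧')

/-- The properties of the base change functor `F` from the motives over a perfect field `k₀` to the
motives over a perfect extension field `K`. It is a faithful additive tensor functor, compatible with
shifts, Chow motives and the realisation. Moreover: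

* `spread`: a Chow motive `A` over `K`, `f : 𝟙 ⟶ A` and `h : A ⟶ A` extend to a smooth connected
  scheme `p : U ⟶ Spec k₀`; the beginning `d : Q' ⟶ Q` of the weight complex of `p_* A_U` (Bondarko)
  is a morphism of Chow motives, the morphism `c` is the composition of the base change of
  `Q ⟶ p_* A_U` with the counit `p^* p_* A_U ⟶ A_U` at `Spec K`;
* `specialise`: a cycle over `K` on a smooth projective variety over `k₀` can be specialised at a
  closed point of `U` (and pushed forward to `k₀`), with the same intersection numbers with cycles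
  over `k₀`;
* `invariant`: if `r : P ⟶ 𝟙` has a non-zero realisation, this is a non-zero functional on the
  invariants of the geometric monodromy group in `H^0(P)`, because the monodromy is semisimple
  (Deligne), and the invariants are the image of `H^0(Q)` for a Chow motive `Q` over `k₀` with
  `c : F Q ⟶ P` (a smooth projective alteration of a compactification of a model; global invariant
  cycles); `g` is the specialisation of `c ≫ r`. -/
structure IsExtension (F : C₀ ⥤ C) [F.Monoidal] [F.CommShift ℤ] (Chow₀ : ObjectProperty C₀)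
    (Chow : ObjectProperty C) (R₀ : Realisation C₀ E) (R : Realisation C E) : Prop where
  additive : F.Additive
  faithful : F.Faithful
  chow (P : C₀) : Chow₀ P → Chow (F.obj P)
  compare : Nonempty (F ⋙ R.H ≅ R₀.H)
  spread (A : C) (f : 𝟙_ C ⟶ A) (h : A ⟶ A) : Chow A →
    ∃ (Q Q' : C₀) (d : Q' ⟶ Q) (c : F.obj Q ⟶ A) (f' : 𝟙_ C₀ ⟶ Q) (h' : Q ⟶ Q),
      Chow₀ Q ∧ Chow₀ Q' ∧ f = ε F ≫ F.map f' ≫ c ∧ F.map d ≫ c = 0 ∧ F.map h' ≫ c = c ≫ h ∧
        IsWeightModel R₀ R f h d f' h'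
  specialise (Q : C₀) (r : F.obj Q ⟶ 𝟙_ C) : Chow₀ Q → ∃ g : Q ⟶ 𝟙_ C₀, SameNumbers F r g
  invariant (P : C) (r : P ⟶ 𝟙_ C) : Chow P → R.H.map r ≠ 0 →
    ∃ (Q : C₀) (c : F.obj Q ⟶ P) (g : Q ⟶ 𝟙_ C₀), Chow₀ Q ∧ SameNumbers F (c ≫ r) g ∧
      R₀.H.map g ≠ 0

end

end Pool.Agent.Y116.MT
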