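import Pool.Agent.Y116.MT.BC

/-!
# The motivic t-structure and extensions of the base field: from the small field to the large field
-/

set_option autoImplicit false
set_option linter.unusedSectionVars false
set_option linter.unusedSimpArgs false
set_option backward.isDefEq.respectTransparency false
set_option backward.defeqAttrib.useBackward true

open CategoryTheory Limits MonoidalCategory Pretriangulated Triangulated

namespace Pool.Agent.Y116.MT

universe v u v' u' w

open Functor.LaxMonoidal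

section

variable {C₀ : Type u'} [Category.{v'} C₀] [Preadditive C₀] [HasZeroObject C₀] [HasShift C₀ ℤ]
  [∀ n : ℤ, (shiftFunctor C₀ n).Additive] [Pretriangulated C₀] [IsTriangulated C₀]
  [MonoidalCategory C₀] [SymmetricCategory C₀] [MonoidalPreadditive C₀] [TensorTriangulated C₀]
  [RightRigidCategory C₀] [Linear ℚ C₀] [IsIdempotentComplete C₀]
  {C : Type u} [Category.{v} C] [Preadditive C] [HasZeroObject C] [HasShift C ℤ]
  [∀ n : ℤ, (shiftFunctor C n).Additive] [Pretriangulated C] [IsTriangulated C]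
  [MonoidalCategory C] [SymmetricCategory C] [MonoidalPreadditive C] [TensorTriangulated C]
  [RightRigidCategory C] [Linear ℚ C] [IsIdempotentComplete C]
  {Λ : Type*} [Nonempty Λ] {E : Λ → Type w} [∀ l, Field (E l)]
  {R₀ : ∀ l, Realisation C₀ (E l)} {R : ∀ l, Realisation C (E l)}
  {Chow₀ : ObjectProperty C₀} {Chow : ObjectProperty C} {T₀ : C₀} {T : C}
  {F : C₀ ⥤ C} [F.Monoidal] [F.CommShift ℤ]

section Compare

variable (hF : IsBaseChange F Chow₀ Chow R₀ R)

include hF

lemma cmp_map (l : Λ) {X Y : C₀} (f : X ⟶ Y) :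
    (R l).H.map (F.map f) = 0 ↔ (R₀ l).H.map f = 0 := by
  obtain ⟨e⟩ := hF.compare l
  have h1 : (R l).H.map (F.map f) ≫ e.hom.app Y = e.hom.app X ≫ (R₀ l).H.map f :=
    e.hom.naturality f
  constructor
  · intro h
    rw [h, zero_comp] at h1
    rw [← cancel_epi (e.hom.app X), ← h1, comp_zero]
  · intro h
    rw [h, comp_zero] at h1
    rw [← cancel_mono (e.hom.app Y), h1, zero_comp]

lemma cmp_obj (l : Λ) (X : C₀) (i : ℤ) :
    IsZero ((R l).H.obj ((F.obj X)⟦i⟧)) ↔ IsZero ((R₀ l).H.obj (X⟦i⟧)) := by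
  obtain ⟨e⟩ := hF.compare l
  exact Iso.isZero_iff ((R l).H.mapIso ((F.commShiftIso i).app X).symm ≪≫ e.app (X⟦i⟧))

lemma cmp_htriv (l : Λ) {X Y : C₀} {f : X ⟶ Y} (h : HTriv (R₀ l) f) : HTriv (R l) (F.map f) := by
  intro i
  have h1 : F.map (f⟦i⟧') ≫ (F.commShiftIso i).hom.app Y =
      (F.commShiftIso i).hom.app X ≫ (F.map f)⟦i⟧' := (F.commShiftIso i).hom.naturality f
  rw [← cancel_epi ((R l).H.map ((F.commShiftIso i).hom.app X)), ← Functor.map_comp, ← h1,
    Functor.map_comp, (cmp_map hF l _).2 (h i), zero_comp, comp_zero]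

end Compare

section Up

variable (h₀ : IsMotives Chow₀ T₀ R₀) (h : IsMotives Chow T R)
  (hF : IsBaseChange F Chow₀ Chow R₀ R) {t₀ : TStructure C₀} (ht : IsMotivic t₀ R₀) (l : Λ)

include h₀ hF ht

/-- Sections of objects in positive degrees vanish. -/
lemma up_pos {A : C} (hA : ∀ i : ℤ, i < 1 → IsZero ((R l).H.obj (A⟦i⟧))) (f : 𝟙_ C ⟶ A) :
    f = 0 := by
  have := hF.additive
  obtain ⟨B, c, f', h', h1, h2, h3⟩ := hF.spread A f 0
  have hu := unit_hrt ht.compat ht.nondeg_le ht.nondeg_ge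
  have hB : t₀.IsGE B 1 := isGE_of_H ht.compat (ht.exact l) hu (end_idem h₀.unit_end)
    ht.nondeg_le ht.nondeg_ge ((h3 l).bound 1 hA)
  have h4 : f' = 0 := t₀.zero_of_isLE_of_isGE f' 0 1 (by omega) hu.1 hB
  rw [h1, h4, Functor.map_zero, zero_comp, comp_zero]

/-- Sections of objects in non-negative degrees are detected by the realisation. -/
lemma up_zero {A : C} (hA : ∀ i : ℤ, i < 0 → IsZero ((R l).H.obj (A⟦i⟧))) (f : 𝟙_ C ⟶ A)
    (hf : (R l).H.map f = 0) : f = 0 := by
  have := hF.additive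
  obtain ⟨B, c, f', h', h1, h2, h3⟩ := hF.spread A f 0
  have hu := unit_hrt ht.compat ht.nondeg_le ht.nondeg_ge
  have hB : t₀.IsGE B 0 := isGE_of_H ht.compat (ht.exact l) hu (end_idem h₀.unit_end)
    ht.nondeg_le ht.nondeg_ge ((h3 l).bound 0 hA)
  have h4 : f' = 0 := sec_zero ht.compat (ht.exact l) hu (end_idem h₀.unit_end) hB f'
    ((h3 l).injective hA hf)
  rw [h1, h4, Functor.map_zero, zero_comp, comp_zero]

/-- The realisation over the large field is conservative. -/
lemma up_cons {X : C} (hX : ∀ i : ℤ, IsZero ((R l).H.obj (X⟦i⟧))) : IsZero X := by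
  rw [IsZero.iff_id_eq_zero]
  apply eq_zero_of_nm
  refine up_pos h₀ hF ht l (fun i _ => ?_) _
  exact isZero_tensor fun a b _ => Or.inl (hX a)

/-- Homologically trivial endomorphisms are nilpotent. -/
lemma up_nil {P : C} (f : P ⟶ P) (hf : HTriv (R l) f) : IsNilpotent (show End P from f) := by
  have := hF.additive
  obtain ⟨B, c, f', h', h1, h2, h3⟩ := hF.spread (P ⊗ Pᘁ) (η_ P Pᘁ) (f ▷ Pᘁ)
  obtain ⟨N, hN⟩ := (h3 l).nilpotent (hf.whisker _)
  obtain ⟨M, hM⟩ := nil_of_htriv ht.compat (ht.exact l)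
    (unit_hrt ht.compat ht.nondeg_le ht.nondeg_ge) (end_idem h₀.unit_end) ht.nondeg_le
    ht.nondeg_ge _ hN
  -- the powers
  have key : ∀ n : ℕ, F.map (((show End B from h') ^ n : End B) : B ⟶ B) ≫ c =
      c ≫ (((show End P from f) ^ n : End P) : P ⟶ P) ▷ Pᘁ := by
    intro n
    induction n with
    | zero =>
      change F.map (𝟙 B) ≫ c = c ≫ (𝟙 P) ▷ Pᘁ
      simp
    | succ n ih =>
      rw [pow_comp', pow_comp', Functor.map_comp, Category.assoc, h2, ← Category.assoc, ih,
        comp_whiskerRight, Category.assoc]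
  refine ⟨N * M, ?_⟩
  have h4 : (((show End B from h') ^ (N * M) : End B) : B ⟶ B) = 0 := by
    rw [pow_mul]
    exact hM
  have h5 : nm (((show End P from f) ^ (N * M) : End P) : P ⟶ P) = 0 := by
    rw [nm, h1]
    simp only [Category.assoc]
    rw [← key, h4, Functor.map_zero, zero_comp, comp_zero, comp_zero]
  exact eq_zero_of_nm _ h5

end Up

end

end Pool.Agent.Y116.MT
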