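import Pool.Agent.Y116.MT.BC2

/-!
# The motivic t-structure exists over a field if and only if it exists over an extension field
-/

set_option autoImplicit false
set_option linter.unusedSectionVars false
set_option linter.unusedSimpArgs false
set_option backward.isDefEq.respectTransparency false
set_option backward.defeqAttrib.useBackward true

open CategoryTheory Limits MonoidalCategory Pretriangulated Triangulated

namespace Pool.Agent.Y116.MT

universe v u v' u' w

open Functor.LaxMonoidal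

section

variable {C₀ : Type u'} [Category.{v'} C₀] [Preadditive C₀] [HasZeroObject C₀] [HasShift C₀ ℤ]
  [∀ n : ℤ, (shiftFunctor C₀ n).Additive] [Pretriangulated C₀] [IsTriangulated C₀]
  [MonoidalCategory C₀] [SymmetricCategory C₀] [MonoidalPreadditive C₀] [TensorTriangulated C₀]
  [RightRigidCategory C₀] [Linear ℚ C₀] [IsIdempotentComplete C₀]
  {C : Type u} [Category.{v} C] [Preadditive C] [HasZeroObject C] [HasShift C ℤ]
  [∀ n : ℤ, (shiftFunctor C n).Additive] [Pretriangulated C] [IsTriangulated C]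
  [MonoidalCategory C] [SymmetricCategory C] [MonoidalPreadditive C] [TensorTriangulated C]
  [RightRigidCategory C] [Linear ℚ C] [IsIdempotentComplete C]
  {Λ : Type*} [Nonempty Λ] {E : Λ → Type w} [∀ l, Field (E l)]
  {R₀ : ∀ l, Realisation C₀ (E l)} {R : ∀ l, Realisation C (E l)}
  {Chow₀ : ObjectProperty C₀} {Chow : ObjectProperty C} {T₀ : C₀} {T : C}
  {F : C₀ ⥤ C} [F.Monoidal] [F.CommShift ℤ]
  (h₀ : IsMotives Chow₀ T₀ R₀) (h : IsMotives Chow T R)
  (hF : IsBaseChange F Chow₀ Chow R₀ R)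

include h₀ h hF in
/-- There are no sections of the shifts of pure objects of negative weight. -/
lemma up_pure {t₀ : TStructure C₀} (ht : IsMotivic t₀ R₀) (l : Λ) {P : C} (hP : Chow P) {n : ℤ}
    (hn : n < 0) (hd : (R l).Deg P n) (f : 𝟙_ C ⟶ P⟦n⟧) : f = 0 := by
  by_contra hne
  have hA : (R l).Deg (P⟦n⟧) 0 := hd.shift n 0 (by ring)
  have hH : (R l).H.map f ≠ 0 := fun hz => hne (up_zero h₀ hF ht l (fun i hi => hA i hi.ne) f hz)
  obtain ⟨Z, p, δ, hT⟩ := distinguished_cocone_triangle f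
  have hC := h.chow
  obtain ⟨r, hr⟩ := cons_core (R := R l) (fun X hX => up_cons h₀ hF ht l hX)
    (fun X => ∃ j : ℤ, j ≤ 0 ∧ Chow (X⟦-j⟧))
    ⟨0, le_rfl, hC.retract _ (𝟙_ C) ((shiftFunctorZero' C (-0 : ℤ) (by simp)).hom.app _)
      ((shiftFunctorZero' C (-0 : ℤ) (by simp)).inv.app _) (by simp) hC.unit⟩
    (by
      rintro X ⟨j, hj, hX⟩
      refine ⟨j + n, by omega, ?_⟩
      have e1 : X⟦-j⟧ ⊗ (P⟦n⟧)⟦-n⟧ ≅ (X ⊗ P⟦n⟧)⟦-(j + n)⟧ :=
        lrShift X (P⟦n⟧) (-j) (-n) ≪≫ eqToIso (by rw [show -j + -n = -(j + n) by ring])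
      have e2 : X⟦-j⟧ ⊗ P ≅ (X ⊗ P⟦n⟧)⟦-(j + n)⟧ :=
        whiskerLeftIso _ (shiftShiftNeg P n).symm ≪≫ e1
      exact hC.retract _ _ e2.inv e2.hom e2.inv_hom_id (hC.tensor _ _ hX hP))
    (by
      rintro X ⟨j, hj, hX⟩ m hm g
      apply (shiftFunctor C (-j)).map_injective
      rw [Functor.map_zero,
        ← cancel_mono ((shiftFunctorAdd' C m (-j) (m - j) (by ring)).inv.app (𝟙_ C)),
        zero_comp]
      exact hC.orthogonal _ _ (m - j) _ hX hC.unit (by omega))
    hT (𝟙 Z) (Category.id_comp _) (by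
      intro i hi
      have hepi : Epi ((R l).H.map (p⟦i⟧')) := by
        by_cases h1 : i + 1 = 0
        · exact hepi2' (R l).H hT i (mono_of_ne_zero f hH _ h1)
        · exact hepi2 (R l).H hT i (deg_unit (R := R l) _ h1)
      rw [← cancel_epi ((R l).H.map (p⟦i⟧')), (hA i hi).eq_of_src ((R l).H.map (p⟦i⟧')) 0,
        zero_comp, zero_comp])
  apply hr
  have hr0 : r = 0 := by
    apply (shiftFunctor C (-n)).map_injective
    rw [Functor.map_zero, ← cancel_epi (shiftShiftNeg P n).inv, comp_zero]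
    exact hC.orthogonal _ _ (-n) _ hP hC.unit (by omega)
  rw [hr0, comp_zero]

include h₀ h hF in
/-- The standard conjecture D over the large field. -/
lemma up_num {t₀ : TStructure C₀} (ht : IsMotivic t₀ R₀) (P : C) (s : 𝟙_ C ⟶ P) (hP : Chow P)
    (hs : ∀ r : P ⟶ 𝟙_ C, s ≫ r = 0) (l : Λ) : (R l).H.map s = 0 := by
  have := hF.additive
  have := hF.faithful
  obtain ⟨-, -, -, hD₀⟩ := (general_criterion h₀.unit_end h₀.chow h₀.lefschetz).1 ⟨t₀, ht⟩
  by_contra hne
  have h1 : (R l).H.map (ev s) ≠ 0 := by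
    intro hz
    have h2 : HTriv (R l) (ev s) := by
      intro i
      by_cases hi : i = 0
      · subst hi
        exact (map_shift_zero_iff _).2 hz
      · exact (deg_unit (R := R l) i hi).eq_of_tgt _ _
    have h3 : HTriv (R l) (P ◁ ev s) := by
      intro n
      have h4 := map_tensor_shift_zero (R := R l) (𝟙 P) (ev s) n (fun i => Or.inr (h2 _))
      rwa [id_whiskerRight, Category.id_comp] at h4
    apply hne
    rw [ev_recover s]
    exact ((h3.comp_right _).comp_left _).zero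
  obtain ⟨Q, c, g, hQ, hg1, hg2⟩ := hF.invariant l (Pᘁ) (ev s) (h.chow.dual P hP) h1
  have h2 : ∃ w : 𝟙_ C₀ ⟶ Q, w ≫ g ≠ 0 := by
    by_contra hcon
    push Not at hcon
    apply hg2
    refine (htriv_of_tr h₀.chow hD₀ hQ h₀.chow.unit (a := g) (fun b => ?_) l).zero
    rw [tr_cyc, hcon b, ← zero_smul ℚ (0 : 𝟙_ C₀ ⟶ 𝟙_ C₀), tr_smul, zero_smul, zero_smul]
  obtain ⟨w, hw⟩ := h2
  have h3 : F.map (w ≫ g) ≠ 0 := fun h4 => hw (F.map_injective (h4.trans (F.map_zero _ _).symm))
  apply h3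
  rw [hg1 w]
  have h4 := hs (ve (ε F ≫ F.map w ≫ c))
  rw [ev_ve] at h4
  have h5 : F.map w ≫ c ≫ ev s = 0 := by
    rw [← cancel_epi (ε F), comp_zero]
    simpa using h4
  rw [← Category.assoc (F.map w), h5, zero_comp]

include h₀ h hF in
/-- From the small field to the large field. -/
theorem up_motivic (hex : ∃ t₀ : TStructure C₀, IsMotivic t₀ R₀) :
    ∃ t : TStructure C, IsMotivic t R := by
  obtain ⟨t₀, ht⟩ := hex
  obtain ⟨l⟩ := ‹Nonempty Λ›
  have hne : Nonempty Λ := ⟨l⟩
  refine crit_nil h.unit_end h.chow h.chow_T h.lefschetz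
    (fun P f _ hf => up_nil h₀ hF ht l f (hf l)) (up_num h₀ h hF ht) ?_ ?_
  · intro P i n f hP hd hn hni
    rcases lt_or_eq_of_le hn with hn | rfl
    · refine up_pos h₀ hF ht l (fun j hj => ?_) f
      exact (hd l).shift n (i - n) (by ring) j (by omega)
    · rcases lt_trichotomy n 0 with h0 | h0 | h0
      · exact up_pure h₀ h hF ht l hP h0 (hd l) f
      · omega
      · exact h.chow.orthogonal _ _ n f h.chow.unit hP h0
  · intro P s hP hd hs
    exact up_zero h₀ hF ht l (fun i hi => hd l i hi.ne) s (hs l)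

include h₀ h hF in
/-- From the large field to the small field. -/
theorem down_motivic (hex : ∃ t : TStructure C, IsMotivic t R) :
    ∃ t₀ : TStructure C₀, IsMotivic t₀ R₀ := by
  have := hF.additive
  have := hF.faithful
  obtain ⟨t, ht⟩ := hex
  obtain ⟨l⟩ := ‹Nonempty Λ›
  have hne : Nonempty Λ := ⟨l⟩
  obtain ⟨-, hB, hF', hD⟩ := (general_criterion h.unit_end h.chow h.lefschetz).1 ⟨t, ht⟩
  refine crit_nil h₀.unit_end h₀.chow h₀.chow_T h₀.lefschetz ?_ ?_ ?_ ?_
  · intro P f hP hf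
    obtain ⟨n, hn⟩ := nil_of_htriv ht.compat (ht.exact l)
      (unit_hrt ht.compat ht.nondeg_le ht.nondeg_ge) (end_idem h.unit_end) ht.nondeg_le
      ht.nondeg_ge _ (cmp_htriv hF l (hf l))
    refine ⟨n, ?_⟩
    have key : ∀ n : ℕ, F.map (((show End P from f) ^ n : End P) : P ⟶ P) =
        (((show End (F.obj P) from F.map f) ^ n : End (F.obj P)) : F.obj P ⟶ F.obj P) := by
      intro n
      induction n with
      | zero => exact F.map_id P
      | succ n ih => rw [pow_comp, pow_comp, Functor.map_comp, ih]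
    apply F.map_injective
    rw [key, Functor.map_zero]
    exact hn
  · intro P s hP hs l
    rw [← cmp_map hF l]
    have h1 : (R l).H.map (ε F ≫ F.map s) = 0 := by
      refine hD _ _ (hF.chow P hP) (fun r => ?_) l
      obtain ⟨g, hg⟩ := hF.specialise P r hP
      have h2 := hg s
      rw [hs g, Functor.map_zero] at h2
      rw [Category.assoc, ← cancel_mono (ε F), Category.assoc, Category.assoc, ← h2, comp_zero,
        zero_comp]
    rw [Functor.map_comp] at h1
    rw [← cancel_epi ((R l).H.map (ε F)), h1, comp_zero]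
  · intro P i n f hP hd hn hni
    have h1 : (ε F ≫ F.map f ≫ (F.commShiftIso n).hom.app P : 𝟙_ C ⟶ (F.obj P)⟦n⟧) = 0 :=
      hB (F.obj P) i n _ (hF.chow P hP) (fun l j hj => (cmp_obj hF l P j).2 (hd l j hj)) hn hni
    apply F.map_injective
    rw [← cancel_epi (ε F), ← cancel_mono ((F.commShiftIso n).hom.app P), Functor.map_zero,
      comp_zero, zero_comp, Category.assoc]
    exact h1
  · intro P s hP hd hs
    have h1 : (ε F ≫ F.map s : 𝟙_ C ⟶ F.obj P) = 0 := by
      refine hF' (F.obj P) _ (hF.chow P hP) (fun l j hj => (cmp_obj hF l P j).2 (hd l j hj))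
        (fun l => ?_)
      rw [Functor.map_comp, (cmp_map hF l s).2 (hs l), comp_zero]
    apply F.map_injective
    rw [← cancel_epi (ε F), Functor.map_zero, comp_zero]
    exact h1

include h₀ h hF in
/-- The motivic t-structure exists over the small field if and only if it exists over the large
field. -/
theorem motivic_iff :
    (∃ t₀ : TStructure C₀, IsMotivic t₀ R₀) ↔ ∃ t : TStructure C, IsMotivic t R :=
  ⟨up_motivic h₀ h hF, down_motivic h₀ h hF⟩

include h₀ h hF in
/-- The t-structures are compatible. -/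
theorem motivic_compat {t₀ : TStructure C₀} {t : TStructure C} (ht₀ : IsMotivic t₀ R₀)
    (ht : IsMotivic t R) (X : C₀) :
    (t₀.le 0 X ↔ t.le 0 (F.obj X)) ∧ (t₀.ge 0 X ↔ t.ge 0 (F.obj X)) := by
  obtain ⟨l⟩ := ‹Nonempty Λ›
  have hu₀ := unit_hrt ht₀.compat ht₀.nondeg_le ht₀.nondeg_ge
  have hu := unit_hrt ht.compat ht.nondeg_le ht.nondeg_ge
  refine ⟨⟨fun hX => ?_, fun hX => ?_⟩, ⟨fun hX => ?_, fun hX => ?_⟩⟩
  · exact (isLE_of_H ht.compat (ht.exact l) hu (end_idem h.unit_end) ht.nondeg_le ht.nondeg_ge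
      (fun i hi => (cmp_obj hF l X i).2 (ht₀.exact_le l X hX i hi))).le
  · exact (isLE_of_H ht₀.compat (ht₀.exact l) hu₀ (end_idem h₀.unit_end) ht₀.nondeg_le
      ht₀.nondeg_ge (fun i hi => (cmp_obj hF l X i).1 (ht.exact_le l _ hX i hi))).le
  · exact (isGE_of_H ht.compat (ht.exact l) hu (end_idem h.unit_end) ht.nondeg_le ht.nondeg_ge
      (fun i hi => (cmp_obj hF l X i).2 (ht₀.exact_ge l X hX i hi))).ge
  · exact (isGE_of_H ht₀.compat (ht₀.exact l) hu₀ (end_idem h₀.unit_end) ht₀.nondeg_le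
      ht₀.nondeg_ge (fun i hi => (cmp_obj hF l X i).1 (ht.exact_ge l _ hX i hi))).ge

end

end Pool.Agent.Y116.MT
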