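import Pool.Agent.Y116.MT.Defs

/-!
# Objects whose realisation is concentrated in one degree
-/

set_option autoImplicit false

open CategoryTheory Limits MonoidalCategory Pretriangulated Triangulated

namespace Pool.Agent.Y116.MT

universe v u w

section

variable {C : Type u} [Category.{v} C] [Preadditive C] [HasZeroObject C] [HasShift C ℤ]
  [∀ n : ℤ, (shiftFunctor C n).Additive] [Pretriangulated C] [MonoidalCategory C]
  [SymmetricCategory C] [TensorTriangulated C]

/-- The realisation of `X` is concentrated in degree `a`: the cohomology `H^i(X)` vanishes for all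
`i ≠ a`. -/
def Realisation.Deg {E : Type w} [Field E] (R : Realisation C E) (X : C) (a : ℤ) : Prop :=
  ∀ i : ℤ, i ≠ a → IsZero (R.H.obj (X⟦i⟧))

/-- The tensor product of `Q` with the `k`-th power of `T`. -/
def twist (T Q : C) : ℕ → C
  | 0 => Q
  | k + 1 => twist T Q k ⊗ T

/-- The hard Lefschetz theorem, for the Lefschetz object `T` (the object `𝟙(1)[2]` in a category
of motives): every Chow motive `P` is a direct summand of a Chow motive `Q` (namely
`M(X)(m)[2m]` for a smooth projective variety `X` of pure dimension) with an integer `e` and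
morphisms `L : Q ⟶ Q ⊗ T ^ k` which induce isomorphisms `H^(e-k)(Q) ≅ H^(e-k)(Q ⊗ T ^ k)`. -/
structure HardLefschetz (Chow : ObjectProperty C) (T : C) {Λ : Type*}
    {E : Λ → Type w} [∀ l, Field (E l)] (R : ∀ l, Realisation C (E l)) : Prop where
  invertible : ∃ T' : C, Nonempty (T ⊗ T' ≅ 𝟙_ C)
  degree (l : Λ) : (R l).Deg T (-2)
  lefschetz (P : C) : Chow P → ∃ (Q : C) (i : P ⟶ Q) (r : Q ⟶ P) (e : ℤ),
    i ≫ r = 𝟙 P ∧ Chow Q ∧ ∀ k : ℕ, ∃ L : Q ⟶ twist T Q k,
      ∀ l, IsIso ((R l).H.map (L⟦e - k⟧'))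

end

end Pool.Agent.Y116.MT
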