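import Pool.Agent.Y116.MT.Struct
import Pool.Agent.Y116.MT.Deg

/-!
# Extension of the base field for categories of motives: the properties that are used
-/

set_option autoImplicit false

open CategoryTheory Limits MonoidalCategory Pretriangulated Triangulated

namespace Pool.Agent.Y116.MT

universe v u v' u' w

open Functor.LaxMonoidal

section

variable {C : Type u} [Category.{v} C] [Preadditive C] [HasZeroObject C] [HasShift C ℤ]
  [∀ n : ℤ, (shiftFunctor C n).Additive] [Pretriangulated C] [MonoidalCategory C]
  [SymmetricCategory C] [TensorTriangulated C] [RightRigidCategory C] [Linear ℚ C]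

/-- The properties of the Chow motives `Chow`, the Lefschetz object `T` (which is `𝟙(1)[2]`) and the
realisations `R` which are known in the category of constructible motives over a field. -/
structure IsMotives (Chow : ObjectProperty C) (T : C) {Λ : Type*} {E : Λ → Type w}
    [∀ l, Field (E l)] (R : ∀ l, Realisation C (E l)) : Prop where
  unit_end : ∀ e : 𝟙_ C ⟶ 𝟙_ C, ∃ q : ℚ, e = q • 𝟙 (𝟙_ C)
  chow : IsChow Chow
  lefschetz : HardLefschetz Chow T R
  chow_T : Chow T

end

section

variable {C₀ : Type u'} [Category.{v'} C₀] [Preadditive C₀] [HasZeroObject C₀] [HasShift C₀ ℤ]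
  [∀ n : ℤ, (shiftFunctor C₀ n).Additive] [Pretriangulated C₀] [MonoidalCategory C₀]
  [SymmetricCategory C₀] [TensorTriangulated C₀]
  {C : Type u} [Category.{v} C] [Preadditive C] [HasZeroObject C] [HasShift C ℤ]
  [∀ n : ℤ, (shiftFunctor C n).Additive] [Pretriangulated C] [MonoidalCategory C]
  [SymmetricCategory C] [TensorTriangulated C]

/-- The morphism `g : Q ⟶ 𝟙` over the small field has the same intersection numbers as
`r : F Q ⟶ 𝟙`, with all morphisms `𝟙 ⟶ Q` over the small field. -/
def SameNumbers (F : C₀ ⥤ C) [F.Monoidal] {Q : C₀} (r : F.obj Q ⟶ 𝟙_ C) (g : Q ⟶ 𝟙_ C₀) : Prop :=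
  ∀ s : 𝟙_ C₀ ⟶ Q, F.map (s ≫ g) = F.map s ≫ r ≫ ε F

/-- The properties of the cohomology of `B = p_* A_U`, where `A_U` is a dualizable motive over a
smooth connected scheme `p : U ⟶ Spec k₀` with generic fibre `A`, and `f`, `h` extend over `U`: the
cohomology of `B` is the cohomology of `U` over an algebraic closure of `k₀` with coefficients in
the lisse complex `A_U`. If this complex has no cohomology sheaves in degrees smaller than `a`, then
`B` has no cohomology in degrees smaller than `a`; if it has none in degrees smaller than `0` and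
the section `f` is zero at the generic point, then it is zero; if `h` is zero on the cohomology
sheaves, then it is nilpotent on the cohomology (Leray spectral sequence). -/
structure IsModel {E : Type w} [Field E] (R₀ : Realisation C₀ E) (R : Realisation C E) {A : C}
    (f : 𝟙_ C ⟶ A) (h : A ⟶ A) {B : C₀} (f' : 𝟙_ C₀ ⟶ B) (h' : B ⟶ B) : Prop where
  bound (a : ℤ) : (∀ i : ℤ, i < a → IsZero (R.H.obj (A⟦i⟧))) →
    ∀ i : ℤ, i < a → IsZero (R₀.H.obj (B⟦i⟧))
  injective : (∀ i : ℤ, i < 0 → IsZero (R.H.obj (A⟦i⟧))) → R.H.map f = 0 → R₀.H.map f' = 0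
  nilpotent : (∀ i : ℤ, R.H.map (h⟦i⟧') = 0) →
    ∃ N : ℕ, ∀ i : ℤ, R₀.H.map ((((show End B from h') ^ N : End B) : B ⟶ B)⟦i⟧') = 0

/-- The properties of the base change functor `F` from constructible motives over a perfect field
`k₀` to constructible motives over a perfect extension field `K`. It is a faithful additive tensor
functor, compatible with shifts, Chow motives and realisations. Moreover:

* `spread`: `A`, `f : 𝟙 ⟶ A` and `h : A ⟶ A` over `K` extend to a smooth connected scheme
  `p : U ⟶ Spec k₀`; `B = p_* A_U`, the morphism `c` is the counit `p^* p_* A_U ⟶ A_U` at `Spec K`,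
  `f'` is the adjoint of `f` and `h' = p_* h`;
* `specialise`: a cycle over `K` on a smooth projective variety over `k₀` can be specialised at a
  closed point of `U` (and pushed forward to `k₀`), with the same intersection numbers with cycles
  over `k₀`;
* `invariant`: if `r : P ⟶ 𝟙` has a non-zero realisation, this is a non-zero functional on the
  invariants of the geometric monodromy group in `H^0(P)`, because the monodromy is semisimple
  (Deligne), and the invariants are the image of `H^0(Q)` for a Chow motive `Q` over `k₀` with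
  `c : F Q ⟶ P` (a smooth projective alteration of a compactification of a model; global invariant
  cycles); `g` is the specialisation of `c ≫ r`. -/
structure IsBaseChange (F : C₀ ⥤ C) [F.Monoidal] [F.CommShift ℤ] (Chow₀ : ObjectProperty C₀)
    (Chow : ObjectProperty C) {Λ : Type*} {E : Λ → Type w} [∀ l, Field (E l)]
    (R₀ : ∀ l, Realisation C₀ (E l)) (R : ∀ l, Realisation C (E l)) : Prop where
  additive : F.Additive
  faithful : F.Faithful
  chow (P : C₀) : Chow₀ P → Chow (F.obj P)
  compare (l : Λ) : Nonempty (F ⋙ (R l).H ≅ (R₀ l).H)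
  spread (A : C) (f : 𝟙_ C ⟶ A) (h : A ⟶ A) :
    ∃ (B : C₀) (c : F.obj B ⟶ A) (f' : 𝟙_ C₀ ⟶ B) (h' : B ⟶ B),
      f = ε F ≫ F.map f' ≫ c ∧ F.map h' ≫ c = c ≫ h ∧ ∀ l, IsModel (R₀ l) (R l) f h f' h'
  specialise (Q : C₀) (r : F.obj Q ⟶ 𝟙_ C) : Chow₀ Q → ∃ g : Q ⟶ 𝟙_ C₀, SameNumbers F r g
  invariant (l : Λ) (P : C) (r : P ⟶ 𝟙_ C) : Chow P → (R l).H.map r ≠ 0 →
    ∃ (Q : C₀) (c : F.obj Q ⟶ P) (g : Q ⟶ 𝟙_ C₀), Chow₀ Q ∧ SameNumbers F (c ≫ r) g ∧
      (R₀ l).H.map g ≠ 0

end

end Pool.Agent.Y116.MT
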