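import Pool.Agent.Y116.MT.Dec

/-!
# The t-structure constructed from rational equals numerical equivalence and negative vanishing
-/

set_option autoImplicit false
set_option linter.unusedSectionVars false
set_option linter.unusedSimpArgs false
set_option backward.isDefEq.respectTransparency false
set_option backward.defeqAttrib.useBackward true

open CategoryTheory Limits MonoidalCategory Pretriangulated Triangulated
open scoped Polynomial

namespace Pool.Agent.Y116.MT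

universe v u w

section

variable {C : Type u} [Category.{v} C] [Preadditive C] [HasZeroObject C] [HasShift C ℤ]
  [∀ n : ℤ, (shiftFunctor C n).Additive] [Pretriangulated C] [MonoidalCategory C]
  [SymmetricCategory C] [TensorTriangulated C] [MonoidalPreadditive C] [Linear ℚ C]
  [RightRigidCategory C] [IsTriangulated C] [IsIdempotentComplete C]
  {φ : 𝟭 C ⟶ 𝟭 C} {c : ℝ} {E : Type w} [Field E] (R : Realisation C E)
  {P : ObjectProperty C} [P.IsStableUnderRetracts]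
  (hφ : ∀ (M : C) (n : ℤ), φ.app (M⟦n⟧) = (φ.app M)⟦n⟧') (hc : 0 < c) (hc1 : c ≠ 1)
  (hEnd : ∀ e : 𝟙_ C ⟶ 𝟙_ C, ∃ q : ℚ, e = q • 𝟙 _)
  (hPt : ∀ X Y, P X → P Y → P (X ⊗ Y)) (hPd : ∀ X, P X → P (Xᘁ))
  (hPs : ∀ X Y, P X → P Y → P (X ⊞ Y))
  (hW : ∀ X, P X → Weil φ c R X)
  (hnum : ∀ X, P X → ∀ s : 𝟙_ C ⟶ X, s ≠ 0 → ∃ r : X ⟶ 𝟙_ C, s ≫ r ≠ 0)
  (hneg : ∀ X, P X → ∀ n : ℤ, n < 0 → ∀ f : 𝟙_ C ⟶ X⟦n⟧, f = 0)

omit [IsTriangulated C] [IsIdempotentComplete C] in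
include hφ hc hc1 hPt hPd hneg in
/-- Negative vanishing. -/
lemma S_neg (A B : C) (hA : Sm φ c P A) (hB : Sm φ c P B) (m : ℤ) (hm : m < 0) (f : A ⟶ B⟦m⟧) :
    f = 0 := by
  obtain ⟨i, hA1, hA2⟩ := hA
  obtain ⟨j, hB1, hB2⟩ := hB
  by_cases hij : i = j
  · subst hij
    have key : ∀ g : A⟦-i⟧ ⟶ (B⟦-i⟧)⟦m⟧, g = 0 := by
      intro g
      apply eq_zero_of_nm
      rw [← cancel_mono (lShift (B⟦-i⟧) ((A⟦-i⟧)ᘁ) m).hom, zero_comp]
      exact hneg _ (hPt _ _ hB1 (hPd _ hA1)) m hm _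
    apply (shiftFunctor C (-i)).map_injective
    rw [Functor.map_zero, ← cancel_mono ((shiftFunctorComm C m (-i)).hom.app B), zero_comp]
    exact key _
  · exact WtObj.hom_zero hc hc1 (by simpa using hij) hA2 (hB2.shift hφ m) f

omit [IsTriangulated C] [IsIdempotentComplete C] in
include hc hc1 hEnd hPt hPd hPs hW hnum hφ in
/-- Regularity. -/
lemma S_reg (A B : C) (hA : Sm φ c P A) (hB : Sm φ c P B) (f : A ⟶ B) :
    ∃ g : B ⟶ A, f ≫ g ≫ f = f := by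
  obtain ⟨i, hA1, hA2⟩ := hA
  obtain ⟨j, hB1, hB2⟩ := hB
  by_cases hij : i = j
  · subst hij
    have := preservesBinaryBiproducts_of_preservesBiproducts (shiftFunctor C (-i))
    have h1 : P ((A ⊞ B)⟦-i⟧) := ObjectProperty.prop_of_iso P
      ((shiftFunctor C (-i)).mapBiprod A B).symm (hPs _ _ hA1 hB1)
    have h2 : WtObj φ c {i} (A ⊞ B) := WtObj.ext (binaryBiproductTriangle_distinguished A B) hA2 hB2
    have h3 : R.Deg ((A ⊞ B)⟦-i⟧) i := deg_of_weight hc hc1 (h2.shift hφ (-i)) (hW _ h1)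
    have h4 : R.Deg (A ⊞ B) 0 := by
      have h5 := h3.shift i 0 (by ring)
      exact h5.iso ((shiftFunctorCompIsoId C (-i) i (by ring)).app (A ⊞ B))
    obtain ⟨e⟩ := shift_end (A ⊞ B) (-i)
    have hnd : ∀ s : 𝟙_ C ⟶ (A ⊞ B) ⊗ (A ⊞ B)ᘁ, s ≠ 0 →
        ∃ r : (A ⊞ B) ⊗ (A ⊞ B)ᘁ ⟶ 𝟙_ C, s ≫ r ≠ 0 := by
      intro s hs
      obtain ⟨r, hr⟩ := hnum _ (hPt _ _ h1 (hPd _ h1)) (s ≫ e.hom) (fun h => hs (by
        rw [← cancel_mono e.hom, h, zero_comp]))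
      exact ⟨e.hom ≫ r, by rwa [← Category.assoc]⟩
    obtain ⟨b, hb⟩ := regular_end R hEnd h4 hnd (biprod.fst ≫ f ≫ biprod.inr)
    refine ⟨biprod.inr ≫ b ≫ biprod.fst, ?_⟩
    have h6 := congrArg (fun g => biprod.inl ≫ g ≫ biprod.snd) hb
    simpa using h6
  · exact ⟨0, by rw [WtObj.hom_zero hc hc1 (by simpa using hij) hA2 hB2 f, zero_comp]⟩

omit [IsTriangulated C] [IsIdempotentComplete C] in
include hc hc1 hEnd hPt hPd hW hnum hφ in
/-- Tensor products. -/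
lemma S_tensor (A B : C) (hA : Sm φ c P A) (hB : Sm φ c P B) : Sm φ c P (A ⊗ B) := by
  obtain ⟨i, hA1, hA2⟩ := hA
  obtain ⟨j, hB1, hB2⟩ := hB
  let e : A⟦-i⟧ ⊗ B⟦-j⟧ ≅ (A ⊗ B)⟦-(i + j)⟧ :=
    lrShift A B (-i) (-j) ≪≫ eqToIso (by rw [show -i + -j = -(i + j) by ring])
  have h1 : P ((A ⊗ B)⟦-(i + j)⟧) := ObjectProperty.prop_of_iso P e (hPt _ _ hA1 hB1)
  have h2 : R.Deg ((A ⊗ B)⟦-(i + j)⟧) (i + j) :=
    ((deg_of_weight hc hc1 (hA2.shift hφ (-i)) (hW _ hA1)).tensor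
      (deg_of_weight hc hc1 (hB2.shift hφ (-j)) (hW _ hB1))).iso e
  have h3 := weight_of_deg hEnd (hnum _ (hPt _ _ h1 (hPd _ h1))) h2 (hW _ h1)
  refine ⟨i + j, h1, ?_⟩
  exact (h3.shift hφ (i + j)).iso
    ((shiftFunctorCompIsoId C (-(i + j)) (i + j) (by ring)).app (A ⊗ B))

omit [IsTriangulated C] [IsIdempotentComplete C] [P.IsStableUnderRetracts] in
include hc hc1 hW hφ in
lemma S_deg {A : C} (hA : Sm φ c P A) : R.Deg A 0 := by
  obtain ⟨i, hA1, hA2⟩ := hA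
  have h5 := (deg_of_weight hc hc1 (hA2.shift hφ (-i)) (hW _ hA1)).shift i 0 (by ring)
  exact h5.iso ((shiftFunctorCompIsoId C (-i) i (by ring)).app A)

end

section

variable {C : Type u} [Category.{v} C] [Preadditive C] [HasZeroObject C] [HasShift C ℤ]
  [∀ n : ℤ, (shiftFunctor C n).Additive] [Pretriangulated C] [MonoidalCategory C]
  [SymmetricCategory C] [TensorTriangulated C] [MonoidalPreadditive C]

lemma ET.tensor {A X B : C} (h : ET A X B) (W : C) : ET (W ⊗ A) (W ⊗ X) (W ⊗ B) := by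
  obtain ⟨f, g, h, hT⟩ := h
  exact ⟨_, _, _, tensor_dist W hT⟩

lemma ET.tensor' {A X B : C} (h : ET A X B) (W : C) : ET (A ⊗ W) (X ⊗ W) (B ⊗ W) :=
  (h.tensor W).iso (β_ _ _) (β_ _ _) (β_ _ _)

variable [IsTriangulated C]

/-- Tensor products of words. -/
lemma Wd.tensor {S : ObjectProperty C} [S.IsStableUnderRetracts]
    (hS : ∀ A B, S A → S B → S (A ⊗ B)) {p q r : Set ℤ} (hpq : ∀ n ∈ p, ∀ m ∈ q, n + m ∈ r)
    {X Y : C} (hX : Wd (Lt S p) X) (hY : Wd (Lt S q) Y) : Wd (Lt S r) (X ⊗ Y) := by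
  refine Wd.dev (fun X => Wd (Lt S r) (X ⊗ Y)) ?_ ?_ ?_ hX
  · intro X hX
    exact .zero ((tensorRight Y).map_isZero hX)
  · rintro A ⟨n, hn, hA⟩
    refine Wd.dev (fun Y => Wd (Lt S r) (A ⊗ Y)) ?_ ?_ ?_ hY
    · intro Y hY
      exact .zero ((tensorLeft A).map_isZero hY)
    · rintro B ⟨m, hm, hB⟩
      refine Wd.single ⟨n + m, hpq n hn m hm, ?_⟩
      exact S_iso (hS _ _ hA hB) (lrShift A B (-n) (-m) ≪≫
        eqToIso (by rw [show -n + -m = -(n + m) by ring]))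
    · intro A' X' B' hT h1 h2
      exact Wd.ext h1 h2 (hT.tensor A)
  · intro A' X' B' hT h1 h2
    exact Wd.ext h1 h2 (hT.tensor' Y)

/-- Realisations of words. -/
lemma Wd.real {S : ObjectProperty C} {E : Type w} [Field E] {R : Realisation C E}
    (hS : ∀ A, S A → R.Deg A 0) {p : Set ℤ} {X : C} (hX : Wd (Lt S p) X) (i : ℤ) (hi : -i ∉ p) :
    IsZero (R.H.obj (X⟦i⟧)) := by
  refine Wd.dev (fun X => IsZero (R.H.obj (X⟦i⟧))) ?_ ?_ ?_ hX
  · intro X hX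
    exact R.H.map_isZero ((shiftFunctor C i).map_isZero hX)
  · rintro A ⟨n, hn, hA⟩
    have h1 : R.Deg A (-n) := ((hS _ hA).shift n (-n) (by ring)).iso
      ((shiftFunctorCompIsoId C (-n) n (by ring)).app A)
    refine h1 i ?_
    rintro rfl
    rw [neg_neg] at hi
    exact hi hn
  · rintro A X B ⟨f, g, h, hT⟩ h1 h2
    exact hz2 R.H hT i h1 h2

end

section

variable {C : Type u} [Category.{v} C] [Preadditive C] [HasZeroObject C] [HasShift C ℤ]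
  [∀ n : ℤ, (shiftFunctor C n).Additive] [Pretriangulated C] [MonoidalCategory C]
  [SymmetricCategory C] [TensorTriangulated C] [MonoidalPreadditive C] [Linear ℚ C]
  [RightRigidCategory C] [IsTriangulated C] [IsIdempotentComplete C]
  {φ : 𝟭 C ⟶ 𝟭 C} {c : ℝ} {Λ : Type*} [Nonempty Λ] {E : Λ → Type w} [∀ l, Field (E l)]
  (R : ∀ l, Realisation C (E l)) {P : ObjectProperty C}

/-- The t-structure exists, if rational and numerical equivalence agree and the negative motivic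
cohomology of pure objects vanishes. -/
theorem bwd (hPr : P.IsStableUnderRetracts)
    (hφ : ∀ (M : C) (n : ℤ), φ.app (M⟦n⟧) = (φ.app M)⟦n⟧') (hc : 0 < c) (hc1 : c ≠ 1)
    (hEnd : ∀ e : 𝟙_ C ⟶ 𝟙_ C, ∃ q : ℚ, e = q • 𝟙 _)
    (hPt : ∀ X Y, P X → P Y → P (X ⊗ Y)) (hPd : ∀ X, P X → P (Xᘁ))
    (hPs : ∀ X Y, P X → P Y → P (X ⊞ Y)) (hPg : P.IsClassicalTriangulatedGenerator)
    (hW : ∀ l X, P X → Weil φ c (R l) X)
    (hnum : ∀ X, P X → ∀ s : 𝟙_ C ⟶ X, s ≠ 0 → ∃ r : X ⟶ 𝟙_ C, s ≫ r ≠ 0)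
    (hneg : ∀ X, P X → ∀ n : ℤ, n < 0 → ∀ f : 𝟙_ C ⟶ X⟦n⟧, f = 0) :
    ∃ t : TStructure C, IsMotivic t R := by
  obtain ⟨l₀⟩ := ‹Nonempty Λ›
  have hN := S_neg hφ hc hc1 hPt hPd hneg
  have hR := S_reg (R l₀) hφ hc hc1 hEnd hPt hPd hPs (hW l₀) hnum
  have hS := S_tensor (R l₀) hφ hc hc1 hEnd hPt hPd (hW l₀) hnum
  have hall := Wd.all hN hR P hPg (fun X hX => by
    obtain ⟨s, χ, h1, h2⟩ := pol_of_pairing hEnd (hnum _ (hPt _ _ hX (hPd _ hX))) (hW l₀ X hX)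
    exact word_of_pol hφ hc hc1 s h1 X hX h2)
  obtain ⟨t, hle, hge⟩ := gen_tStructure hN hR hall
  refine ⟨t, ⟨?_, ?_, ?_, ?_, ?_, ?_⟩⟩
  · intro X hX
    obtain ⟨a, b, hab⟩ := (hall X).bdd
    have h1 := (hle _ _).1 (hX (-(b + 1)))
    rw [IsZero.iff_id_eq_zero]
    refine hom_Wd hN ?_ h1 hab _
    intro n hn m hm
    simp only [Set.mem_ofPred_eq, Set.mem_Icc] at hn hm
    omega
  · intro X hX
    obtain ⟨a, b, hab⟩ := (hall X).bdd
    have h1 := (hge _ _).1 (hX (-(a - 1)))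
    rw [IsZero.iff_id_eq_zero]
    refine hom_Wd hN ?_ hab h1 _
    intro n hn m hm
    simp only [Set.mem_ofPred_eq, Set.mem_Icc] at hn hm
    omega
  · intro X Y hX hY
    rw [hle] at hX hY ⊢
    refine Wd.tensor hS ?_ hX hY
    intro n hn m hm
    simp only [Set.mem_ofPred_eq] at hn hm ⊢
    omega
  · intro X Y hX hY
    rw [hge] at hX hY ⊢
    refine Wd.tensor hS ?_ hX hY
    intro n hn m hm
    simp only [Set.mem_ofPred_eq] at hn hm ⊢
    omega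
  · intro l X hX i hi
    rw [hle] at hX
    refine Wd.real (fun A hA => S_deg (R l) hφ hc hc1 (hW l) hA) hX i ?_
    simp only [Set.mem_ofPred_eq]
    omega
  · intro l X hX i hi
    rw [hge] at hX
    refine Wd.real (fun A hA => S_deg (R l) hφ hc hc1 (hW l) hA) hX i ?_
    simp only [Set.mem_ofPred_eq]
    omega

end

end Pool.Agent.Y116.MT
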