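import Pool.Agent.Y116.MT.Dual
import Pool.Agent.Y116.MT.Bwd

/-!
# The t-structure constructed from the conjectures on Chow motives, over a general field
-/

set_option autoImplicit false
set_option linter.unusedSectionVars false
set_option linter.unusedSimpArgs false
set_option backward.isDefEq.respectTransparency false
set_option backward.defeqAttrib.useBackward true

open CategoryTheory Limits MonoidalCategory Pretriangulated Triangulated

namespace Pool.Agent.Y116.MT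

universe v u w

section Biprod

variable {C : Type u} [Category.{v} C] [Preadditive C] [HasBinaryBiproducts C]
  [HasFiniteBiproducts C]

/-- Splitting off the first summand. -/
noncomputable def finSucc {n : ℕ} (Q : Fin (n + 1) → C) :
    (⨁ Q) ≅ Q 0 ⊞ (⨁ fun j : Fin n => Q j.succ) where
  hom := biprod.lift (biproduct.π Q 0) (biproduct.lift fun j => biproduct.π Q j.succ)
  inv := biprod.desc (biproduct.ι Q 0) (biproduct.desc fun j => biproduct.ι Q j.succ)
  hom_inv_id := by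
    rw [biprod.lift_desc, biproduct.lift_desc, ← biproduct.total, Fin.sum_univ_succ]
  inv_hom_id := by
    apply biprod.hom_ext'
    · apply biprod.hom_ext
      · simp
      · apply biproduct.hom_ext
        intro j
        simp [biproduct.ι_π_ne _ (Fin.succ_ne_zero j).symm]
    · apply biproduct.hom_ext'
      intro k
      apply biprod.hom_ext
      · simp [biproduct.ι_π_ne _ (Fin.succ_ne_zero k)]
      · apply biproduct.hom_ext
        intro j
        by_cases h : k = j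
        · subst h; simp
        · simp [biproduct.ι_π_ne _ h, biproduct.ι_π_ne _ (fun h' => h (Fin.succ_injective _ h'))]

lemma isZero_fin (Q : Fin 0 → C) : IsZero (⨁ Q) := by
  rw [IsZero.iff_id_eq_zero, ← biproduct.total]
  simp

end Biprod

section

variable {C : Type u} [Category.{v} C] [Preadditive C] [HasZeroObject C] [HasShift C ℤ]
  [∀ n : ℤ, (shiftFunctor C n).Additive] [Pretriangulated C] [MonoidalCategory C]
  [SymmetricCategory C] [TensorTriangulated C] {Λ : Type*} {E : Λ → Type w} [∀ l, Field (E l)]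

/-- The shifts of the objects of `P` with realisations in degree zero. -/
def Sd (R : ∀ l, Realisation C (E l)) (P : ObjectProperty C) : ObjectProperty C :=
  fun M => (∃ i : ℤ, P (M⟦-i⟧)) ∧ ∀ l, (R l).Deg M 0

variable (R : ∀ l, Realisation C (E l)) (P : ObjectProperty C) [P.IsStableUnderRetracts]

instance : (Sd R P).IsStableUnderRetracts where
  of_retract := by
    rintro X Y h ⟨⟨i, h1⟩, h2⟩
    exact ⟨⟨i, ObjectProperty.prop_of_retract P (h.map (shiftFunctor C (-i))) h1⟩,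
      fun l => (h2 l).retract h.i h.r h.retract⟩

lemma Sd_deg {M : C} (h : ∀ l, (R l).Deg M 0) (i : ℤ) (l : Λ) : (R l).Deg (M⟦-i⟧) i :=
  (h l).shift (-i) i (by ring)

end

section

variable {C : Type u} [Category.{v} C] [Preadditive C] [HasZeroObject C] [HasShift C ℤ]
  [∀ n : ℤ, (shiftFunctor C n).Additive] [Pretriangulated C] [MonoidalCategory C]
  [SymmetricCategory C] [TensorTriangulated C] [MonoidalPreadditive C] [Linear ℚ C]
  [RightRigidCategory C] [IsTriangulated C] [IsIdempotentComplete C]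
  {Λ : Type*} [Nonempty Λ] {E : Λ → Type w} [∀ l, Field (E l)]
  (R : ∀ l, Realisation C (E l)) {P : ObjectProperty C} [P.IsStableUnderRetracts]
  (hEnd : ∀ e : 𝟙_ C ⟶ 𝟙_ C, ∃ q : ℚ, e = q • 𝟙 _)
  (hPt : ∀ X Y, P X → P Y → P (X ⊗ Y)) (hPd : ∀ X, P X → P (Xᘁ))
  (hPs : ∀ X Y, P X → P Y → P (X ⊞ Y))
  (hB : ∀ (X : C) (i n : ℤ) (f : 𝟙_ C ⟶ X⟦n⟧), P X → (∀ l, (R l).Deg X i) → n ≤ i →
    (n ≠ 0 ∨ i ≠ 0) → f = 0)
  (hF : ∀ (X : C) (s : 𝟙_ C ⟶ X), P X → (∀ l, (R l).Deg X 0) → s ≠ 0 →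
    ∃ r : X ⟶ 𝟙_ C, s ≫ r ≠ 0)

omit [IsTriangulated C] [IsIdempotentComplete C] [Nonempty Λ] [Linear ℚ C] in
include hPt hPd hB in
lemma Sd_hom {A B : C} {i j m : ℤ} (hA : P (A⟦-i⟧)) (hB' : P (B⟦-j⟧))
    (hAd : ∀ l, (R l).Deg A 0) (hBd : ∀ l, (R l).Deg B 0) (hm : m ≤ 0) (hm' : m ≠ 0 ∨ i ≠ j)
    (f : A ⟶ B⟦m⟧) : f = 0 := by
  have key : ∀ g : A⟦-i⟧ ⟶ (B⟦-j⟧)⟦j - i + m⟧, g = 0 := by
    intro g
    apply eq_zero_of_nm
    rw [← cancel_mono (lShift (B⟦-j⟧) ((A⟦-i⟧)ᘁ) (j - i + m)).hom, zero_comp]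
    refine hB _ (j - i) _ _ (hPt _ _ hB' (hPd _ hA)) (fun l => ?_) (by omega) (by omega)
    have h1 := ((Sd_deg R hBd j l).tensor (deg_dual (Sd_deg R hAd i l)))
    rwa [← sub_eq_add_neg] at h1
  apply (shiftFunctor C (-i)).map_injective
  rw [Functor.map_zero, ← cancel_mono ((shiftFunctorAdd' C m (-i) (m - i) (by ring)).inv.app B),
    ← cancel_mono ((shiftFunctorAdd' C (-j) (j - i + m) (m - i) (by ring)).hom.app B), zero_comp,
    zero_comp]
  exact key _

omit [IsTriangulated C] [IsIdempotentComplete C] in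
include hEnd hPt hPd hPs hB hF in
/-- Regularity. -/
lemma Sd_reg (A B : C) (hA : Sd R P A) (hB' : Sd R P B) (f : A ⟶ B) :
    ∃ g : B ⟶ A, f ≫ g ≫ f = f := by
  obtain ⟨l₀⟩ := ‹Nonempty Λ›
  obtain ⟨⟨i, hA1⟩, hA2⟩ := hA
  obtain ⟨⟨j, hB1⟩, hB2⟩ := hB'
  by_cases hij : i = j
  · subst hij
    have := preservesBinaryBiproducts_of_preservesBiproducts (shiftFunctor C (-i))
    have h1 : P ((A ⊞ B)⟦-i⟧) := ObjectProperty.prop_of_iso P
      ((shiftFunctor C (-i)).mapBiprod A B).symm (hPs _ _ hA1 hB1)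
    have h4 : ∀ l, (R l).Deg (A ⊞ B) 0 := fun l n hn =>
      hz2 (R l).H (binaryBiproductTriangle_distinguished A B) n (hA2 l n hn) (hB2 l n hn)
    obtain ⟨e⟩ := shift_end (A ⊞ B) (-i)
    have hnd : ∀ s : 𝟙_ C ⟶ (A ⊞ B) ⊗ (A ⊞ B)ᘁ, s ≠ 0 →
        ∃ r : (A ⊞ B) ⊗ (A ⊞ B)ᘁ ⟶ 𝟙_ C, s ≫ r ≠ 0 := by
      intro s hs
      obtain ⟨r, hr⟩ := hF _ (s ≫ e.hom) (hPt _ _ h1 (hPd _ h1)) (fun l => by
        have h5 := ((Sd_deg R h4 i l).tensor (deg_dual (Sd_deg R h4 i l)))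
        rwa [add_neg_cancel] at h5) (fun h => hs (by
        rw [← cancel_mono e.hom, h, zero_comp]))
      exact ⟨e.hom ≫ r, by rwa [← Category.assoc]⟩
    obtain ⟨b, hb⟩ := regular_end (R l₀) hEnd (h4 l₀) hnd (biprod.fst ≫ f ≫ biprod.inr)
    refine ⟨biprod.inr ≫ b ≫ biprod.fst, ?_⟩
    have h6 := congrArg (fun g => biprod.inl ≫ g ≫ biprod.snd) hb
    simpa using h6
  · refine ⟨0, ?_⟩
    have h0 : f ≫ (shiftFunctorZero C ℤ).inv.app B = 0 :=
      Sd_hom R hPt hPd hB hA1 hB1 hA2 hB2 le_rfl (Or.inr hij) _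
    have h1 : f = 0 := by
      rw [← cancel_mono ((shiftFunctorZero C ℤ).inv.app B), h0, zero_comp]
    rw [h1, zero_comp]

omit [IsTriangulated C] [IsIdempotentComplete C] [Nonempty Λ] [Linear ℚ C]
  [RightRigidCategory C] in
include hPt in
/-- Tensor products. -/
lemma Sd_tensor (A B : C) (hA : Sd R P A) (hB : Sd R P B) : Sd R P (A ⊗ B) := by
  obtain ⟨⟨i, hA1⟩, hA2⟩ := hA
  obtain ⟨⟨j, hB1⟩, hB2⟩ := hB
  refine ⟨⟨i + j, ?_⟩, fun l => by simpa using (hA2 l).tensor (hB2 l)⟩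
  exact ObjectProperty.prop_of_iso P
    (lrShift A B (-i) (-j) ≪≫ eqToIso (by rw [show -i + -j = -(i + j) by ring])) (hPt _ _ hA1 hB1)

omit [Nonempty Λ] [IsIdempotentComplete C] [MonoidalPreadditive C] [Linear ℚ C]
  [RightRigidCategory C] in
lemma Sd_word {n : ℕ} : ∀ (Q : Fin n → C) (d : Fin n → ℤ), (∀ j, P (Q j)) →
    (∀ j l, (R l).Deg (Q j) (d j)) → Wd (Lt (Sd R P) Set.univ) (⨁ Q) := by
  induction n with
  | zero => intro Q _ _ _; exact .zero (isZero_fin Q)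
  | succ n ih =>
    intro Q d hQ hd
    refine .cons (A := Q 0) (B := ⨁ fun j : Fin n => Q j.succ) ⟨-(d 0), Set.mem_univ _, ⟨d 0, ?_⟩, ?_⟩
      ((ET.sum _ _).iso (Iso.refl _) (finSucc Q).symm (Iso.refl _))
      (ih (fun j => Q j.succ) (fun j => d j.succ) (fun j => hQ _) (fun j l => hd _ _))
    · exact ObjectProperty.prop_of_iso P
        ((shiftFunctorCompIsoId C (- -(d 0)) (-(d 0)) (by ring)).app (Q 0)).symm (hQ 0)
    · intro l
      exact (hd 0 l).shift _ _ (by ring)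

include hEnd hPt hPd hPs hB hF in
/-- The t-structure exists, if the conjectures on Chow motives hold. -/
theorem crit (hPg : P.IsClassicalTriangulatedGenerator)
    (hA : ∀ X, P X → ∃ (n : ℕ) (Q : Fin n → C) (d : Fin n → ℤ), (∀ j, P (Q j)) ∧
      (∀ j l, (R l).Deg (Q j) (d j)) ∧ Nonempty (X ≅ ⨁ Q)) :
    ∃ t : TStructure C, IsMotivic t R := by
  have hN : ∀ A B, Sd R P A → Sd R P B → ∀ m : ℤ, m < 0 → ∀ f : A ⟶ B⟦m⟧, f = 0 := by
    rintro A B ⟨⟨i, hA1⟩, hA2⟩ ⟨⟨j, hB1⟩, hB2⟩ m hm f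
    exact Sd_hom R hPt hPd hB hA1 hB1 hA2 hB2 hm.le (Or.inl hm.ne) f
  have hR := Sd_reg R hEnd hPt hPd hPs hB hF
  have hS := Sd_tensor R (P := P) hPt
  have hall := Wd.all hN hR P hPg (fun X hX => by
    obtain ⟨n, Q, d, hQ, hd, ⟨e⟩⟩ := hA X hX
    exact (Sd_word R Q d hQ hd).iso e.symm)
  obtain ⟨t, hle, hge⟩ := gen_tStructure hN hR hall
  refine ⟨t, ⟨?_, ?_, ?_, ?_, ?_, ?_⟩⟩
  · intro X hX
    obtain ⟨a, b, hab⟩ := (hall X).bdd
    have h1 := (hle _ _).1 (hX (-(b + 1)))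
    rw [IsZero.iff_id_eq_zero]
    refine hom_Wd hN ?_ h1 hab _
    intro n hn m hm
    simp only [Set.mem_ofPred_eq, Set.mem_Icc] at hn hm
    omega
  · intro X hX
    obtain ⟨a, b, hab⟩ := (hall X).bdd
    have h1 := (hge _ _).1 (hX (-(a - 1)))
    rw [IsZero.iff_id_eq_zero]
    refine hom_Wd hN ?_ hab h1 _
    intro n hn m hm
    simp only [Set.mem_ofPred_eq, Set.mem_Icc] at hn hm
    omega
  · intro X Y hX hY
    rw [hle] at hX hY ⊢
    refine Wd.tensor hS ?_ hX hY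
    intro n hn m hm
    simp only [Set.mem_ofPred_eq] at hn hm ⊢
    omega
  · intro X Y hX hY
    rw [hge] at hX hY ⊢
    refine Wd.tensor hS ?_ hX hY
    intro n hn m hm
    simp only [Set.mem_ofPred_eq] at hn hm ⊢
    omega
  · intro l X hX i hi
    rw [hle] at hX
    refine Wd.real (fun A hA => hA.2 l) hX i ?_
    simp only [Set.mem_ofPred_eq]
    omega
  · intro l X hX i hi
    rw [hge] at hX
    refine Wd.real (fun A hA => hA.2 l) hX i ?_
    simp only [Set.mem_ofPred_eq]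
    omega

end

end Pool.Agent.Y116.MT
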