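import Pool.Agent.Y116.MT.Frob

/-!
# Frobenius weights and t-structures
-/

set_option autoImplicit false
set_option linter.unusedSectionVars false
set_option linter.unusedSimpArgs false
set_option backward.isDefEq.respectTransparency false
set_option backward.defeqAttrib.useBackward true

open CategoryTheory Limits MonoidalCategory Pretriangulated Triangulated
open scoped Polynomial

namespace Pool.Agent.Y116.MT

universe v u w

section Obj

variable {C : Type u} [Category.{v} C] [Preadditive C] [HasZeroObject C] [HasShift C ℤ]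
  [∀ n : ℤ, (shiftFunctor C n).Additive] [Pretriangulated C] [MonoidalCategory C]
  [SymmetricCategory C] [TensorTriangulated C] [Linear ℚ C]

/-- The `i`-th cohomology of `M` is killed by a polynomial in the endomorphism `φ` all of whose
complex roots have absolute value `c ^ (i / 2)`. -/
def Weil (φ : 𝟭 C ⟶ 𝟭 C) (c : ℝ) {E : Type w} [Field E] (R : Realisation C E) (M : C) : Prop :=
  ∀ i : ℤ, ∃ χ : ℚ[X], WtPol c {i} χ ∧ R.H.map ((pol φ χ M)⟦i⟧') = 0

variable [MonoidalPreadditive C] [RightRigidCategory C] {φ : 𝟭 C ⟶ 𝟭 C} {c : ℝ} {E : Type w} [Field E] {R : Realisation C E}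
  (hφ : ∀ (M : C) (n : ℤ), φ.app (M⟦n⟧) = (φ.app M)⟦n⟧') {t : TStructure C}

lemma Weil.left (he : TExact t R) {A X B : C} {f : A ⟶ X} {g : X ⟶ B} {h : B ⟶ A⟦(1 : ℤ)⟧}
    (hT : Triangle.mk f g h ∈ distTriang C) {n : ℤ} (hA : t.IsLE A n) (hB : t.IsGE B (n + 1))
    (hX : Weil φ c R X) : Weil φ c R A := by
  intro i
  obtain ⟨χ, h1, h2⟩ := hX i
  refine ⟨χ, h1, ?_⟩
  by_cases hi : n < i
  · exact (he.isLE hA i hi).eq_of_src _ _
  · have := hmono1 R.H hT i (he.isGE hB _ (by omega))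
    rw [← cancel_mono (R.H.map (f⟦i⟧')), zero_comp, ← Functor.map_comp, ← Functor.map_comp,
      pol_natural, Functor.map_comp, Functor.map_comp, h2, comp_zero]

lemma Weil.right (he : TExact t R) {A X B : C} {f : A ⟶ X} {g : X ⟶ B} {h : B ⟶ A⟦(1 : ℤ)⟧}
    (hT : Triangle.mk f g h ∈ distTriang C) {n : ℤ} (hA : t.IsLE A n) (hB : t.IsGE B (n + 1))
    (hX : Weil φ c R X) : Weil φ c R B := by
  intro i
  obtain ⟨χ, h1, h2⟩ := hX i
  refine ⟨χ, h1, ?_⟩
  by_cases hi : i < n + 1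
  · exact (he.isGE hB i hi).eq_of_src _ _
  · have := hepi2 R.H hT i (he.isLE hA _ (by omega))
    rw [← cancel_epi (R.H.map (g⟦i⟧')), comp_zero, ← Functor.map_comp, ← Functor.map_comp,
      ← pol_natural, Functor.map_comp, Functor.map_comp, h2, zero_comp]

variable [IsTriangulated C]
variable (ht : TensorCompat t) (he : TExact t R) (hu : Hrt t (𝟙_ C))
  (hid : ∀ e : 𝟙_ C ⟶ 𝟙_ C, e ≫ e = e → e = 0 ∨ e = 𝟙 _)
  (hle : ∀ X : C, (∀ n : ℤ, t.le n X) → IsZero X)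
  (hge : ∀ X : C, (∀ n : ℤ, t.ge n X) → IsZero X)

include ht he hu hid

/-- The weight of an object concentrated in one degree. -/
lemma Weil.one {M : C} {n : ℤ} (h1 : t.IsLE M n) (h2 : t.IsGE M n) (hM : Weil φ c R M) :
    WtObj φ c {n} M := by
  obtain ⟨χ, h3, h4⟩ := hM n
  refine ⟨χ, h3, ?_⟩
  have h5 : Hrt t (M⟦n⟧) := ⟨t.isLE_shift M n n 0, t.isGE_shift M n n 0⟩
  apply (shiftFunctor C n).map_injective
  rw [Functor.map_zero]
  exact faithful_heart ht he hu hid h5 h5 _ h4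

/-- The weights of an object concentrated in an interval. -/
lemma Weil.interval (k : ℕ) : ∀ (M : C) (a b : ℤ), b - a ≤ k → t.IsGE M a → t.IsLE M b →
    Weil φ c R M → WtObj φ c (Set.Icc a b) M := by
  induction k with
  | zero =>
    intro M a b hab h1 h2 hM
    by_cases hab' : a = b
    · subst hab'
      exact (Weil.one ht he hu hid h2 h1 hM).mono (by simp)
    · exact WtObj.zero (t.isZero M b a (by omega)) _
  | succ k ih =>
    intro M a b hab h1 h2 hM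
    by_cases hab' : b < a
    · exact WtObj.zero (t.isZero M b a (by omega)) _
    obtain ⟨X, Y, hX, hY, f, g, h, hT⟩ := t.exists_triangle M a (a + 1) rfl
    have hX1 : t.IsLE X a := ⟨hX⟩
    have hY1 : t.IsGE Y (a + 1) := ⟨hY⟩
    have hX2 : t.IsGE X a := isGE1 hT h1 (t.isGE_of_ge Y (a - 1) (a + 1))
    have hXw := Weil.one ht he hu hid hX1 hX2 (hM.left he hT hX1 hY1)
    have hY2 : t.IsLE Y b := isLE3 hT (t.isLE_of_le X a (b + 1) (by omega)) h2
    have hYw := ih Y (a + 1) b (by omega) hY1 hY2 (hM.right he hT hX1 hY1)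
    exact WtObj.ext hT (hXw.mono (by simp; omega)) (hYw.mono (Set.Icc_subset_Icc_left (by omega)))

include hle hge

lemma Weil.leWt {M : C} {n : ℤ} (h : t.IsLE M n) (hM : Weil φ c R M) :
    WtObj φ c (Set.Iic n) M := by
  obtain ⟨N, h1, h2⟩ := bounded_of_H ht he hu hid hle hge M
  exact (Weil.interval ht he hu hid (n + N).natAbs M (-N) n (by omega) h2 h hM).mono
    (fun i hi => hi.2)

lemma Weil.geWt {M : C} {n : ℤ} (h : t.IsGE M n) (hM : Weil φ c R M) :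
    WtObj φ c (Set.Ici n) M := by
  obtain ⟨N, h1, h2⟩ := bounded_of_H ht he hu hid hle hge M
  exact (Weil.interval ht he hu hid (N - n).natAbs M n N (by omega) h h1 hM).mono
    (fun i hi => hi.1)

include hφ

/-- The truncation triangles of an object satisfying the Weil conjectures split. -/
lemma Weil.split (hc : 0 < c) (hc1 : c ≠ 1) {A X B : C} {f : A ⟶ X} {g : X ⟶ B}
    {h : B ⟶ A⟦(1 : ℤ)⟧}
    (hT : Triangle.mk f g h ∈ distTriang C) {n : ℤ} (hA : t.IsLE A n) (hB : t.IsGE B (n + 1))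
    (hX : Weil φ c R X) : h = 0 := by
  have h1 := Weil.leWt ht he hu hid hle hge hA (hX.left he hT hA hB)
  have h2 := Weil.geWt ht he hu hid hle hge hB (hX.right he hT hA hB)
  refine WtObj.hom_zero hc hc1 ?_ h2 (h1.shift hφ 1) h
  rw [Set.disjoint_left]
  intro i hi hi'
  simp only [Set.mem_Ici, Set.mem_Iic] at hi hi'
  omega

/-- Vanishing of the negative shifts. -/
theorem fwd_neg (hc : 0 < c) (hc1 : c ≠ 1) {P : C} (hP : Weil φ c R P)
    (hPu : Weil φ c R (𝟙_ C)) {n : ℤ} (hn : n < 0) (f : 𝟙_ C ⟶ P⟦n⟧) : f = 0 := by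
  have hU0 : WtObj φ c {0} ((𝟙_ C)⟦-n⟧) := (Weil.one ht he hu hid hu.1 hu.2 hPu).shift hφ _
  have hU1 : t.IsLE ((𝟙_ C)⟦-n⟧) n := @TStructure.isLE_shift _ _ _ _ _ _ _ t _ 0 (-n) n
    (by omega) hu.1
  have key : ∀ g : (𝟙_ C)⟦-n⟧ ⟶ P, g = 0 := by
    intro g
    obtain ⟨A, B, hA, hB, a, b, d, hT⟩ := t.exists_triangle P n (n + 1) rfl
    have hA1 : t.IsLE A n := ⟨hA⟩
    have hB1 : t.IsGE B (n + 1) := ⟨hB⟩
    have h1 : g ≫ b = 0 := t.zero_of_isLE_of_isGE _ n (n + 1) (by omega) hU1 hB1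
    obtain ⟨l, hl⟩ := ce2 hT g h1
    have h2 := Weil.leWt ht he hu hid hle hge hA1 (hP.left he hT hA1 hB1)
    have h3 : l = 0 := by
      refine WtObj.hom_zero hc hc1 ?_ hU0 h2 l
      rw [Set.disjoint_left]
      intro i hi hi'
      simp only [Set.mem_singleton_iff, Set.mem_Iic] at hi hi'
      omega
    rw [hl, h3, zero_comp]
  apply (shiftFunctor C (-n)).map_injective
  rw [Functor.map_zero, ← cancel_mono (shiftShiftNeg P n).hom, zero_comp]
  exact key _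

/-- Non zero maps from the unit to pure objects are detected by maps to the unit. -/
theorem fwd_num (hc : 0 < c) (hc1 : c ≠ 1)
    (Pr : ObjectProperty C) (hPu : Pr (𝟙_ C)) (hPQ : ∀ X Y, Pr X → Pr Y → Pr (X ⊗ Y))
    (hPr : ∀ (X Y : C) (i : X ⟶ Y) (r : Y ⟶ X), i ≫ r = 𝟙 _ → Pr Y → Pr X)
    (hP0 : ∀ X, Pr X → ∀ (m : ℤ), 0 < m → ∀ f : X ⟶ (𝟙_ C)⟦m⟧, f = 0)
    (hPw : ∀ X, Pr X → Weil φ c R X)
    {P : C} (hP : Pr P) (s : 𝟙_ C ⟶ P) (hs : s ≠ 0) : ∃ r : P ⟶ 𝟙_ C, s ≫ r ≠ 0 := by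
  have hU0 : WtObj φ c {0} (𝟙_ C) := (Weil.one ht he hu hid hu.1 hu.2 (hPw _ hPu))
  obtain ⟨A, B, hA, hB, a, b, d, hT⟩ := t.exists_triangle P (-1) 0 rfl
  have hA1 : t.IsLE A (-1) := ⟨hA⟩
  have hB1 : t.IsGE B 0 := ⟨hB⟩
  have hBw : Weil φ c R B := (hPw P hP).right he hT hA1 hB1
  have h1 : s ≫ b ≠ 0 := by
    intro h0
    obtain ⟨l, hl⟩ := ce2 hT s h0
    have h2 := Weil.leWt ht he hu hid hle hge hA1 ((hPw P hP).left he hT hA1 hB1)
    have h3 : l = 0 := by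
      refine WtObj.hom_zero hc hc1 ?_ hU0 h2 l
      rw [Set.disjoint_left]
      intro i hi hi'
      simp only [Set.mem_singleton_iff, Set.mem_Iic] at hi hi'
      omega
    exact hs (by rw [hl, h3, zero_comp])
  obtain ⟨r', hr'⟩ := split3' hT (Weil.split hφ ht he hu hid hle hge hc hc1 hT hA1 hB1 (hPw P hP))
  obtain ⟨Q, D, hQ, hD, q, p, d', hT'⟩ := t.exists_triangle B 0 1 rfl
  have hQ1 : t.IsLE Q 0 := ⟨hQ⟩
  have hD1 : t.IsGE D (0 + 1) := ⟨hD⟩
  have hQ0 : t.IsGE Q 0 := isGE1 hT' hB1 (t.isGE_of_ge D (0 - 1) (0 + 1))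
  obtain ⟨ρ, hρ⟩ := split3 hT' (Weil.split hφ ht he hu hid hle hge hc hc1 hT' hQ1 hD1 hBw)
  have h4 : (s ≫ b) ≫ p = 0 := t.zero_of_isLE_of_isGE _ 0 (0 + 1) (by omega) hu.1 hD1
  obtain ⟨s', hs'⟩ := ce2 hT' _ h4
  have h5 : s' ≠ 0 := by
    rintro rfl
    exact h1 (by rw [hs', zero_comp])
  have hQP : Pr Q := hPr Q B q ρ hρ (hPr B P r' b hr' hP)
  obtain ⟨r, hr⟩ := heart_pairing ht he hu hid ⟨hQ1, hQ0⟩ Pr hPu (fun X hX => hPQ X Q hX hQP)
    hP0 s' h5
  refine ⟨b ≫ ρ ≫ r, ?_⟩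
  rwa [← Category.assoc, hs', Category.assoc, reassoc_of% hρ]

end Obj

end Pool.Agent.Y116.MT
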