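import Pool.Agent.Y116.MT.Faith
import Pool.Agent.Y116.MT.Fwd
import Pool.Agent.Y116.MT.Gen

/-!
# The Frobenius decomposition of pure objects
-/

set_option autoImplicit false
set_option linter.unusedSectionVars false
set_option linter.unusedSimpArgs false
set_option backward.isDefEq.respectTransparency false
set_option backward.defeqAttrib.useBackward true

open CategoryTheory Limits MonoidalCategory Pretriangulated Triangulated
open scoped Polynomial

namespace Pool.Agent.Y116.MT

universe v u w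

section

variable {C : Type u} [Category.{v} C] [Preadditive C] [HasZeroObject C] [HasShift C ℤ]
  [∀ n : ℤ, (shiftFunctor C n).Additive] [Pretriangulated C] [Linear ℚ C]
  (φ : 𝟭 C ⟶ 𝟭 C) (c : ℝ) (P : ObjectProperty C)

/-- The shifts `Q⟦i⟧` of the objects `Q` of `P` of weight `i`. -/
def Sm : ObjectProperty C := fun M => ∃ i : ℤ, P (M⟦-i⟧) ∧ WtObj φ c {i} M

variable {φ c P} [P.IsStableUnderRetracts]

instance : (Sm φ c P).IsStableUnderRetracts where
  of_retract := by
    rintro X Y h ⟨i, h1, h2⟩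
    exact ⟨i, ObjectProperty.prop_of_retract P (h.map (shiftFunctor C (-i))) h1,
      h2.retract h.i h.r h.retract⟩

lemma WtPol.prod {s : Finset ℤ} {χ : ℤ → ℚ[X]} (h : ∀ i ∈ s, WtPol c {i} (χ i)) :
    WtPol c (s : Set ℤ) (∏ i ∈ s, χ i) := by
  classical
  induction s using Finset.induction_on with
  | empty => exact ⟨by simp, fun z hz => by simp at hz⟩
  | insert a s ha ih =>
    rw [Finset.prod_insert ha]
    refine WtPol.mul ((h a (Finset.mem_insert_self _ _)).mono (by simp)) ((ih fun i hi =>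
      h i (Finset.mem_insert_of_mem hi)).mono (by simp))

variable (hφ : ∀ (M : C) (n : ℤ), φ.app (M⟦n⟧) = (φ.app M)⟦n⟧') (hc : 0 < c) (hc1 : c ≠ 1)
  [IsIdempotentComplete C] [IsTriangulated C]

include hφ hc hc1 in
/-- Objects killed by a product of polynomials with different weights are words. -/
lemma word_of_pol {χ : ℤ → ℚ[X]} (s : Finset ℤ) : ∀ (_ : ∀ i ∈ s, WtPol c {i} (χ i)) (M : C),
    P M → pol φ (∏ i ∈ s, χ i) M = 0 → Wd (Lt (Sm φ c P) Set.univ) M := by
  classical
  induction s using Finset.induction_on with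
  | empty =>
    intro _ M hM h0
    rw [Finset.prod_empty, pol_one] at h0
    exact .zero ((IsZero.iff_id_eq_zero _).2 h0)
  | insert a s ha ih =>
    intro hχ M hM h0
    have hF := hχ a (Finset.mem_insert_self _ _)
    have hG := WtPol.prod (c := c) (fun i hi => hχ i (Finset.mem_insert_of_mem (s := s) (a := i) hi))
    rw [Finset.prod_insert ha] at h0
    generalize χ a = F at hF h0
    generalize hGG : (∏ i ∈ s, χ i) = G at hG h0
    obtain ⟨u, v, huv⟩ := hF.coprime hc hc1 (W' := (s : Set ℤ)) (by simpa using ha) hG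
    have hsum : pol φ (u * F) M + pol φ (v * G) M = 𝟙 M := by rw [← pol_add, huv, pol_one]
    have hz : ∀ g : ℚ[X], pol φ (g * (F * G)) M = 0 := by
      intro g
      rw [pol_mul, h0, comp_zero]
    have h12 : pol φ (u * F) M ≫ pol φ (v * G) M = 0 := by
      rw [← pol_mul, show u * F * (v * G) = (u * v) * (F * G) by ring, hz]
    have h21 : pol φ (v * G) M ≫ pol φ (u * F) M = 0 := by
      rw [← pol_mul, show v * G * (u * F) = (u * v) * (F * G) by ring, hz]
    have h11 : pol φ (u * F) M ≫ pol φ (u * F) M = pol φ (u * F) M := by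
      have := congrArg (fun f => pol φ (u * F) M ≫ f) hsum
      simpa [Preadditive.comp_add, h12] using this
    have h22 : pol φ (v * G) M ≫ pol φ (v * G) M = pol φ (v * G) M := by
      have := congrArg (fun f => pol φ (v * G) M ≫ f) hsum
      simpa [Preadditive.comp_add, h21] using this
    obtain ⟨Y, i, p, hip, hpi⟩ := IsIdempotentComplete.idempotents_split M _ h11
    obtain ⟨Y', i', p', hip', hpi'⟩ := IsIdempotentComplete.idempotents_split M _ h22
    have hY : P Y := ObjectProperty.prop_of_retract P ⟨i, p, hip⟩ hM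
    have hY' : P Y' := ObjectProperty.prop_of_retract P ⟨i', p', hip'⟩ hM
    have hi : i ≫ pol φ (u * F) M = i := by rw [← hpi, ← Category.assoc, hip, Category.id_comp]
    have hi' : i' ≫ pol φ (v * G) M = i' := by
      rw [← hpi', ← Category.assoc, hip', Category.id_comp]
    have hYG : pol φ G Y = 0 := by
      have h1 : pol φ G Y ≫ i = 0 := by
        rw [pol_natural, ← hi, Category.assoc, ← pol_mul, show u * F * G = u * (F * G) by ring, hz,
          comp_zero]
      rw [← Category.comp_id (pol φ G Y), ← hip, ← Category.assoc, h1, zero_comp]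
    have hYF : pol φ F Y' = 0 := by
      have h1 : pol φ F Y' ≫ i' = 0 := by
        rw [pol_natural, ← hi', Category.assoc, ← pol_mul, show v * G * F = v * (F * G) by ring, hz,
          comp_zero]
      rw [← Category.comp_id (pol φ F Y'), ← hip', ← Category.assoc, h1, zero_comp]
    have hcr : i' ≫ p = 0 := by
      have h1 : i' ≫ p ≫ i = 0 := by
        rw [hpi, ← hi', Category.assoc, h21, comp_zero]
      rw [← Category.comp_id (i' ≫ p), ← hip, Category.assoc, ← Category.assoc p, ← Category.assoc i',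
        h1, zero_comp]
    have hcr' : i ≫ p' = 0 := by
      have h1 : i ≫ p' ≫ i' = 0 := by
        rw [hpi', ← hi, Category.assoc, h12, comp_zero]
      rw [← Category.comp_id (i ≫ p'), ← hip', Category.assoc, ← Category.assoc p', ← Category.assoc i,
        h1, zero_comp]
    let e : M ≅ Y' ⊞ Y :=
      { hom := biprod.lift p' p
        inv := biprod.desc i' i
        hom_inv_id := by
          rw [biprod.lift_desc, hpi, hpi', add_comm, hsum]
        inv_hom_id := by
          ext <;> simp [hip, hip', hcr, hcr'] }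
    refine .cons (A := Y') (B := Y) ⟨-a, Set.mem_univ _, a, ?_, ?_⟩
      ((ET.sum Y' Y).iso (Iso.refl _) e.symm (Iso.refl _))
      (ih (fun j hj => hχ j (Finset.mem_insert_of_mem hj)) Y hY (by rw [hGG, hYG]))
    · exact ObjectProperty.prop_of_iso P
        ((shiftFunctorCompIsoId C (- -a) (-a) (by ring)).app Y').symm hY'
    · exact WtObj.shift hφ ⟨F, hF, hYF⟩ _

end

section

variable {C : Type u} [Category.{v} C] [Preadditive C] [HasZeroObject C] [HasShift C ℤ]
  [∀ n : ℤ, (shiftFunctor C n).Additive] [Pretriangulated C] [MonoidalCategory C]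
  [SymmetricCategory C] [TensorTriangulated C] [MonoidalPreadditive C] [Linear ℚ C]
  [RightRigidCategory C]
  {φ : 𝟭 C ⟶ 𝟭 C} {c : ℝ} {E : Type w} [Field E] {R : Realisation C E}
  (hφ : ∀ (M : C) (n : ℤ), φ.app (M⟦n⟧) = (φ.app M)⟦n⟧') (hc : 0 < c) (hc1 : c ≠ 1)

lemma Weil.retract {M N : C} (hM : Weil φ c R M) (i : N ⟶ M) (r : M ⟶ N) (hir : i ≫ r = 𝟙 _) :
    Weil φ c R N := by
  intro n
  obtain ⟨χ, h1, h2⟩ := hM n
  refine ⟨χ, h1, ?_⟩
  have h3 : pol φ χ N = i ≫ pol φ χ M ≫ r := by
    rw [pol_natural, ← Category.assoc, hir, Category.id_comp]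
  rw [h3, Functor.map_comp, Functor.map_comp, Functor.map_comp, Functor.map_comp, h2, zero_comp,
    comp_zero]

include hc hc1 in
/-- An object of weight `a` has realisation in degree `a`. -/
lemma deg_of_weight {M : C} {a : ℤ} (h : WtObj φ c {a} M) (hM : Weil φ c R M) : R.Deg M a := by
  intro j hj
  obtain ⟨χ, h1, h2⟩ := h
  obtain ⟨ψ, h3, h4⟩ := hM j
  obtain ⟨u, v, huv⟩ := h1.coprime hc hc1 (by simpa using hj.symm) h3
  rw [IsZero.iff_id_eq_zero, ← CategoryTheory.Functor.map_id, ← CategoryTheory.Functor.map_id,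
    ← pol_one φ, ← huv, pol_add, pol_mul, pol_mul, h2, comp_zero, zero_add, Functor.map_comp,
    Functor.map_comp, h4, comp_zero]

variable (hEnd : ∀ e : 𝟙_ C ⟶ 𝟙_ C, ∃ q : ℚ, e = q • 𝟙 _)

include hEnd

/-- An object with a perfect pairing and realisation in degree `a` has weight `a`. -/
lemma weight_of_deg {M : C} (hnd : ∀ s : 𝟙_ C ⟶ M ⊗ Mᘁ, s ≠ 0 → ∃ r : M ⊗ Mᘁ ⟶ 𝟙_ C, s ≫ r ≠ 0)
    {a : ℤ} (h : R.Deg M a) (hM : Weil φ c R M) : WtObj φ c {a} M := by
  obtain ⟨χ, h1, h2⟩ := hM a
  refine ⟨χ, h1, faithful_of_pairing hEnd R hnd _ fun i => ?_⟩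
  by_cases hi : i = a
  · subst hi
    exact h2
  · exact (h i hi).eq_of_src _ _

/-- An object with a perfect pairing is killed by a product of polynomials of different weights. -/
lemma pol_of_pairing {M : C}
    (hnd : ∀ s : 𝟙_ C ⟶ M ⊗ Mᘁ, s ≠ 0 → ∃ r : M ⊗ Mᘁ ⟶ 𝟙_ C, s ≫ r ≠ 0)
    (hM : Weil φ c R M) : ∃ (s : Finset ℤ) (χ : ℤ → ℚ[X]), (∀ i ∈ s, WtPol c {i} (χ i)) ∧
      pol φ (∏ i ∈ s, χ i) M = 0 := by
  classical
  obtain ⟨N, hN⟩ := R.bounded M
  choose χ h1 h2 using hM
  refine ⟨Finset.Icc (-(N : ℤ)) N, χ, fun i _ => h1 i, faithful_of_pairing hEnd R hnd _ fun i => ?_⟩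
  by_cases hi : i ∈ Finset.Icc (-(N : ℤ)) N
  · rw [← Finset.prod_erase_mul _ _ hi, pol_mul, Functor.map_comp, Functor.map_comp, h2, comp_zero]
  · refine (hN i ?_).eq_of_src _ _
    rw [Finset.mem_Icc] at hi
    omega

end

end Pool.Agent.Y116.MT
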