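import Mathlib

/-!
# Tensor triangulated categories with realisations, and motivic t-structures

The definitions used in the statements about the category of constructible Voevodsky motives.
-/

set_option autoImplicit false

open CategoryTheory Limits MonoidalCategory Pretriangulated Triangulated

namespace Pool.Agent.Y116.MT

universe v u w

section

variable (C : Type u) [Category.{v} C] [Preadditive C] [HasZeroObject C] [HasShift C ℤ]
  [∀ n : ℤ, (shiftFunctor C n).Additive] [Pretriangulated C] [MonoidalCategory C]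
  [SymmetricCategory C]

/-- A tensor triangulated category: the functors `X ⊗ -` are triangulated, naturally in `X`, and
the symmetry of `𝟙⟦1⟧ ⊗ 𝟙⟦1⟧` is `-1`. -/
class TensorTriangulated where
  commShift (X : C) : (tensorLeft X).CommShift ℤ
  natural {X Y : C} (f : X ⟶ Y) : NatTrans.CommShift ((tensoringLeft C).map f) ℤ
  exact (X : C) : (tensorLeft X).IsTriangulated
  sign : (β_ ((𝟙_ C)⟦(1 : ℤ)⟧) ((𝟙_ C)⟦(1 : ℤ)⟧)).hom = -𝟙 _

end

attribute [instance] TensorTriangulated.commShift TensorTriangulated.natural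
  TensorTriangulated.exact

section

variable {C : Type u} [Category.{v} C] [Preadditive C] [HasZeroObject C] [HasShift C ℤ]
  [∀ n : ℤ, (shiftFunctor C n).Additive] [Pretriangulated C] [MonoidalCategory C]
  [SymmetricCategory C] [TensorTriangulated C]

/-- The canonical isomorphism `X ⊗ Y⟦n⟧ ≅ (X ⊗ Y)⟦n⟧`. -/
noncomputable def rShift (X Y : C) (n : ℤ) : X ⊗ Y⟦n⟧ ≅ (X ⊗ Y)⟦n⟧ :=
  ((tensorLeft X).commShiftIso n).app Y

/-- The canonical isomorphism `X⟦n⟧ ⊗ Y ≅ (X ⊗ Y)⟦n⟧`. -/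
noncomputable def lShift (X Y : C) (n : ℤ) : X⟦n⟧ ⊗ Y ≅ (X ⊗ Y)⟦n⟧ :=
  β_ (X⟦n⟧) Y ≪≫ rShift Y X n ≪≫ (shiftFunctor C n).mapIso (β_ Y X)

/-- The canonical isomorphism `X⟦i⟧ ⊗ Y⟦-i⟧ ≅ X ⊗ Y`. -/
noncomputable def shiftTensorIso (X Y : C) (i : ℤ) : X⟦i⟧ ⊗ Y⟦-i⟧ ≅ X ⊗ Y :=
  rShift (X⟦i⟧) Y (-i) ≪≫ (shiftFunctor C (-i)).mapIso (lShift X Y i) ≪≫
    shiftShiftNeg (X ⊗ Y) i

/-- The Künneth map `⨁ i, H(X⟦i⟧) ⊗ H(Y⟦-i⟧) ⟶ H(X ⊗ Y)` of a lax monoidal functor `H`. -/
noncomputable def kunnethMap {E : Type w} [Field E] (H : C ⥤ ModuleCat.{w} E) [H.LaxMonoidal]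
    (X Y : C) :
    DirectSum ℤ (fun i : ℤ => (H.obj (X⟦i⟧) ⊗ H.obj (Y⟦-i⟧) : ModuleCat.{w} E)) →ₗ[E]
      H.obj (X ⊗ Y) :=
  DirectSum.toModule E ℤ _ fun i : ℤ =>
    (Functor.LaxMonoidal.μ H (X⟦i⟧) (Y⟦-i⟧) ≫ H.map (shiftTensorIso X Y i).hom).hom

variable (C) in
/-- A realisation of a tensor triangulated category `C` with coefficients in a field `E`: a
tensor cohomology theory. The functor `H` is the zeroth cohomology of the realisation, so that
`H^i(X) = H(X⟦i⟧)`. It is homological, lax symmetric monoidal, with finite dimensional values,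
only finitely many of the `H(X⟦i⟧)` are nonzero, and the Künneth formula holds. -/
structure Realisation (E : Type w) [Field E] where
  /-- the zeroth cohomology -/
  H : C ⥤ ModuleCat.{w} E
  [additive : H.Additive]
  [homological : H.IsHomological]
  [lax : H.LaxBraided]
  unit : IsIso (Functor.LaxMonoidal.ε H)
  finite (X : C) : Module.Finite E (H.obj X)
  bounded (X : C) : ∃ N : ℕ, ∀ i : ℤ, N < i.natAbs → IsZero (H.obj (X⟦i⟧))
  kunneth (X Y : C) : Function.Bijective (kunnethMap H X Y)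

attribute [instance] Realisation.additive Realisation.homological Realisation.lax
  Realisation.unit Realisation.finite

/-- A t-structure is motivic for the realisations `R l` if it is non-degenerate, compatible with
the tensor product, and all `R l` are t-exact. -/
structure IsMotivic (t : TStructure C) {Λ : Type*} {E : Λ → Type w} [∀ l, Field (E l)]
    (R : ∀ l, Realisation C (E l)) : Prop where
  nondeg_le (X : C) : (∀ n : ℤ, t.le n X) → IsZero X
  nondeg_ge (X : C) : (∀ n : ℤ, t.ge n X) → IsZero X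
  tensor_le (X Y : C) : t.le 0 X → t.le 0 Y → t.le 0 (X ⊗ Y)
  tensor_ge (X Y : C) : t.ge 0 X → t.ge 0 Y → t.ge 0 (X ⊗ Y)
  exact_le (l : Λ) (X : C) : t.le 0 X → ∀ i : ℤ, 0 < i → IsZero ((R l).H.obj (X⟦i⟧))
  exact_ge (l : Λ) (X : C) : t.ge 0 X → ∀ i : ℤ, i < 0 → IsZero ((R l).H.obj (X⟦i⟧))

end

end Pool.Agent.Y116.MT
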