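import Pool.Agent.Y116.MT.Faith

/-!
# The realisation of a dual
-/

set_option autoImplicit false
set_option linter.unusedSectionVars false
set_option linter.unusedSimpArgs false
set_option backward.isDefEq.respectTransparency false
set_option backward.defeqAttrib.useBackward true

open CategoryTheory Limits MonoidalCategory Pretriangulated Triangulated

namespace Pool.Agent.Y116.MT

universe v u w

open Functor.LaxMonoidal

section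

variable {C : Type u} [Category.{v} C] [Preadditive C] [HasZeroObject C] [HasShift C ℤ]
  [∀ n : ℤ, (shiftFunctor C n).Additive] [Pretriangulated C] [MonoidalCategory C]
  [SymmetricCategory C] [TensorTriangulated C] [MonoidalPreadditive C] [RightRigidCategory C]
  {E : Type w} [Field E] {R : Realisation C E}

lemma Realisation.Deg.isIso_mu' {X : C} (h : R.Deg X 0) (Y : C) : IsIso (μ R.H Y X) := by
  have h1 := h.isIso_mu Y
  have h2 : (β_ (R.H.obj X) (R.H.obj Y)).hom ≫ μ R.H Y X = μ R.H X Y ≫ R.H.map (β_ X Y).hom :=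
    (Functor.LaxBraided.braided X Y).symm
  have h3 : IsIso ((β_ (R.H.obj X) (R.H.obj Y)).hom ≫ μ R.H Y X) := by
    rw [h2]
    infer_instance
  exact IsIso.of_isIso_comp_left (β_ (R.H.obj X) (R.H.obj Y)).hom _

/-- The dual of an object in degree zero preserves vanishing. -/
lemma dual_tensor_zero {X : C} (h : R.Deg X 0) {Z : C} (hZ : IsZero (R.H.obj Z)) :
    IsZero (R.H.obj (Xᘁ ⊗ Z)) := by
  let _ : ExactPairing (Xᘁ) X := BraidedCategory.exactPairing_swap X Xᘁ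
  obtain ⟨g, hg⟩ : ∃ g : X ⊗ (Xᘁ ⊗ Z) ⟶ Z, 𝟙 (Xᘁ ⊗ Z) =
      (λ_ _).inv ≫ (η_ ((Xᘁ : C)) X ▷ ((Xᘁ : C) ⊗ Z)) ≫ (α_ (Xᘁ : C) X ((Xᘁ : C) ⊗ Z)).hom ≫ (Xᘁ : C) ◁ g :=
    ⟨(tensorLeftHomEquiv (Xᘁ ⊗ Z) (Xᘁ) X Z).symm (𝟙 _),
      ((tensorLeftHomEquiv (Xᘁ ⊗ Z) (Xᘁ) X Z).apply_symm_apply (𝟙 _)).symm⟩
  have h0 := h.isIso_mu' Xᘁ
  have h1 := (deg_unit (R := R)).isIso_mu (Xᘁ ⊗ Z)
  have hgz : μ R.H X (Xᘁ ⊗ Z) ≫ R.H.map g = 0 := hZ.eq_of_tgt _ _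
  have key : R.H.map (η_ (Xᘁ) X ▷ (Xᘁ ⊗ Z)) ≫ R.H.map (α_ Xᘁ X (Xᘁ ⊗ Z)).hom ≫
      R.H.map (Xᘁ ◁ g) = 0 := by
    have h2 : R.H.map (η_ (Xᘁ) X) = (R.H.map (η_ (Xᘁ) X) ≫ inv (μ R.H Xᘁ X)) ≫ μ R.H Xᘁ X := by
      rw [Category.assoc, IsIso.inv_hom_id, Category.comp_id]
    have h5 := Functor.LaxMonoidal.associativity (F := R.H) Xᘁ X (Xᘁ ⊗ Z)
    have h6 : R.H.obj Xᘁ ◁ (μ R.H X (Xᘁ ⊗ Z) ≫ R.H.map g) = 0 := by
      rw [hgz]
      exact (tensorLeft _).map_zero _ _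
    rw [← cancel_epi (μ R.H (𝟙_ C) (Xᘁ ⊗ Z)), comp_zero, ← μ_natural_left_assoc, h2,
      comp_whiskerRight, Category.assoc, reassoc_of% h5, ← μ_natural_right,
      ← MonoidalCategory.whiskerLeft_comp_assoc, h6, zero_comp, comp_zero, comp_zero]
  rw [IsZero.iff_id_eq_zero, ← CategoryTheory.Functor.map_id, hg, Functor.map_comp,
    Functor.map_comp, Functor.map_comp, key, comp_zero]

lemma dualShift (X : C) (n : ℤ) : Nonempty ((X⟦n⟧)ᘁ ≅ (Xᘁ)⟦-n⟧) := by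
  let e : tensorRight (X⟦n⟧) ≅ tensorRight X ⋙ shiftFunctor C n :=
    NatIso.ofComponents (fun Y => rShift Y X n) (fun {Y Y'} f => rShift_natural_left f X n)
  let adj1 : tensorRight (X⟦n⟧) ⊣ tensorRight ((X⟦n⟧)ᘁ) := tensorRightAdjunction _ _
  let adj2 : tensorRight X ⋙ shiftFunctor C n ⊣ shiftFunctor C (-n) ⋙ tensorRight (Xᘁ) :=
    (tensorRightAdjunction X (Xᘁ)).comp (shiftEquiv C n).toAdjunction
  let e' : tensorRight ((X⟦n⟧)ᘁ) ≅ shiftFunctor C (-n) ⋙ tensorRight (Xᘁ) :=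
    Adjunction.rightAdjointUniq adj1 (adj2.ofNatIsoLeft e.symm)
  exact ⟨(λ_ _).symm ≪≫ e'.app (𝟙_ C) ≪≫ lShift (𝟙_ C) Xᘁ (-n) ≪≫
    (shiftFunctor C (-n)).mapIso (λ_ _)⟩

/-- The dual of an object in degree `a` is in degree `-a`. -/
theorem deg_dual {X : C} {a : ℤ} (h : R.Deg X a) : R.Deg (Xᘁ) (-a) := by
  have h1 : R.Deg (X⟦a⟧) 0 := h.shift a 0 (by ring)
  have h2 : R.Deg ((X⟦a⟧)ᘁ) 0 := by
    intro j hj
    have h3 := dual_tensor_zero h1 (Z := (𝟙_ C)⟦j⟧) (deg_unit j hj)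
    exact h3.of_iso (R.H.mapIso ((shiftFunctor C j).mapIso (ρ_ _).symm ≪≫ (rShift _ _ j).symm))
  obtain ⟨e⟩ := dualShift X a
  have h4 := (h2.iso e).shift a (-a) (by ring)
  exact h4.iso ((shiftFunctorCompIsoId C (-a) a (by ring)).app _)

end

end Pool.Agent.Y116.MT
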