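import Pool.Agent.Y116.MT.Tri

/-!
# Extensions and words in a triangulated category
-/

set_option autoImplicit false
set_option linter.unusedSectionVars false
set_option linter.unusedSimpArgs false
set_option backward.isDefEq.respectTransparency false
set_option backward.defeqAttrib.useBackward true

open CategoryTheory Limits Pretriangulated Triangulated ZeroObject

namespace Pool.Agent.Y116.MT

universe v u w

section

variable {C : Type u} [Category.{v} C] [Preadditive C] [HasZeroObject C] [HasShift C ℤ]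
  [∀ n : ℤ, (shiftFunctor C n).Additive] [Pretriangulated C]

/-- There is a distinguished triangle `A ⟶ X ⟶ B ⟶ A⟦1⟧`. -/
def ET (A X B : C) : Prop :=
  ∃ (f : A ⟶ X) (g : X ⟶ B) (h : B ⟶ A⟦(1 : ℤ)⟧), Triangle.mk f g h ∈ distTriang C

lemma ET.of {A X B : C} {f : A ⟶ X} {g : X ⟶ B} {h : B ⟶ A⟦(1 : ℤ)⟧}
    (hT : Triangle.mk f g h ∈ distTriang C) : ET A X B := ⟨f, g, h, hT⟩

lemma ET.iso {A X B A' X' B' : C} (h : ET A X B) (a : A ≅ A') (x : X ≅ X') (b : B ≅ B') :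
    ET A' X' B' := by
  obtain ⟨f, g, h, hT⟩ := h
  refine ⟨a.inv ≫ f ≫ x.hom, x.inv ≫ g ≫ b.hom, b.inv ≫ h ≫ a.hom⟦1⟧', ?_⟩
  refine isomorphic_distinguished _ hT _ ?_
  refine Triangle.isoMk _ _ a.symm x.symm b.symm ?_ ?_ ?_
  · simp
  · simp
  · simp only [Triangle.mk_mor₃, Iso.symm_hom, Category.assoc, ← Functor.map_comp,
      Iso.hom_inv_id, CategoryTheory.Functor.map_id, Category.comp_id]

lemma ET.rot {A X B : C} (h : ET A X B) : ET X B (A⟦(1 : ℤ)⟧) := by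
  obtain ⟨f, g, h, hT⟩ := h
  exact ⟨_, _, _, rotD hT⟩

lemma ET.shift {A X B : C} (h : ET A X B) (n : ℤ) : ET (A⟦n⟧) (X⟦n⟧) (B⟦n⟧) := by
  obtain ⟨f, g, h, hT⟩ := h
  exact ⟨_, _, _, Triangle.shift_distinguished _ hT n⟩

lemma ET.inv {A X B : C} (h : ET A X B) : ET (B⟦(-1 : ℤ)⟧) A X := by
  obtain ⟨f, g, h, hT⟩ := h
  have h1 : ET X B (A⟦(1 : ℤ)⟧) := ⟨_, _, _, rotD hT⟩
  have h2 := (h1.rot).shift (-1)
  exact h2.iso (Iso.refl _) ((shiftFunctorCompIsoId C (1 : ℤ) (-1) (by norm_num)).app A)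
    ((shiftFunctorCompIsoId C (1 : ℤ) (-1) (by norm_num)).app X)

lemma ET.left {A X B : C} (h : ET A X B) (hA : IsZero A) : Nonempty (X ≅ B) := by
  obtain ⟨f, g, h, hT⟩ := h
  have := isIso2_of_isZero1 hT hA
  exact ⟨asIso g⟩

lemma ET.right {A X B : C} (h : ET A X B) (hB : IsZero B) : Nonempty (A ≅ X) := by
  obtain ⟨f, g, h, hT⟩ := h
  have := isIso1_of_isZero3 hT hB
  exact ⟨asIso f⟩

lemma ET.mid {A X B : C} (h : ET A X B) (hA : IsZero A) (hB : IsZero B) : IsZero X := by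
  obtain ⟨e⟩ := h.left hA
  exact hB.of_iso e

lemma ET.zeroRight {X Z : C} (hZ : IsZero Z) : ET X X Z :=
  (ET.of (contractible_distinguished X)).iso (Iso.refl _) (Iso.refl _)
    ((isZero_zero C).iso hZ)

lemma ET.zeroLeft {X Z : C} (hZ : IsZero Z) : ET Z X X :=
  (ET.of (contractible_distinguished₁ X)).iso ((isZero_zero C).iso hZ) (Iso.refl _) (Iso.refl _)

lemma ET.sum (A B : C) : ET A (A ⊞ B) B := ⟨_, _, _, binaryBiproductTriangle_distinguished A B⟩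

lemma ET.comm {A X B : C} {f : A ⟶ X} {g : X ⟶ B} {h : B ⟶ A⟦(1 : ℤ)⟧}
    (hT : Triangle.mk f g h ∈ distTriang C) (h0 : h = 0) : ET B X A := by
  obtain ⟨e, _⟩ := exists_iso_binaryBiproduct_of_distTriang _ hT h0
  exact (ET.sum B A).iso (Iso.refl _) ((biprod.braiding B A).trans e.symm) (Iso.refl _)

variable [IsTriangulated C]

lemma ET.assocL {A X B A' B' : C} (h : ET A X B) (h' : ET A' A B') :
    ∃ Y, ET A' X Y ∧ ET B' Y B := by
  have h1 : ObjectProperty.extensionProduct (ObjectProperty.extensionProduct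
      (fun Z => Z = A') (fun Z => Z = B')) (fun Z => Z = B) X := by
    obtain ⟨f, g, k, hT⟩ := h
    obtain ⟨f', g', k', hT'⟩ := h'
    exact ⟨_, _, _, _, _, hT, ⟨_, _, _, _, _, hT', rfl, rfl⟩, rfl⟩
  rw [ObjectProperty.extensionProduct_assoc] at h1
  obtain ⟨A₁, Y, f, g, k, hT, rfl, B₁, B₂, f', g', k', hT', rfl, rfl⟩ := h1
  exact ⟨Y, ⟨_, _, _, hT⟩, ⟨_, _, _, hT'⟩⟩

lemma ET.assocR {A X B A' B' : C} (h : ET A X B) (h' : ET A' B B') :
    ∃ Y, ET A Y A' ∧ ET Y X B' := by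
  have h1 : ObjectProperty.extensionProduct (fun Z => Z = A) (ObjectProperty.extensionProduct
      (fun Z => Z = A') (fun Z => Z = B')) X := by
    obtain ⟨f, g, k, hT⟩ := h
    obtain ⟨f', g', k', hT'⟩ := h'
    exact ⟨_, _, _, _, _, hT, rfl, ⟨_, _, _, _, _, hT', rfl, rfl⟩⟩
  rw [← ObjectProperty.extensionProduct_assoc] at h1
  obtain ⟨Y, B₁, f, g, k, hT, ⟨A₁, B₂, f', g', k', hT', rfl, rfl⟩, rfl⟩ := h1
  exact ⟨Y, ⟨_, _, _, hT'⟩, ⟨_, _, _, hT⟩⟩

end

section Words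

variable {C : Type u} [Category.{v} C] [Preadditive C] [HasZeroObject C] [HasShift C ℤ]
  [∀ n : ℤ, (shiftFunctor C n).Additive] [Pretriangulated C]

/-- The closure under extensions of a class of objects. -/
inductive Wd (L : ObjectProperty C) : C → Prop
  | zero {X : C} (h : IsZero X) : Wd L X
  | cons {A X B : C} (hA : L A) (hT : ET A X B) (hB : Wd L B) : Wd L X

variable {L L' : ObjectProperty C}

lemma Wd.iso {X Y : C} (h : Wd L X) (e : X ≅ Y) : Wd L Y := by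
  cases h with
  | zero h => exact .zero (h.of_iso e.symm)
  | cons hA hT hB => exact .cons hA (hT.iso (Iso.refl _) e (Iso.refl _)) hB

lemma Wd.mono (hL : L ≤ L') {X : C} (h : Wd L X) : Wd L' X := by
  induction h with
  | zero h => exact .zero h
  | cons hA hT _ ih => exact .cons (hL _ hA) hT ih

lemma Wd.single {X : C} (h : L X) : Wd L X :=
  .cons h (ET.zeroRight (isZero_zero C)) (.zero (isZero_zero C))

lemma Wd.dev (Q : ObjectProperty C) (h0 : ∀ X, IsZero X → Q X) (hL : ∀ X, L X → Q X)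
    (hQ : ∀ A X B, ET A X B → Q A → Q B → Q X) {X : C} (h : Wd L X) : Q X := by
  induction h with
  | zero h => exact h0 _ h
  | cons hA hT _ ih => exact hQ _ _ _ hT (hL _ hA) ih

lemma Wd.ext [IsTriangulated C] {X Z : C} (hX : Wd L X) (hZ : Wd L Z) :
    ∀ {Y : C}, ET X Y Z → Wd L Y := by
  induction hX with
  | zero h =>
    intro Y hY
    obtain ⟨e⟩ := hY.left h
    exact hZ.iso e.symm
  | cons hA hT _ ih =>
    intro Y hY
    obtain ⟨Y', h1, h2⟩ := hY.assocL hT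
    exact .cons hA h1 (ih h2)

lemma Wd.shift (n : ℤ) (hL : ∀ X, L X → L' (X⟦n⟧)) {X : C} (h : Wd L X) : Wd L' (X⟦n⟧) := by
  induction h with
  | zero h => exact .zero ((shiftFunctor C n).map_isZero h)
  | cons hA hT _ ih => exact .cons (hL _ hA) (hT.shift n) ih

lemma Wd.hom_left {Y : C} (hL : ∀ A, L A → ∀ f : A ⟶ Y, f = 0) {X : C} (h : Wd L X)
    (f : X ⟶ Y) : f = 0 := by
  induction h with
  | zero h => exact h.eq_of_src _ _
  | cons hA hT _ ih =>
    obtain ⟨a, b, c, hT⟩ := hT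
    obtain ⟨l, hl⟩ := ye2 hT f (hL _ hA _)
    rw [hl, ih l, comp_zero]

lemma Wd.hom_right {X : C} (hL : ∀ A, L A → ∀ f : X ⟶ A, f = 0) {Y : C} (h : Wd L Y)
    (f : X ⟶ Y) : f = 0 := by
  induction h with
  | zero h => exact h.eq_of_tgt _ _
  | cons hA hT _ ih =>
    obtain ⟨a, b, c, hT⟩ := hT
    obtain ⟨l, hl⟩ := ce2 hT f (ih _)
    rw [hl, hL _ hA l, zero_comp]

variable [IsTriangulated C] {Lo Hi : ObjectProperty C}
  (hsw : ∀ A X B, Lo A → Hi B → ET A X B → ∃ K Q, Hi K ∧ Lo Q ∧ ET K X Q)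

include hsw

/-- Move one low letter to the right of a high word. -/
lemma sort_one {B : C} (hB : Wd Hi B) : ∀ {A X : C}, Lo A → ET A X B →
    ∃ K Q, Wd Hi K ∧ Wd Lo Q ∧ ET K X Q := by
  induction hB with
  | zero h =>
    intro A X hA hT
    obtain ⟨e⟩ := hT.right h
    exact ⟨0, X, .zero (isZero_zero C), (Wd.single hA).iso e, ET.zeroLeft (isZero_zero C)⟩
  | cons hA' hT' _ ih =>
    intro A X hA hT
    obtain ⟨X'', h1, h2⟩ := hT.assocR hT'
    obtain ⟨K, Q, hK, hQ, h3⟩ := hsw _ _ _ hA hA' h1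
    obtain ⟨Y, h4, h5⟩ := h2.assocL h3
    obtain ⟨A1, B1, hA1, hB1, h6⟩ := ih hQ h5
    obtain ⟨Z, h7, h8⟩ := h4.assocR h6
    exact ⟨Z, B1, Wd.ext (Wd.single hK) hA1 h7, hB1, h8⟩

/-- Sort an extension of a low word by a high word. -/
lemma sort_two {A : C} (hA : Wd Lo A) : ∀ {B X : C}, Wd Hi B → ET A X B →
    ∃ K Q, Wd Hi K ∧ Wd Lo Q ∧ ET K X Q := by
  induction hA with
  | zero h =>
    intro B X hB hT
    obtain ⟨e⟩ := hT.left h
    exact ⟨X, 0, hB.iso e.symm, .zero (isZero_zero C), ET.zeroRight (isZero_zero C)⟩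
  | cons hA' hT' _ ih =>
    intro B X hB hT
    obtain ⟨Y, h1, h2⟩ := hT.assocL hT'
    obtain ⟨K, Q, hK, hQ, h3⟩ := ih hB h2
    obtain ⟨Z, h4, h5⟩ := h1.assocR h3
    obtain ⟨K', Q', hK', hQ', h6⟩ := sort_one hsw hK hA' h4
    obtain ⟨W, h7, h8⟩ := h5.assocL h6
    exact ⟨K', W, hK', Wd.ext hQ' hQ h8, h7⟩

/-- Sort a word. -/
lemma sort_word {X : C} (hX : Wd (fun A => Lo A ∨ Hi A) X) :
    ∃ K Q, Wd Hi K ∧ Wd Lo Q ∧ ET K X Q := by
  induction hX with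
  | zero h => exact ⟨0, 0, .zero (isZero_zero C), .zero (isZero_zero C),
      (ET.zeroLeft (isZero_zero C)).iso (Iso.refl _) (h.iso (isZero_zero C)).symm (Iso.refl _)⟩
  | cons hA hT _ ih =>
    obtain ⟨K, Q, hK, hQ, h1⟩ := ih
    obtain ⟨Y, h2, h3⟩ := hT.assocR h1
    rcases hA with hA | hA
    · obtain ⟨K', Q', hK', hQ', h4⟩ := sort_one hsw hK hA h2
      obtain ⟨W, h5, h6⟩ := h3.assocL h4
      exact ⟨K', W, hK', Wd.ext hQ' hQ h6, h5⟩
    · exact ⟨Y, Q, Wd.ext (Wd.single hA) hK h2, hQ, h3⟩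

end Words

end Pool.Agent.Y116.MT
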