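import Pool.Agent.Y116.MT.Reg

/-!
# Faithfulness on objects with a perfect pairing
-/

set_option autoImplicit false
set_option linter.unusedSectionVars false
set_option linter.unusedSimpArgs false
set_option backward.isDefEq.respectTransparency false
set_option backward.defeqAttrib.useBackward true

open CategoryTheory Limits MonoidalCategory Pretriangulated Triangulated

namespace Pool.Agent.Y116.MT

universe v u w

open Functor.LaxMonoidal

section

variable {C : Type u} [Category.{v} C] [Preadditive C] [HasZeroObject C] [HasShift C ℤ]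
  [∀ n : ℤ, (shiftFunctor C n).Additive] [Pretriangulated C] [MonoidalCategory C]
  [SymmetricCategory C] [TensorTriangulated C]

lemma lShift_natural_left {X X' : C} (f : X ⟶ X') (Y : C) (n : ℤ) :
    f⟦n⟧' ▷ Y ≫ (lShift X' Y n).hom = (lShift X Y n).hom ≫ (f ▷ Y)⟦n⟧' := by
  simp only [lShift, Iso.trans_hom, Functor.mapIso_hom, Category.assoc]
  rw [BraidedCategory.braiding_naturality_left_assoc, ← Category.assoc (Y ◁ _),
    rShift_natural_right, Category.assoc, ← Functor.map_comp, ← Functor.map_comp,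
    BraidedCategory.braiding_naturality_right]

lemma shiftTensorIso_natural_left {X X' : C} (f : X ⟶ X') (Y : C) (i : ℤ) :
    (f⟦i⟧' ▷ (Y⟦-i⟧)) ≫ (shiftTensorIso X' Y i).hom = (shiftTensorIso X Y i).hom ≫ (f ▷ Y) := by
  have h1 : (f ▷ Y)⟦i⟧'⟦-i⟧' ≫ (shiftShiftNeg (X' ⊗ Y) i).hom =
      (shiftShiftNeg (X ⊗ Y) i).hom ≫ (f ▷ Y) :=
    (shiftFunctorCompIsoId C i (-i) (by simp)).hom.naturality (f ▷ Y)
  simp only [shiftTensorIso, Iso.trans_hom, Functor.mapIso_hom, Category.assoc]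
  rw [← Category.assoc (f⟦i⟧' ▷ _), rShift_natural_left, Category.assoc, ← h1,
    ← Category.assoc ((f⟦i⟧' ▷ Y)⟦-i⟧'), ← Functor.map_comp, lShift_natural_left,
    Functor.map_comp, Category.assoc]

variable {E : Type w} [Field E] {R : Realisation C E}

/-- `H` vanishes on `f ▷ Y` if it vanishes on all shifts of `f`. -/
lemma map_whisker_zero' {X X' : C} (f : X ⟶ X') (hf : ∀ i : ℤ, R.H.map (f⟦i⟧') = 0) (Y : C) :
    R.H.map (f ▷ Y) = 0 := by
  have h0 : ∀ i : ℤ, (μ R.H (X⟦i⟧) (Y⟦-i⟧) ≫ R.H.map (shiftTensorIso X Y i).hom) ≫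
      R.H.map (f ▷ Y) = 0 := by
    intro i
    have h2 : (0 : R.H.obj (X⟦i⟧) ⟶ R.H.obj (X'⟦i⟧)) ▷ R.H.obj (Y⟦-i⟧) = 0 := by
      ext z
      change (TensorProduct.map (0 : R.H.obj (X⟦i⟧) →ₗ[E] R.H.obj (X'⟦i⟧)) LinearMap.id) z = 0
      rw [TensorProduct.map_zero_left]
      rfl
    rw [Category.assoc, ← Functor.map_comp, ← shiftTensorIso_natural_left, Functor.map_comp,
      ← μ_natural_left_assoc, hf, h2, zero_comp]
  have h1 : (R.H.map (f ▷ Y)).hom ∘ₗ kunnethMap R.H X Y = 0 := by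
    apply DirectSum.linearMap_ext
    intro i
    ext z
    have h3 := LinearMap.congr_fun (congrArg ModuleCat.Hom.hom (h0 i)) z
    simp only [kunnethMap, LinearMap.comp_apply, DirectSum.toModule_lof]
    exact h3
  ext z
  obtain ⟨y, rfl⟩ := (R.kunneth X Y).2 z
  exact LinearMap.congr_fun h1 y

variable [MonoidalPreadditive C] [Linear ℚ C] [RightRigidCategory C]
  (hEnd : ∀ e : 𝟙_ C ⟶ 𝟙_ C, ∃ q : ℚ, e = q • 𝟙 _)

include hEnd

lemma end_idem (e : 𝟙_ C ⟶ 𝟙_ C) (he : e ≫ e = e) : e = 0 ∨ e = 𝟙 _ := by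
  obtain ⟨q, rfl⟩ := hEnd e
  by_cases hq : q = 0
  · left
    rw [hq, zero_smul]
  · right
    have h1 : q • (q • 𝟙 (𝟙_ C)) = q • 𝟙 (𝟙_ C) := by
      rw [Linear.smul_comp, Linear.comp_smul, Category.comp_id] at he
      exact he
    have h2 := congrArg (fun f => q⁻¹ • f) h1
    simp only [smul_smul] at h2
    rwa [← mul_assoc, inv_mul_cancel₀ hq, one_mul, one_smul] at h2

/-- Faithfulness of the total realisation. -/
theorem faithful_of_pairing (R : Realisation C E) {X Y : C}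
    (hnd : ∀ s : 𝟙_ C ⟶ Y ⊗ Xᘁ, s ≠ 0 → ∃ r : Y ⊗ Xᘁ ⟶ 𝟙_ C, s ≫ r ≠ 0)
    (f : X ⟶ Y) (hf : ∀ i : ℤ, R.H.map (f⟦i⟧') = 0) : f = 0 := by
  have hE := charZero_of_real R
  apply eq_zero_of_nm
  by_contra hne
  obtain ⟨r, hr⟩ := hnd (nm f) hne
  have h1 : R.H.map (nm f ≫ r) = 0 := by
    rw [nm, Functor.map_comp, Functor.map_comp, map_whisker_zero' f hf, comp_zero, zero_comp]
  obtain ⟨q, hq⟩ := hEnd (nm f ≫ r)
  rw [hq, H_smul, CategoryTheory.Functor.map_id] at h1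
  have hq0 : q ≠ 0 := by
    rintro rfl
    rw [zero_smul] at hq
    exact hr hq
  apply not_isZero_H_unit R
  rw [IsZero.iff_id_eq_zero, ← one_smul E (𝟙 (R.H.obj (𝟙_ C))),
    ← inv_mul_cancel₀ (show (q : E) ≠ 0 by exact_mod_cast hq0), mul_smul, h1, smul_zero]

omit hEnd in
/-- The internal endomorphisms of a shift. -/
lemma shift_end (X : C) (n : ℤ) : Nonempty (X ⊗ Xᘁ ≅ (X⟦n⟧) ⊗ ((X⟦n⟧)ᘁ)) := by
  let e : tensorRight (X⟦n⟧) ≅ tensorRight X ⋙ shiftFunctor C n :=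
    NatIso.ofComponents (fun Y => rShift Y X n) (fun {Y Y'} f => rShift_natural_left f X n)
  let adj1 : tensorRight (X⟦n⟧) ⊣ tensorRight ((X⟦n⟧)ᘁ) := tensorRightAdjunction _ _
  let adj2 : tensorRight X ⋙ shiftFunctor C n ⊣ shiftFunctor C (-n) ⋙ tensorRight (Xᘁ) :=
    (tensorRightAdjunction X (Xᘁ)).comp (shiftEquiv C n).toAdjunction
  let e' : tensorRight ((X⟦n⟧)ᘁ) ≅ shiftFunctor C (-n) ⋙ tensorRight (Xᘁ) :=
    Adjunction.rightAdjointUniq adj1 (adj2.ofNatIsoLeft e.symm)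
  exact ⟨(e'.app (X⟦n⟧) ≪≫ whiskerRightIso (shiftShiftNeg X n) (Xᘁ)).symm⟩

end

end Pool.Agent.Y116.MT
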