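import Pool.Agent.Y116.MT.HomNum
import Pool.Agent.Y116.MT.Struct

/-!
# Polynomials in a natural endomorphism of the identity, and weights
-/

set_option autoImplicit false
set_option linter.unusedSectionVars false
set_option linter.unusedSimpArgs false
set_option backward.isDefEq.respectTransparency false
set_option backward.defeqAttrib.useBackward true

open CategoryTheory Limits MonoidalCategory Pretriangulated Triangulated
open scoped Polynomial

namespace Pool.Agent.Y116.MT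

universe v u w

section Pol

variable {C : Type u} [Category.{v} C] [Preadditive C] [Linear ℚ C] (φ : 𝟭 C ⟶ 𝟭 C)

lemma pol_mul (χ ψ : ℚ[X]) (M : C) : pol φ (χ * ψ) M = pol φ χ M ≫ pol φ ψ M := by
  rw [mul_comm]
  simp only [pol, map_mul, End.mul_def]

lemma pol_add (χ ψ : ℚ[X]) (M : C) : pol φ (χ + ψ) M = pol φ χ M + pol φ ψ M := by
  simp only [pol, map_add]

lemma pol_one (M : C) : pol φ 1 M = 𝟙 M := by
  simp only [pol, map_one]
  rfl

lemma pol_C (a : ℚ) (M : C) : pol φ (Polynomial.C a) M = a • 𝟙 M := by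
  simp only [pol, Polynomial.aeval_C]
  rw [Algebra.algebraMap_eq_smul_one]
  rfl

lemma pol_X (M : C) : pol φ Polynomial.X M = φ.app M := by
  simp only [pol, Polynomial.aeval_X]

lemma pol_natural (χ : ℚ[X]) {M N : C} (f : M ⟶ N) : pol φ χ M ≫ f = f ≫ pol φ χ N := by
  induction χ using Polynomial.induction_on with
  | C a => rw [pol_C, pol_C, Linear.smul_comp, Linear.comp_smul, Category.id_comp, Category.comp_id]
  | add p q hp hq => rw [pol_add, pol_add, Preadditive.add_comp, Preadditive.comp_add, hp, hq]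
  | monomial n a h =>
    have h1 : φ.app M ≫ f = f ≫ φ.app N := (φ.naturality f).symm
    rw [pow_succ, ← mul_assoc, pol_mul _ _ Polynomial.X, pol_mul _ _ Polynomial.X, pol_X, pol_X,
      Category.assoc, h1, ← Category.assoc, h, Category.assoc]

lemma pol_functor {D : Type*} [Category D] [Preadditive D] [Linear ℚ D] (ψ : 𝟭 D ⟶ 𝟭 D)
    (F : C ⥤ D) [F.Additive] (hF : ∀ X : C, ψ.app (F.obj X) = F.map (φ.app X)) (χ : ℚ[X]) (M : C) :
    pol ψ χ (F.obj M) = F.map (pol φ χ M) := by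
  induction χ using Polynomial.induction_on with
  | C a => rw [pol_C, pol_C, F.map_smul, F.map_id]
  | add p q hp hq => rw [pol_add, pol_add, F.map_add, hp, hq]
  | monomial n a h =>
    rw [pow_succ, ← mul_assoc, pol_mul _ _ Polynomial.X, pol_mul _ _ Polynomial.X, pol_X, pol_X,
      h, F.map_comp, hF]

end Pol

section Weights

/-- Polynomials whose complex roots have weights in `W`. -/
def WtPol (c : ℝ) (W : Set ℤ) (χ : ℚ[X]) : Prop :=
  χ ≠ 0 ∧ ∀ z : ℂ, Polynomial.aeval z χ = 0 → ∃ i ∈ W, ‖z‖ ^ 2 = c ^ i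

variable {c : ℝ}

lemma WtPol.mono {W W' : Set ℤ} {χ : ℚ[X]} (h : WtPol c W χ) (hW : W ⊆ W') : WtPol c W' χ :=
  ⟨h.1, fun z hz => by
    obtain ⟨i, hi, hi'⟩ := h.2 z hz
    exact ⟨i, hW hi, hi'⟩⟩

lemma WtPol.mul {W : Set ℤ} {χ ψ : ℚ[X]} (h : WtPol c W χ) (h' : WtPol c W ψ) :
    WtPol c W (χ * ψ) :=
  ⟨mul_ne_zero h.1 h'.1, fun z hz => by
    rw [map_mul, mul_eq_zero] at hz
    rcases hz with hz | hz
    · exact h.2 z hz
    · exact h'.2 z hz⟩

lemma WtPol.coprime (hc : 0 < c) (hc1 : c ≠ 1) {W W' : Set ℤ} (hW : Disjoint W W') {χ ψ : ℚ[X]}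
    (h : WtPol c W χ) (h' : WtPol c W' ψ) : IsCoprime χ ψ := by
  rw [Polynomial.isCoprime_iff_aeval_ne_zero_of_isAlgClosed ℚ ℂ]
  intro z
  by_contra hcon
  push Not at hcon
  obtain ⟨i, hi, hi'⟩ := h.2 z hcon.1
  obtain ⟨j, hj, hj'⟩ := h'.2 z hcon.2
  have h1 : i = j := zpow_right_injective₀ hc hc1 (hi'.symm.trans hj')
  subst h1
  exact Set.disjoint_left.1 hW hi hj

end Weights

section Obj

variable {C : Type u} [Category.{v} C] [Preadditive C] [HasZeroObject C] [HasShift C ℤ]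
  [∀ n : ℤ, (shiftFunctor C n).Additive] [Pretriangulated C] [Linear ℚ C] (φ : 𝟭 C ⟶ 𝟭 C) (c : ℝ)

/-- The object `M` has Frobenius weights in `W`. -/
def WtObj (W : Set ℤ) (M : C) : Prop := ∃ χ : ℚ[X], WtPol c W χ ∧ pol φ χ M = 0

variable {φ c}

lemma WtObj.mono {W W' : Set ℤ} {M : C} (h : WtObj φ c W M) (hW : W ⊆ W') : WtObj φ c W' M := by
  obtain ⟨χ, h1, h2⟩ := h
  exact ⟨χ, h1.mono hW, h2⟩

lemma WtObj.retract {W : Set ℤ} {M N : C} (h : WtObj φ c W M) (i : N ⟶ M) (r : M ⟶ N)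
    (hir : i ≫ r = 𝟙 _) : WtObj φ c W N := by
  obtain ⟨χ, h1, h2⟩ := h
  refine ⟨χ, h1, ?_⟩
  rw [← Category.comp_id (pol φ χ N), ← hir, ← Category.assoc, pol_natural, h2, comp_zero,
    zero_comp]

lemma WtObj.iso {W : Set ℤ} {M N : C} (h : WtObj φ c W M) (e : M ≅ N) : WtObj φ c W N :=
  h.retract e.inv e.hom e.inv_hom_id

lemma WtObj.zero {M : C} (h : IsZero M) (W : Set ℤ) : WtObj φ c W M :=
  ⟨1, ⟨one_ne_zero, fun z hz => by simp at hz⟩, h.eq_of_src _ _⟩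

lemma WtObj.ext {W : Set ℤ} {X Y Z : C} {f : X ⟶ Y} {g : Y ⟶ Z} {h : Z ⟶ X⟦(1 : ℤ)⟧}
    (hT : Triangle.mk f g h ∈ distTriang C) (hX : WtObj φ c W X) (hZ : WtObj φ c W Z) :
    WtObj φ c W Y := by
  obtain ⟨χ, h1, h2⟩ := hX
  obtain ⟨ψ, h3, h4⟩ := hZ
  refine ⟨ψ * χ, h3.mul h1, ?_⟩
  have h5 : pol φ ψ Y ≫ g = 0 := by rw [pol_natural, h4, comp_zero]
  obtain ⟨l, hl⟩ := ce2 hT _ h5
  rw [pol_mul, hl, Category.assoc, ← pol_natural, h2, zero_comp, comp_zero]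

lemma WtObj.hom_zero (hc : 0 < c) (hc1 : c ≠ 1) {W W' : Set ℤ} (hW : Disjoint W W') {M N : C}
    (hM : WtObj φ c W M) (hN : WtObj φ c W' N) (f : M ⟶ N) : f = 0 := by
  obtain ⟨χ, h1, h2⟩ := hM
  obtain ⟨ψ, h3, h4⟩ := hN
  obtain ⟨a, b, hab⟩ := h1.coprime hc hc1 hW h3
  have h5 : f ≫ pol φ (a * χ + b * ψ) N = 0 := by
    rw [mul_comm a χ, pol_add, pol_mul, pol_mul, h4, comp_zero, add_zero, ← Category.assoc,
      ← pol_natural φ χ f, h2, zero_comp, zero_comp]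
  rwa [hab, pol_one, Category.comp_id] at h5

variable (hφ : ∀ (M : C) (n : ℤ), φ.app (M⟦n⟧) = (φ.app M)⟦n⟧')

include hφ

lemma pol_shift (χ : ℚ[X]) (M : C) (n : ℤ) : pol φ χ (M⟦n⟧) = (pol φ χ M)⟦n⟧' :=
  pol_functor φ φ (shiftFunctor C n) (fun X => hφ X n) χ M

lemma WtObj.shift {W : Set ℤ} {M : C} (h : WtObj φ c W M) (n : ℤ) : WtObj φ c W (M⟦n⟧) := by
  obtain ⟨χ, h1, h2⟩ := h
  exact ⟨χ, h1, by rw [pol_shift hφ, h2, Functor.map_zero]⟩

end Obj

end Pool.Agent.Y116.MT
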