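import Pool.Agent.Y116.MT.Lef
import Pool.Agent.Y116.MT.FiniteField

/-!
# The motivic t-structure over a general field
-/

set_option autoImplicit false
set_option linter.unusedSectionVars false
set_option linter.unusedSimpArgs false
set_option backward.isDefEq.respectTransparency false
set_option backward.defeqAttrib.useBackward true

open CategoryTheory Limits MonoidalCategory Pretriangulated Triangulated

namespace Pool.Agent.Y116.MT

universe v u w

section

variable {C : Type u} [Category.{v} C] [Preadditive C] [HasZeroObject C] [HasShift C ℤ]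
  [∀ n : ℤ, (shiftFunctor C n).Additive] [Pretriangulated C] [IsTriangulated C]
  [MonoidalCategory C] [SymmetricCategory C] [MonoidalPreadditive C] [TensorTriangulated C]
  [RightRigidCategory C]

section

variable {t : TStructure C} {E : Type w} [Field E] {R : Realisation C E}

lemma TExact.zeroLE (he : TExact t R) {X : C} {n : ℤ} (h : t.IsLE X n) (hn : n < 0) :
    IsZero (R.H.obj X) :=
  (he.isLE h 0 hn).of_iso (R.H.mapIso ((shiftFunctorZero C ℤ).app X).symm)

lemma TExact.zeroGE (he : TExact t R) {X : C} {n : ℤ} (h : t.IsGE X n) (hn : 0 < n) :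
    IsZero (R.H.obj X) :=
  (he.isGE h 0 hn).of_iso (R.H.mapIso ((shiftFunctorZero C ℤ).app X).symm)

lemma TExact.deg' (he : TExact t R) {X : C} {n : ℤ} (h : t.IsLE X n) (h' : t.IsGE X n) :
    R.Deg X n := by
  intro i hi
  rcases lt_or_gt_of_ne hi with h1 | h1
  · exact he.isGE h' i h1
  · exact he.isLE h i h1

/-- Decomposition of a split object. -/
lemma Spl.decomp (P : ObjectProperty C)
    (hPr : ∀ (X Y : C) (i : X ⟶ Y) (r : Y ⟶ X), i ≫ r = 𝟙 _ → P Y → P X) (m : ℕ) :
    ∀ (X : C) (a b : ℤ), b - a < m → P X → Spl t X → t.IsGE X a → t.IsLE X b →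
      ∃ (n : ℕ) (Q : Fin n → C) (d : Fin n → ℤ), (∀ j, P (Q j)) ∧
        (∀ j, t.IsLE (Q j) (d j) ∧ t.IsGE (Q j) (d j)) ∧ Nonempty (X ≅ ⨁ Q) := by
  induction m with
  | zero =>
    intro X a b hab _ _ h1 h2
    exact ⟨0, Fin.elim0, Fin.elim0, fun j => j.elim0, fun j => j.elim0,
      ⟨(t.isZero X b a (by omega)).iso (isZero_fin _)⟩⟩
  | succ m ih =>
    intro X a b hab hX hs h1 h2
    obtain ⟨A, B, hA, hB, ⟨d⟩⟩ := hs a
    have hA' : t.IsGE A a := isGE_retract h1 d.i d.p d.ip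
    have hB' : t.IsLE B b := isLE_retract h2 d.j d.q d.jq
    obtain ⟨n, Q, dg, hQ, hdg, ⟨e⟩⟩ := ih B (a + 1) b (by push_cast at hab; omega)
      (hPr _ _ d.j d.q d.jq hX) (hs.retract d.j d.q d.jq) hB hB'
    refine ⟨n + 1, Fin.cons A Q, Fin.cons a dg, ?_, ?_, ⟨?_⟩⟩
    · intro j
      refine Fin.cases ?_ (fun j => ?_) j
      · exact hPr _ _ d.i d.p d.ip hX
      · exact hQ j
    · intro j
      refine Fin.cases ?_ (fun j => ?_) j
      · exact ⟨hA, hA'⟩
      · exact hdg j
    · exact d.toIso ≪≫ biprod.mapIso (Iso.refl A) e ≪≫ (finSucc (Fin.cons A Q)).symm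

end

variable [Linear ℚ C] {Λ : Type*} [Nonempty Λ] {E : Λ → Type w} [∀ l, Field (E l)]
  {R : ∀ l, Realisation C (E l)} {Chow : ObjectProperty C} {T : C}

omit [Nonempty Λ] in
/-- Chow motives split. -/
lemma chow_spl (hEnd : ∀ e : 𝟙_ C ⟶ 𝟙_ C, ∃ q : ℚ, e = q • 𝟙 _) (hL : HardLefschetz Chow T R)
    {t : TStructure C} (ht : IsMotivic t R) (l₀ : Λ) {P : C} (hP : Chow P) : Spl t P := by
  have hid := end_idem hEnd
  have hu := unit_hrt ht.compat ht.nondeg_le ht.nondeg_ge
  have he := ht.exact l₀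
  have hT1 : t.IsLE T (-2) := isLE_of_H ht.compat he hu hid ht.nondeg_le ht.nondeg_ge
    (fun i hi => hL.degree l₀ i (by omega))
  have hT2 : t.IsGE T (-2) := isGE_of_H ht.compat he hu hid ht.nondeg_le ht.nondeg_ge
    (fun i hi => hL.degree l₀ i (by omega))
  obtain ⟨T', ⟨eT⟩⟩ := hL.invertible
  obtain ⟨Q, i, r, e, hir, -, hQ⟩ := hL.lefschetz P hP
  obtain ⟨N, hN1, hN2⟩ := bounded_of_H ht.compat he hu hid ht.nondeg_le ht.nondeg_ge Q
  have hQs : Spl t Q := by
    refine deligne ht.compat he hu hid ht.nondeg_le ht.nondeg_ge hT1 hT2 eT (N + e.natAbs) Q e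
      (t.isGE_of_ge Q _ (-N) (by omega)) (t.isLE_of_le Q N _ (by omega)) ?_
    intro k _
    obtain ⟨L, hL⟩ := hQ k
    exact ⟨L, hL l₀⟩
  exact hQs.retract i r hir

/-- The criterion for the existence of the motivic t-structure over a general field. -/
theorem general_criterion [IsIdempotentComplete C]
    (hEnd : ∀ e : 𝟙_ C ⟶ 𝟙_ C, ∃ q : ℚ, e = q • 𝟙 _)
    (hC : IsChow Chow) (hL : HardLefschetz Chow T R) :
    (∃ t : TStructure C, IsMotivic t R) ↔
      ((∀ P : C, Chow P → ∃ (n : ℕ) (Q : Fin n → C) (d : Fin n → ℤ), (∀ j, Chow (Q j)) ∧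
          (∀ j l, (R l).Deg (Q j) (d j)) ∧ Nonempty (P ≅ ⨁ Q)) ∧
        (∀ (P : C) (i n : ℤ) (f : 𝟙_ C ⟶ P⟦n⟧), Chow P → (∀ l, (R l).Deg P i) → n ≤ i →
          (n ≠ 0 ∨ i ≠ 0) → f = 0) ∧
        (∀ (P : C) (s : 𝟙_ C ⟶ P), Chow P → (∀ l, (R l).Deg P 0) →
          (∀ l, (R l).H.map s = 0) → s = 0) ∧
        (∀ (P : C) (s : 𝟙_ C ⟶ P), Chow P → (∀ r : P ⟶ 𝟙_ C, s ≫ r = 0) →
          ∀ l, (R l).H.map s = 0)) := by
  have hid := end_idem hEnd
  constructor
  · rintro ⟨t, ht⟩
    obtain ⟨l₀⟩ := ‹Nonempty Λ›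
    have hu := unit_hrt ht.compat ht.nondeg_le ht.nondeg_ge
    have he := ht.exact l₀
    have hLE : ∀ {X : C} {i : ℤ}, (∀ l, (R l).Deg X i) → t.IsLE X i := fun h =>
      isLE_of_H ht.compat he hu hid ht.nondeg_le ht.nondeg_ge (fun j hj => h l₀ j (by omega))
    have hGE : ∀ {X : C} {i : ℤ}, (∀ l, (R l).Deg X i) → t.IsGE X i := fun h =>
      isGE_of_H ht.compat he hu hid ht.nondeg_le ht.nondeg_ge (fun j hj => h l₀ j (by omega))
    refine ⟨?_, ?_, ?_, ?_⟩
    · intro P hP
      obtain ⟨N, hN1, hN2⟩ := bounded_of_H ht.compat he hu hid ht.nondeg_le ht.nondeg_ge P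
      obtain ⟨n, Q, d, h1, h2, h3⟩ := Spl.decomp (t := t) Chow
        (fun X Y i r hir hY => hC.retract X Y i r hir hY) (2 * N + 1) P (-N) N
        (by push_cast; omega) hP (chow_spl hEnd hL ht l₀ hP) hN2 hN1
      exact ⟨n, Q, d, h1, fun j l => (ht.exact l).deg' (h2 j).1 (h2 j).2, h3⟩
    · intro P i n f hP hd hn hni
      rcases lt_or_eq_of_le hn with hn | rfl
      · have h1 : t.IsGE (P⟦n⟧) (i - n) := @TStructure.isGE_shift _ _ _ _ _ _ _ t _ i n (i - n)
          (by omega) (hGE hd)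
        exact t.zero_of_isLE_of_isGE f 0 (i - n) (by omega) hu.1 h1
      · rcases lt_trichotomy n 0 with h0 | h0 | h0
        · have hQ : Hrt t (P⟦n⟧) := ⟨@TStructure.isLE_shift _ _ _ _ _ _ _ t _ n n 0 (by omega)
            (hLE hd), @TStructure.isGE_shift _ _ _ _ _ _ _ t _ n n 0 (by omega) (hGE hd)⟩
          by_contra hne
          obtain ⟨r, hr⟩ := heart_pairing ht.compat he hu hid hQ
            (fun X => ∃ j : ℤ, j ≤ 0 ∧ Chow (X⟦-j⟧))
            ⟨0, le_rfl, hC.retract _ (𝟙_ C) ((shiftFunctorZero' C (-0 : ℤ) (by simp)).hom.app _)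
              ((shiftFunctorZero' C (-0 : ℤ) (by simp)).inv.app _) (by simp) hC.unit⟩
            (by
              rintro X ⟨j, hj, hX⟩
              refine ⟨j + n, by omega, ?_⟩
              have e1 : X⟦-j⟧ ⊗ (P⟦n⟧)⟦-n⟧ ≅ (X ⊗ P⟦n⟧)⟦-(j + n)⟧ :=
                lrShift X (P⟦n⟧) (-j) (-n) ≪≫ eqToIso (by rw [show -j + -n = -(j + n) by ring])
              have e2 : X⟦-j⟧ ⊗ P ≅ (X ⊗ P⟦n⟧)⟦-(j + n)⟧ :=
                whiskerLeftIso _ (shiftShiftNeg P n).symm ≪≫ e1
              exact hC.retract _ _ e2.inv e2.hom e2.inv_hom_id (hC.tensor _ _ hX hP))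
            (by
              rintro X ⟨j, hj, hX⟩ m hm g
              apply (shiftFunctor C (-j)).map_injective
              rw [Functor.map_zero,
                ← cancel_mono ((shiftFunctorAdd' C m (-j) (m - j) (by ring)).inv.app (𝟙_ C)),
                zero_comp]
              exact hC.orthogonal _ _ (m - j) _ hX hC.unit (by omega))
            f hne
          apply hr
          have hr0 : r = 0 := by
            apply (shiftFunctor C (-n)).map_injective
            rw [Functor.map_zero, ← cancel_epi (shiftShiftNeg P n).inv, comp_zero]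
            exact hC.orthogonal _ _ (-n) _ hP hC.unit (by omega)
          rw [hr0, comp_zero]
        · omega
        · exact hC.orthogonal _ _ n f hC.unit hP h0
    · intro P s hP hd hs
      exact faithful_heart ht.compat he hu hid hu ⟨hLE hd, hGE hd⟩ s (hs l₀)
    · intro P s hP hs l
      have hsp := chow_spl hEnd hL ht l₀ hP
      obtain ⟨A, B, hA, hB, ⟨d⟩⟩ := hsp (-1)
      obtain ⟨Q, D, hQ, hD, ⟨d'⟩⟩ := (hsp.retract d.j d.q d.jq) 0
      have hQ' : t.IsGE Q 0 := isGE_retract (by simpa using hB) d'.i d'.p d'.ip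
      have hQc : Chow Q := hC.retract _ _ d'.i d'.p d'.ip (hC.retract _ _ d.j d.q d.jq hP)
      have hs' : s ≫ d.q ≫ d'.p = 0 := by
        by_contra hne
        obtain ⟨r, hr⟩ := heart_pairing ht.compat he hu hid ⟨hQ, hQ'⟩ Chow hC.unit
          (fun X hX => hC.tensor X Q hX hQc)
          (fun X hX m hm f => hC.orthogonal X _ m f hX hC.unit hm) _ hne
        exact hr (by rw [Category.assoc, Category.assoc]; exact hs _)
      have hsd : s = (s ≫ d.p) ≫ d.i + (s ≫ d.q ≫ d'.q) ≫ d'.j ≫ d.j := by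
        have e1 : d.q ≫ d.j = d.q ≫ (d'.p ≫ d'.i + d'.q ≫ d'.j) ≫ d.j := by
          rw [d'.total, Category.id_comp]
        conv_lhs => rw [← Category.comp_id s, ← d.total, e1]
        simp only [Preadditive.comp_add, Preadditive.add_comp, Category.assoc]
        rw [reassoc_of% hs', zero_comp, zero_add]
      have z1 : IsZero ((R l).H.obj A) := (ht.exact l).zeroLE hA (by omega)
      have z2 : IsZero ((R l).H.obj D) := (ht.exact l).zeroGE hD (by omega)
      rw [hsd, Functor.map_add, Functor.map_comp, Functor.map_comp (R l).H (s ≫ d.q ≫ d'.q),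
        z1.eq_of_tgt ((R l).H.map (s ≫ d.p)) 0, z2.eq_of_tgt ((R l).H.map (s ≫ d.q ≫ d'.q)) 0,
        zero_comp, zero_comp, add_zero]
  · rintro ⟨h1, h2, h3, h4⟩
    have : Chow.IsStableUnderRetracts := ⟨fun h hY => hC.retract _ _ h.i h.r h.retract hY⟩
    refine crit R hEnd hC.tensor hC.dual hC.sum (fun X i n f hX hd hn hni => h2 X i n f hX hd hn hni)
      ?_ hC.generates h1
    intro X s hX hd hs
    by_contra hcon
    push Not at hcon
    exact hs (h3 X s hX hd (h4 X s hX hcon))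

end

end Pool.Agent.Y116.MT
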