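import Pool.Agent.Y116.MT.Real

/-!
# Tensor compatible t-structures on rigid tensor triangulated categories
-/

set_option autoImplicit false
set_option linter.unusedSectionVars false
set_option linter.unusedSimpArgs false
set_option backward.isDefEq.respectTransparency false
set_option backward.defeqAttrib.useBackward true

open CategoryTheory Limits MonoidalCategory Pretriangulated Triangulated

namespace Pool.Agent.Y116.MT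

universe v u w

section

variable {C : Type u} [Category.{v} C] [Preadditive C] [HasZeroObject C] [HasShift C ℤ]
  [∀ n : ℤ, (shiftFunctor C n).Additive] [Pretriangulated C] [MonoidalCategory C]
  [SymmetricCategory C] [TensorTriangulated C]

/-- The canonical isomorphism `X⟦a⟧ ⊗ Y⟦b⟧ ≅ (X ⊗ Y)⟦a + b⟧`. -/
noncomputable def lrShift (X Y : C) (a b : ℤ) : X⟦a⟧ ⊗ Y⟦b⟧ ≅ (X ⊗ Y)⟦a + b⟧ :=
  rShift (X⟦a⟧) Y b ≪≫ (shiftFunctor C b).mapIso (lShift X Y a) ≪≫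
    ((shiftFunctorAdd C a b).app (X ⊗ Y)).symm

lemma isZero_shift {X : C} (h : IsZero X) (n : ℤ) : IsZero (X⟦n⟧) :=
  (shiftFunctor C n).map_isZero h

lemma isZero_of_shift {X : C} (n : ℤ) (h : IsZero (X⟦n⟧)) : IsZero X :=
  (isZero_shift h (-n)).of_iso ((shiftEquiv C n).unitIso.app X)

lemma isZero_of_retract {X Y : C} (h : IsZero X) (i : Y ⟶ X) (r : X ⟶ Y) (hir : i ≫ r = 𝟙 _) :
    IsZero Y := by
  rw [IsZero.iff_id_eq_zero, ← hir, h.eq_of_tgt i 0, zero_comp]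

section

variable [MonoidalPreadditive C]

lemma isZero_tensor_left {X : C} (h : IsZero X) (Y : C) : IsZero (X ⊗ Y) :=
  (tensorRight Y).map_isZero h

lemma isZero_tensor_right {Y : C} (h : IsZero Y) (X : C) : IsZero (X ⊗ Y) :=
  (tensorLeft X).map_isZero h

lemma isZero_tensor_comm {X Y : C} (h : IsZero (X ⊗ Y)) : IsZero (Y ⊗ X) :=
  h.of_iso (β_ Y X)

variable [RightRigidCategory C]

/-- If `X ⊗ Y = 0`, there are no maps from `X` to `Y`. -/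
lemma hom_zero_of_tensor {X Y : C} (h : IsZero (Y ⊗ X)) (f : X ⟶ Y) : f = 0 := by
  have h1 : f = (λ_ X).inv ≫ (η_ X Xᘁ ▷ X) ≫ (α_ X Xᘁ X).hom ≫ (f ▷ (Xᘁ ⊗ X)) ≫
      (Y ◁ ε_ X Xᘁ) ≫ (ρ_ Y).hom := by
    rw [← whisker_exchange_assoc, rightUnitor_naturality,
      ExactPairing.evaluation_coevaluation_assoc]
    simp
  have h2 : IsZero (Y ⊗ (Xᘁ ⊗ X)) :=
    (isZero_tensor_left h Xᘁ).of_iso (whiskerLeftIso Y (β_ _ _) ≪≫ (α_ Y X Xᘁ).symm)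
  rw [h1, h2.eq_of_tgt (f ▷ (Xᘁ ⊗ X)) 0, zero_comp, comp_zero, comp_zero, comp_zero]

lemma isZero_of_tensor_self {X : C} (h : IsZero (X ⊗ X)) : IsZero X :=
  (IsZero.iff_id_eq_zero _).2 (hom_zero_of_tensor h (𝟙 X))

lemma hom_zero_of_tensor_shift {X Y : C} (n : ℤ) (h : IsZero (X ⊗ Y)) (f : X ⟶ Y⟦n⟧) : f = 0 :=
  hom_zero_of_tensor (isZero_tensor_comm ((isZero_shift h n).of_iso (rShift X Y n))) f

end

variable (t : TStructure C)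

/-- Compatibility with the tensor product. -/
structure TensorCompat : Prop where
  le (X Y : C) : t.le 0 X → t.le 0 Y → t.le 0 (X ⊗ Y)
  ge (X Y : C) : t.ge 0 X → t.ge 0 Y → t.ge 0 (X ⊗ Y)

variable {t}

section

variable (ht : TensorCompat t)

include ht

lemma TensorCompat.isLE {X Y : C} {a b : ℤ} (hX : t.IsLE X a) (hY : t.IsLE Y b) :
    t.IsLE (X ⊗ Y) (a + b) := by
  have h1 : t.IsLE (X⟦a⟧) 0 := t.isLE_shift X a a 0
  have h2 : t.IsLE (Y⟦b⟧) 0 := t.isLE_shift Y b b 0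
  have h3 : t.IsLE (X⟦a⟧ ⊗ Y⟦b⟧) 0 := ⟨ht.le _ _ h1.le h2.le⟩
  have h4 : t.IsLE ((X ⊗ Y)⟦a + b⟧) 0 := t.isLE_of_iso (lrShift X Y a b) 0
  exact t.isLE_of_shift (X ⊗ Y) (a + b) (a + b) 0

lemma TensorCompat.isGE {X Y : C} {a b : ℤ} (hX : t.IsGE X a) (hY : t.IsGE Y b) :
    t.IsGE (X ⊗ Y) (a + b) := by
  have h1 : t.IsGE (X⟦a⟧) 0 := t.isGE_shift X a a 0
  have h2 : t.IsGE (Y⟦b⟧) 0 := t.isGE_shift Y b b 0
  have h3 : t.IsGE (X⟦a⟧ ⊗ Y⟦b⟧) 0 := ⟨ht.ge _ _ h1.ge h2.ge⟩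
  have h4 : t.IsGE ((X ⊗ Y)⟦a + b⟧) 0 := t.isGE_of_iso (lrShift X Y a b) 0
  exact t.isGE_of_shift (X ⊗ Y) (a + b) (a + b) 0

end

lemma isLE_retract {X Y : C} {n : ℤ} (hX : t.IsLE X n) (i : Y ⟶ X) (r : X ⟶ Y)
    (hir : i ≫ r = 𝟙 _) : t.IsLE Y n := by
  rw [t.isLE_iff_orthogonal n (n + 1) rfl]
  intro Z f hZ
  have h1 : r ≫ f = 0 := t.zero_of_isLE_of_isGE _ n (n + 1) (by omega) hX hZ
  rw [← Category.id_comp f, ← hir, Category.assoc, h1, comp_zero]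

lemma isGE_retract {X Y : C} {n : ℤ} (hX : t.IsGE X n) (i : Y ⟶ X) (r : X ⟶ Y)
    (hir : i ≫ r = 𝟙 _) : t.IsGE Y n := by
  rw [t.isGE_iff_orthogonal (n - 1) n (by omega)]
  intro Z f hZ
  have h1 : f ≫ i = 0 := t.zero_of_isLE_of_isGE _ (n - 1) n (by omega) hZ hX
  rw [← Category.comp_id f, ← hir, ← Category.assoc, h1, zero_comp]

lemma isLE2 {X Y Z : C} {f : X ⟶ Y} {g : Y ⟶ Z} {h : Z ⟶ X⟦(1 : ℤ)⟧}
    (hT : Triangle.mk f g h ∈ distTriang C) {n : ℤ} (hX : t.IsLE X n) (hZ : t.IsLE Z n) :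
    t.IsLE Y n := t.isLE₂ _ hT n hX hZ

lemma isGE2 {X Y Z : C} {f : X ⟶ Y} {g : Y ⟶ Z} {h : Z ⟶ X⟦(1 : ℤ)⟧}
    (hT : Triangle.mk f g h ∈ distTriang C) {n : ℤ} (hX : t.IsGE X n) (hZ : t.IsGE Z n) :
    t.IsGE Y n := t.isGE₂ _ hT n hX hZ

lemma isLE3 {X Y Z : C} {f : X ⟶ Y} {g : Y ⟶ Z} {h : Z ⟶ X⟦(1 : ℤ)⟧}
    (hT : Triangle.mk f g h ∈ distTriang C) {n : ℤ} (hX : t.IsLE X (n + 1)) (hY : t.IsLE Y n) :
    t.IsLE Z n :=
  isLE2 (rotD hT) hY (t.isLE_shift X (n + 1) 1 n)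

lemma isGE3 {X Y Z : C} {f : X ⟶ Y} {g : Y ⟶ Z} {h : Z ⟶ X⟦(1 : ℤ)⟧}
    (hT : Triangle.mk f g h ∈ distTriang C) {n : ℤ} (hX : t.IsGE X (n + 1)) (hY : t.IsGE Y n) :
    t.IsGE Z n :=
  isGE2 (rotD hT) hY (t.isGE_shift X (n + 1) 1 n)

lemma isLE1 {X Y Z : C} {f : X ⟶ Y} {g : Y ⟶ Z} {h : Z ⟶ X⟦(1 : ℤ)⟧}
    (hT : Triangle.mk f g h ∈ distTriang C) {n : ℤ} (hY : t.IsLE Y n) (hZ : t.IsLE Z (n - 1)) :
    t.IsLE X n := by
  have h1 : t.IsLE (X⟦(1 : ℤ)⟧) (n - 1) :=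
    isLE2 (rotD (rotD hT)) hZ (t.isLE_shift Y n 1 (n - 1))
  exact t.isLE_of_shift X n 1 (n - 1)

lemma isGE1 {X Y Z : C} {f : X ⟶ Y} {g : Y ⟶ Z} {h : Z ⟶ X⟦(1 : ℤ)⟧}
    (hT : Triangle.mk f g h ∈ distTriang C) {n : ℤ} (hY : t.IsGE Y n) (hZ : t.IsGE Z (n - 1)) :
    t.IsGE X n := by
  have h1 : t.IsGE (X⟦(1 : ℤ)⟧) (n - 1) :=
    isGE2 (rotD (rotD hT)) hZ (t.isGE_shift Y n 1 (n - 1))
  exact t.isGE_of_shift X n 1 (n - 1)

/-- The objects concentrated in degree `0`. -/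
def Hrt (t : TStructure C) (X : C) : Prop := t.IsLE X 0 ∧ t.IsGE X 0

lemma TensorCompat.hrt (ht : TensorCompat t) {X Y : C} (hX : Hrt t X) (hY : Hrt t Y) :
    Hrt t (X ⊗ Y) :=
  ⟨by simpa using ht.isLE hX.1 hY.1, by simpa using ht.isGE hX.2 hY.2⟩

lemma Hrt.iso {X Y : C} (hX : Hrt t X) (e : X ≅ Y) : Hrt t Y :=
  ⟨@TStructure.isLE_of_iso _ _ _ _ _ _ _ t _ _ e 0 hX.1,
    @TStructure.isGE_of_iso _ _ _ _ _ _ _ t _ _ e 0 hX.2⟩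

section Unit

variable [MonoidalPreadditive C] [RightRigidCategory C] (ht : TensorCompat t)
  (hle : ∀ X : C, (∀ n : ℤ, t.le n X) → IsZero X) (hge : ∀ X : C, (∀ n : ℤ, t.ge n X) → IsZero X)

include ht

lemma heart_tensor_zero {A B : C} {f : A ⟶ 𝟙_ C} {g : 𝟙_ C ⟶ B} {h : B ⟶ A⟦(1 : ℤ)⟧}
    (hT : Triangle.mk f g h ∈ distTriang C) (hA : t.IsLE A 0) (hB : t.IsGE B 1) {M : C}
    (hM : Hrt t M) : IsZero (M ⊗ B) := by
  have hT' := tensor_dist M hT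
  have h1 : t.IsLE (M ⊗ 𝟙_ C) 0 := @TStructure.isLE_of_iso _ _ _ _ _ _ _ t _ _ (ρ_ M).symm 0 hM.1
  have h2 : t.IsGE (M ⊗ B) 1 := by simpa using ht.isGE hM.2 hB
  have h3 : t.IsLE (M ⊗ A) 0 := by simpa using ht.isLE hM.1 hA
  have h4 : M ◁ g = 0 := t.zero_of_isLE_of_isGE _ 0 1 (by omega) h1 h2
  obtain ⟨r, hr⟩ := split2' hT' h4
  have h5 : t.IsLE (M ⊗ B) (-1) :=
    isLE_retract (t.isLE_shift (M ⊗ A) 0 1 (-1)) _ r hr
  exact t.isZero (M ⊗ B) (-1) 1 (by omega)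

lemma heart_tensor_zero' {A B : C} {f : A ⟶ 𝟙_ C} {g : 𝟙_ C ⟶ B} {h : B ⟶ A⟦(1 : ℤ)⟧}
    (hT : Triangle.mk f g h ∈ distTriang C) (hA : t.IsLE A (-1)) (hB : t.IsGE B 0) {M : C}
    (hM : Hrt t M) : IsZero (M ⊗ A) := by
  have hT' := tensor_dist M hT
  have h1 : t.IsGE (M ⊗ 𝟙_ C) 0 := @TStructure.isGE_of_iso _ _ _ _ _ _ _ t _ _ (ρ_ M).symm 0 hM.2
  have h2 : t.IsGE (M ⊗ B) 0 := by simpa using ht.isGE hM.2 hB
  have h3 : t.IsLE (M ⊗ A) (-1) := by simpa using ht.isLE hM.1 hA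
  have h4 : M ◁ f = 0 := t.zero_of_isLE_of_isGE _ (-1) 0 (by omega) h3 h1
  obtain ⟨r, hr⟩ := split1 hT' h4
  have h5 : t.IsGE ((M ⊗ A)⟦(1 : ℤ)⟧) 0 := isGE_retract h2 _ _ hr
  have h6 : t.IsLE ((M ⊗ A)⟦(1 : ℤ)⟧) (-2) := t.isLE_shift (M ⊗ A) (-1) 1 (-2)
  exact isZero_of_shift 1 (t.isZero ((M ⊗ A)⟦(1 : ℤ)⟧) (-2) 0 (by omega))

omit ht in
/-- If `M ⊗ B = 0` for all `M` in the heart, then for all bounded `M`. -/
lemma bounded_tensor_zero {B : C} (hB : ∀ M, Hrt t M → IsZero (M ⊗ B)) (n : ℕ) :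
    ∀ (M : C) (a b : ℤ), b - a ≤ n → t.IsGE M a → t.IsLE M b → IsZero (M ⊗ B) := by
  have hB' : ∀ (M : C) (a : ℤ), t.IsGE M a → t.IsLE M a → IsZero (M ⊗ B) := by
    intro M a h1 h2
    have h3 : Hrt t (M⟦a⟧) := ⟨t.isLE_shift M a a 0, t.isGE_shift M a a 0⟩
    exact isZero_of_shift a ((hB _ h3).of_iso (lShift M B a).symm)
  induction n with
  | zero =>
    intro M a b hab h1 h2
    exact hB' M a h1 (t.isLE_of_le M b a (by omega))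
  | succ n ih =>
    intro M a b hab h1 h2
    obtain ⟨X, Y, hX, hY, f, g, h, hT⟩ := t.exists_triangle M a (a + 1) rfl
    have hX1 : t.IsLE X a := ⟨hX⟩
    have hY1 : t.IsGE Y (a + 1) := ⟨hY⟩
    have hX2 : t.IsGE X a := isGE1 hT h1 (t.isGE_of_ge Y (a - 1) (a + 1))
    by_cases hab' : b ≤ a
    · exact hB' M a h1 (t.isLE_of_le M b a hab')
    have hY2 : t.IsLE Y b := isLE3 hT (t.isLE_of_le X a (b + 1) (by omega)) h2
    have h3 := hB' X a hX2 hX1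
    have h4 := ih Y (a + 1) b (by omega) hY1 hY2
    have hT' := tensor_dist B hT
    exact isZero_tensor_comm (isZero2 hT' (isZero_tensor_comm h3) (isZero_tensor_comm h4))

include hle hge

/-- The unit lies in the heart. -/
theorem unit_hrt : Hrt t (𝟙_ C) := by
  constructor
  · obtain ⟨A, B, hA, hB, f, g, h, hT⟩ := t.exists_triangle (𝟙_ C) 0 1 rfl
    have hB0 := fun M hM => heart_tensor_zero ht hT ⟨hA⟩ ⟨hB⟩ (M := M) hM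
    have hB1 : t.IsGE B 1 := ⟨hB⟩
    have h1 : IsZero (B ⊗ B) := by
      apply hge
      intro n
      obtain ⟨X, Y, hX, hY, f', g', h', hT'⟩ := t.exists_triangle B (max n 1) (max n 1 + 1) rfl
      have hX1 : t.IsLE X (max n 1) := ⟨hX⟩
      have hY1 : t.IsGE Y (max n 1 + 1) := ⟨hY⟩
      have hX2 : t.IsGE X 1 := isGE1 hT' hB1 (t.isGE_of_ge Y (1 - 1) (max n 1 + 1))
      have h2 : IsZero (X ⊗ B) := bounded_tensor_zero hB0 (max n 1 - 1).toNat X 1 (max n 1)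
        (by omega) hX2 hX1
      have h3 := isIso2_of_isZero1 (tensor_dist B hT') (isZero_tensor_comm h2)
      have h4 : t.IsGE (B ⊗ Y) n := @TStructure.isGE_of_ge _ _ _ _ _ _ _ t (B ⊗ Y) n _
        (by omega) (ht.isGE hB1 hY1)
      exact (@TStructure.isGE_of_iso _ _ _ _ _ _ _ t _ _ (asIso (B ◁ g')).symm n h4).ge
    have h2 := isIso1_of_isZero3 hT (isZero_of_tensor_self h1)
    exact @TStructure.isLE_of_iso _ _ _ _ _ _ _ t _ _ (asIso f) 0 ⟨hA⟩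
  · obtain ⟨A, B, hA, hB, f, g, h, hT⟩ := t.exists_triangle (𝟙_ C) (-1) 0 rfl
    have hA0 := fun M hM => heart_tensor_zero' ht hT ⟨hA⟩ ⟨hB⟩ (M := M) hM
    have hA1 : t.IsLE A (-1) := ⟨hA⟩
    have h1 : IsZero (A ⊗ A) := by
      apply hle
      intro n
      obtain ⟨X, Y, hX, hY, f', g', h', hT'⟩ := t.exists_triangle A (min n (-1)) (min n (-1) + 1) rfl
      have hX1 : t.IsLE X (min n (-1)) := ⟨hX⟩
      have hY1 : t.IsGE Y (min n (-1) + 1) := ⟨hY⟩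
      have hY2 : t.IsLE Y (-1) := isLE3 hT' (t.isLE_of_le X (min n (-1)) (-1 + 1)) hA1
      have h2 : IsZero (Y ⊗ A) := bounded_tensor_zero hA0 (-1 - min n (-1)).toNat Y
        (min n (-1) + 1) (-1) (by omega) hY1 hY2
      have h3 := isIso1_of_isZero3 (tensor_dist A hT') (isZero_tensor_comm h2)
      have h4 : t.IsLE (A ⊗ X) n := @TStructure.isLE_of_le _ _ _ _ _ _ _ t (A ⊗ X) _ n
        (by omega) (ht.isLE hA1 hX1)
      exact (@TStructure.isLE_of_iso _ _ _ _ _ _ _ t _ _ (asIso (A ◁ f')) n h4).le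
    have h2 := isIso2_of_isZero1 hT (isZero_of_tensor_self h1)
    exact @TStructure.isGE_of_iso _ _ _ _ _ _ _ t _ _ (asIso g).symm 0 ⟨hB⟩

omit hle hge

variable (hu : Hrt t (𝟙_ C))

include hu

/-- The dual of an object of the heart lies in the heart. -/
theorem dual_hrt {M : C} (hM : Hrt t M) : Hrt t (Mᘁ : C) := by
  constructor
  · rw [t.isLE_iff_orthogonal 0 1 (by omega)]
    intro Y f hY
    have h1 : t.IsGE (M ⊗ Y) 1 := by simpa using ht.isGE hM.2 hY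
    have h2 : (tensorLeftHomEquiv (𝟙_ C) M Mᘁ Y) ((ρ_ Mᘁ).hom ≫ f) = 0 :=
      t.zero_of_isLE_of_isGE _ 0 1 (by omega) hu.1 h1
    have h3 : (ρ_ Mᘁ).hom ≫ f = 0 := by
      rw [← (tensorLeftHomEquiv (𝟙_ C) M Mᘁ Y).symm_apply_apply ((ρ_ Mᘁ).hom ≫ f), h2]
      simp [tensorLeftHomEquiv]
    rw [← cancel_epi (ρ_ Mᘁ).hom, h3, comp_zero]
  · rw [t.isGE_iff_orthogonal (-1) 0 (by omega)]
    intro X f hX
    have h1 : t.IsLE (X ⊗ M) (-1) := by simpa using ht.isLE hX hM.1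
    have h2 : (tensorRightHomEquiv X M Mᘁ (𝟙_ C)).symm (f ≫ (λ_ Mᘁ).inv) = 0 :=
      t.zero_of_isLE_of_isGE _ (-1) 0 (by omega) h1 hu.2
    have h3 : f ≫ (λ_ Mᘁ).inv = 0 := by
      rw [← (tensorRightHomEquiv X M Mᘁ (𝟙_ C)).apply_symm_apply (f ≫ (λ_ Mᘁ).inv), h2]
      simp [tensorRightHomEquiv]
    rw [← cancel_mono (λ_ Mᘁ).inv, h3, zero_comp]

/-- Tensor product of complementary sub and quotient objects of the unit. -/
lemma sub_tensor_zero {K I : C} {i : K ⟶ 𝟙_ C} {p : 𝟙_ C ⟶ I} {d : I ⟶ K⟦(1 : ℤ)⟧}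
    (hT : Triangle.mk i p d ∈ distTriang C) (hK : Hrt t K) (hI : Hrt t I) :
    IsZero (I ⊗ K) := by
  have hKK := ht.hrt hK hK
  have hII := ht.hrt hI hI
  have hIK := ht.hrt hI hK
  have h1 : (K ◁ p) ≫ (i ▷ I) = 0 := by
    rw [whisker_exchange]
    have h2 : i ▷ 𝟙_ C = (ρ_ K).hom ≫ i ≫ (ρ_ (𝟙_ C)).inv := by simp
    have h3 : 𝟙_ C ◁ p = (λ_ (𝟙_ C)).hom ≫ p ≫ (λ_ I).inv := by simp
    rw [h2, h3, unitors_equal]
    simp only [Category.assoc, Iso.inv_hom_id_assoc, reassoc_of% (comp12 hT), zero_comp, comp_zero]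
  obtain ⟨l, hl⟩ := ye3 (tensor_dist K hT) (i ▷ I) h1
  have h4 : l = 0 := by
    have h5 : t.IsLE ((K ⊗ K)⟦(1 : ℤ)⟧) (-1) := @TStructure.isLE_shift _ _ _ _ _ _ _ t _ 0 1 (-1)
      (by omega) hKK.1
    have h6 : t.IsGE (𝟙_ C ⊗ I) 0 :=
      @TStructure.isGE_of_iso _ _ _ _ _ _ _ t _ _ (λ_ I).symm 0 hI.2
    exact t.zero_of_isLE_of_isGE _ (-1) 0 (by omega) h5 h6
  have h5 : i ▷ I = 0 := by rw [hl, h4, comp_zero]
  have h6 : I ◁ i = 0 := by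
    have h7 : (I ◁ i) ≫ (β_ I (𝟙_ C)).hom = (β_ I K).hom ≫ (i ▷ I) :=
      BraidedCategory.braiding_naturality_right I i
    rw [← cancel_mono (β_ I (𝟙_ C)).hom, h7, h5, comp_zero, zero_comp]
  obtain ⟨r, hr⟩ := split1 (tensor_dist I hT) h6
  have h8 : t.IsGE ((I ⊗ K)⟦(1 : ℤ)⟧) 0 := isGE_retract hII.2 _ _ hr
  have h9 : t.IsLE ((I ⊗ K)⟦(1 : ℤ)⟧) (-1) := @TStructure.isLE_shift _ _ _ _ _ _ _ t _ 0 1 (-1)
    (by omega) hIK.1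
  exact isZero_of_shift 1 (t.isZero ((I ⊗ K)⟦(1 : ℤ)⟧) (-1) 0 (by omega))

/-- The unit is a simple object of the heart: the cone of a non zero morphism from the unit to an
object of the heart lies in the heart. -/
theorem unit_simple [IsTriangulated C]
    (hid : ∀ e : 𝟙_ C ⟶ 𝟙_ C, e ≫ e = e → e = 0 ∨ e = 𝟙 _)
    {Q Z : C} {s : 𝟙_ C ⟶ Q} {q : Q ⟶ Z} {δ : Z ⟶ (𝟙_ C)⟦(1 : ℤ)⟧}
    (hT : Triangle.mk s q δ ∈ distTriang C) (hQ : Hrt t Q) (hs : s ≠ 0) : Hrt t Z := by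
  refine ⟨isLE3 hT (@TStructure.isLE_of_le _ _ _ _ _ _ _ t _ 0 (0 + 1) (by omega) hu.1) hQ.1, ?_⟩
  obtain ⟨F, a, b, hF⟩ := distinguished_cocone_triangle₁ s
  have hF0 : t.IsGE F 0 := isGE1 hF hu.2 (@TStructure.isGE_of_ge _ _ _ _ _ _ _ t _ (0 - 1) 0
    (by omega) hQ.2)
  obtain ⟨K, V, hK, hV, k, v, w, hKF⟩ := t.exists_triangle F 0 1 rfl
  have hK1 : t.IsLE K 0 := ⟨hK⟩
  have hV1 : t.IsGE V 1 := ⟨hV⟩
  have hK0 : t.IsGE K 0 := isGE1 hKF hF0 (t.isGE_of_ge V (0 - 1) 1)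
  obtain ⟨I, p, d, hI⟩ := distinguished_cocone_triangle (k ≫ a)
  have O := someOctahedron (rfl : k ≫ a = k ≫ a) hKF hF hI
  have hI0 : t.IsGE I 0 := isGE2 O.mem (t.isGE_of_ge V 0 1) hQ.2
  have hI1 : t.IsLE I 0 := isLE3 hI (t.isLE_of_le K 0 (0 + 1)) hu.1
  have hz := sub_tensor_zero ht hu hI ⟨hK1, hK0⟩ ⟨hI1, hI0⟩
  have hd : d = 0 := hom_zero_of_tensor_shift 1 hz d
  have hV2 : IsZero K → t.IsGE Z 0 := by
    intro hK2
    have h1 := isIso2_of_isZero1 hKF hK2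
    have h2 : t.IsGE F 1 := @TStructure.isGE_of_iso _ _ _ _ _ _ _ t _ _ (asIso v).symm 1 hV1
    have h3 : t.IsGE (F⟦(1 : ℤ)⟧) 0 := t.isGE_shift F 1 1 0
    obtain ⟨e, _⟩ := exists_iso_of_arrow_iso _ _ hT (rotD hF) (Iso.refl (Arrow.mk s))
    exact @TStructure.isGE_of_iso _ _ _ _ _ _ _ t _ _ (Triangle.π₃.mapIso e).symm 0 h3
  obtain ⟨r, hr⟩ := split3 hI hd
  obtain ⟨r', hr'⟩ := split3' hI hd
  have hid' : (r ≫ k ≫ a) ≫ (r ≫ k ≫ a) = r ≫ k ≫ a := by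
    calc (r ≫ k ≫ a) ≫ (r ≫ k ≫ a) = r ≫ ((k ≫ a) ≫ r) ≫ (k ≫ a) := by
          simp only [Category.assoc]
      _ = r ≫ k ≫ a := by rw [hr, Category.id_comp]
  rcases hid (r ≫ k ≫ a) hid' with h | h
  · apply hV2
    rw [IsZero.iff_id_eq_zero, ← hr]
    calc (k ≫ a) ≫ r = ((k ≫ a) ≫ r) ≫ ((k ≫ a) ≫ r) := by rw [hr, Category.comp_id]
      _ = (k ≫ a) ≫ (r ≫ k ≫ a) ≫ r := by simp only [Category.assoc]
      _ = 0 := by rw [h, zero_comp, comp_zero]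
  · exfalso
    apply hs
    have h1 : IsIso (k ≫ a) := ⟨r, hr, h⟩
    have h2 : (k ≫ a) ≫ s = 0 := by rw [Category.assoc, comp12 hF, comp_zero]
    rw [← cancel_epi (k ≫ a), h2, comp_zero]

end Unit

end

end Pool.Agent.Y116.MT
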