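import Pool.Agent.Y116.MT.Mot

/-!
# Sections of pure objects of the heart split
-/

set_option autoImplicit false
set_option linter.unusedSectionVars false
set_option linter.unusedSimpArgs false
set_option backward.isDefEq.respectTransparency false
set_option backward.defeqAttrib.useBackward true

open CategoryTheory Limits MonoidalCategory Pretriangulated Triangulated

namespace Pool.Agent.Y116.MT

universe v u w

open Functor.LaxMonoidal

section

variable {C : Type u} [Category.{v} C] [Preadditive C] [HasZeroObject C] [HasShift C ℤ]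
  [∀ n : ℤ, (shiftFunctor C n).Additive] [Pretriangulated C] [MonoidalCategory C]
  [SymmetricCategory C] [TensorTriangulated C] [MonoidalPreadditive C] [RightRigidCategory C]

variable (C) in
/-- The iterated shifts of the unit are the shifts of the unit. -/
noncomputable def unIso : ∀ m : ℕ, un C m ≅ (𝟙_ C)⟦(m : ℤ)⟧
  | 0 => ((shiftFunctorZero' C ((0 : ℕ) : ℤ) (by simp)).app _).symm
  | m + 1 => (shiftFunctor C (1 : ℤ)).mapIso (unIso m) ≪≫
      ((shiftFunctorAdd' C (m : ℤ) 1 ((m + 1 : ℕ) : ℤ) (by push_cast; ring)).app _).symm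

lemma un_zero {X : C} (h : ∀ (m : ℤ), 0 < m → ∀ f : X ⟶ (𝟙_ C)⟦m⟧, f = 0) (m : ℕ)
    (f : X ⟶ (un C m)⟦(1 : ℤ)⟧) : f = 0 := by
  rw [← cancel_mono (unIso C (m + 1)).hom, zero_comp]
  exact h _ (by push_cast; omega) _

variable {E : Type w} [Field E] {t : TStructure C} {R : Realisation C E}

lemma kap_iso {X Z : C} (h : ∀ n, R.Deg (pw X Z n) 0) (n : ℕ) : IsIso (kap R.H X Z n) := by
  induction n with
  | zero => simp only [kap]; infer_instance
  | succ n ih =>
    have h1 := (h n).isIso_mu Z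
    simp only [kap]
    infer_instance

lemma zero_of_zsmul [Linear ℚ C] {X Y : C} (f : X ⟶ Y) (n : ℤ) (hn : n ≠ 0) (h : n • f = 0) :
    f = 0 := by
  have h1 : ((n : ℚ)⁻¹ * (n : ℚ)) • f = 0 := by
    rw [mul_smul, Int.cast_smul_eq_zsmul, h, smul_zero]
  rwa [inv_mul_cancel₀ (by exact_mod_cast hn), one_smul] at h1

variable (ht : TensorCompat t) (he : TExact t R) (hu : Hrt t (𝟙_ C))
  (hid : ∀ e : 𝟙_ C ⟶ 𝟙_ C, e ≫ e = e → e = 0 ∨ e = 𝟙 _)

include ht hu in
lemma pw_hrt {Z : C} (hZ : Hrt t Z) (n : ℕ) : Hrt t (pw (𝟙_ C) Z n) := by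
  induction n with
  | zero => exact hu
  | succ n ih => exact ht.hrt ih hZ

include ht he hu hid in
/-- The antisymmetrizer vanishes for large `n` on an object of the heart. -/
lemma alt_heart_zero [IsTriangulated C] {Z : C} (hZ : Hrt t Z) :
    ∃ n : ℕ, alt (𝟙_ C) Z n = 0 := by
  refine ⟨Module.finrank E (R.H.obj Z) + 1, ?_⟩
  have h0 := fun n => pw_hrt ht hu hZ n
  apply faithful_heart ht he hu hid (h0 _) (h0 _)
  have h1 := kap_iso (fun n => he.deg (h0 n)) (Module.finrank E (R.H.obj Z) + 1)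
  rw [← cancel_epi (kap R.H (𝟙_ C) Z (Module.finrank E (R.H.obj Z) + 1)), ← alt_lax,
    alt_vec_zero _ _ _ (Nat.lt_succ_self _), zero_comp, comp_zero]

include ht he hu hid in
/-- Non zero maps from the unit to a pure object of the heart are detected by maps to the unit. -/
theorem heart_pairing [IsTriangulated C] [Linear ℚ C] {Q : C} (hQ : Hrt t Q)
    (Pr : ObjectProperty C) (hPu : Pr (𝟙_ C)) (hPQ : ∀ X, Pr X → Pr (X ⊗ Q))
    (hP0 : ∀ X, Pr X → ∀ (m : ℤ), 0 < m → ∀ f : X ⟶ (𝟙_ C)⟦m⟧, f = 0)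
    (s : 𝟙_ C ⟶ Q) (hs : s ≠ 0) : ∃ r : Q ⟶ 𝟙_ C, s ≫ r ≠ 0 := by
  by_contra hcon
  push Not at hcon
  obtain ⟨Z, q, δ, hT⟩ := distinguished_cocone_triangle s
  have hZ := unit_simple ht hu hid hT hQ hs
  obtain ⟨n, hn⟩ := alt_heart_zero ht he hu hid hZ
  have h1 := starN_ne_zero δ s q hT Pr hPQ (fun X hX m f => un_zero (hP0 X hX) m f) hPu hcon
    (not_isZero_unit R) n
  apply h1
  have h2 := alt_star δ (𝟙 (𝟙_ C)) n
  rw [hn, zero_comp] at h2
  exact zero_of_zsmul _ _ (by exact_mod_cast Nat.factorial_ne_zero n) h2.symm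

end

end Pool.Agent.Y116.MT
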