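import Pool.Agent.Y116.MT.General

/-!
# Independence of the prime number
-/

set_option autoImplicit false
set_option linter.unusedSectionVars false
set_option linter.unusedSimpArgs false
set_option backward.isDefEq.respectTransparency false
set_option backward.defeqAttrib.useBackward true

open CategoryTheory Limits MonoidalCategory Pretriangulated Triangulated

namespace Pool.Agent.Y116.MT

universe v u w

section

variable {C : Type u} [Category.{v} C] [Preadditive C] [HasZeroObject C] [HasShift C ℤ]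
  [∀ n : ℤ, (shiftFunctor C n).Additive] [Pretriangulated C] [IsTriangulated C]
  [MonoidalCategory C] [SymmetricCategory C] [MonoidalPreadditive C] [TensorTriangulated C]
  [RightRigidCategory C] [Linear ℚ C] {Λ : Type*} {E : Λ → Type w} [∀ l, Field (E l)]
  {R : ∀ l, Realisation C (E l)} {Chow : ObjectProperty C} {T : C}

lemma deg_zero_obj {E : Type w} [Field E] {R : Realisation C E} {Q : C} {d : ℤ} (h : R.Deg Q d)
    (hd : d ≠ 0) : IsZero (R.H.obj Q) :=
  (h 0 hd.symm).of_iso (R.H.mapIso ((shiftFunctorZero C ℤ).app Q).symm)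

/-- A t-structure which is motivic for one realisation is motivic for all the realisations. -/
theorem indep [IsIdempotentComplete C]
    (hEnd : ∀ e : 𝟙_ C ⟶ 𝟙_ C, ∃ q : ℚ, e = q • 𝟙 _)
    (hC : IsChow Chow) (hL : HardLefschetz Chow T R)
    (hK : ∀ (P : C) (i : ℤ) (l l' : Λ), Chow P → IsZero ((R l).H.obj (P⟦i⟧)) →
      IsZero ((R l').H.obj (P⟦i⟧)))
    (l₀ : Λ) {t : TStructure C} (ht : IsMotivic t (fun _ : Unit => R l₀)) : IsMotivic t R := by
  have hid := end_idem hEnd
  have hne : Nonempty Λ := ⟨l₀⟩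
  have hL0 : HardLefschetz Chow T (fun _ : Unit => R l₀) := by
    refine ⟨hL.invertible, fun _ => hL.degree l₀, fun P hP => ?_⟩
    obtain ⟨Q, i, r, e, h1, h2, h3⟩ := hL.lefschetz P hP
    refine ⟨Q, i, r, e, h1, h2, fun k => ?_⟩
    obtain ⟨L, hL⟩ := h3 k
    exact ⟨L, fun _ => hL l₀⟩
  obtain ⟨h1, h2, h3, h4⟩ := (general_criterion hEnd hC hL0).1 ⟨t, ht⟩
  have hA : ∀ P : C, Chow P → ∃ (n : ℕ) (Q : Fin n → C) (d : Fin n → ℤ), (∀ j, Chow (Q j)) ∧
      (∀ j l, (R l).Deg (Q j) (d j)) ∧ Nonempty (P ≅ ⨁ Q) := by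
    intro P hP
    obtain ⟨n, Q, d, h5, h6, h7⟩ := h1 P hP
    exact ⟨n, Q, d, h5, fun j l i hi => hK (Q j) i l₀ l (h5 j) (h6 j () i hi), h7⟩
  have key : ∃ t' : TStructure C, IsMotivic t' R := by
    refine (general_criterion hEnd hC hL).2 ⟨hA, ?_, ?_, ?_⟩
    · intro P i n f hP hd hn hni
      exact h2 P i n f hP (fun _ => hd l₀) hn hni
    · intro P s hP hd hs
      exact h3 P s hP (fun _ => hd l₀) (fun _ => hs l₀)
    · intro P s hP hs l
      obtain ⟨n, Q, d, h5, h6, ⟨e⟩⟩ := hA P hP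
      have e1 : s = ∑ j, (s ≫ e.hom ≫ biproduct.π Q j) ≫ biproduct.ι Q j ≫ e.inv := by
        have e2 : s = s ≫ e.hom ≫ (∑ j, biproduct.π Q j ≫ biproduct.ι Q j) ≫ e.inv := by
          rw [biproduct.total, Category.id_comp, Iso.hom_inv_id, Category.comp_id]
        conv_lhs => rw [e2]
        simp only [Preadditive.sum_comp, Preadditive.comp_sum, Category.assoc]
      rw [e1, Functor.map_sum]
      refine Finset.sum_eq_zero fun j _ => ?_
      rw [Functor.map_comp]
      by_cases hd : d j = 0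
      · have h7 : s ≫ e.hom ≫ biproduct.π Q j = 0 := by
          refine h3 (Q j) _ (h5 j) (fun _ => hd ▸ h6 j l₀) (fun _ => ?_)
          refine h4 (Q j) _ (h5 j) (fun r => ?_) ()
          rw [Category.assoc, Category.assoc]
          exact hs _
        rw [h7, Functor.map_zero, zero_comp]
      · rw [(deg_zero_obj (h6 j l) hd).eq_of_tgt
          ((R l).H.map (s ≫ e.hom ≫ biproduct.π Q j)) 0, zero_comp]
  obtain ⟨t', ht'⟩ := key
  have hle : ∀ (X : C), t.le 0 X → t'.le 0 X := fun X hX =>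
    (isLE_of_H ht'.compat (ht'.exact l₀) (unit_hrt ht'.compat ht'.nondeg_le ht'.nondeg_ge) hid
      ht'.nondeg_le ht'.nondeg_ge (ht.exact_le () X hX)).le
  have hge : ∀ (X : C), t.ge 0 X → t'.ge 0 X := fun X hX =>
    (isGE_of_H ht'.compat (ht'.exact l₀) (unit_hrt ht'.compat ht'.nondeg_le ht'.nondeg_ge) hid
      ht'.nondeg_le ht'.nondeg_ge (ht.exact_ge () X hX)).ge
  exact ⟨ht.nondeg_le, ht.nondeg_ge, ht.tensor_le, ht.tensor_ge,
    fun l X hX => ht'.exact_le l X (hle X hX), fun l X hX => ht'.exact_ge l X (hge X hX)⟩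

end

end Pool.Agent.Y116.MT
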