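import Pool.Agent.Y116.MT.KP1

/-!
# Künneth projectors
-/

set_option autoImplicit false
set_option linter.unusedSectionVars false
set_option linter.unusedSimpArgs false
set_option backward.isDefEq.respectTransparency false
set_option backward.defeqAttrib.useBackward true

open CategoryTheory Limits MonoidalCategory Pretriangulated Triangulated

namespace Pool.Agent.Y116.MT

universe v u w

section

variable {C : Type u} [Category.{v} C] [Preadditive C] [HasZeroObject C] [HasShift C ℤ]
  [∀ n : ℤ, (shiftFunctor C n).Additive] [Pretriangulated C] [MonoidalCategory C]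
  [SymmetricCategory C] [TensorTriangulated C] {Λ : Type*} {E : Λ → Type w} [∀ l, Field (E l)]

/-- `X` has a Künneth projector of degree `n`. -/
def KP (R : ∀ l, Realisation C (E l)) (X : C) (n : ℤ) : Prop :=
  ∃ π : X ⟶ X, ∀ l, (R l).H.map (π⟦n⟧') = 𝟙 _ ∧ ∀ i, i ≠ n → (R l).H.map (π⟦i⟧') = 0

variable {R : ∀ l, Realisation C (E l)}

lemma KP.retract {X Y : C} {n : ℤ} (h : KP R X n) (i : Y ⟶ X) (r : X ⟶ Y) (hir : i ≫ r = 𝟙 _) :
    KP R Y n := by
  obtain ⟨π, hπ⟩ := h
  refine ⟨i ≫ π ≫ r, fun l => ⟨?_, fun j hj => ?_⟩⟩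
  · rw [Functor.map_comp, Functor.map_comp, Functor.map_comp, Functor.map_comp, (hπ l).1,
      Category.id_comp, ← Functor.map_comp, ← Functor.map_comp, hir, CategoryTheory.Functor.map_id,
      CategoryTheory.Functor.map_id]
  · rw [Functor.map_comp, Functor.map_comp, Functor.map_comp, Functor.map_comp, (hπ l).2 j hj,
      zero_comp, comp_zero]

lemma KP.of_zero {X : C} {n : ℤ} (h : ∀ l, IsZero ((R l).H.obj (X⟦n⟧))) : KP R X n :=
  ⟨0, fun l => ⟨(h l).eq_of_src _ _, fun i _ => by rw [Functor.map_zero, Functor.map_zero]⟩⟩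

lemma KP.of_deg {X : C} {a n : ℤ} (h : ∀ l, (R l).Deg X a) : KP R X n := by
  by_cases hn : n = a
  · subst hn
    exact ⟨𝟙 _, fun l => ⟨by rw [CategoryTheory.Functor.map_id, CategoryTheory.Functor.map_id],
      fun i hi => (h l i hi).eq_of_src _ _⟩⟩
  · exact KP.of_zero fun l => h l n hn

lemma KP.ext {X M : C} {n : ℤ} (h : KP R M n) (i : M ⟶ X) (r : X ⟶ M)
    (hri : ∀ l, (R l).H.map ((r ≫ i)⟦n⟧') = 𝟙 _) : KP R X n := by
  obtain ⟨π, hπ⟩ := h
  refine ⟨r ≫ π ≫ i, fun l => ⟨?_, fun j hj => ?_⟩⟩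
  · have h1 := hri l
    rw [Functor.map_comp, Functor.map_comp] at h1
    rw [Functor.map_comp, Functor.map_comp, Functor.map_comp, Functor.map_comp, (hπ l).1,
      Category.id_comp, h1]
  · rw [Functor.map_comp, Functor.map_comp, Functor.map_comp, Functor.map_comp, (hπ l).2 j hj,
      zero_comp, comp_zero]

lemma KP.iso {X Y : C} {n : ℤ} (h : KP R X n) (e : X ≅ Y) : KP R Y n :=
  h.retract e.inv e.hom e.inv_hom_id

/-- The degree of a twist. -/
lemma twist_zero [MonoidalPreadditive C] [RightRigidCategory C] [Linear ℚ C] {E : Type w} [Field E] {R : Realisation C E} {T : C} (hT : R.Deg T (-2)) {X : C}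
    (k : ℕ) : ∀ {j : ℤ}, IsZero (R.H.obj (X⟦j + 2 * k⟧)) → IsZero (R.H.obj ((twist T X k)⟦j⟧)) := by
  induction k with
  | zero =>
    intro j h
    have h1 : j + 2 * ((0 : ℕ) : ℤ) = j := by simp
    rw [h1] at h
    exact h
  | succ k ih =>
    intro j h
    refine isZero_tensor fun a b hab => ?_
    by_cases hb : b = -2
    · left
      apply ih
      rwa [show a + 2 * (k : ℤ) = j + 2 * ((k + 1 : ℕ) : ℤ) by push_cast; omega]
    · exact Or.inr (hT b hb)

/-- Untwisting of Künneth projectors. -/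
lemma KP.untensor [MonoidalPreadditive C] {T T' : C} (e : T ⊗ T' ≅ 𝟙_ C)
    (hT' : ∀ l, (R l).Deg T' 2) {X : C} {n : ℤ} (h : KP R (X ⊗ T) n) : KP R X (n + 2) := by
  obtain ⟨π, hπ⟩ := h
  have h1 : KP R ((X ⊗ T) ⊗ T') (n + 2) := by
    refine ⟨π ▷ T', fun l => ⟨?_, fun j hj => ?_⟩⟩
    · rw [← sub_eq_zero]
      have h2 : (R l).H.map (((π - 𝟙 _) ▷ T')⟦n + 2⟧') = 0 := by
        have h3 := map_tensor_shift_zero (R := R l) (π - 𝟙 _) (𝟙 T') (n + 2) (fun i => by
          by_cases hi : i = n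
          · left
            subst hi
            rw [Functor.map_sub, Functor.map_sub, (hπ l).1, CategoryTheory.Functor.map_id,
              CategoryTheory.Functor.map_id, sub_self]
          · right
            exact ((hT' l) (n + 2 - i) (by omega)).eq_of_src _ _)
        rwa [MonoidalCategory.whiskerLeft_id, Category.comp_id] at h3
      have h3 : (π - 𝟙 (X ⊗ T)) ▷ T' = π ▷ T' - 𝟙 (X ⊗ T) ▷ T' := (tensorRight T').map_sub
      rw [h3, id_whiskerRight, Functor.map_sub, Functor.map_sub, CategoryTheory.Functor.map_id,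
        CategoryTheory.Functor.map_id] at h2
      exact h2
    · have h3 := map_tensor_shift_zero (R := R l) π (𝟙 T') j (fun i => by
        by_cases hi : i = n
        · right
          exact ((hT' l) (j - i) (by omega)).eq_of_src _ _
        · left
          exact (hπ l).2 i hi)
      rwa [MonoidalCategory.whiskerLeft_id, Category.comp_id] at h3
  exact h1.iso (α_ X T T' ≪≫ whiskerLeftIso X e ≪≫ ρ_ X)

lemma KP.untwist [MonoidalPreadditive C] {T T' : C} (e : T ⊗ T' ≅ 𝟙_ C)
    (hT' : ∀ l, (R l).Deg T' 2) {X : C} (k : ℕ) :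
    ∀ {n : ℤ}, KP R (twist T X k) n → KP R X (n + 2 * k) := by
  induction k with
  | zero =>
    intro n h
    rw [show n + 2 * ((0 : ℕ) : ℤ) = n by simp]
    exact h
  | succ k ih =>
    intro n h
    have h1 := ih (KP.untensor e hT' h)
    rwa [show n + 2 + 2 * (k : ℤ) = n + 2 * ((k + 1 : ℕ) : ℤ) by push_cast; ring] at h1

lemma deg_inverse [MonoidalPreadditive C] [RightRigidCategory C] [Linear ℚ C] {E : Type w} [Field E] {R : Realisation C E} {T T' : C} (e : T ⊗ T' ≅ 𝟙_ C)
    (hT : R.Deg T (-2)) : R.Deg T' 2 := by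
  intro i hi
  by_contra h
  have h1 : ¬ IsZero (R.H.obj (T⟦(-2 : ℤ)⟧)) := by
    intro h2
    apply not_isZero_H_unit R
    have h3 : IsZero (R.H.obj ((T ⊗ T')⟦(0 : ℤ)⟧)) := isZero_tensor fun a b _ => by
      left
      by_cases ha : a = -2
      · subst ha; exact h2
      · exact hT a ha
    exact h3.of_iso (R.H.mapIso (((shiftFunctorZero C ℤ).app _).symm ≪≫
      (shiftFunctor C (0 : ℤ)).mapIso e.symm))
  have h2 := not_isZero_tensor h1 h
  apply h2
  exact ((deg_unit (R := R)) (-2 + i) (by omega)).of_iso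
    (R.H.mapIso ((shiftFunctor C (-2 + i)).mapIso e))

end

section

variable {C : Type u} [Category.{v} C] [Preadditive C] [HasZeroObject C] [HasShift C ℤ]
  [∀ n : ℤ, (shiftFunctor C n).Additive] [Pretriangulated C] [MonoidalCategory C]
  [SymmetricCategory C] [TensorTriangulated C] [RightRigidCategory C] [MonoidalPreadditive C]
  [Linear ℚ C] [IsIdempotentComplete C] {Λ : Type*} [Nonempty Λ] {E : Λ → Type w}
  [∀ l, Field (E l)] {R : ∀ l, Realisation C (E l)} {Chow : ObjectProperty C}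

omit [Nonempty Λ] [MonoidalPreadditive C] [Linear ℚ C] in
/-- Künneth projectors split if homologically trivial endomorphisms are nilpotent. -/
theorem KP.split (hN : ∀ (P : C) (f : P ⟶ P), Chow P → (∀ l, HTriv (R l) f) →
      IsNilpotent (show End P from f)) {X : C} (hX : Chow X) {n : ℤ} (h : KP R X n) :
    ∃ A B : C, Nonempty (Dc X A B) ∧ (∀ l, (R l).Deg A n) ∧
      ∀ l, IsZero ((R l).H.obj (B⟦n⟧)) := by
  obtain ⟨π, hπ⟩ := h
  let x : End X := π
  have h1 : ∀ l, HTriv (R l) (π - π ≫ π) := by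
    intro l i
    rw [Functor.map_sub, Functor.map_sub, Functor.map_comp, Functor.map_comp]
    by_cases hi : i = n
    · subst hi
      rw [(hπ l).1, Category.comp_id, sub_self]
    · rw [(hπ l).2 i hi, comp_zero, sub_self]
  obtain ⟨m, hm⟩ := hN X _ hX h1
  have hm1 : (x - x ^ 2) ^ (m + 1) = 0 := by
    have h2 : x - x ^ 2 = (show End X from π - π ≫ π) := by
      rw [pow_two]
      rfl
    rw [h2, pow_succ]
    exact (congrArg (· * (show End X from π - π ≫ π)) hm).trans (zero_mul _)
  let e0 : End X := 1 - (1 - x ^ (m + 1)) ^ (m + 1)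
  let e : X ⟶ X := e0
  have he : e ≫ e = e := isIdempotentElem_one_sub_one_sub_pow_pow x (m + 1) hm1
  have he' : (𝟙 X - e) ≫ (𝟙 X - e) = 𝟙 X - e := by
    rw [Preadditive.comp_sub, Category.comp_id, Preadditive.sub_comp, Category.id_comp, he,
      sub_self, sub_zero]
  -- the realisations
  let ρ : ∀ (l : Λ) (i : ℤ), End X →+* End ((R l).H.obj (X⟦i⟧)) := fun l i =>
    { toFun := fun a => (R l).H.map (a⟦i⟧')
      map_one' := by
        change (R l).H.map ((𝟙 X)⟦i⟧') = _
        rw [CategoryTheory.Functor.map_id, CategoryTheory.Functor.map_id]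
        rfl
      map_mul' := fun a b => by
        change (R l).H.map ((b ≫ a)⟦i⟧') = _
        rw [Functor.map_comp, Functor.map_comp]
        rfl
      map_zero' := by
        change (R l).H.map ((0 : X ⟶ X)⟦i⟧') = _
        rw [Functor.map_zero, Functor.map_zero]
      map_add' := fun a b => by
        change (R l).H.map ((a + b)⟦i⟧') = _
        rw [Functor.map_add, Functor.map_add] }
  have hρ1 : ∀ l, ρ l n e0 = 1 := by
    intro l
    have h2 : ρ l n x = 1 := (hπ l).1
    simp only [e0, map_sub, map_one, map_pow, h2, one_pow, sub_self]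
    simp
  have hρ0 : ∀ l i, i ≠ n → ρ l i e0 = 0 := by
    intro l i hi
    have h2 : ρ l i x = 0 := (hπ l).2 i hi
    simp only [e0, map_sub, map_one, map_pow, h2, ne_eq, Nat.add_eq_zero_iff, one_ne_zero,
      and_false, not_false_eq_true, zero_pow, sub_zero, one_pow, sub_self]
  obtain ⟨A, i, p, hip, hpi⟩ := IsIdempotentComplete.idempotents_split X e he
  obtain ⟨B, j, q, hjq, hqj⟩ := IsIdempotentComplete.idempotents_split X (𝟙 X - e) he'
  have h2 : i = i ≫ e := by rw [← hpi, ← Category.assoc, hip, Category.id_comp]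
  have h3 : j = j ≫ (𝟙 X - e) := by rw [← hqj, ← Category.assoc, hjq, Category.id_comp]
  have h4 : q = (𝟙 X - e) ≫ q := by rw [← hqj, Category.assoc, hjq, Category.comp_id]
  have h5 : p = e ≫ p := by rw [← hpi, Category.assoc, hip, Category.comp_id]
  have h6 : e ≫ (𝟙 X - e) = 0 := by rw [Preadditive.comp_sub, Category.comp_id, he, sub_self]
  have h7 : (𝟙 X - e) ≫ e = 0 := by rw [Preadditive.sub_comp, Category.id_comp, he, sub_self]
  refine ⟨A, B, ⟨⟨i, p, j, q, hip, hjq, ?_, ?_, ?_⟩⟩, ?_, ?_⟩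
  · rw [h2, h4, Category.assoc, reassoc_of% h6, zero_comp, comp_zero]
  · rw [h3, h5, Category.assoc, reassoc_of% h7, zero_comp, comp_zero]
  · rw [hpi, hqj]
    exact add_sub_cancel _ _
  · intro l k hk
    have h8 : (R l).H.map (e⟦k⟧') = 0 := hρ0 l k hk
    have h9 : 𝟙 ((R l).H.obj (A⟦k⟧)) = (R l).H.map (i⟦k⟧') ≫ (R l).H.map (e⟦k⟧') ≫
        (R l).H.map (p⟦k⟧') := by
      rw [← Functor.map_comp, ← Functor.map_comp, ← Functor.map_comp, ← Functor.map_comp, ← h5,
        hip, CategoryTheory.Functor.map_id, CategoryTheory.Functor.map_id]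
    rw [IsZero.iff_id_eq_zero, h9, h8, zero_comp, comp_zero]
  · intro l
    have h8 : (R l).H.map ((𝟙 X - e)⟦n⟧') = 0 := by
      rw [Functor.map_sub, Functor.map_sub, CategoryTheory.Functor.map_id,
        CategoryTheory.Functor.map_id, sub_eq_zero]
      exact (hρ1 l).symm
    have h9 : 𝟙 ((R l).H.obj (B⟦n⟧)) = (R l).H.map (j⟦n⟧') ≫ (R l).H.map ((𝟙 X - e)⟦n⟧') ≫
        (R l).H.map (q⟦n⟧') := by
      rw [← Functor.map_comp, ← Functor.map_comp, ← Functor.map_comp, ← Functor.map_comp, ← h4,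
        hjq, CategoryTheory.Functor.map_id, CategoryTheory.Functor.map_id]
    rw [IsZero.iff_id_eq_zero, h9, h8, zero_comp, comp_zero]

end

end Pool.Agent.Y116.MT
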