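import Pool.Agent.Y116.MT.KP2

/-!
# Chow-Künneth decompositions from the hard Lefschetz theorem, the standard conjecture D and
nilpotence
-/

set_option autoImplicit false
set_option linter.unusedSectionVars false
set_option linter.unusedSimpArgs false
set_option backward.isDefEq.respectTransparency false
set_option backward.defeqAttrib.useBackward true

open CategoryTheory Limits MonoidalCategory Pretriangulated Triangulated

namespace Pool.Agent.Y116.MT

universe v u w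

section

variable {C : Type u} [Category.{v} C] [Preadditive C] [HasZeroObject C] [HasShift C ℤ]
  [∀ n : ℤ, (shiftFunctor C n).Additive] [Pretriangulated C] [MonoidalCategory C]
  [SymmetricCategory C] [TensorTriangulated C] [RightRigidCategory C] [MonoidalPreadditive C]
  [Linear ℚ C]

lemma not_isZero_T {E : Type w} [Field E] {R : Realisation C E} {T T' : C} (e : T ⊗ T' ≅ 𝟙_ C)
    (hT : R.Deg T (-2)) : ¬ IsZero (R.H.obj (T⟦(-2 : ℤ)⟧)) := by
  intro h2
  apply not_isZero_H_unit R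
  have h3 : IsZero (R.H.obj ((T ⊗ T')⟦(0 : ℤ)⟧)) := isZero_tensor fun a b _ => by
    left
    by_cases ha : a = -2
    · subst ha; exact h2
    · exact hT a ha
  exact h3.of_iso (R.H.mapIso (((shiftFunctorZero C ℤ).app _).symm ≪≫
    (shiftFunctor C (0 : ℤ)).mapIso e.symm))

lemma twist_zero' {E : Type w} [Field E] {R : Realisation C E} {T T' : C} (e : T ⊗ T' ≅ 𝟙_ C)
    (hT : R.Deg T (-2)) {X : C} (k : ℕ) :
    ∀ {j : ℤ}, IsZero (R.H.obj ((twist T X k)⟦j⟧)) → IsZero (R.H.obj (X⟦j + 2 * k⟧)) := by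
  induction k with
  | zero =>
    intro j h
    have h1 : j + 2 * ((0 : ℕ) : ℤ) = j := by simp
    rw [h1]
    exact h
  | succ k ih =>
    intro j h
    have h1 : IsZero (R.H.obj ((twist T X k)⟦j + 2⟧)) := by
      by_contra hne
      have h2 := not_isZero_tensor hne (not_isZero_T e hT)
      apply h2
      rw [show j + 2 + -2 = j by ring]
      exact h
    have h2 := ih h1
    rwa [show j + 2 + 2 * (k : ℤ) = j + 2 * ((k + 1 : ℕ) : ℤ) by push_cast; ring] at h2

lemma chow_twist {Chow : ObjectProperty C} (hC : IsChow Chow) {T Q : C} (hT : Chow T)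
    (hQ : Chow Q) (k : ℕ) : Chow (twist T Q k) := by
  induction k with
  | zero => exact hQ
  | succ k ih => exact hC.tensor _ _ ih hT

lemma isZero_of_retract_H {E : Type w} [Field E] {R : Realisation C E} {X Y : C} {n : ℤ}
    (h : IsZero (R.H.obj (Y⟦n⟧))) (i : X ⟶ Y) (r : Y ⟶ X) (hir : i ≫ r = 𝟙 _) :
    IsZero (R.H.obj (X⟦n⟧)) := by
  rw [IsZero.iff_id_eq_zero, ← CategoryTheory.Functor.map_id, ← CategoryTheory.Functor.map_id,
    ← hir, Functor.map_comp, Functor.map_comp, h.eq_of_tgt (R.H.map (i⟦n⟧')) 0, zero_comp]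

end

section

variable {C : Type u} [Category.{v} C] [Preadditive C] [HasZeroObject C] [HasShift C ℤ]
  [∀ n : ℤ, (shiftFunctor C n).Additive] [Pretriangulated C] [MonoidalCategory C]
  [SymmetricCategory C] [TensorTriangulated C] [RightRigidCategory C] [MonoidalPreadditive C]
  [Linear ℚ C] [IsIdempotentComplete C] {Λ : Type*} [Nonempty Λ] {E : Λ → Type w}
  [∀ l, Field (E l)] {R : ∀ l, Realisation C (E l)} {Chow : ObjectProperty C} {T : C}
  (hEnd : ∀ e : 𝟙_ C ⟶ 𝟙_ C, ∃ q : ℚ, e = q • 𝟙 _) (hC : IsChow Chow) (hT : Chow T)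
  (hL : HardLefschetz Chow T R)
  (hN : ∀ (P : C) (f : P ⟶ P), Chow P → (∀ l, HTriv (R l) f) → IsNilpotent (show End P from f))
  (hD : ∀ (P : C) (s : 𝟙_ C ⟶ P), Chow P → (∀ r : P ⟶ 𝟙_ C, s ≫ r = 0) →
      ∀ l, (R l).H.map s = 0)

include hEnd hC hT hL hN hD

/-- Künneth projectors of an object with Lefschetz maps. -/
theorem kp_lef (i : ℕ) : ∀ (Q : C) (e : ℤ), Chow Q →
    (∀ l, ∀ j < e - i, IsZero ((R l).H.obj (Q⟦j⟧))) →
    (∀ l, ∀ j, e + i < j → IsZero ((R l).H.obj (Q⟦j⟧))) →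
    (∀ k : ℕ, k ≤ i → ∃ L : Q ⟶ twist T Q k, ∀ l, IsIso ((R l).H.map (L⟦e - k⟧'))) →
    ∀ n, KP R Q n := by
  obtain ⟨T', ⟨eT⟩⟩ := hL.invertible
  induction i with
  | zero =>
    intro Q e _ h1 h2 _ n
    refine KP.of_deg (a := e) fun l j hj => ?_
    rcases lt_or_gt_of_ne hj with h | h
    · exact h1 l j (by simpa using h)
    · exact h2 l j (by simpa using h)
  | succ i ih =>
    intro Q e hQ h1 h2 hLef
    obtain ⟨L, hL1⟩ := hLef (i + 1) le_rfl
    have hY : Chow (twist T Q (i + 1)) := chow_twist hC hT hQ _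
    have hYd : ∀ l, ∀ j, e - ((i + 1 : ℕ) : ℤ) < j →
        IsZero ((R l).H.obj ((twist T Q (i + 1))⟦j⟧)) := fun l j hj =>
      twist_zero (hL.degree l) _ (h2 l _ (by push_cast at hj ⊢; omega))
    obtain ⟨b, hb⟩ := split_low hEnd hC hD hQ hY L (e - ((i + 1 : ℕ) : ℤ)) h1 hYd hL1
    have k1 : KP R Q (e - ((i + 1 : ℕ) : ℤ)) := by
      refine ⟨L ≫ b, fun l => ⟨hb l, fun j hj => ?_⟩⟩
      rw [Functor.map_comp, Functor.map_comp]
      rcases lt_or_gt_of_ne hj with h | h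
      · rw [(h1 l j h).eq_of_src ((R l).H.map (L⟦j⟧')) 0, zero_comp]
      · rw [(hYd l j h).eq_of_tgt ((R l).H.map (L⟦j⟧')) 0, zero_comp]
    have k2 : KP R (twist T Q (i + 1)) (e - ((i + 1 : ℕ) : ℤ)) := by
      refine ⟨b ≫ L, fun l => ⟨?_, fun j hj => ?_⟩⟩
      · have h3 := hL1 l
        have h4 := hb l
        rw [Functor.map_comp, Functor.map_comp] at h4
        rw [Functor.map_comp, Functor.map_comp,
          ← cancel_epi ((R l).H.map (L⟦e - ((i + 1 : ℕ) : ℤ)⟧')), ← Category.assoc, h4,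
          Category.id_comp, Category.comp_id]
      · rw [Functor.map_comp, Functor.map_comp]
        rcases lt_or_gt_of_ne hj with h | h
        · rw [(h1 l j h).eq_of_tgt ((R l).H.map (b⟦j⟧')) 0, zero_comp]
        · rw [(hYd l j h).eq_of_src ((R l).H.map (b⟦j⟧')) 0, zero_comp]
    have k3 : KP R Q (e + ((i + 1 : ℕ) : ℤ)) := by
      have := KP.untwist eT (fun l => deg_inverse eT (hL.degree l)) (i + 1) k2
      rwa [show e - ((i + 1 : ℕ) : ℤ) + 2 * ((i + 1 : ℕ) : ℤ) = e + ((i + 1 : ℕ) : ℤ) by ring]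
        at this
    obtain ⟨A, B, ⟨d⟩, hA, hB⟩ := KP.split hN hQ k1
    have hBc : Chow B := hC.retract _ _ d.j d.q d.jq hQ
    obtain ⟨A', M, ⟨d'⟩, hA', hM⟩ := KP.split hN hBc (k3.retract d.j d.q d.jq)
    have hMc : Chow M := hC.retract _ _ d'.j d'.q d'.jq hBc
    have hir : (d'.j ≫ d.j) ≫ d.q ≫ d'.q = 𝟙 _ := by
      rw [Category.assoc, ← Category.assoc d.j, d.jq, Category.id_comp, d'.jq]
    have htot : d.p ≫ d.i + (d.q ≫ d'.q) ≫ (d'.j ≫ d.j) + (d.q ≫ d'.p) ≫ (d'.i ≫ d.j) =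
        𝟙 Q := by
      have e1 : d.p ≫ d.i + (d.q ≫ d'.q) ≫ (d'.j ≫ d.j) + (d.q ≫ d'.p) ≫ (d'.i ≫ d.j) =
          d.p ≫ d.i + d.q ≫ (d'.p ≫ d'.i + d'.q ≫ d'.j) ≫ d.j := by
        simp only [Preadditive.comp_add, Preadditive.add_comp, Category.assoc]
        abel
      rw [e1, d'.total, Category.id_comp, d.total]
    have m1 : ∀ l, ∀ j < e - i, IsZero ((R l).H.obj (M⟦j⟧)) := by
      intro l j hj
      by_cases hj' : j = e - ((i + 1 : ℕ) : ℤ)
      · subst hj'
        exact isZero_of_retract_H (hB l) d'.j d'.q d'.jq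
      · exact isZero_of_retract_H (h1 l j (by push_cast at hj' ⊢; omega)) _ _ hir
    have m2 : ∀ l, ∀ j, e + i < j → IsZero ((R l).H.obj (M⟦j⟧)) := by
      intro l j hj
      by_cases hj' : j = e + ((i + 1 : ℕ) : ℤ)
      · subst hj'
        exact hM l
      · exact isZero_of_retract_H (h2 l j (by push_cast at hj' ⊢; omega)) _ _ hir
    have hiso : ∀ l, ∀ j : ℤ, e - i ≤ j → j ≤ e + i →
        IsIso ((shiftFunctor C j ⋙ (R l).H).map (d'.j ≫ d.j)) ∧
          IsIso ((shiftFunctor C j ⋙ (R l).H).map (d.q ≫ d'.q)) := by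
      intro l j hj1 hj2
      exact iso_of_total (shiftFunctor C j ⋙ (R l).H) hir htot
        (hA l j (by push_cast; omega)) (hA' l j (by push_cast; omega))
    have kM : ∀ n, KP R M n := by
      refine ih M e hMc m1 m2 ?_
      intro k hk
      obtain ⟨L, hL1⟩ := hLef k (by omega)
      have hir' : twistMap T (d'.j ≫ d.j) k ≫ twistMap T (d.q ≫ d'.q) k = 𝟙 _ := by
        rw [← twistMap_comp, hir, twistMap_id]
      have htot' : twistMap T d.p k ≫ twistMap T d.i k +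
          twistMap T (d.q ≫ d'.q) k ≫ twistMap T (d'.j ≫ d.j) k +
          twistMap T (d.q ≫ d'.p) k ≫ twistMap T (d'.i ≫ d.j) k = 𝟙 _ := by
        rw [← twistMap_comp, ← twistMap_comp, ← twistMap_comp, ← twistMap_add, ← twistMap_add,
          htot, twistMap_id]
      refine ⟨(d'.j ≫ d.j) ≫ L ≫ twistMap T (d.q ≫ d'.q) k, fun l => ?_⟩
      have i1 := (hiso l (e - k) (by omega) (by omega)).1
      have z3 : IsZero ((R l).H.obj ((twist T A k)⟦e - (k : ℤ)⟧)) :=
        twist_zero (hL.degree l) k (hA l _ (by push_cast; omega))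
      have z4 : IsZero ((R l).H.obj ((twist T A' k)⟦e - (k : ℤ)⟧)) :=
        twist_zero (hL.degree l) k (hA' l _ (by push_cast; omega))
      obtain ⟨-, i2⟩ := iso_of_total (shiftFunctor C (e - k) ⋙ (R l).H) hir' htot' z3 z4
      have i3 : IsIso ((shiftFunctor C (e - k) ⋙ (R l).H).map L) := hL1 l
      change IsIso ((shiftFunctor C (e - k) ⋙ (R l).H).map
        ((d'.j ≫ d.j) ≫ L ≫ twistMap T (d.q ≫ d'.q) k))
      rw [Functor.map_comp (shiftFunctor C (e - k) ⋙ (R l).H) (d'.j ≫ d.j),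
        Functor.map_comp (shiftFunctor C (e - k) ⋙ (R l).H) L]
      infer_instance
    intro n
    by_cases hn1 : n = e - ((i + 1 : ℕ) : ℤ)
    · rw [hn1]; exact k1
    by_cases hn2 : n = e + ((i + 1 : ℕ) : ℤ)
    · rw [hn2]; exact k3
    by_cases hn3 : n < e - i
    · exact KP.of_zero fun l => h1 l n (by push_cast at hn1 ⊢; omega)
    by_cases hn4 : e + i < n
    · exact KP.of_zero fun l => h2 l n (by push_cast at hn2 ⊢; omega)
    refine KP.ext (kM n) (d'.j ≫ d.j) (d.q ≫ d'.q) fun l => ?_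
    obtain ⟨i1, i2⟩ := hiso l n (by omega) (by omega)
    change (shiftFunctor C n ⋙ (R l).H).map ((d.q ≫ d'.q) ≫ (d'.j ≫ d.j)) = 𝟙 _
    rw [Functor.map_comp]
    have h5 : (shiftFunctor C n ⋙ (R l).H).map (d'.j ≫ d.j) ≫
        (shiftFunctor C n ⋙ (R l).H).map (d.q ≫ d'.q) = 𝟙 _ := by
      rw [← Functor.map_comp, hir, CategoryTheory.Functor.map_id]
    rw [← cancel_mono ((shiftFunctor C n ⋙ (R l).H).map (d.q ≫ d'.q)), Category.assoc, h5,
      Category.comp_id, Category.id_comp]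

omit hT hL in
/-- An object with all its Künneth projectors is a sum of objects in one degree. -/
theorem good_of_kp (l₀ : Λ) (m : ℕ) : ∀ (X : C) (a b : ℤ), b - a < m → Chow X →
    (∀ n, KP R X n) → (∀ i < a, IsZero ((R l₀).H.obj (X⟦i⟧))) →
    (∀ i, b < i → IsZero ((R l₀).H.obj (X⟦i⟧))) →
    ∃ (n : ℕ) (Q : Fin n → C) (d : Fin n → ℤ), (∀ j, Chow (Q j)) ∧
      (∀ j l, (R l).Deg (Q j) (d j)) ∧ Nonempty (X ≅ ⨁ Q) := by
  induction m with
  | zero =>
    intro X a b hab hX _ h1 h2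
    have h3 : HTriv (R l₀) (𝟙 X) := by
      intro i
      by_cases hi : i < a
      · exact (h1 i hi).eq_of_src _ _
      · exact (h2 i (by push_cast at hab; omega)).eq_of_src _ _
    obtain ⟨k, hk⟩ := hN X (𝟙 X) hX (htriv_all hEnd hC hD hX hX h3)
    have h4 : IsZero X := by
      rw [IsZero.iff_id_eq_zero]
      have h5 : (1 : End X) ^ k = 0 := hk
      rw [one_pow] at h5
      exact h5
    exact ⟨0, Fin.elim0, Fin.elim0, fun j => j.elim0, fun j => j.elim0, ⟨h4.iso (isZero_fin _)⟩⟩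
  | succ m ih =>
    intro X a b hab hX hK h1 h2
    obtain ⟨A, B, ⟨d⟩, hA, hB⟩ := KP.split hN hX (hK a)
    obtain ⟨n, Q, dg, hQ, hdg, ⟨e⟩⟩ := ih B (a + 1) b (by push_cast at hab; omega)
      (hC.retract _ _ d.j d.q d.jq hX) (fun n => (hK n).retract d.j d.q d.jq)
      (fun i hi => by
        by_cases hi' : i = a
        · subst hi'
          exact hB l₀
        · exact isZero_of_retract_H (h1 i (by omega)) d.j d.q d.jq)
      (fun i hi => isZero_of_retract_H (h2 i hi) d.j d.q d.jq)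
    refine ⟨n + 1, Fin.cons A Q, Fin.cons a dg, ?_, ?_, ⟨?_⟩⟩
    · intro j
      refine Fin.cases ?_ (fun j => ?_) j
      · exact hC.retract _ _ d.i d.p d.ip hX
      · exact hQ j
    · intro j
      refine Fin.cases ?_ (fun j => ?_) j
      · exact hA
      · exact hdg j
    · exact d.toIso ≪≫ biprod.mapIso (Iso.refl A) e ≪≫ (finSucc (Fin.cons A Q)).symm

/-- Chow-Künneth decompositions. -/
theorem kunneth_of : ∀ P : C, Chow P → ∃ (n : ℕ) (Q : Fin n → C) (d : Fin n → ℤ),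
    (∀ j, Chow (Q j)) ∧ (∀ j l, (R l).Deg (Q j) (d j)) ∧ Nonempty (P ≅ ⨁ Q) := by
  intro P hP
  obtain ⟨l₀⟩ := ‹Nonempty Λ›
  have hne : Nonempty Λ := ⟨l₀⟩
  obtain ⟨T', ⟨eT⟩⟩ := hL.invertible
  obtain ⟨Q, i, r, e, hir, hQ, hLef⟩ := hL.lefschetz P hP
  obtain ⟨N, hN0⟩ := (R l₀).bounded Q
  have hz : ∀ (k : ℕ), N + e.natAbs < k → ∀ l, IsZero ((R l).H.obj (Q⟦e - k⟧)) ∧
      IsZero ((R l).H.obj (Q⟦e + k⟧)) := by
    intro k hk l
    obtain ⟨L, hL1⟩ := hLef k
    have h1 : HTriv (R l₀) L := by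
      intro j
      by_cases hj : N < j.natAbs
      · exact (hN0 j hj).eq_of_src _ _
      · refine (twist_zero (hL.degree l₀) k (hN0 _ ?_)).eq_of_tgt _ _
        omega
    have h2 := htriv_all hEnd hC hD hQ (chow_twist hC hT hQ k) h1 l (e - k)
    have h3 := hL1 l
    have z1 : IsZero ((R l).H.obj (Q⟦e - (k : ℤ)⟧)) := by
      rw [IsZero.iff_id_eq_zero, ← cancel_mono ((R l).H.map (L⟦e - (k : ℤ)⟧')), h2, comp_zero,
        comp_zero]
    have z2 : IsZero ((R l).H.obj ((twist T Q k)⟦e - (k : ℤ)⟧)) := by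
      rw [IsZero.iff_id_eq_zero, ← cancel_epi ((R l).H.map (L⟦e - (k : ℤ)⟧')), h2, zero_comp,
        zero_comp]
    refine ⟨z1, ?_⟩
    have z3 := twist_zero' eT (hL.degree l) k z2
    rwa [show e - (k : ℤ) + 2 * k = e + k by ring] at z3
  have hkp := kp_lef hEnd hC hT hL hN hD (N + e.natAbs) Q e hQ
    (fun l j hj => by
      have h1 := (hz (e - j).toNat (by rw [Nat.cast_add] at hj; omega) l).1
      rwa [show e - ((e - j).toNat : ℤ) = j by rw [Nat.cast_add] at hj; omega] at h1)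
    (fun l j hj => by
      have h1 := (hz (j - e).toNat (by rw [Nat.cast_add] at hj; omega) l).2
      rwa [show e + ((j - e).toNat : ℤ) = j by rw [Nat.cast_add] at hj; omega] at h1)
    (fun k _ => hLef k)
  obtain ⟨N', hN'⟩ := (R l₀).bounded P
  exact good_of_kp hEnd hC hN hD l₀ (2 * N' + 1) P (-N') N' (by push_cast; omega) hP
    (fun n => (hkp n).retract i r hir) (fun i hi => hN' i (by omega)) (fun i hi => hN' i (by omega))

/-- The criterion with nilpotence instead of Chow-Künneth decompositions. -/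
theorem crit_nil [IsTriangulated C]
    (hB : ∀ (P : C) (i n : ℤ) (f : 𝟙_ C ⟶ P⟦n⟧), Chow P → (∀ l, (R l).Deg P i) → n ≤ i →
      (n ≠ 0 ∨ i ≠ 0) → f = 0)
    (hF : ∀ (P : C) (s : 𝟙_ C ⟶ P), Chow P → (∀ l, (R l).Deg P 0) →
      (∀ l, (R l).H.map s = 0) → s = 0) : ∃ t : TStructure C, IsMotivic t R :=
  (general_criterion hEnd hC hL).2 ⟨kunneth_of hEnd hC hT hL hN hD, hB, hF, hD⟩

end

end Pool.Agent.Y116.MT
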