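import Mathlib

/-!
# Exactness for distinguished triangles, unbundled
-/

set_option autoImplicit false
set_option linter.unusedSectionVars false
set_option backward.isDefEq.respectTransparency false
set_option backward.defeqAttrib.useBackward true

open CategoryTheory Limits Pretriangulated Triangulated

namespace Pool.Agent.Y116.MT

universe v u w

section

variable {C : Type u} [Category.{v} C] [Preadditive C] [HasZeroObject C] [HasShift C ℤ]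
  [∀ n : ℤ, (shiftFunctor C n).Additive] [Pretriangulated C]
  {X Y Z : C} {f : X ⟶ Y} {g : Y ⟶ Z} {h : Z ⟶ X⟦(1 : ℤ)⟧}
  (hT : Triangle.mk f g h ∈ distTriang C)

include hT

lemma comp12 : f ≫ g = 0 := comp_distTriang_mor_zero₁₂ _ hT
lemma comp23 : g ≫ h = 0 := comp_distTriang_mor_zero₂₃ _ hT
lemma comp31 : h ≫ f⟦(1 : ℤ)⟧' = 0 := comp_distTriang_mor_zero₃₁ _ hT

lemma ye2 {W : C} (k : Y ⟶ W) (hk : f ≫ k = 0) : ∃ l : Z ⟶ W, k = g ≫ l :=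
  Triangle.yoneda_exact₂ _ hT k hk

lemma ye3 {W : C} (k : Z ⟶ W) (hk : g ≫ k = 0) : ∃ l : X⟦(1 : ℤ)⟧ ⟶ W, k = h ≫ l :=
  Triangle.yoneda_exact₃ _ hT k hk

lemma ye1 {W : C} (k : X⟦(1 : ℤ)⟧ ⟶ W) (hk : h ≫ k = 0) :
    ∃ l : Y⟦(1 : ℤ)⟧ ⟶ W, k = f⟦(1 : ℤ)⟧' ≫ l := by
  obtain ⟨l, hl⟩ := Triangle.yoneda_exact₃ _ (rot_of_distTriang _ hT) k hk
  refine ⟨-l, ?_⟩
  rw [hl]
  simp

lemma ye1' {W : C} (k : X ⟶ W) (hk : h ≫ k⟦(1 : ℤ)⟧' = 0) :
    ∃ l : Y ⟶ W, k = f ≫ l := by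
  obtain ⟨l, hl⟩ := ye1 hT _ hk
  obtain ⟨l', rfl⟩ := (shiftFunctor C (1 : ℤ)).map_surjective l
  exact ⟨l', (shiftFunctor C (1 : ℤ)).map_injective (by rw [hl, Functor.map_comp])⟩

lemma ce2 {W : C} (k : W ⟶ Y) (hk : k ≫ g = 0) : ∃ l : W ⟶ X, k = l ≫ f :=
  Triangle.coyoneda_exact₂ _ hT k hk

lemma ce3 {W : C} (k : W ⟶ Z) (hk : k ≫ h = 0) : ∃ l : W ⟶ Y, k = l ≫ g :=
  Triangle.coyoneda_exact₃ _ hT k hk

lemma ce1 {W : C} (k : W ⟶ X⟦(1 : ℤ)⟧) (hk : k ≫ f⟦(1 : ℤ)⟧' = 0) :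
    ∃ l : W ⟶ Z, k = l ≫ h :=
  Triangle.coyoneda_exact₁ _ hT k hk

/-- The rotated triangle. -/
lemma rotD : Triangle.mk g h (-f⟦(1 : ℤ)⟧') ∈ distTriang C :=
  rot_of_distTriang _ hT

/-- The triangle with two signs changed. -/
lemma signD : Triangle.mk (-f) (-g) h ∈ distTriang C := by
  refine isomorphic_distinguished _ hT _ ?_
  exact Triangle.isoMk _ _ (Iso.refl _) (-(Iso.refl _)) (Iso.refl _)

lemma signD' : Triangle.mk f (-g) (-h) ∈ distTriang C := by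
  refine isomorphic_distinguished _ hT _ ?_
  exact Triangle.isoMk _ _ (Iso.refl _) (Iso.refl _) (-(Iso.refl _))

lemma signD'' : Triangle.mk (-f) g (-h) ∈ distTriang C := by
  refine isomorphic_distinguished _ hT _ ?_
  exact Triangle.isoMk _ _ (-(Iso.refl _)) (Iso.refl _) (Iso.refl _)

/-- If the first map is zero, the connecting map is a split epimorphism. -/
lemma split1 (hf : f = 0) : ∃ t : X⟦(1 : ℤ)⟧ ⟶ Z, t ≫ h = 𝟙 _ := by
  obtain ⟨l, hl⟩ := ce1 hT (𝟙 _) (by rw [hf, Functor.map_zero, comp_zero])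
  exact ⟨l, hl.symm⟩

/-- If the connecting map is zero, the first map is a split monomorphism. -/
lemma split3 (hh : h = 0) : ∃ r : Y ⟶ X, f ≫ r = 𝟙 _ := by
  obtain ⟨l, hl⟩ := ye1' hT (𝟙 X) (by rw [hh, zero_comp])
  exact ⟨l, hl.symm⟩

/-- If the connecting map is zero, the second map is a split epimorphism. -/
lemma split3' (hh : h = 0) : ∃ r : Z ⟶ Y, r ≫ g = 𝟙 _ := by
  obtain ⟨l, hl⟩ := ce3 hT (𝟙 Z) (by rw [hh, comp_zero])
  exact ⟨l, hl.symm⟩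

/-- If the second map is zero, the first map is a split epimorphism. -/
lemma split2 (hg : g = 0) : ∃ r : Y ⟶ X, r ≫ f = 𝟙 _ := by
  obtain ⟨l, hl⟩ := ce2 hT (𝟙 Y) (by rw [hg, comp_zero])
  exact ⟨l, hl.symm⟩

/-- If the second map is zero, the third map is a split monomorphism. -/
lemma split2' (hg : g = 0) : ∃ r : X⟦(1 : ℤ)⟧ ⟶ Z, h ≫ r = 𝟙 _ := by
  obtain ⟨l, hl⟩ := ye3 hT (𝟙 Z) (by rw [hg, zero_comp])
  exact ⟨l, hl.symm⟩

/-- If the first map is zero, the second map is a split monomorphism. -/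
lemma split1' (hf : f = 0) : ∃ r : Z ⟶ Y, g ≫ r = 𝟙 _ := by
  obtain ⟨l, hl⟩ := ye2 hT (𝟙 Y) (by rw [hf, zero_comp])
  exact ⟨l, hl.symm⟩

lemma isIso1_of_isZero3 (hZ : IsZero Z) : IsIso f :=
  (Triangle.isZero₃_iff_isIso₁ _ hT).1 hZ

lemma isZero3_of_isIso1 (hf : IsIso f) : IsZero Z :=
  (Triangle.isZero₃_iff_isIso₁ _ hT).2 hf

lemma isIso2_of_isZero1 (hX : IsZero X) : IsIso g :=
  (Triangle.isZero₁_iff_isIso₂ _ hT).1 hX

lemma isZero1_of_isIso2 (hg : IsIso g) : IsZero X :=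
  (Triangle.isZero₁_iff_isIso₂ _ hT).2 hg

lemma isZero2 (hX : IsZero X) (hZ : IsZero Z) : IsZero Y := by
  rw [IsZero.iff_id_eq_zero]
  obtain ⟨l, hl⟩ := ye2 hT (𝟙 Y) (hX.eq_of_src _ _)
  rw [hl, hZ.eq_of_src l 0, comp_zero]

end

end Pool.Agent.Y116.MT
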