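import Pool.Agent.Y116.MT.Defs
import Pool.Agent.Y116.MT.Tri

/-!
# Powers of the connecting morphism of a non-split map from the unit
-/

set_option autoImplicit false
set_option linter.unusedSectionVars false
set_option linter.unusedSimpArgs false
set_option backward.isDefEq.respectTransparency false
set_option backward.defeqAttrib.useBackward true

open CategoryTheory Limits MonoidalCategory Pretriangulated Triangulated

namespace Pool.Agent.Y116.MT

universe v u w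

section Powers

variable {C : Type u} [Category.{v} C] [MonoidalCategory C]

/-- The left nested power `(((X ⊗ Z) ⊗ Z) ⊗ ⋯) ⊗ Z`. -/
@[reducible] def pw (X Z : C) : ℕ → C
  | 0 => X
  | n + 1 => pw X Z n ⊗ Z

/-- The map of powers induced by a map of the first factor. -/
def pwMap {X Y : C} (f : X ⟶ Y) (Z : C) : ∀ n : ℕ, pw X Z n ⟶ pw Y Z n
  | 0 => f
  | n + 1 => pwMap f Z n ▷ Z

variable [SymmetricCategory C]

/-- The exchange of the last factor with the factor `P`. -/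
def exch (W Z P : C) : (W ⊗ Z) ⊗ P ≅ (W ⊗ P) ⊗ Z :=
  α_ W Z P ≪≫ whiskerLeftIso W (β_ Z P) ≪≫ (α_ W P Z).symm

lemma exch_natural (W Z : C) {P P' : C} (s : P ⟶ P') :
    (W ⊗ Z) ◁ s ≫ (exch W Z P').hom = (exch W Z P).hom ≫ (W ◁ s) ▷ Z := by
  simp only [exch, Iso.trans_hom, whiskerLeftIso_hom, Iso.symm_hom]
  simp only [Category.assoc]
  rw [whisker_assoc]
  simp only [Category.assoc, Iso.inv_hom_id_assoc, Iso.hom_inv_id_assoc]
  rw [← MonoidalCategory.whiskerLeft_comp_assoc, ← BraidedCategory.braiding_naturality_right,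
    MonoidalCategory.whiskerLeft_comp_assoc]
  simp

lemma exch_unit (W Z : C) :
    (ρ_ (W ⊗ Z)).inv ≫ (exch W Z (𝟙_ C)).hom = (ρ_ W).inv ▷ Z := by
  simp [exch]

/-- The isomorphism `Zⁿ`-power of `X`, tensored with `P`, is the power of `X ⊗ P`. -/
def theta (X Z P : C) : ∀ n : ℕ, pw X Z n ⊗ P ≅ pw (X ⊗ P) Z n
  | 0 => Iso.refl _
  | n + 1 => exch (pw X Z n) Z P ≪≫ whiskerRightIso (theta X Z P n) Z

lemma theta_natural (X Z : C) {P : C} (s : 𝟙_ C ⟶ P) (n : ℕ) :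
    (ρ_ (pw X Z n)).inv ≫ (pw X Z n ◁ s) ≫ (theta X Z P n).hom =
      pwMap ((ρ_ X).inv ≫ X ◁ s) Z n := by
  induction n with
  | zero => simp [theta, pwMap]
  | succ n ih =>
    simp only [theta, pwMap, Iso.trans_hom, whiskerRightIso_hom]
    rw [← ih]
    rw [← Category.assoc (_ ◁ s), exch_natural, Category.assoc, ← Category.assoc, exch_unit]
    simp only [comp_whiskerRight]

end Powers

section Star

variable {C : Type u} [Category.{v} C] [Preadditive C] [HasZeroObject C] [HasShift C ℤ]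
  [∀ n : ℤ, (shiftFunctor C n).Additive] [Pretriangulated C] [MonoidalCategory C]
  [SymmetricCategory C] [TensorTriangulated C]

lemma rShift_natural_left {X X' : C} (f : X ⟶ X') (Y : C) (n : ℤ) :
    f ▷ (Y⟦n⟧) ≫ (rShift X' Y n).hom = (rShift X Y n).hom ≫ (f ▷ Y)⟦n⟧' :=
  (NatTrans.shift_app_comm ((tensoringLeft C).map f) n Y).symm

lemma rShift_natural_right (X : C) {Y Y' : C} (f : Y ⟶ Y') (n : ℤ) :
    X ◁ (f⟦n⟧') ≫ (rShift X Y' n).hom = (rShift X Y n).hom ≫ (X ◁ f)⟦n⟧' :=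
  ((tensorLeft X).commShiftIso n).hom.naturality f

/-- A distinguished triangle, tensored with an object. -/
lemma tensor_dist (W : C) {X Y Z : C} {f : X ⟶ Y} {g : Y ⟶ Z} {h : Z ⟶ X⟦(1 : ℤ)⟧}
    (hT : Triangle.mk f g h ∈ distTriang C) :
    Triangle.mk (W ◁ f) (W ◁ g) (W ◁ h ≫ (rShift W X 1).hom) ∈ distTriang C :=
  (tensorLeft W).map_distinguished _ hT

variable (C) in
/-- The iterated shifts of the unit. -/
@[reducible] def un : ℕ → C
  | 0 => 𝟙_ C
  | n + 1 => (un n)⟦(1 : ℤ)⟧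

variable {Z : C} (δ : Z ⟶ (𝟙_ C)⟦(1 : ℤ)⟧)

/-- The product of a class `f : W ⟶ 𝟙⟦n⟧` with `δ`. -/
noncomputable def star {W : C} {n : ℕ} (f : W ⟶ un C n) : W ⊗ Z ⟶ (un C n)⟦(1 : ℤ)⟧ :=
  W ◁ δ ≫ (rShift W (𝟙_ C) 1).hom ≫ ((ρ_ W).hom ≫ f)⟦(1 : ℤ)⟧'

lemma star_comp {W W' : C} (w : W' ⟶ W) {n : ℕ} (f : W ⟶ un C n) :
    star δ (w ≫ f) = w ▷ Z ≫ star δ f := by
  simp only [star]
  rw [← Category.assoc (w ▷ Z), ← whisker_exchange, Category.assoc, ← Category.assoc (w ▷ _),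
    rShift_natural_left, Category.assoc, ← Functor.map_comp, rightUnitor_naturality_assoc]

/-- The product of `u : X ⟶ 𝟙` with the `n`-th power of `δ`. -/
noncomputable def starN {X : C} (u : X ⟶ 𝟙_ C) : ∀ n : ℕ, pw X Z n ⟶ un C n
  | 0 => u
  | n + 1 => star δ (starN u n)

lemma starN_comp {X X' : C} (w : X' ⟶ X) (u : X ⟶ 𝟙_ C) (n : ℕ) :
    starN δ (w ≫ u) n = pwMap w Z n ≫ starN δ u n := by
  induction n with
  | zero => rfl
  | succ n ih =>
    simp only [starN, pwMap]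
    rw [ih, star_comp]

variable [MonoidalPreadditive C]

lemma star_zero (W : C) (n : ℕ) : star δ (0 : W ⟶ un C n) = 0 := by
  simp only [star]
  rw [comp_zero, Functor.map_zero, comp_zero, comp_zero]

lemma star_neg {W : C} {n : ℕ} (f : W ⟶ un C n) : star δ (-f) = -star δ f := by
  simp [star]

lemma starN_zero (X : C) (n : ℕ) : starN δ (0 : X ⟶ 𝟙_ C) n = 0 := by
  induction n with
  | zero => rfl
  | succ n ih => simp only [starN]; rw [ih, star_zero]

section Main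

variable {P : C} (s : 𝟙_ C ⟶ P) (p : P ⟶ Z) (hT : Triangle.mk s p δ ∈ distTriang C)
  (Q : ObjectProperty C) (hQ : ∀ X, Q X → Q (X ⊗ P))
  (hQ0 : ∀ X, Q X → ∀ (m : ℕ) (f : X ⟶ (un C m)⟦(1 : ℤ)⟧), f = 0)

include hT hQ hQ0

/-- Vanishing of the maps from powers to high shifts of the unit. -/
lemma pw_vanish (n : ℕ) : ∀ (X : C), Q X → ∀ (m : ℕ), n ≤ m →
    ∀ g : pw X Z n ⟶ (un C m)⟦(1 : ℤ)⟧, g = 0 := by
  induction n with
  | zero => intro X hX m _ g; exact hQ0 X hX m g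
  | succ n ih =>
    intro X hX m hm g
    obtain ⟨m, rfl⟩ : ∃ k, m = k + 1 := ⟨m - 1, by omega⟩
    have h1 : (pw X Z n ◁ p) ≫ g = 0 := by
      rw [← cancel_epi (theta X Z P n).inv, comp_zero]
      exact ih (X ⊗ P) (hQ X hX) (m + 1) (by omega) _
    obtain ⟨h, hh⟩ := ye3 (tensor_dist (pw X Z n) hT) g h1
    obtain ⟨h', rfl⟩ := (shiftFunctor C (1 : ℤ)).map_surjective h
    have h2 : (ρ_ (pw X Z n)).inv ≫ h' = 0 := ih X hX m (by omega) _
    have h3 : h' = 0 := by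
      rw [← cancel_epi (ρ_ (pw X Z n)).inv, h2, comp_zero]
    rw [hh, h3, Functor.map_zero, comp_zero]

/-- The maps from powers to the critical shift of the unit. -/
lemma pw_surj (n : ℕ) : ∀ (X : C), Q X → ∀ g : pw X Z n ⟶ un C n,
    ∃ u : X ⟶ 𝟙_ C, g = starN δ u n := by
  induction n with
  | zero => intro X hX g; exact ⟨g, rfl⟩
  | succ n ih =>
    intro X hX g
    have h1 : (pw X Z n ◁ p) ≫ g = 0 := by
      rw [← cancel_epi (theta X Z P n).inv, comp_zero]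
      exact pw_vanish δ s p hT Q hQ hQ0 n (X ⊗ P) (hQ X hX) n le_rfl _
    obtain ⟨h, hh⟩ := ye3 (tensor_dist (pw X Z n) hT) g h1
    obtain ⟨h', rfl⟩ := (shiftFunctor C (1 : ℤ)).map_surjective h
    obtain ⟨u, hu⟩ := ih X hX ((ρ_ (pw X Z n)).inv ≫ h')
    refine ⟨u, ?_⟩
    have h3 : h' = (ρ_ (pw X Z n)).hom ≫ starN δ u n := by
      rw [← hu, Iso.hom_inv_id_assoc]
    rw [hh, h3]
    simp only [starN, star, Triangle.mk_mor₃, Category.assoc]

/-- If the `n+1`-st power of `δ` vanishes, the `n`-th power is divisible by a map that factors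
through `s`. -/
lemma star_factor (hQu : Q (𝟙_ C)) (n : ℕ)
    (h0 : star δ (starN δ (𝟙 (𝟙_ C)) n) = 0) :
    ∃ r : P ⟶ 𝟙_ C, starN δ (𝟙 (𝟙_ C)) n = starN δ (s ≫ r) n := by
  obtain ⟨g', hg'⟩ := ye1' (tensor_dist (pw (𝟙_ C) Z n) hT)
    ((ρ_ (pw (𝟙_ C) Z n)).hom ≫ starN δ (𝟙 (𝟙_ C)) n) (by
      simpa only [star, Category.assoc] using h0)
  obtain ⟨u, hu⟩ := pw_surj δ s p hT Q hQ hQ0 n (𝟙_ C ⊗ P) (hQ _ hQu)
    ((theta (𝟙_ C) Z P n).inv ≫ g')
  refine ⟨(λ_ P).inv ≫ u, ?_⟩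
  have h1 : starN δ (𝟙 (𝟙_ C)) n = (ρ_ (pw (𝟙_ C) Z n)).inv ≫ (pw (𝟙_ C) Z n ◁ s) ≫
      (theta (𝟙_ C) Z P n).hom ≫ starN δ u n := by
    rw [← hu, Iso.hom_inv_id_assoc, ← hg', Iso.inv_hom_id_assoc]
  rw [h1, ← Category.assoc, ← Category.assoc, Category.assoc _ _ (theta (𝟙_ C) Z P n).hom,
    theta_natural, ← starN_comp]
  congr 1
  rw [← unitors_inv_equal, ← Category.assoc s, leftUnitor_inv_naturality]

/-- All powers of `δ` are non zero if `s` does not split. -/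
theorem starN_ne_zero (hQu : Q (𝟙_ C))
    (hs : ∀ r : P ⟶ 𝟙_ C, s ≫ r = 0) (h1 : ¬ IsZero (𝟙_ C)) (n : ℕ) :
    starN δ (𝟙 (𝟙_ C)) n ≠ 0 := by
  induction n with
  | zero =>
    intro h
    exact h1 ((IsZero.iff_id_eq_zero _).2 h)
  | succ n ih =>
    intro h
    obtain ⟨r, hr⟩ := star_factor δ s p hT Q hQ hQ0 hQu n h
    rw [hs r, starN_zero] at hr
    exact ih hr

end Main

end Star

end Pool.Agent.Y116.MT
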