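import Pool.Agent.Y116.MT.Crit

/-!
# The Lefschetz decomposition of Deligne
-/

set_option autoImplicit false
set_option linter.unusedSectionVars false
set_option linter.unusedSimpArgs false
set_option backward.isDefEq.respectTransparency false
set_option backward.defeqAttrib.useBackward true

open CategoryTheory Limits MonoidalCategory Pretriangulated Triangulated

namespace Pool.Agent.Y116.MT

universe v u w

section Dc

variable {C : Type u} [Category.{v} C] [Preadditive C]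

/-- `X` is the direct sum of `A` and `B`. -/
structure Dc (X A B : C) where
  i : A ⟶ X
  p : X ⟶ A
  j : B ⟶ X
  q : X ⟶ B
  ip : i ≫ p = 𝟙 A
  jq : j ≫ q = 𝟙 B
  iq : i ≫ q = 0
  jp : j ≫ p = 0
  total : p ≫ i + q ≫ j = 𝟙 X

/-- The direct sum of two decompositions. -/
noncomputable def Dc.sum [HasBinaryBiproducts C] {X A B X' A' B' : C} (d : Dc X A B) (d' : Dc X' A' B') :
    Dc (X ⊞ X') (A ⊞ A') (B ⊞ B') where
  i := biprod.map d.i d'.i
  p := biprod.map d.p d'.p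
  j := biprod.map d.j d'.j
  q := biprod.map d.q d'.q
  ip := by ext <;> simp [d.ip, d'.ip]
  jq := by ext <;> simp [d.jq, d'.jq]
  iq := by ext <;> simp [d.iq, d'.iq]
  jp := by ext <;> simp [d.jp, d'.jp]
  total := by
    have h1 := d.total
    have h2 := d'.total
    ext
    · simp only [Preadditive.add_comp, Preadditive.comp_add, Category.assoc, biprod.inl_map_assoc,
        biprod.inl_fst, Category.comp_id, Category.id_comp]
      exact h1
    · simp
    · simp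
    · simp only [Preadditive.add_comp, Preadditive.comp_add, Category.assoc, biprod.inr_map_assoc,
        biprod.inr_snd, Category.comp_id, Category.id_comp]
      exact h2

/-- Transport of a decomposition. -/
def Dc.iso {X A B X' : C} (d : Dc X A B) (e : X ≅ X') : Dc X' A B where
  i := d.i ≫ e.hom
  p := e.inv ≫ d.p
  j := d.j ≫ e.hom
  q := e.inv ≫ d.q
  ip := by simp [d.ip]
  jq := by simp [d.jq]
  iq := by simp [d.iq]
  jp := by simp [d.jp]
  total := by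
    have := d.total
    calc (e.inv ≫ d.p) ≫ d.i ≫ e.hom + (e.inv ≫ d.q) ≫ d.j ≫ e.hom
        = e.inv ≫ (d.p ≫ d.i + d.q ≫ d.j) ≫ e.hom := by
          simp only [Preadditive.comp_add, Preadditive.add_comp, Category.assoc]
      _ = 𝟙 _ := by rw [this]; simp

/-- A decomposition gives an isomorphism with the biproduct. -/
noncomputable def Dc.toIso [HasBinaryBiproducts C] {X A B : C} (d : Dc X A B) : X ≅ A ⊞ B where
  hom := biprod.lift d.p d.q
  inv := biprod.desc d.i d.j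
  hom_inv_id := by rw [biprod.lift_desc, d.total]
  inv_hom_id := by ext <;> simp [d.ip, d.jq, d.iq, d.jp]

end Dc

section

variable {C : Type u} [Category.{v} C] [Preadditive C] [HasZeroObject C] [HasShift C ℤ]
  [∀ n : ℤ, (shiftFunctor C n).Additive] [Pretriangulated C] [MonoidalCategory C]
  [SymmetricCategory C] [TensorTriangulated C] (t : TStructure C)

/-- The truncation of `X` at `n` splits. -/
def SplAt (n : ℤ) (X : C) : Prop :=
  ∃ A B : C, t.IsLE A n ∧ t.IsGE B (n + 1) ∧ Nonempty (Dc X A B)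

/-- All truncations of `X` split. -/
def Spl (X : C) : Prop := ∀ n, SplAt t n X

variable {t}

omit [MonoidalCategory C] [SymmetricCategory C] [TensorTriangulated C] in
lemma sec_of_ret {X A B : C} {f : A ⟶ X} {g : X ⟶ B} {h : B ⟶ A⟦(1 : ℤ)⟧}
    (hT : Triangle.mk f g h ∈ distTriang C) (ρ : X ⟶ A) (hρ : f ≫ ρ = 𝟙 _) :
    ∃ σ : B ⟶ X, σ ≫ g = 𝟙 _ := by
  have h0 : h = 0 := by
    have h1 : h ≫ f⟦(1 : ℤ)⟧' = 0 := comp31 hT
    have h2 : f⟦(1 : ℤ)⟧' ≫ ρ⟦(1 : ℤ)⟧' = 𝟙 _ := by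
      rw [← Functor.map_comp, hρ, CategoryTheory.Functor.map_id]
    rw [← Category.comp_id h, ← h2, ← Category.assoc, h1, zero_comp]
  exact split3' hT h0

omit [MonoidalCategory C] [SymmetricCategory C] [TensorTriangulated C] in
lemma ret_of_sec {X A B : C} {f : A ⟶ X} {g : X ⟶ B} {h : B ⟶ A⟦(1 : ℤ)⟧}
    (hT : Triangle.mk f g h ∈ distTriang C) (σ : B ⟶ X) (hσ : σ ≫ g = 𝟙 _) :
    ∃ ρ : X ⟶ A, f ≫ ρ = 𝟙 _ := by
  have h0 : h = 0 := by
    rw [← Category.id_comp h, ← hσ, Category.assoc, comp23 hT, comp_zero]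
  exact split3 hT h0

lemma Dc.of_split {X A B : C} {f : A ⟶ X} {g : X ⟶ B} {h : B ⟶ A⟦(1 : ℤ)⟧}
    (hT : Triangle.mk f g h ∈ distTriang C) (ρ : X ⟶ A) (hρ : f ≫ ρ = 𝟙 _) :
    Nonempty (Dc X A B) := by
  have h0 : h = 0 := by
    have h1 : h ≫ f⟦(1 : ℤ)⟧' = 0 := comp31 hT
    have h2 : f⟦(1 : ℤ)⟧' ≫ ρ⟦(1 : ℤ)⟧' = 𝟙 _ := by
      rw [← Functor.map_comp, hρ, CategoryTheory.Functor.map_id]
    rw [← Category.comp_id h, ← h2, ← Category.assoc, h1, zero_comp]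
  obtain ⟨σ, hσ⟩ := split3' hT h0
  obtain ⟨k, hk⟩ := ye2 hT (𝟙 X - ρ ≫ f) (by
    rw [Preadditive.comp_sub, Category.comp_id, ← Category.assoc, hρ, Category.id_comp, sub_self])
  have hg : ∀ {W : C} (x : B ⟶ W), g ≫ x = 0 → x = 0 := by
    intro W x hx
    rw [← Category.id_comp x, ← hσ, Category.assoc, hx, comp_zero]
  refine ⟨⟨f, ρ, k, g, hρ, ?_, comp12 hT, ?_, ?_⟩⟩
  · rw [← sub_eq_zero]
    apply hg
    rw [Preadditive.comp_sub, ← Category.assoc, ← hk, Preadditive.sub_comp, Category.id_comp,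
      Category.assoc, comp12 hT, comp_zero, sub_zero, Category.comp_id, sub_self]
  · apply hg
    rw [← Category.assoc, ← hk, Preadditive.sub_comp, Category.id_comp, Category.assoc, hρ,
      Category.comp_id, sub_self]
  · rw [← hk, add_sub_cancel]

/-- If some truncation of `Q` at `n` splits, the truncation triangles at `n` of the retracts of
`Q` split. -/
lemma SplAt.triangle {n : ℤ} {Q P A B : C} (hQ : SplAt t n Q) (i : P ⟶ Q) (r : Q ⟶ P)
    (hir : i ≫ r = 𝟙 _) {f : A ⟶ P} {g : P ⟶ B} {h : B ⟶ A⟦(1 : ℤ)⟧}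
    (hT : Triangle.mk f g h ∈ distTriang C) (hA : t.IsLE A n) (hB : t.IsGE B (n + 1)) :
    ∃ ρ : P ⟶ A, f ≫ ρ = 𝟙 _ := by
  obtain ⟨A', B', hA', hB', ⟨d⟩⟩ := hQ
  have h1 : (d.i ≫ r) ≫ g = 0 := t.zero_of_isLE_of_isGE _ n (n + 1) (by omega) hA' hB
  obtain ⟨a', ha'⟩ := ce2 hT _ h1
  have h2 : (f ≫ i) ≫ d.q = 0 := t.zero_of_isLE_of_isGE _ n (n + 1) (by omega) hA hB'
  refine ⟨i ≫ d.p ≫ a', ?_⟩
  have h3 : (f ≫ i ≫ d.p ≫ a') ≫ f = f := by
    have h4 : (f ≫ i ≫ d.p ≫ a') ≫ f = (f ≫ i) ≫ (d.p ≫ d.i) ≫ r := by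
      simp only [Category.assoc, ← ha']
    have h5 : d.p ≫ d.i = 𝟙 _ - d.q ≫ d.j := by rw [← d.total]; abel
    rw [h4, h5, Preadditive.sub_comp, Category.id_comp, Preadditive.comp_sub, Category.assoc, hir,
      Category.comp_id, ← Category.assoc (f ≫ i), ← Category.assoc (f ≫ i), h2, zero_comp,
      zero_comp, sub_zero]
  have h6 : ((f ≫ i ≫ d.p ≫ a') - 𝟙 A)⟦(1 : ℤ)⟧' ≫ f⟦(1 : ℤ)⟧' = 0 := by
    rw [← Functor.map_comp, Preadditive.sub_comp, h3, Category.id_comp, sub_self, Functor.map_zero]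
  obtain ⟨l, hl⟩ := ce1 hT _ h6
  have h7 : t.IsLE (A⟦(1 : ℤ)⟧) (n - 1) := t.isLE_shift A n 1 (n - 1)
  have h8 : l = 0 := t.zero_of_isLE_of_isGE l (n - 1) (n + 1) (by omega) h7 hB
  rw [h8, zero_comp] at hl
  have h9 := (shiftFunctor C (1 : ℤ)).map_injective (hl.trans (Functor.map_zero _ _ _).symm)
  rwa [sub_eq_zero] at h9

lemma SplAt.retract {n : ℤ} {Q P : C} (hQ : SplAt t n Q) (i : P ⟶ Q) (r : Q ⟶ P)
    (hir : i ≫ r = 𝟙 _) : SplAt t n P := by
  obtain ⟨A, B, hA, hB, f, g, h, hT⟩ := t.exists_triangle P n (n + 1) rfl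
  obtain ⟨ρ, hρ⟩ := hQ.triangle i r hir hT ⟨hA⟩ ⟨hB⟩
  exact ⟨A, B, ⟨hA⟩, ⟨hB⟩, Dc.of_split hT ρ hρ⟩

lemma SplAt.sum {n : ℤ} {X Y : C} (hX : SplAt t n X) (hY : SplAt t n Y) : SplAt t n (X ⊞ Y) := by
  obtain ⟨A, B, hA, hB, ⟨d⟩⟩ := hX
  obtain ⟨A', B', hA', hB', ⟨d'⟩⟩ := hY
  exact ⟨A ⊞ A', B ⊞ B', isLE2 (binaryBiproductTriangle_distinguished A A') hA hA',
    isGE2 (binaryBiproductTriangle_distinguished B B') hB hB', ⟨d.sum d'⟩⟩

lemma SplAt.iso {n : ℤ} {X Y : C} (hX : SplAt t n X) (e : X ≅ Y) : SplAt t n Y := by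
  obtain ⟨A, B, hA, hB, ⟨d⟩⟩ := hX
  exact ⟨A, B, hA, hB, ⟨d.iso e⟩⟩

lemma Spl.retract {Q P : C} (hQ : Spl t Q) (i : P ⟶ Q) (r : Q ⟶ P) (hir : i ≫ r = 𝟙 _) :
    Spl t P := fun n => (hQ n).retract i r hir

lemma Spl.dc {X A B : C} (hA : Spl t A) (hB : Spl t B) (d : Dc X A B) : Spl t X :=
  fun n => ((hA n).sum (hB n)).iso d.toIso.symm

lemma Spl.one {X : C} {m : ℤ} (h1 : t.IsLE X m) (h2 : t.IsGE X m) : Spl t X := by
  intro n
  obtain ⟨A, B, hA, hB, f, g, h, hT⟩ := t.exists_triangle X n (n + 1) rfl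
  refine ⟨A, B, ⟨hA⟩, ⟨hB⟩, ?_⟩
  have hA1 : t.IsLE A n := ⟨hA⟩
  have hB1 : t.IsGE B (n + 1) := ⟨hB⟩
  by_cases hmn : m ≤ n
  · have h6 : t.IsLE B n := isLE3 hT (t.isLE_of_le A n (n + 1)) (t.isLE_of_le X m n)
    have h7 := isIso1_of_isZero3 hT (t.isZero B n (n + 1) (by omega))
    exact Dc.of_split hT (inv f) (IsIso.hom_inv_id f)
  · have h6 : t.IsGE A (n + 1) := isGE1 hT (t.isGE_of_ge X (n + 1) m) (t.isGE_of_ge B (n + 1 - 1) (n + 1))
    exact Dc.of_split hT 0 ((t.isZero A n (n + 1) (by omega)).eq_of_src _ _)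

end

section Twist

variable {C : Type u} [Category.{v} C] [MonoidalCategory C]

/-- The map on twists. -/
def twistMap (T : C) {X Y : C} (f : X ⟶ Y) : ∀ k : ℕ, twist T X k ⟶ twist T Y k
  | 0 => f
  | k + 1 => twistMap T f k ▷ T

lemma twistMap_id (T X : C) (k : ℕ) : twistMap T (𝟙 X) k = 𝟙 _ := by
  induction k with
  | zero => rfl
  | succ k ih => simp only [twistMap, ih, id_whiskerRight]; rfl

lemma twistMap_comp (T : C) {X Y Z : C} (f : X ⟶ Y) (g : Y ⟶ Z) (k : ℕ) :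
    twistMap T (f ≫ g) k = twistMap T f k ≫ twistMap T g k := by
  induction k with
  | zero => rfl
  | succ k ih => simp only [twistMap, ih, comp_whiskerRight]

lemma twistMap_add [Preadditive C] [MonoidalPreadditive C] (T : C) {X Y : C} (f g : X ⟶ Y)
    (k : ℕ) : twistMap T (f + g) k = twistMap T f k + twistMap T g k := by
  induction k with
  | zero => rfl
  | succ k ih =>
    simp only [twistMap, ih]
    exact (tensorRight T).map_add

/-- A morphism is a split epimorphism if its product with an invertible object is. -/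
lemma untwist {T T' : C} (e : T ⊗ T' ≅ 𝟙_ C) {X Y : C} (g : X ⟶ Y) (s : Y ⊗ T ⟶ X ⊗ T)
    (hs : s ≫ g ▷ T = 𝟙 _) : ∃ s' : Y ⟶ X, s' ≫ g = 𝟙 _ := by
  let ι : ∀ Z : C, (Z ⊗ T) ⊗ T' ≅ Z := fun Z => α_ Z T T' ≪≫ whiskerLeftIso Z e ≪≫ ρ_ Z
  have hι : ((g ▷ T) ▷ T') ≫ (ι Y).hom = (ι X).hom ≫ g := by
    simp only [ι, Iso.trans_hom, whiskerLeftIso_hom, Category.assoc]
    rw [associator_naturality_left_assoc, ← whisker_exchange_assoc, rightUnitor_naturality]
  refine ⟨(ι Y).inv ≫ (s ▷ T') ≫ (ι X).hom, ?_⟩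
  rw [Category.assoc, Category.assoc, ← hι, ← comp_whiskerRight_assoc, hs, id_whiskerRight,
    Category.id_comp, Iso.inv_hom_id]

lemma untwistMap {T T' : C} (e : T ⊗ T' ≅ 𝟙_ C) {X Y : C} (g : X ⟶ Y) (k : ℕ) :
    ∀ (s : twist T Y k ⟶ twist T X k) (_ : s ≫ twistMap T g k = 𝟙 _),
    ∃ s' : Y ⟶ X, s' ≫ g = 𝟙 _ := by
  induction k with
  | zero => intro s hs; exact ⟨s, hs⟩
  | succ k ih =>
    intro s hs
    obtain ⟨s', hs'⟩ := untwist e (twistMap T g k) s hs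
    exact ih s' hs'

end Twist

section

variable {C : Type u} [Category.{v} C] [Preadditive C] [HasZeroObject C] [HasShift C ℤ]
  [∀ n : ℤ, (shiftFunctor C n).Additive] [Pretriangulated C] [MonoidalCategory C]
  [SymmetricCategory C] [TensorTriangulated C] {t : TStructure C}

lemma tensor_dist' (W : C) {X Y Z : C} {f : X ⟶ Y} {g : Y ⟶ Z} {h : Z ⟶ X⟦(1 : ℤ)⟧}
    (hT : Triangle.mk f g h ∈ distTriang C) :
    ∃ h', Triangle.mk (f ▷ W) (g ▷ W) h' ∈ distTriang C := by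
  refine ⟨(β_ Z W).hom ≫ (W ◁ h ≫ (rShift W X 1).hom) ≫ (β_ W X).hom⟦(1 : ℤ)⟧', ?_⟩
  refine isomorphic_distinguished _ (tensor_dist W hT) _ ?_
  refine Triangle.isoMk _ _ (β_ X W) (β_ Y W) (β_ Z W) ?_ ?_ ?_
  · simp
  · simp
  · simp only [Triangle.mk_mor₃, Category.assoc, ← Functor.map_comp,
      SymmetricCategory.symmetry, CategoryTheory.Functor.map_id, Category.comp_id]

lemma twist_dist (T : C) {X Y Z : C} {f : X ⟶ Y} {g : Y ⟶ Z} {h : Z ⟶ X⟦(1 : ℤ)⟧}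
    (hT : Triangle.mk f g h ∈ distTriang C) (k : ℕ) :
    ∃ h', Triangle.mk (twistMap T f k) (twistMap T g k) h' ∈ distTriang C := by
  induction k with
  | zero => exact ⟨h, hT⟩
  | succ k ih =>
    obtain ⟨h', hT'⟩ := ih
    exact tensor_dist' T hT'

lemma twist_isLE (ht : TensorCompat t) {T X : C} (hT : t.IsLE T (-2)) {n : ℤ} (hX : t.IsLE X n)
    (k : ℕ) : t.IsLE (twist T X k) (n - 2 * k) := by
  induction k with
  | zero => simpa [twist] using hX
  | succ k ih =>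
    have := ht.isLE ih hT
    rwa [show n - 2 * (k : ℤ) + -2 = n - 2 * ((k + 1 : ℕ) : ℤ) by push_cast; ring] at this

lemma twist_isGE (ht : TensorCompat t) {T X : C} (hT : t.IsGE T (-2)) {n : ℤ} (hX : t.IsGE X n)
    (k : ℕ) : t.IsGE (twist T X k) (n - 2 * k) := by
  induction k with
  | zero => simpa [twist] using hX
  | succ k ih =>
    have := ht.isGE ih hT
    rwa [show n - 2 * (k : ℤ) + -2 = n - 2 * ((k + 1 : ℕ) : ℤ) by push_cast; ring] at this

variable [MonoidalPreadditive C] [RightRigidCategory C] [IsTriangulated C]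
  {E : Type w} [Field E] {R : Realisation C E}
  (ht : TensorCompat t) (he : TExact t R) (hu : Hrt t (𝟙_ C))
  (hid : ∀ e : 𝟙_ C ⟶ 𝟙_ C, e ≫ e = e → e = 0 ∨ e = 𝟙 _)
  (hle : ∀ X : C, (∀ n : ℤ, t.le n X) → IsZero X)
  (hge : ∀ X : C, (∀ n : ℤ, t.ge n X) → IsZero X)

include ht he hu hid hle hge

/-- Isomorphisms are detected by the realisation. -/
lemma isIso_of_H {M N : C} (c : M ⟶ N) (hc : ∀ n : ℤ, IsIso (R.H.map (c⟦n⟧'))) : IsIso c := by
  let _ := Functor.ShiftSequence.tautological R.H ℤ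
  obtain ⟨Z, g, h, hT, hZ⟩ := (R.H.mem_homologicalKernel_trW_iff c).2 hc
  exact isIso1_of_isZero3 hT (conservative ht he hu hid hle hge hZ)

/-- The key step: the lowest cohomology object of `Q` splits off, and so does the highest
cohomology object of `Q ⊗ T ^ k`. -/
lemma lefschetz_step {T T' : C} (hT1 : t.IsLE T (-2)) (hT2 : t.IsGE T (-2))
    (eT : T ⊗ T' ≅ 𝟙_ C) {Q : C} (e : ℤ) (k : ℕ)
    (hQ1 : t.IsGE Q (e - k)) (hQ2 : t.IsLE Q (e + k)) (L : Q ⟶ twist T Q k)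
    (hL : IsIso (R.H.map (L⟦e - k⟧'))) :
    SplAt t (e - k) Q ∧ SplAt t (e + k - 1) Q := by
  obtain ⟨A, B, hA, hB, f, g, h, hT⟩ := t.exists_triangle Q (e - k) (e - k + 1) rfl
  have hA1 : t.IsLE A (e - k) := ⟨hA⟩
  have hB1 : t.IsGE B (e - k + 1) := ⟨hB⟩
  have hA2 : t.IsGE A (e - k) := isGE1 hT hQ1 (t.isGE_of_ge B (e - k - 1) (e - k + 1))
  have hK1 : t.IsLE (twist T Q k) (e - k) := by
    have := twist_isLE ht hT1 hQ2 k
    rwa [show e + (k : ℤ) - 2 * k = e - k by ring] at this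
  obtain ⟨A', B', hA', hB', f', g', h', hT'⟩ := t.exists_triangle (twist T Q k) (e - k - 1)
    (e - k) (by ring)
  have hA'1 : t.IsLE A' (e - k - 1) := ⟨hA'⟩
  have hB'1 : t.IsGE B' (e - k) := ⟨hB'⟩
  have hB'2 : t.IsLE B' (e - k) := isLE3 hT' (t.isLE_of_le A' (e - k - 1) (e - k + 1)) hK1
  have hc : IsIso (f ≫ L ≫ g') := by
    apply isIso_of_H ht he hu hid hle hge
    intro j
    by_cases hj : j = e - k
    · subst hj
      have i1 : IsIso (R.H.map (f⟦e - k⟧')) := by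
        have := hmono1 R.H hT (e - k) (he.isGE hB1 _ (by omega))
        have := hepi1 R.H hT (e - k) (he.isGE hB1 _ (by omega))
        exact isIso_of_mono_of_epi _
      have i2 : IsIso (R.H.map (g'⟦e - k⟧')) := by
        have := hmono2 R.H hT' (e - k) (he.isLE hA'1 _ (by omega))
        have := hepi2 R.H hT' (e - k) (he.isLE hA'1 _ (by omega))
        exact isIso_of_mono_of_epi _
      rw [Functor.map_comp, Functor.map_comp, Functor.map_comp, Functor.map_comp]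
      infer_instance
    · have z1 : IsZero (R.H.obj (A⟦j⟧)) := by
        rcases lt_or_gt_of_ne hj with h1 | h1
        · exact he.isGE hA2 _ h1
        · exact he.isLE hA1 _ h1
      have z2 : IsZero (R.H.obj (B'⟦j⟧)) := by
        rcases lt_or_gt_of_ne hj with h1 | h1
        · exact he.isGE hB'1 _ h1
        · exact he.isLE hB'2 _ h1
      exact ⟨0, z1.eq_of_src _ _, z2.eq_of_src _ _⟩
  constructor
  · exact ⟨A, B, hA1, hB1, Dc.of_split hT (L ≫ g' ≫ inv (f ≫ L ≫ g')) (by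
      rw [← Category.assoc L, ← Category.assoc f]
      exact IsIso.hom_inv_id _)⟩
  · -- the top of the twist splits
    obtain ⟨C0, D0, hC0, hD0, a, b, d, hCD⟩ := t.exists_triangle Q (e + k - 1) (e + k) (by ring)
    have hC1 : t.IsLE C0 (e + k - 1) := ⟨hC0⟩
    have hD1 : t.IsGE D0 (e + k) := ⟨hD0⟩
    have hs : SplAt t (e - k - 1) (twist T Q k) := by
      obtain ⟨ρ, hρ⟩ := ret_of_sec hT' (inv (f ≫ L ≫ g') ≫ f ≫ L) (by
        rw [Category.assoc, Category.assoc]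
        exact IsIso.inv_hom_id _)
      exact ⟨A', B', hA'1, by rwa [sub_add_cancel], Dc.of_split hT' ρ hρ⟩
    obtain ⟨d', hCD'⟩ := twist_dist T hCD k
    have hC2 : t.IsLE (twist T C0 k) (e - k - 1) := by
      have := twist_isLE ht hT1 hC1 k
      rwa [show e + (k : ℤ) - 1 - 2 * k = e - k - 1 by ring] at this
    have hD2 : t.IsGE (twist T D0 k) (e - k - 1 + 1) := by
      have := twist_isGE ht hT2 hD1 k
      rwa [show e + (k : ℤ) - 2 * k = e - k - 1 + 1 by ring] at this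
    obtain ⟨ρ, hρ⟩ := hs.triangle (𝟙 _) (𝟙 _) (Category.comp_id _) hCD' hC2 hD2
    obtain ⟨σ, hσ⟩ := sec_of_ret hCD' ρ hρ
    obtain ⟨s', hs'⟩ := untwistMap eT b k σ hσ
    obtain ⟨ρ', hρ'⟩ := ret_of_sec hCD s' hs'
    exact ⟨C0, D0, hC1, by rwa [sub_add_cancel], Dc.of_split hCD ρ' hρ'⟩

omit ht he hu hid hle hge [TensorTriangulated C] [SymmetricCategory C] [MonoidalPreadditive C]
  [RightRigidCategory C] [IsTriangulated C] [HasZeroObject C] [HasShift C ℤ]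
  [∀ n : ℤ, (shiftFunctor C n).Additive] [Pretriangulated C] [MonoidalCategory C] in
lemma iso_of_total {D : Type*} [Category D] [Preadditive D] (F : C ⥤ D) [F.Additive]
    {X M Z₁ Z₂ : C} {i : M ⟶ X} {r : X ⟶ M} (hir : i ≫ r = 𝟙 _)
    {x₁ : X ⟶ Z₁} {y₁ : Z₁ ⟶ X} {x₂ : X ⟶ Z₂} {y₂ : Z₂ ⟶ X}
    (h : x₁ ≫ y₁ + r ≫ i + x₂ ≫ y₂ = 𝟙 X) (h₁ : IsZero (F.obj Z₁)) (h₂ : IsZero (F.obj Z₂)) :
    IsIso (F.map i) ∧ IsIso (F.map r) := by
  have h3 : F.map i ≫ F.map r = 𝟙 _ := by rw [← Functor.map_comp, hir, F.map_id]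
  have h4 : F.map r ≫ F.map i = 𝟙 _ := by
    have := congrArg F.map h
    rw [Functor.map_add, Functor.map_add, Functor.map_comp, Functor.map_comp, Functor.map_comp,
      h₁.eq_of_tgt (F.map x₁) 0, h₂.eq_of_tgt (F.map x₂) 0, zero_comp, zero_comp, zero_add,
      add_zero, F.map_id] at this
    exact this
  exact ⟨⟨F.map r, h3, h4⟩, ⟨F.map i, h4, h3⟩⟩

/-- Deligne's decomposition theorem. -/
theorem deligne {T T' : C} (hT1 : t.IsLE T (-2)) (hT2 : t.IsGE T (-2))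
    (eT : T ⊗ T' ≅ 𝟙_ C) (i : ℕ) : ∀ (Q : C) (e : ℤ), t.IsGE Q (e - i) → t.IsLE Q (e + i) →
    (∀ k : ℕ, k ≤ i → ∃ L : Q ⟶ twist T Q k, IsIso (R.H.map (L⟦e - k⟧'))) → Spl t Q := by
  induction i with
  | zero =>
    intro Q e h1 h2 _
    exact Spl.one (m := e) (by simpa using h2) (by simpa using h1)
  | succ i ih =>
    intro Q e h1 h2 hL
    obtain ⟨L, hL1⟩ := hL (i + 1) le_rfl
    obtain ⟨s1, s2⟩ := lefschetz_step ht he hu hid hle hge hT1 hT2 eT e (i + 1) h1 h2 L hL1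
    obtain ⟨C0, D0, hC1, hD1, ⟨d⟩⟩ := s2
    have hD2 : t.IsLE D0 (e + (i + 1 : ℕ)) := isLE_retract h2 d.j d.q d.jq
    have hC2 : t.IsGE C0 (e - (i + 1 : ℕ)) := isGE_retract h1 d.i d.p d.ip
    obtain ⟨A1, M, hA1, hM1, ⟨d'⟩⟩ := s1.retract d.i d.p d.ip
    have hA2 : t.IsGE A1 (e - (i + 1 : ℕ)) := isGE_retract hC2 d'.i d'.p d'.ip
    have hM2 : t.IsLE M (e + (i + 1 : ℕ) - 1) := isLE_retract hC1 d'.j d'.q d'.jq
    have hMs : Spl t M := by
      refine ih M e ?_ ?_ ?_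
      · rwa [show e - ((i + 1 : ℕ) : ℤ) + 1 = e - i by push_cast; ring] at hM1
      · rwa [show e + ((i + 1 : ℕ) : ℤ) - 1 = e + i by push_cast; ring] at hM2
      · intro k hk
        obtain ⟨L, hL1⟩ := hL k (by omega)
        have hir : (d'.j ≫ d.i) ≫ d.p ≫ d'.q = 𝟙 _ := by
          rw [Category.assoc, ← Category.assoc d.i, d.ip, Category.id_comp, d'.jq]
        have htot : (d.p ≫ d'.p) ≫ (d'.i ≫ d.i) + (d.p ≫ d'.q) ≫ (d'.j ≫ d.i) + d.q ≫ d.j =
            𝟙 Q := by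
          have e1 : (d.p ≫ d'.p) ≫ (d'.i ≫ d.i) + (d.p ≫ d'.q) ≫ (d'.j ≫ d.i) =
              d.p ≫ (d'.p ≫ d'.i + d'.q ≫ d'.j) ≫ d.i := by
            simp only [Preadditive.comp_add, Preadditive.add_comp, Category.assoc]
          rw [e1, d'.total, Category.id_comp, d.total]
        let F : C ⥤ ModuleCat.{w} E := shiftFunctor C (e - k) ⋙ R.H
        have hF : F.Additive := inferInstance
        have z1 : IsZero (F.obj A1) := he.isLE hA1 _ (by push_cast; omega)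
        have z2 : IsZero (F.obj D0) := he.isGE hD1 _ (by push_cast; omega)
        have z3 : IsZero (F.obj (twist T A1 k)) :=
          he.isLE (twist_isLE ht hT1 hA1 k) _ (by push_cast; omega)
        have z4 : IsZero (F.obj (twist T D0 k)) :=
          he.isGE (twist_isGE ht hT2 hD1 k) _ (by push_cast; omega)
        obtain ⟨i1, -⟩ := iso_of_total F hir htot z1 z2
        have hir' : twistMap T (d'.j ≫ d.i) k ≫ twistMap T (d.p ≫ d'.q) k = 𝟙 _ := by
          rw [← twistMap_comp, hir, twistMap_id]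
        have htot' : twistMap T (d.p ≫ d'.p) k ≫ twistMap T (d'.i ≫ d.i) k +
            twistMap T (d.p ≫ d'.q) k ≫ twistMap T (d'.j ≫ d.i) k +
            twistMap T d.q k ≫ twistMap T d.j k = 𝟙 _ := by
          rw [← twistMap_comp, ← twistMap_comp, ← twistMap_comp, ← twistMap_add, ← twistMap_add,
            htot, twistMap_id]
        obtain ⟨-, i2⟩ := iso_of_total F hir' htot' z3 z4
        refine ⟨(d'.j ≫ d.i) ≫ L ≫ twistMap T (d.p ≫ d'.q) k, ?_⟩
        change IsIso (F.map ((d'.j ≫ d.i) ≫ L ≫ twistMap T (d.p ≫ d'.q) k))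
        have i3 : IsIso (F.map L) := hL1
        rw [F.map_comp (d'.j ≫ d.i), F.map_comp L]
        infer_instance
    have hA1s : Spl t A1 := Spl.one hA1 hA2
    have hD0s : Spl t D0 := Spl.one hD2 (by rwa [sub_add_cancel] at hD1)
    exact Spl.dc (Spl.dc hA1s hMs d') hD0s d

end

end Pool.Agent.Y116.MT
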