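import Pool.Agent.Y116.MT.Hom

/-!
# t-exact realisations are faithful on the heart and conservative
-/

set_option autoImplicit false
set_option linter.unusedSectionVars false
set_option linter.unusedSimpArgs false
set_option backward.isDefEq.respectTransparency false
set_option backward.defeqAttrib.useBackward true

open CategoryTheory Limits MonoidalCategory Pretriangulated Triangulated

namespace Pool.Agent.Y116.MT

universe v u w

open Functor.LaxMonoidal

section Name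

variable {C : Type u} [Category.{v} C] [MonoidalCategory C] [RightRigidCategory C]

/-- The name of a morphism. -/
def nm {M N : C} (f : M ⟶ N) : 𝟙_ C ⟶ N ⊗ Mᘁ := η_ M Mᘁ ≫ f ▷ Mᘁ

lemma nm_recover {M N : C} (f : M ⟶ N) :
    f = (λ_ M).inv ≫ (nm f ▷ M) ≫ (α_ N Mᘁ M).hom ≫ (N ◁ ε_ M Mᘁ) ≫ (ρ_ N).hom := by
  rw [nm, comp_whiskerRight, Category.assoc, associator_naturality_left_assoc,
    ← whisker_exchange_assoc, rightUnitor_naturality,
    ExactPairing.evaluation_coevaluation_assoc]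
  simp

end Name

section

variable {C : Type u} [Category.{v} C] [Preadditive C] [HasZeroObject C] [HasShift C ℤ]
  [∀ n : ℤ, (shiftFunctor C n).Additive] [Pretriangulated C] [MonoidalCategory C]
  [SymmetricCategory C] [TensorTriangulated C] [MonoidalPreadditive C] [RightRigidCategory C]
  {E : Type w} [Field E] {t : TStructure C} {R : Realisation C E}

lemma eq_zero_of_nm {M N : C} (f : M ⟶ N) (h : nm f = 0) : f = 0 := by
  have h0 : (0 : 𝟙_ C ⟶ N ⊗ Mᘁ) ▷ M = 0 := (tensorRight M).map_zero _ _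
  rw [nm_recover f, h, h0, zero_comp, comp_zero]

/-- t-exactness of a realisation. -/
structure TExact (t : TStructure C) (R : Realisation C E) : Prop where
  le (X : C) : t.le 0 X → ∀ i : ℤ, 0 < i → IsZero (R.H.obj (X⟦i⟧))
  ge (X : C) : t.ge 0 X → ∀ i : ℤ, i < 0 → IsZero (R.H.obj (X⟦i⟧))

lemma TExact.isLE (he : TExact t R) {X : C} {n : ℤ} (h : t.IsLE X n) (i : ℤ) (hi : n < i) :
    IsZero (R.H.obj (X⟦i⟧)) := by
  have h1 : t.IsLE (X⟦n⟧) 0 := t.isLE_shift X n n 0
  exact (he.le _ h1.le (i - n) (by omega)).of_iso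
    (R.H.mapIso ((shiftFunctorAdd' C n (i - n) i (by omega)).app X))

lemma TExact.isGE (he : TExact t R) {X : C} {n : ℤ} (h : t.IsGE X n) (i : ℤ) (hi : i < n) :
    IsZero (R.H.obj (X⟦i⟧)) := by
  have h1 : t.IsGE (X⟦n⟧) 0 := t.isGE_shift X n n 0
  exact (he.ge _ h1.ge (i - n) (by omega)).of_iso
    (R.H.mapIso ((shiftFunctorAdd' C n (i - n) i (by omega)).app X))

lemma TExact.deg (he : TExact t R) {X : C} (h : Hrt t X) : R.Deg X 0 := by
  intro i hi
  rcases lt_or_gt_of_ne hi with h1 | h1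
  · exact he.isGE h.2 i h1
  · exact he.isLE h.1 i h1

/-- `H` vanishes on `f ▷ Y` if it vanishes on `f` and `X` is in degree zero. -/
lemma map_whisker_zero {X X' : C} (hX : R.Deg X 0) (f : X ⟶ X') (hf : R.H.map f = 0) (Y : C) :
    R.H.map (f ▷ Y) = 0 := by
  have h1 := hX.isIso_mu Y
  have h2 : (0 : R.H.obj X ⟶ R.H.obj X') ▷ R.H.obj Y = 0 := (tensorRight _).map_zero _ _
  rw [← cancel_epi (μ R.H X Y), ← μ_natural_left, hf, h2, zero_comp, comp_zero]

variable (ht : TensorCompat t) (he : TExact t R) (hu : Hrt t (𝟙_ C))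
  (hid : ∀ e : 𝟙_ C ⟶ 𝟙_ C, e ≫ e = e → e = 0 ∨ e = 𝟙 _)

include ht he hu hid

lemma H_ne_zero [IsTriangulated C] {Q : C} (s : 𝟙_ C ⟶ Q) (hQ : Hrt t Q) (hs : s ≠ 0) :
    R.H.map s ≠ 0 := by
  obtain ⟨Z, q, δ, hT⟩ := distinguished_cocone_triangle s
  have hZ := unit_simple ht hu hid hT hQ hs
  have h1 : IsZero (R.H.obj (Z⟦(0 : ℤ) - 1⟧)) := he.deg hZ _ (by omega)
  have h2 := hmono1 R.H hT 0 h1
  intro h3
  have h4 : R.H.map (s⟦(0 : ℤ)⟧') = 0 := by
    have h5 : s⟦(0 : ℤ)⟧' = (shiftFunctorZero C ℤ).hom.app _ ≫ s ≫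
        (shiftFunctorZero C ℤ).inv.app _ := shiftZero' (A := ℤ) (f := s)
    rw [h5, Functor.map_comp, Functor.map_comp, h3, zero_comp, comp_zero]
  have h6 : IsZero (R.H.obj ((𝟙_ C)⟦(0 : ℤ)⟧)) := by
    rw [IsZero.iff_id_eq_zero, ← cancel_mono (R.H.map (s⟦(0 : ℤ)⟧')), h4, comp_zero, comp_zero]
  exact not_isZero_H_unit R (h6.of_iso (R.H.mapIso ((shiftFunctorZero C ℤ).app _).symm))

/-- A t-exact realisation is faithful on the heart. -/
theorem faithful_heart [IsTriangulated C] {M N : C} (hM : Hrt t M) (hN : Hrt t N) (f : M ⟶ N)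
    (hf : R.H.map f = 0) : f = 0 := by
  apply eq_zero_of_nm
  by_contra h
  refine H_ne_zero ht he hu hid (nm f) (ht.hrt hN (dual_hrt ht hu hM)) h ?_
  rw [nm, Functor.map_comp, map_whisker_zero (he.deg hM) f hf, comp_zero]

lemma heart_zero [IsTriangulated C] {M : C} (hM : Hrt t M) (h : IsZero (R.H.obj M)) : IsZero M := by
  rw [IsZero.iff_id_eq_zero]
  exact faithful_heart ht he hu hid hM hM _ (h.eq_of_src _ _)

lemma heart_zero' [IsTriangulated C] {M : C} {n : ℤ} (h1 : t.IsLE M n) (h2 : t.IsGE M n)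
    (h : IsZero (R.H.obj (M⟦n⟧))) : IsZero M :=
  isZero_of_shift n (heart_zero ht he hu hid ⟨t.isLE_shift M n n 0, t.isGE_shift M n n 0⟩ h)

variable (hle : ∀ X : C, (∀ n : ℤ, t.le n X) → IsZero X)
  (hge : ∀ X : C, (∀ n : ℤ, t.ge n X) → IsZero X)

include hle hge in
/-- A t-exact realisation is conservative. -/
theorem conservative [IsTriangulated C] {X : C} (hX : ∀ i : ℤ, IsZero (R.H.obj (X⟦i⟧))) :
    IsZero X := by
  obtain ⟨A, B, hA, hB, f, g, h, hT⟩ := t.exists_triangle X 0 1 rfl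
  have hA1 : t.IsLE A 0 := ⟨hA⟩
  have hB1 : t.IsGE B 1 := ⟨hB⟩
  have hAz : ∀ i : ℤ, IsZero (R.H.obj (A⟦i⟧)) := by
    intro i
    by_cases hi : i ≤ 0
    · exact hz1 R.H hT i (hX i) (he.isGE hB1 _ (by omega))
    · exact he.isLE hA1 i (by omega)
  have hBz : ∀ i : ℤ, IsZero (R.H.obj (B⟦i⟧)) := by
    intro i
    exact hz3 R.H hT i (hX i) (hAz _)
  have hAn : ∀ n : ℕ, t.IsLE A (-n) := by
    intro n
    induction n with
    | zero => simpa using hA1
    | succ n ih =>
      obtain ⟨A', A'', hA', hA'', f', g', h', hT'⟩ := t.exists_triangle A (-(n + 1 : ℕ)) (-n)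
        (by push_cast; omega)
      have h1 : t.IsLE A' (-(n + 1 : ℕ)) := ⟨hA'⟩
      have h2 : t.IsGE A'' (-n) := ⟨hA''⟩
      have h3 : t.IsLE A'' (-n) := isLE3 hT' (t.isLE_of_le A' (-(n + 1 : ℕ)) (-n + 1)
        (by push_cast; omega)) ih
      have h4 : IsZero (R.H.obj (A'⟦(-n + 1 : ℤ)⟧)) := he.isLE h1 _ (by push_cast; omega)
      have h5 := heart_zero' ht he hu hid h3 h2 (hz3 R.H hT' (-n) (hAz _) h4)
      have h6 := isIso1_of_isZero3 hT' h5
      exact @TStructure.isLE_of_iso _ _ _ _ _ _ _ t _ _ (asIso f') _ h1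
  have hBn : ∀ n : ℕ, t.IsGE B (n + 1) := by
    intro n
    induction n with
    | zero => simpa using hB1
    | succ n ih =>
      obtain ⟨B', B'', hB', hB'', f', g', h', hT'⟩ := t.exists_triangle B (n + 1) (n + 2)
        (by omega)
      have h1 : t.IsLE B' (n + 1) := ⟨hB'⟩
      have h2 : t.IsGE B'' (n + 2) := ⟨hB''⟩
      have h3 : t.IsGE B' (n + 1) := isGE1 hT' ih (t.isGE_of_ge B'' (n + 1 - 1) (n + 2)
        (by omega))
      have h4 : IsZero (R.H.obj (B''⟦((n : ℤ) + 1) - 1⟧)) := he.isGE h2 _ (by omega)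
      have h5 := heart_zero' ht he hu hid h1 h3 (hz1 R.H hT' (n + 1) (hBz _) h4)
      have h6 := isIso2_of_isZero1 hT' h5
      have h7 := @TStructure.isGE_of_iso _ _ _ _ _ _ _ t _ _ (asIso g').symm _ h2
      have h8 : ((n + 1 : ℕ) : ℤ) + 1 = n + 2 := by push_cast; ring
      rw [h8]
      exact h7
  have hA2 : IsZero A := hle A fun n => (t.isLE_of_le A (-(n.natAbs : ℤ)) n (by omega)).le
  have hB2 : IsZero B := hge B fun n => (t.isGE_of_ge B n ((n.natAbs : ℤ) + 1) (by omega)).ge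
  exact isZero2 hT hA2 hB2

include hle hge in
/-- The aisle is detected by a t-exact realisation. -/
theorem isLE_of_H [IsTriangulated C] {X : C} {n : ℤ} (hX : ∀ i : ℤ, n < i → IsZero (R.H.obj (X⟦i⟧))) :
    t.IsLE X n := by
  obtain ⟨A, B, hA, hB, f, g, h, hT⟩ := t.exists_triangle X n (n + 1) rfl
  have hA1 : t.IsLE A n := ⟨hA⟩
  have hB1 : t.IsGE B (n + 1) := ⟨hB⟩
  have hBz : IsZero B := by
    apply conservative ht he hu hid hle hge
    intro i
    by_cases hi : i < n + 1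
    · exact he.isGE hB1 i hi
    · exact hz3 R.H hT i (hX i (by omega)) (he.isLE hA1 _ (by omega))
  have h6 := isIso1_of_isZero3 hT hBz
  exact @TStructure.isLE_of_iso _ _ _ _ _ _ _ t _ _ (asIso f) _ hA1

include hle hge in
/-- The coaisle is detected by a t-exact realisation. -/
theorem isGE_of_H [IsTriangulated C] {X : C} {n : ℤ} (hX : ∀ i : ℤ, i < n → IsZero (R.H.obj (X⟦i⟧))) :
    t.IsGE X n := by
  obtain ⟨A, B, hA, hB, f, g, h, hT⟩ := t.exists_triangle X (n - 1) n (by omega)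
  have hA1 : t.IsLE A (n - 1) := ⟨hA⟩
  have hB1 : t.IsGE B n := ⟨hB⟩
  have hAz : IsZero A := by
    apply conservative ht he hu hid hle hge
    intro i
    by_cases hi : n - 1 < i
    · exact he.isLE hA1 i hi
    · exact hz1 R.H hT i (hX i (by omega)) (he.isGE hB1 _ (by omega))
  have h6 := isIso2_of_isZero1 hT hAz
  exact @TStructure.isGE_of_iso _ _ _ _ _ _ _ t _ _ (asIso g).symm _ hB1

include hle hge in
/-- Boundedness. -/
theorem bounded_of_H [IsTriangulated C] (X : C) : ∃ N : ℕ, t.IsLE X N ∧ t.IsGE X (-N) := by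
  obtain ⟨N, hN⟩ := R.bounded X
  exact ⟨N, isLE_of_H ht he hu hid hle hge fun i hi => hN i (by omega),
    isGE_of_H ht he hu hid hle hge fun i hi => hN i (by omega)⟩

end

end Pool.Agent.Y116.MT
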