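import Pool.Agent.Y116.MT.AltFun
import Pool.Agent.Y116.MT.Deg

/-!
# Basic properties of realisations
-/

set_option autoImplicit false
set_option linter.unusedSectionVars false
set_option linter.unusedSimpArgs false
set_option backward.isDefEq.respectTransparency false
set_option backward.defeqAttrib.useBackward true

open CategoryTheory Limits MonoidalCategory Pretriangulated Triangulated

namespace Pool.Agent.Y116.MT

universe v u w

open Functor.LaxMonoidal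

lemma toModule_single_bij {E : Type w} [Field E] {M : ℤ → Type w} [∀ i, AddCommGroup (M i)]
    [∀ i, Module E (M i)] {N : Type w} [AddCommGroup N] [Module E N] (f : ∀ i, M i →ₗ[E] N)
    (a : ℤ) (h0 : ∀ i, i ≠ a → Subsingleton (M i))
    (hb : Function.Bijective (DirectSum.toModule E ℤ N f)) : Function.Bijective (f a) := by
  have h1 : Function.Bijective (DirectSum.lof E ℤ M a) := by
    constructor
    · exact DirectSum.of_injective a
    · intro y
      refine ⟨y a, ?_⟩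
      ext i
      by_cases hi : i = a
      · subst hi
        simp
      · have := h0 i hi
        exact Subsingleton.elim _ _
  have h2 : f a = (DirectSum.toModule E ℤ N f) ∘ₗ (DirectSum.lof E ℤ M a) := by
    ext x
    simp
  rw [h2]
  exact hb.comp h1

section

variable {C : Type u} [Category.{v} C] [Preadditive C] [HasZeroObject C] [HasShift C ℤ]
  [∀ n : ℤ, (shiftFunctor C n).Additive] [Pretriangulated C] [MonoidalCategory C]
  [SymmetricCategory C] [TensorTriangulated C] {E : Type w} [Field E] (R : Realisation C E)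

variable {R}

lemma Realisation.Deg.iso {X Y : C} {a : ℤ} (h : R.Deg X a) (e : X ≅ Y) : R.Deg Y a := fun i hi =>
  (h i hi).of_iso (R.H.mapIso ((shiftFunctor C i).mapIso e.symm))

lemma Realisation.Deg.shift {X : C} {a : ℤ} (h : R.Deg X a) (n b : ℤ) (hb : n + b = a) :
    R.Deg (X⟦n⟧) b := fun i hi =>
  (h (n + i) (by omega)).of_iso (R.H.mapIso ((shiftFunctorAdd C n i).app X).symm)

lemma Realisation.Deg.retract {X Y : C} {a : ℤ} (h : R.Deg X a) (i : Y ⟶ X) (r : X ⟶ Y) (hir : i ≫ r = 𝟙 _) :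
    R.Deg Y a := fun n hn => by
  rw [IsZero.iff_id_eq_zero]
  have h1 : 𝟙 (R.H.obj (Y⟦n⟧)) = R.H.map (i⟦n⟧') ≫ R.H.map (r⟦n⟧') := by
    rw [← Functor.map_comp, ← Functor.map_comp, hir, CategoryTheory.Functor.map_id,
      CategoryTheory.Functor.map_id]
  rw [h1, (h n hn).eq_of_tgt (R.H.map (i⟦n⟧')) 0, zero_comp]

lemma tensor_subsingleton_left {M N : ModuleCat.{w} E} (h : IsZero M) :
    Subsingleton (M ⊗ N : ModuleCat.{w} E) := by
  have : Subsingleton M := ModuleCat.subsingleton_of_isZero h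
  change Subsingleton (TensorProduct E M N)
  infer_instance

lemma tensor_subsingleton_right {M N : ModuleCat.{w} E} (h : IsZero N) :
    Subsingleton (M ⊗ N : ModuleCat.{w} E) := by
  have : Subsingleton N := ModuleCat.subsingleton_of_isZero h
  change Subsingleton (TensorProduct E M N)
  infer_instance

lemma Realisation.Deg.isIso_mu_shift {X : C} {a : ℤ} (h : R.Deg X a) (Y : C) :
    IsIso (μ R.H (X⟦a⟧) (Y⟦-a⟧)) := by
  have h1 := toModule_single_bij (E := E)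
    (M := fun i : ℤ => (R.H.obj (X⟦i⟧) ⊗ R.H.obj (Y⟦-i⟧) : ModuleCat.{w} E))
    (fun i : ℤ => (μ R.H (X⟦i⟧) (Y⟦-i⟧) ≫ R.H.map (shiftTensorIso X Y i).hom).hom) a
    (fun i hi => tensor_subsingleton_left (h i hi)) (R.kunneth X Y)
  have h2 : IsIso (μ R.H (X⟦a⟧) (Y⟦-a⟧) ≫ R.H.map (shiftTensorIso X Y a).hom) :=
    (ConcreteCategory.isIso_iff_bijective _).2 h1
  exact IsIso.of_isIso_comp_right _ (R.H.map (shiftTensorIso X Y a).hom)

lemma isIso_mu_iff {X X' Y Y' : C} (e : X ≅ X') (f : Y ≅ Y') :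
    IsIso (μ R.H X Y) ↔ IsIso (μ R.H X' Y') := by
  have h : μ R.H X Y ≫ R.H.map (e.hom ⊗ₘ f.hom) = (R.H.map e.hom ⊗ₘ R.H.map f.hom) ≫ μ R.H X' Y' :=
    (μ_natural R.H e.hom f.hom).symm
  constructor
  · intro h1
    have h2 : IsIso ((R.H.map e.hom ⊗ₘ R.H.map f.hom) ≫ μ R.H X' Y') := by
      rw [← h]
      infer_instance
    exact IsIso.of_isIso_comp_left (R.H.map e.hom ⊗ₘ R.H.map f.hom) _
  · intro h1
    have h2 : IsIso (μ R.H X Y ≫ R.H.map (e.hom ⊗ₘ f.hom)) := by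
      rw [h]
      infer_instance
    exact IsIso.of_isIso_comp_right _ (R.H.map (e.hom ⊗ₘ f.hom))

lemma Realisation.Deg.isIso_mu {X : C} (h : R.Deg X 0) (Y : C) : IsIso (μ R.H X Y) :=
  (isIso_mu_iff ((shiftFunctorZero C ℤ).app X) ((shiftFunctorZero' C (-0 : ℤ) (by simp)).app Y)).1
    (h.isIso_mu_shift Y)

lemma Realisation.Deg.tensor {X Y : C} {a b : ℤ} (hX : R.Deg X a) (hY : R.Deg Y b) :
    R.Deg (X ⊗ Y) (a + b) := by
  intro n hn
  have h0 : IsZero (R.H.obj (X ⊗ Y⟦n⟧)) := by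
    rw [ModuleCat.isZero_iff_subsingleton]
    have h1 : ∀ i : ℤ, Subsingleton (R.H.obj (X⟦i⟧) ⊗ R.H.obj (Y⟦n⟧⟦-i⟧) : ModuleCat.{w} E) := by
      intro i
      by_cases hi : i = a
      · exact tensor_subsingleton_right ((hY (n + -i) (by omega)).of_iso
          (R.H.mapIso ((shiftFunctorAdd C n (-i)).app Y).symm))
      · exact tensor_subsingleton_left (hX i hi)
    have h2 : Subsingleton (DirectSum ℤ (fun i : ℤ =>
        (R.H.obj (X⟦i⟧) ⊗ R.H.obj (Y⟦n⟧⟦-i⟧) : ModuleCat.{w} E))) := by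
      constructor
      intro x y
      ext i
      have := h1 i
      exact Subsingleton.elim _ _
    exact (R.kunneth X (Y⟦n⟧)).2.subsingleton
  exact h0.of_iso (R.H.mapIso (rShift X Y n).symm)

lemma not_isZero_tensor {X Y : C} {i j : ℤ} (hX : ¬ IsZero (R.H.obj (X⟦i⟧)))
    (hY : ¬ IsZero (R.H.obj (Y⟦j⟧))) : ¬ IsZero (R.H.obj ((X ⊗ Y)⟦i + j⟧)) := by
  intro h0
  have h1 : IsZero (R.H.obj (X ⊗ Y⟦i + j⟧)) := h0.of_iso (R.H.mapIso (rShift X Y (i + j)))
  have h2 : Subsingleton (R.H.obj (X ⊗ Y⟦i + j⟧)) := ModuleCat.subsingleton_of_isZero h1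
  have h3 : Subsingleton (DirectSum ℤ (fun k : ℤ =>
      (R.H.obj (X⟦k⟧) ⊗ R.H.obj (Y⟦i + j⟧⟦-k⟧) : ModuleCat.{w} E))) :=
    (R.kunneth X (Y⟦i + j⟧)).1.subsingleton
  have h4 : Subsingleton (R.H.obj (X⟦i⟧) ⊗ R.H.obj (Y⟦i + j⟧⟦-i⟧) : ModuleCat.{w} E) := by
    constructor
    intro x y
    exact DirectSum.of_injective (β := fun k : ℤ =>
      (R.H.obj (X⟦k⟧) ⊗ R.H.obj (Y⟦i + j⟧⟦-k⟧) : ModuleCat.{w} E)) i (h3.elim _ _)
  have h5 : ¬ IsZero (R.H.obj (Y⟦i + j⟧⟦-i⟧)) := fun h =>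
    hY (h.of_iso (R.H.mapIso ((shiftFunctorAdd' C (i + j) (-i) j (by omega)).app Y)))
  rw [ModuleCat.isZero_iff_subsingleton, not_subsingleton_iff_nontrivial] at hX h5
  have h6 : 0 < Module.finrank E (R.H.obj (X⟦i⟧)) := Module.finrank_pos
  have h7 : 0 < Module.finrank E (R.H.obj (Y⟦i + j⟧⟦-i⟧)) := Module.finrank_pos
  have h8 : Module.finrank E (R.H.obj (X⟦i⟧) ⊗ R.H.obj (Y⟦i + j⟧⟦-i⟧) : ModuleCat.{w} E) =
    Module.finrank E (R.H.obj (X⟦i⟧)) * Module.finrank E (R.H.obj (Y⟦i + j⟧⟦-i⟧)) :=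
    Module.finrank_tensorProduct
  rw [Module.finrank_zero_of_subsingleton] at h8
  exact absurd h8 (Nat.mul_pos h6 h7).ne

lemma deg_unit : R.Deg (𝟙_ C) 0 := by
  intro i hi
  by_contra h
  obtain ⟨N, hN⟩ := R.bounded (𝟙_ C)
  have h1 : ∀ n : ℕ, ¬ IsZero (R.H.obj ((𝟙_ C)⟦(2 ^ n : ℤ) * i⟧)) := by
    intro n
    induction n with
    | zero => simpa using h
    | succ n ih =>
      intro h2
      refine not_isZero_tensor ih ih (h2.of_iso (R.H.mapIso ?_))
      exact (shiftFunctor C _).mapIso (λ_ (𝟙_ C)) ≪≫ eqToIso (by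
        rw [show (2 ^ n * i + 2 ^ n * i : ℤ) = 2 ^ (n + 1) * i by ring])
  refine h1 N (hN _ ?_)
  rw [Int.natAbs_mul, Int.natAbs_pow]
  have : 0 < i.natAbs := Int.natAbs_pos.2 hi
  calc N < 2 ^ N := Nat.lt_two_pow_self
    _ ≤ 2 ^ N * i.natAbs := Nat.le_mul_of_pos_right _ this

lemma not_isZero_H_unit (R : Realisation C E) : ¬ IsZero (R.H.obj (𝟙_ C)) := by
  intro h
  have h1 : IsZero (𝟙_ (ModuleCat.{w} E)) := h.of_iso (asIso (Functor.LaxMonoidal.ε R.H))
  rw [ModuleCat.isZero_iff_subsingleton] at h1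
  have h2 : Subsingleton E := h1
  exact not_subsingleton E h2

lemma not_isZero_unit (R : Realisation C E) : ¬ IsZero (𝟙_ C) := fun h =>
  not_isZero_H_unit R (R.H.map_isZero h)

end

end Pool.Agent.Y116.MT
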