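import Pool.Agent.Y116.MT.Indep
import Pool.Agent.Y116.MT.Cons

/-!
# Conservativity and truncations
-/

set_option autoImplicit false
set_option linter.unusedSectionVars false
set_option linter.unusedSimpArgs false
set_option backward.isDefEq.respectTransparency false
set_option backward.defeqAttrib.useBackward true

open CategoryTheory Limits MonoidalCategory Pretriangulated Triangulated

namespace Pool.Agent.Y116.MT

universe v u w

section

variable {C : Type u} [Category.{v} C] [Preadditive C] [HasZeroObject C] [HasShift C ℤ]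
  [∀ n : ℤ, (shiftFunctor C n).Additive] [Pretriangulated C]
  [MonoidalCategory C] [SymmetricCategory C] [MonoidalPreadditive C] [TensorTriangulated C]
  [RightRigidCategory C] [Linear ℚ C] {E : Type w} [Field E] {R : Realisation C E}

lemma isZero3_H {X Y Z : C} {f : X ⟶ Y} {g : Y ⟶ Z} {h : Z ⟶ X⟦(1 : ℤ)⟧}
    (hT : Triangle.mk f g h ∈ distTriang C) (i : ℤ) (h1 : Epi (R.H.map (f⟦i⟧')))
    (h2 : Mono (R.H.map (f⟦i + 1⟧'))) : IsZero (R.H.obj (Z⟦i⟧)) := by
  have h3 := hepi2' R.H hT i h2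
  have h4 : R.H.map (g⟦i⟧') = 0 := by
    rw [← cancel_epi (R.H.map (f⟦i⟧')), comp_zero, ← Functor.map_comp, ← Functor.map_comp,
      comp12 hT, Functor.map_zero, Functor.map_zero]
  rw [IsZero.iff_id_eq_zero, ← cancel_epi (R.H.map (g⟦i⟧')), h4, zero_comp, zero_comp]

lemma isIso_of_H_cons (hcons : ∀ X : C, (∀ i : ℤ, IsZero (R.H.obj (X⟦i⟧))) → IsZero X) {X Y : C}
    (f : X ⟶ Y) (hf : ∀ i : ℤ, IsIso (R.H.map (f⟦i⟧'))) : IsIso f := by
  obtain ⟨Z, g, h, hT⟩ := distinguished_cocone_triangle f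
  refine isIso1_of_isZero3 hT (hcons Z fun i => ?_)
  have h1 := hf i
  have h2 := hf (i + 1)
  exact isZero3_H hT i inferInstance inferInstance

lemma isZero_tensor {X Y : C} {n : ℤ}
    (h : ∀ i j : ℤ, i + j = n → IsZero (R.H.obj (X⟦i⟧)) ∨ IsZero (R.H.obj (Y⟦j⟧))) :
    IsZero (R.H.obj ((X ⊗ Y)⟦n⟧)) := by
  have h0 : IsZero (R.H.obj (X ⊗ Y⟦n⟧)) := by
    rw [ModuleCat.isZero_iff_subsingleton]
    have h1 : ∀ i : ℤ, Subsingleton (R.H.obj (X⟦i⟧) ⊗ R.H.obj (Y⟦n⟧⟦-i⟧) : ModuleCat.{w} E) := by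
      intro i
      rcases h i (n + -i) (by omega) with h' | h'
      · exact tensor_subsingleton_left h'
      · exact tensor_subsingleton_right (h'.of_iso
          (R.H.mapIso ((shiftFunctorAdd C n (-i)).app Y).symm))
    have h2 : Subsingleton (DirectSum ℤ (fun i : ℤ =>
        (R.H.obj (X⟦i⟧) ⊗ R.H.obj (Y⟦n⟧⟦-i⟧) : ModuleCat.{w} E))) := by
      constructor
      intro x y
      ext i
      have := h1 i
      exact Subsingleton.elim _ _
    exact (R.kunneth X (Y⟦n⟧)).2.subsingleton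
  exact h0.of_iso (R.H.mapIso (rShift X Y n).symm)

variable (R) in
/-- The cohomology of `X` vanishes in degrees `> n`. -/
def HLE (n : ℤ) : ObjectProperty C := fun X => ∀ i : ℤ, n < i → IsZero (R.H.obj (X⟦i⟧))

variable (R) in
/-- The cohomology of `X` vanishes in degrees `< n`. -/
def HGE (n : ℤ) : ObjectProperty C := fun X => ∀ i : ℤ, i < n → IsZero (R.H.obj (X⟦i⟧))

instance (n : ℤ) : (HLE R n).IsClosedUnderIsomorphisms where
  of_iso e hX i hi := (hX i hi).of_iso (R.H.mapIso ((shiftFunctor C i).mapIso e.symm))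

instance (n : ℤ) : (HGE R n).IsClosedUnderIsomorphisms where
  of_iso e hX i hi := (hX i hi).of_iso (R.H.mapIso ((shiftFunctor C i).mapIso e.symm))

variable (hcons : ∀ X : C, (∀ i : ℤ, IsZero (R.H.obj (X⟦i⟧))) → IsZero X)
  (htr : ∀ X : C, ∃ (A : C) (f : A ⟶ X), (∀ i : ℤ, i ≤ 0 → IsIso (R.H.map (f⟦i⟧'))) ∧
    ∀ i : ℤ, 0 < i → IsZero (R.H.obj (A⟦i⟧)))

include hcons htr in
/-- Orthogonality. -/
lemma trunc_orth {X Y : C} (f : X ⟶ Y) (hX : HLE R 0 X) (hY : HGE R 1 Y) : f = 0 := by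
  obtain ⟨W, k, h, hT⟩ := distinguished_cocone_triangle₁ f
  obtain ⟨A, a, ha1, ha2⟩ := htr W
  have h1 : IsIso (a ≫ k) := by
    apply isIso_of_H_cons hcons
    intro i
    by_cases hi : i ≤ 0
    · have h2 := ha1 i hi
      have h3 := hmono1 R.H hT i (hY _ (by omega))
      have h4 := hepi1 R.H hT i (hY _ (by omega))
      have h5 : IsIso (R.H.map (k⟦i⟧')) := isIso_of_mono_of_epi _
      rw [Functor.map_comp, Functor.map_comp]
      infer_instance
    · exact ⟨0, (ha2 i (by omega)).eq_of_src _ _, (hX i (by omega)).eq_of_src _ _⟩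
  have h2 : (a ≫ k) ≫ f = 0 := by
    rw [Category.assoc, comp12 hT, comp_zero]
  rwa [← cancel_epi (a ≫ k), comp_zero]

/-- The t-structure defined by a conservative realisation with truncations. -/
noncomputable def truncT : TStructure C where
  le := HLE R
  ge := HGE R
  le_shift n a n' h X hX i hi := (hX (a + i) (by omega)).of_iso
    (R.H.mapIso ((shiftFunctorAdd C a i).app X).symm)
  ge_shift n a n' h X hX i hi := (hX (a + i) (by omega)).of_iso
    (R.H.mapIso ((shiftFunctorAdd C a i).app X).symm)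
  zero' X Y f hX hY := trunc_orth hcons htr f hX hY
  le_zero_le X hX i hi := hX i (by omega)
  ge_one_le X hX i hi := hX i (by omega)
  exists_triangle_zero_one X := by
    obtain ⟨A, f, h1, h2⟩ := htr X
    obtain ⟨B, g, h, hT⟩ := distinguished_cocone_triangle f
    refine ⟨A, B, h2, fun i hi => ?_, f, g, h, hT⟩
    have h3 := h1 i (by omega)
    refine isZero3_H hT i inferInstance ?_
    by_cases hi : i + 1 ≤ 0
    · have h4 := h1 (i + 1) hi
      infer_instance
    · constructor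
      intro V a b _
      exact (h2 (i + 1) (by omega)).eq_of_tgt _ _

theorem truncT_isMotivic : IsMotivic (truncT hcons htr) (fun _ : Unit => R) := by
  refine ⟨?_, ?_, ?_, ?_, ?_, ?_⟩
  · intro X hX
    exact hcons X fun i => hX (i - 1) i (by omega)
  · intro X hX
    exact hcons X fun i => hX (i + 1) i (by omega)
  · intro X Y hX hY n hn
    refine isZero_tensor fun i j hij => ?_
    by_cases hi : 0 < i
    · exact Or.inl (hX i hi)
    · exact Or.inr (hY j (by omega))
  · intro X Y hX hY n hn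
    refine isZero_tensor fun i j hij => ?_
    by_cases hi : i < 0
    · exact Or.inl (hX i hi)
    · exact Or.inr (hY j (by omega))
  · intro _ X hX i hi
    exact hX i hi
  · intro _ X hX i hi
    exact hX i hi

end

section

variable {C : Type u} [Category.{v} C] [Preadditive C] [HasZeroObject C] [HasShift C ℤ]
  [∀ n : ℤ, (shiftFunctor C n).Additive] [Pretriangulated C] [IsTriangulated C]
  [MonoidalCategory C] [SymmetricCategory C] [MonoidalPreadditive C] [TensorTriangulated C]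
  [RightRigidCategory C] [Linear ℚ C] {Λ : Type*} {E : Λ → Type w} [∀ l, Field (E l)]
  {R : ∀ l, Realisation C (E l)} {Chow : ObjectProperty C} {T : C}

/-- The motivic t-structure exists if and only if one realisation is conservative and has
truncations. -/
theorem trunc_criterion [IsIdempotentComplete C]
    (hEnd : ∀ e : 𝟙_ C ⟶ 𝟙_ C, ∃ q : ℚ, e = q • 𝟙 _)
    (hC : IsChow Chow) (hL : HardLefschetz Chow T R)
    (hK : ∀ (P : C) (i : ℤ) (l l' : Λ), Chow P → IsZero ((R l).H.obj (P⟦i⟧)) →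
      IsZero ((R l').H.obj (P⟦i⟧))) (l₀ : Λ) :
    (∃ t : TStructure C, IsMotivic t R) ↔
      ((∀ X : C, (∀ i : ℤ, IsZero ((R l₀).H.obj (X⟦i⟧))) → IsZero X) ∧
        ∀ X : C, ∃ (A : C) (f : A ⟶ X), (∀ i : ℤ, i ≤ 0 → IsIso ((R l₀).H.map (f⟦i⟧'))) ∧
          ∀ i : ℤ, 0 < i → IsZero ((R l₀).H.obj (A⟦i⟧))) := by
  constructor
  · rintro ⟨t, ht⟩
    refine ⟨fun X hX => conservative ht.compat (ht.exact l₀)
      (unit_hrt ht.compat ht.nondeg_le ht.nondeg_ge) (end_idem hEnd) ht.nondeg_le ht.nondeg_ge hX,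
      fun X => ?_⟩
    obtain ⟨A, B, hA, hB, f, g, h, hT⟩ := t.exists_triangle X 0 1 rfl
    have hA1 : t.IsLE A 0 := ⟨hA⟩
    have hB1 : t.IsGE B 1 := ⟨hB⟩
    refine ⟨A, f, fun i hi => ?_, fun i hi => (ht.exact l₀).isLE hA1 i hi⟩
    have h3 := hmono1 (R l₀).H hT i ((ht.exact l₀).isGE hB1 _ (by omega))
    have h4 := hepi1 (R l₀).H hT i ((ht.exact l₀).isGE hB1 _ (by omega))
    exact isIso_of_mono_of_epi _
  · rintro ⟨hcons, htr⟩
    exact ⟨_, indep hEnd hC hL hK l₀ (truncT_isMotivic hcons htr)⟩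

end

end Pool.Agent.Y116.MT
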