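import Pool.Agent.Y116.MT.Faith

/-!
# The degree zero part of the Künneth formula
-/

set_option autoImplicit false
set_option linter.unusedSectionVars false
set_option linter.unusedSimpArgs false
set_option backward.isDefEq.respectTransparency false
set_option backward.defeqAttrib.useBackward true

open CategoryTheory Limits MonoidalCategory Pretriangulated Triangulated

namespace Pool.Agent.Y116.MT

universe v u w

open Functor.LaxMonoidal

section

variable {C : Type u} [Category.{v} C] [Preadditive C] [HasZeroObject C] [HasShift C ℤ]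
  [∀ n : ℤ, (shiftFunctor C n).Additive] [Pretriangulated C] [MonoidalCategory C]
  [SymmetricCategory C] [TensorTriangulated C]

lemma rShift_zero' (X Y : C) (m : ℤ) (hm : m = 0) :
    (rShift X Y m).hom = X ◁ (shiftFunctorZero' C m hm).hom.app Y ≫
      (shiftFunctorZero' C m hm).inv.app (X ⊗ Y) := by
  have h := congrArg (fun (e : shiftFunctor C m ⋙ tensorLeft X ≅ tensorLeft X ⋙ shiftFunctor C m) =>
    e.hom.app Y) ((tensorLeft X).commShiftIso_zero' (A := ℤ) m hm)
  simpa [rShift, Functor.CommShift.isoZero'] using h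

lemma lShift_zero' (X Y : C) (m : ℤ) (hm : m = 0) :
    (lShift X Y m).hom = (shiftFunctorZero' C m hm).hom.app X ▷ Y ≫
      (shiftFunctorZero' C m hm).inv.app (X ⊗ Y) := by
  have h1 : (shiftFunctorZero' C m hm).inv.app (Y ⊗ X) ≫ (β_ Y X).hom⟦m⟧' =
      (β_ Y X).hom ≫ (shiftFunctorZero' C m hm).inv.app (X ⊗ Y) :=
    ((shiftFunctorZero' C m hm).inv.naturality (β_ Y X).hom).symm
  have h2 : Y ◁ (shiftFunctorZero' C m hm).hom.app X ≫ (β_ Y X).hom =
      (β_ Y (X⟦m⟧)).hom ≫ (shiftFunctorZero' C m hm).hom.app X ▷ Y :=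
    BraidedCategory.braiding_naturality_right Y ((shiftFunctorZero' C m hm).hom.app X)
  simp only [lShift, Iso.trans_hom, Functor.mapIso_hom, rShift_zero' Y X m hm, Category.assoc, h1]
  rw [← Category.assoc (Y ◁ _), h2, Category.assoc, SymmetricCategory.symmetry_assoc]

lemma compIsoId_zero (W : C) (m : ℤ) (hm : m = 0) (h : 0 + m = 0) :
    (shiftFunctorCompIsoId C 0 m h).hom.app W =
      (shiftFunctorZero' C m hm).hom.app (W⟦(0 : ℤ)⟧) ≫ (shiftFunctorZero C ℤ).hom.app W := by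
  subst hm
  have h1 : (shiftFunctorZero' C (0 : ℤ) rfl) = shiftFunctorZero C ℤ := by
    ext; simp [shiftFunctorZero']
  rw [h1, shiftFunctorCompIsoId_zero_zero_hom_app]
  exact ((shiftFunctorZero C ℤ).hom.naturality _)

lemma shiftTensorIso_zero (X Y : C) :
    (shiftTensorIso X Y 0).hom = (X⟦(0 : ℤ)⟧) ◁ (shiftFunctorZero' C (-0 : ℤ) (by simp)).hom.app Y ≫
      (shiftFunctorZero C ℤ).hom.app X ▷ Y := by
  have h1 : (shiftFunctorZero' C (-0 : ℤ) (by simp)).inv.app (X⟦(0 : ℤ)⟧ ⊗ Y) ≫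
      (lShift X Y 0).hom⟦(-0 : ℤ)⟧' =
      (lShift X Y 0).hom ≫ (shiftFunctorZero' C (-0 : ℤ) (by simp)).inv.app ((X ⊗ Y)⟦(0 : ℤ)⟧) :=
    ((shiftFunctorZero' C (-0 : ℤ) (by simp)).inv.naturality (lShift X Y 0).hom).symm
  have h2 : (shiftShiftNeg (X ⊗ Y) (0 : ℤ)).hom =
      (shiftFunctorZero' C (-0 : ℤ) (by simp)).hom.app ((X ⊗ Y)⟦(0 : ℤ)⟧) ≫
        (shiftFunctorZero C ℤ).hom.app (X ⊗ Y) := compIsoId_zero (X ⊗ Y) (-0) (by simp) (by simp)
  have h3 : (shiftFunctorZero' C (0 : ℤ) rfl) = shiftFunctorZero C ℤ := by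
    ext; simp [shiftFunctorZero']
  simp only [shiftTensorIso, Iso.trans_hom, Functor.mapIso_hom,
    rShift_zero' (X⟦(0 : ℤ)⟧) Y (-0) (by simp), Category.assoc]
  rw [← Category.assoc _ ((lShift X Y 0).hom⟦(-0 : ℤ)⟧'), h1, h2, Category.assoc,
    Iso.inv_hom_id_app_assoc, lShift_zero' X Y 0 rfl, h3, Category.assoc]
  simp

end

end Pool.Agent.Y116.MT
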